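import Pool.Agent.Lib.MP_c8757e_mp.Cont

/-! FLAT, module Abs: the abstract line law. -/

open Filter Topology Set
open scoped ComplexInnerProductSpace

noncomputable section

namespace Pool.Agent.Lib.MP_c8757e_mp

variable {H : Type*} [NormedAddCommGroup H] [InnerProductSpace ℂ H] [CompleteSpace H]
  {N : H →L[ℂ] H}

private theorem Abs_analytic (A B : H →L[ℂ] H) (z₀ : ℂ) :
    AnalyticAt ℂ (fun z : ℂ => A + z • B) z₀ :=
  analyticAt_const.add (analyticAt_id.smul analyticAt_const)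

private theorem Abs_dich (hN : Weight N) (A B C D : H →L[ℂ] H) (J : Set ℝ) (hJo : IsOpen J)
    (hP : ∀ t ∈ J, Elliptic N (A + (t : ℂ) • B))
    (hQ : ∀ t ∈ J, Elliptic N (C + (t : ℂ) • D)) :
    ∀ t₀ ∈ J, ∀ lam : ℝ,
      Pers N (fun t => A + (t : ℂ) • B) (fun t => C + (t : ℂ) • D) t₀ lam ∨
      (∃ ε > 0, ∀ᶠ t : ℝ in 𝓝[≠] t₀, ∀ μ : ℝ, |μ - lam| < ε →
        ¬ (IsEig N (A + (t : ℂ) • B) μ ∧ IsEig N (C + (t : ℂ) • D) μ)) := by
  intro t₀ ht₀ lam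
  have hJ : ∀ᶠ t : ℝ in 𝓝 t₀, t ∈ J := hJo.mem_nhds ht₀
  exact pencil_dichotomy hN (fun z : ℂ => A + z • B) (fun z : ℂ => C + z • D) t₀
    (Abs_analytic A B _) (Abs_analytic C D _) (hJ.mono fun t ht => hP t ht)
    (hJ.mono fun t ht => hQ t ht) lam

private theorem Abs_right (hN : Weight N) (A B C D : H →L[ℂ] H) (J : Set ℝ) (hJo : IsOpen J)
    (hJc : J.OrdConnected) (hP : ∀ t ∈ J, Elliptic N (A + (t : ℂ) • B))
    (hQ : ∀ t ∈ J, Elliptic N (C + (t : ℂ) • D)) {a b : ℝ} (ha : a ∈ J) (hb : b ∈ J)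
    (hab : a ≤ b) (lam : ℝ)
    (h0 : Pers N (fun t => A + (t : ℂ) • B) (fun t => C + (t : ℂ) • D) a lam) :
    ∃ μ : ℝ, IsEig N (A + (b : ℂ) • B) μ ∧ IsEig N (C + (b : ℂ) • D) μ := by
  have hsub : Icc a b ⊆ J := hJc.out ha hb
  obtain ⟨μ, hμ⟩ := pers_right hN A B C D hab (fun t ht => hP t (hsub ht))
    (fun t ht => hQ t (hsub ht))
    (fun t ht => Abs_dich hN A B C D J hJo hP hQ t (hsub ht)) lam h0
  exact ⟨μ, Pers.isEig hN (hP b hb) (hQ b hb) hμ⟩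

/-- `exists_pers`, then `pers_right` to the right and (after `t ↦ -t`, `B ↦ -B`, `D ↦ -D`) to the
left; the dichotomy is `pencil_dichotomy` (`J` is open). -/
theorem abs_line (hN : Weight N) (A B C D : H →L[ℂ] H) (J : Set ℝ) (hJo : IsOpen J)
    (hJc : J.OrdConnected) (hP : ∀ t ∈ J, Elliptic N (A + (t : ℂ) • B))
    (hQ : ∀ t ∈ J, Elliptic N (C + (t : ℂ) • D)) :
    {t ∈ J | ∃ μ : ℝ, IsEig N (A + (t : ℂ) • B) μ ∧ IsEig N (C + (t : ℂ) • D) μ}.Countable ∨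
    ∀ t ∈ J, ∃ μ : ℝ, IsEig N (A + (t : ℂ) • B) μ ∧ IsEig N (C + (t : ℂ) • D) μ := by
  refine or_iff_not_imp_left.mpr fun hunc => ?_
  obtain ⟨t₀, ht₀, lam, hlam⟩ := exists_pers (fun t : ℝ => A + (t : ℂ) • B)
    (fun t : ℝ => C + (t : ℂ) • D) J hJo (Abs_dich hN A B C D J hJo hP hQ) hunc
  intro t ht
  rcases le_total t₀ t with h | h
  · exact Abs_right hN A B C D J hJo hJc hP hQ ht₀ ht h lam hlam
  · -- reflect
    have hneg : ∀ (X Y : H →L[ℂ] H) (s : ℝ), X + (s : ℂ) • (-Y) = X + ((-s : ℝ) : ℂ) • Y := by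
      intro X Y s
      rw [smul_neg, Complex.ofReal_neg, neg_smul]
    have hJo' : IsOpen (Neg.neg ⁻¹' J : Set ℝ) := hJo.preimage continuous_neg
    have hJc' : (Neg.neg ⁻¹' J : Set ℝ).OrdConnected := by
      refine ⟨fun x hx y hy z hz => ?_⟩
      exact hJc.out hy hx ⟨neg_le_neg hz.2, neg_le_neg hz.1⟩
    have hP' : ∀ s ∈ (Neg.neg ⁻¹' J : Set ℝ), Elliptic N (A + (s : ℂ) • (-B)) := by
      intro s hs
      rw [hneg]
      exact hP (-s) hs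
    have hQ' : ∀ s ∈ (Neg.neg ⁻¹' J : Set ℝ), Elliptic N (C + (s : ℂ) • (-D)) := by
      intro s hs
      rw [hneg]
      exact hQ (-s) hs
    have h0 : Pers N (fun s => A + (s : ℂ) • (-B)) (fun s => C + (s : ℂ) • (-D)) (-t₀) lam := by
      intro ε hε
      have h1 := hlam ε hε
      have h2 : Tendsto (fun s : ℝ => -s) (𝓝 (-t₀)) (𝓝 t₀) := by
        have h3 := (continuous_neg (G := ℝ)).tendsto (-t₀)
        rwa [neg_neg] at h3
      refine (h2.eventually h1).mono fun s hs => ?_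
      obtain ⟨μ, hμ1, hμ2, hμ3⟩ := hs
      refine ⟨μ, hμ1, ?_, ?_⟩
      · show IsEig N (A + (s : ℂ) • (-B)) μ
        rw [hneg]
        exact hμ2
      · show IsEig N (C + (s : ℂ) • (-D)) μ
        rw [hneg]
        exact hμ3
    have ha : -t₀ ∈ (Neg.neg ⁻¹' J : Set ℝ) := by
      show - -t₀ ∈ J
      rwa [neg_neg]
    have hb : -t ∈ (Neg.neg ⁻¹' J : Set ℝ) := by
      show - -t ∈ J
      rwa [neg_neg]
    obtain ⟨μ, h1, h2⟩ := Abs_right hN A (-B) C (-D) _ hJo' hJc' hP' hQ' ha hb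
      (neg_le_neg h) lam h0
    rw [hneg, neg_neg] at h1 h2
    exact ⟨μ, h1, h2⟩

end Pool.Agent.Lib.MP_c8757e_mp
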