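import Mathlib

/-!
# Eigenvalues of periodic elliptic operators on `ℝ^d`

Definitions used in the statements: eigenvalues of `L = div (A grad) + V` on `L²(ℝ^d)`, in weak form.
-/

open MeasureTheory

noncomputable section

namespace Pool.Agent.Lib.MP_c8757e_mp

/-- The space `ℝ^d`. -/
abbrev E (d : ℕ) := EuclideanSpace ℝ (Fin d)

/-- A lattice point `n ∈ ℤ^d` as a vector of `ℝ^d`. -/
def latE {d : ℕ} (n : Fin d → ℤ) : E d := WithLp.toLp 2 (fun i => (n i : ℝ))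

/-- Test functions: smooth, complex valued, with compact support. -/
def IsTest {d : ℕ} (φ : E d → ℂ) : Prop := ContDiff ℝ (⊤ : ℕ∞) φ ∧ HasCompactSupport φ

/-- The `j`-th partial derivative. -/
def pd {d : ℕ} (j : Fin d) (φ : E d → ℂ) (x : E d) : ℂ :=
  fderiv ℝ φ x (EuclideanSpace.single j 1)

/-- `μ` is an eigenvalue of `L = div (A grad) + V` on `L²(ℝ^d)`: there is `u ≠ 0` in `L²(ℝ^d)` with
weak gradient `g` in `L²` (that is, `u ∈ H¹`) such that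
`∫ A ∇u · ∇φ = ∫ (V - μ) u φ` for all test functions `φ`. -/
def IsEigenvalue {d : ℕ} (A : E d → Matrix (Fin d) (Fin d) ℝ) (V : E d → ℝ) (μ : ℝ) : Prop :=
  ∃ (u : E d → ℂ) (g : Fin d → E d → ℂ), MemLp u 2 volume ∧ (∀ j, MemLp (g j) 2 volume) ∧
    ¬ (u =ᵐ[volume] 0) ∧
    (∀ j φ, IsTest φ → ∫ x, u x * pd j φ x = - ∫ x, g j x * φ x) ∧
    (∀ φ, IsTest φ → ∑ j, ∑ l, ∫ x, (A x j l : ℂ) * g l x * pd j φ x =
      ∫ x, ((V x : ℂ) - (μ : ℂ)) * u x * φ x)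

/-- Invariance under translation by `ℤ^d`. -/
def Periodic {d : ℕ} {Y : Type*} (f : E d → Y) : Prop :=
  ∀ (x : E d) (n : Fin d → ℤ), f (x + latE n) = f x

/-- The ellipticity condition with constant `c`. -/
def EllipticWith {d : ℕ} (A : E d → Matrix (Fin d) (Fin d) ℝ) (c : ℝ) : Prop :=
  0 < c ∧ ∀ (x : E d) (ξ : Fin d → ℝ), c * ∑ j, ξ j ^ 2 ≤ ∑ j, ∑ l, A x j l * ξ j * ξ l

end Pool.Agent.Lib.MP_c8757e_mp
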