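import Pool.Agent.Lib.MP_c8757e_mp.Mul

/-! FLAT, module MulPos: ellipticity of the matrix of multiplication operators. -/

open MeasureTheory Filter Topology Set UnitAddTorus
open scoped ENNReal ComplexInnerProductSpace

noncomputable section

namespace Pool.Agent.Lib.MP_c8757e_mp

variable {d : ℕ}

/-- The pointwise inequality: the real part of the Hermitian form of a real elliptic matrix. -/
private theorem MulPos_point (a : Fin d → Fin d → ℝ) {c : ℝ}
    (h : ∀ ξ : Fin d → ℝ, c * ∑ j, ξ j ^ 2 ≤ ∑ j, ∑ l, a j l * ξ j * ξ l) (z : Fin d → ℂ) :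
    c * ∑ j, ‖z j‖ ^ 2 ≤ (∑ j, ∑ l, (inner ℂ ((a j l : ℂ) * z l) (z j) : ℂ)).re := by
  have h1 := h (fun j => (z j).re)
  have h2 := h (fun j => (z j).im)
  have hz : ∀ j, ‖z j‖ ^ 2 = (z j).re ^ 2 + (z j).im ^ 2 := by
    intro j
    rw [← Complex.normSq_eq_norm_sq, Complex.normSq_apply]
    ring
  have hL : c * ∑ j, ‖z j‖ ^ 2 = c * ∑ j, (z j).re ^ 2 + c * ∑ j, (z j).im ^ 2 := by
    rw [← mul_add, ← Finset.sum_add_distrib]
    simp_rw [hz]
  have hR : (∑ j, ∑ l, (inner ℂ ((a j l : ℂ) * z l) (z j) : ℂ)).re =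
      ∑ j, ∑ l, a j l * (z j).re * (z l).re + ∑ j, ∑ l, a j l * (z j).im * (z l).im := by
    rw [← Finset.sum_add_distrib, Complex.re_sum]
    refine Finset.sum_congr rfl fun j _ => ?_
    rw [← Finset.sum_add_distrib, Complex.re_sum]
    refine Finset.sum_congr rfl fun l _ => ?_
    simp only [RCLike.inner_apply, map_mul, Complex.conj_ofReal]
    simp only [Complex.mul_re, Complex.mul_im, Complex.conj_re, Complex.conj_im,
      Complex.ofReal_re, Complex.ofReal_im]
    ring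
  rw [hL, hR]
  exact add_le_add h1 h2

private theorem MulPos_cplx (a : LI d) : cplx a =ᵐ[torM d] fun x => ((a x : ℝ) : ℂ) :=
  ContinuousLinearMap.coeFn_compLp Complex.ofRealCLM a

private theorem MulPos_norm_sq (G : LC d) : ‖G‖ ^ 2 = ∫ x, ‖G x‖ ^ 2 ∂(torM d) := by
  have h1 : (inner ℂ G G : ℂ).re = ‖G‖ ^ 2 := inner_self_eq_norm_sq (𝕜 := ℂ) G
  rw [← h1, MeasureTheory.L2.inner_def]
  have h2 := integral_re (𝕜 := ℂ) (L2.integrable_inner (𝕜 := ℂ) G G)
  have h3 : (∫ x, (inner ℂ (G x) (G x) : ℂ) ∂(torM d)).re =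
      ∫ x, (inner ℂ (G x) (G x) : ℂ).re ∂(torM d) := h2.symm
  rw [h3]
  refine integral_congr_ae (Eventually.of_forall fun x => ?_)
  exact inner_self_eq_norm_sq (𝕜 := ℂ) (G x)

/-- Transport to `L²` of the torus by the unitary `mFourierBasis.repr`: with `F_j` the function with
Fourier coefficients `v_j`, the right side is `∫ ∑ A_jl Re (F_l conj F_j)`, and for each `x` this is
the quadratic form at `Re F(x)` plus the one at `Im F(x)`. -/
theorem Mhat_elliptic {A : Fin d → Fin d → LI d} {c : ℝ} (hA : Coef A c)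
    (v : Fin d → ell d) :
    c * ∑ j, ‖v j‖ ^ 2 ≤
      (∑ j, ∑ l, (inner ℂ (Mhat (cplx (A j l)) (v l)) (v j) : ℂ)).re := by
  set F : Fin d → LC d := fun j => (fb d).symm (v j) with hF
  have hv : ∀ j, fb d (F j) = v j := fun j => (fb d).apply_symm_apply (v j)
  have hnorm : ∀ j, ‖v j‖ = ‖F j‖ := fun j => by rw [← hv j, LinearIsometryEquiv.norm_map]
  have hin : ∀ j l, (inner ℂ (Mhat (cplx (A j l)) (v l)) (v j) : ℂ) =
      inner ℂ (mulL (cplx (A j l)) (F l)) (F j) := by
    intro j l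
    change inner ℂ (fb d (mulL (cplx (A j l)) ((fb d).symm (v l)))) (v j) = _
    conv_lhs => rw [← hv j]
    rw [LinearIsometryEquiv.inner_map_map]
  simp_rw [hin, hnorm, MulPos_norm_sq, MeasureTheory.L2.inner_def]
  have hint : ∀ j l, Integrable
      (fun x => (inner ℂ (mulL (cplx (A j l)) (F l) x) (F j x) : ℂ)) (torM d) :=
    fun j l => L2.integrable_inner (𝕜 := ℂ) _ _
  have hFi : ∀ j, Integrable (fun x => ‖F j x‖ ^ 2) (torM d) := by
    intro j
    have := (Lp.memLp (F j)).integrable_norm_pow (p := 2) (by norm_num)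
    simpa using this
  have hsum : ∑ j, ∑ l, ∫ x, (inner ℂ (mulL (cplx (A j l)) (F l) x) (F j x) : ℂ) ∂(torM d) =
      ∫ x, ∑ j, ∑ l, (inner ℂ (mulL (cplx (A j l)) (F l) x) (F j x) : ℂ) ∂(torM d) := by
    rw [integral_finsetSum _ fun j _ => integrable_finsetSum _ fun l _ => hint j l]
    refine Finset.sum_congr rfl fun j _ => ?_
    rw [integral_finsetSum _ fun l _ => hint j l]
  have hI : Integrable
      (fun x => ∑ j, ∑ l, (inner ℂ (mulL (cplx (A j l)) (F l) x) (F j x) : ℂ)) (torM d) :=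
    integrable_finsetSum _ fun j _ => integrable_finsetSum _ fun l _ => hint j l
  have hre := integral_re (𝕜 := ℂ) hI
  have hre' : (∫ x, ∑ j, ∑ l, (inner ℂ (mulL (cplx (A j l)) (F l) x) (F j x) : ℂ) ∂(torM d)).re =
      ∫ x, (∑ j, ∑ l, (inner ℂ (mulL (cplx (A j l)) (F l) x) (F j x) : ℂ)).re ∂(torM d) :=
    hre.symm
  rw [hsum, hre', ← integral_finsetSum _ fun j _ => hFi j, ← integral_const_mul]
  refine integral_mono_ae ((integrable_finsetSum _ fun j _ => hFi j).const_mul c) hI.re ?_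
  have hm : ∀ᵐ x ∂(torM d), ∀ j l, mulL (cplx (A j l)) (F l) x = ((A j l x : ℝ) : ℂ) * F l x := by
    refine ae_all_iff.2 fun j => ae_all_iff.2 fun l => ?_
    filter_upwards [coeFn_mulL (cplx (A j l)) (F l), MulPos_cplx (A j l)] with x h1 h2
    rw [h1, h2]
  filter_upwards [hA.ell, hm] with x hx hmx
  have hp := MulPos_point (fun j l => A j l x) hx (fun j => F j x)
  simp only [hmx]
  exact hp

end Pool.Agent.Lib.MP_c8757e_mp
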