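import Pool.Agent.Lib.MP_c8757e_mp.Diag
import Pool.Agent.Lib.MP_c8757e_mp.MulPos

/-! FLAT, module BopL: the fibre operators `B(k)`. -/

open MeasureTheory Filter Topology Set
open scoped ENNReal ComplexInnerProductSpace

noncomputable section

namespace Pool.Agent.Lib.MP_c8757e_mp

variable {d : ℕ}

/-- The coefficients `A0 + t A1`. -/
def addA (A0 A1 : Fin d → Fin d → LI d) (t : ℝ) : Fin d → Fin d → LI d :=
  fun j l => A0 j l + t • A1 j l

private theorem BopL_sym {S : ell d →L[ℂ] ell d} (h : IsSelfAdjoint S) (v w : ell d) :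
    inner ℂ (S v) w = inner ℂ v (S w) :=
  (ContinuousLinearMap.isSelfAdjoint_iff_isSymmetric.1 h) v w

private theorem BopL_apply (A : Fin d → Fin d → LI d) (V : LI d) (k : Fin d → ℂ) (v : ell d) :
    Bop A V k v = (∑ j, ∑ l, Xop k j (Mhat (cplx (A j l)) (Xop k l v))) -
      Wop d (Mhat (cplx V) (Wop d v)) := by
  unfold Bop
  rw [ContinuousLinearMap.sub_apply, ContinuousLinearMap.sum_apply]
  congr 1
  refine Finset.sum_congr rfl fun j _ => ?_
  rw [ContinuousLinearMap.sum_apply]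
  rfl

private theorem BopL_inner_left (A : Fin d → Fin d → LI d) (V : LI d) (k : E d) (v w : ell d) :
    (inner ℂ (Bop A V (toC k) v) w : ℂ) =
      (∑ j, ∑ l, inner ℂ (Mhat (cplx (A j l)) (Xop (toC k) l v)) (Xop (toC k) j w)) -
        inner ℂ (Mhat (cplx V) (Wop d v)) (Wop d w) := by
  rw [BopL_apply, inner_sub_left, sum_inner]
  congr 1
  · refine Finset.sum_congr rfl fun j _ => ?_
    rw [sum_inner]
    refine Finset.sum_congr rfl fun l _ => ?_
    exact BopL_sym (Xop_isSelfAdjoint k j) _ _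
  · exact BopL_sym Wop_isSelfAdjoint _ _

private theorem BopL_inner_right (A : Fin d → Fin d → LI d) (V : LI d) (k : E d) (v w : ell d) :
    (inner ℂ v (Bop A V (toC k) w) : ℂ) =
      (∑ j, ∑ l, inner ℂ (Xop (toC k) j v) (Mhat (cplx (A j l)) (Xop (toC k) l w))) -
        inner ℂ (Wop d v) (Mhat (cplx V) (Wop d w)) := by
  rw [BopL_apply, inner_sub_right, inner_sum]
  congr 1
  · refine Finset.sum_congr rfl fun j _ => ?_
    rw [inner_sum]
    refine Finset.sum_congr rfl fun l _ => ?_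
    exact (BopL_sym (Xop_isSelfAdjoint k j) _ _).symm
  · exact (BopL_sym Wop_isSelfAdjoint _ _).symm

theorem Bop_isSelfAdjoint {A : Fin d → Fin d → LI d} (hA : ∀ j l, A j l = A l j)
    (V : LI d) (k : E d) : IsSelfAdjoint (Bop A V (toC k)) := by
  rw [ContinuousLinearMap.isSelfAdjoint_iff_isSymmetric]
  intro v w
  change inner ℂ (Bop A V (toC k) v) w = inner ℂ v (Bop A V (toC k) w)
  rw [BopL_inner_left, BopL_inner_right]
  congr 1
  · rw [Finset.sum_comm]
    refine Finset.sum_congr rfl fun j _ => Finset.sum_congr rfl fun l _ => ?_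
    rw [hA l j]
    exact BopL_sym (Mhat_cplx_isSelfAdjoint (A j l)) _ _
  · exact BopL_sym (Mhat_cplx_isSelfAdjoint V) _ _

/-- From `Mhat_elliptic` (with `v_j = X_j v`), `Mhat_norm_le` and `Xop_coercive`. -/
theorem Bop_coercive {A : Fin d → Fin d → LI d} {c : ℝ} (hA : Coef A c)
    (V : LI d) (k : E d) (v : ell d) :
    c * (2 * Real.pi ^ 2) * ‖v‖ ^ 2 ≤ (inner ℂ (Bop A V (toC k) v) v).re +
      (c * (4 * Real.pi ^ 2 * ‖k‖ ^ 2 + 2 * Real.pi ^ 2) + ‖V‖) *
        (inner ℂ (Nop d v) v).re := by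
  have hN : (inner ℂ (Nop d v) v : ℂ).re = ‖Wop d v‖ ^ 2 := by
    rw [Nop_eq, ContinuousLinearMap.comp_apply, BopL_sym Wop_isSelfAdjoint]
    exact inner_self_eq_norm_sq (𝕜 := ℂ) (Wop d v)
  have h1 := Mhat_elliptic hA (fun j => Xop (toC k) j v)
  have h2 := Xop_coercive k v
  have h3 : (inner ℂ (Mhat (cplx V) (Wop d v)) (Wop d v) : ℂ).re ≤ ‖V‖ * ‖Wop d v‖ ^ 2 := by
    have h4 : (inner ℂ (Mhat (cplx V) (Wop d v)) (Wop d v) : ℂ).re ≤
        ‖(inner ℂ (Mhat (cplx V) (Wop d v)) (Wop d v) : ℂ)‖ := Complex.re_le_norm _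
    have h5 := norm_inner_le_norm (𝕜 := ℂ) (Mhat (cplx V) (Wop d v)) (Wop d v)
    have h6 := (Mhat (cplx V)).le_opNorm (Wop d v)
    have h7 := Mhat_norm_le (cplx V)
    rw [cplx_norm] at h7
    have h8 := norm_nonneg (Wop d v)
    have h9 : ‖Mhat (cplx V)‖ * ‖Wop d v‖ ≤ ‖V‖ * ‖Wop d v‖ :=
      mul_le_mul_of_nonneg_right h7 h8
    have h10 : ‖Mhat (cplx V) (Wop d v)‖ * ‖Wop d v‖ ≤ ‖V‖ * ‖Wop d v‖ * ‖Wop d v‖ :=
      mul_le_mul_of_nonneg_right (h6.trans h9) h8
    calc _ ≤ _ := h4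
      _ ≤ _ := h5
      _ ≤ _ := h10
      _ = ‖V‖ * ‖Wop d v‖ ^ 2 := by ring
  rw [hN, BopL_inner_left, Complex.sub_re]
  have h11 := mul_le_mul_of_nonneg_left h2 hA.pos.le
  have h12 : c * (2 * Real.pi ^ 2) * ‖v‖ ^ 2 = c * (2 * Real.pi ^ 2 * ‖v‖ ^ 2) := by ring
  rw [h12]
  refine h11.trans ?_
  rw [mul_add]
  have h13 : (c * (4 * Real.pi ^ 2 * ‖k‖ ^ 2 + 2 * Real.pi ^ 2) + ‖V‖) * ‖Wop d v‖ ^ 2 =
      c * ((4 * Real.pi ^ 2 * ‖k‖ ^ 2 + 2 * Real.pi ^ 2) * ‖Wop d v‖ ^ 2) +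
        ‖V‖ * ‖Wop d v‖ ^ 2 := by ring
  rw [h13]
  linarith

theorem Bop_elliptic {A : Fin d → Fin d → LI d} {c : ℝ} (hA : Coef A c)
    (V : LI d) (k : E d) : Elliptic (Nop d) (Bop A V (toC k)) := by
  refine ⟨Bop_isSelfAdjoint hA.symm V k,
    c * (4 * Real.pi ^ 2 * ‖k‖ ^ 2 + 2 * Real.pi ^ 2) + ‖V‖, c * (2 * Real.pi ^ 2), ?_,
    Bop_coercive hA V k⟩
  have h1 := hA.pos
  have h2 := Real.pi_pos
  positivity

/-- `B(k + z ω)` is a polynomial of degree 2 in `z` (`Xop_add_smul`). -/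
theorem Bop_differentiable (A : Fin d → Fin d → LI d) (V : LI d) (k ω : Fin d → ℂ) :
    Differentiable ℂ (fun z : ℂ => Bop A V (k + z • ω)) := by
  have hX : ∀ j, Differentiable ℂ (fun z : ℂ => Xop (k + z • ω) j) := by
    intro j
    simp only [Xop_add_smul]
    fun_prop
  unfold Bop
  refine Differentiable.sub_const ?_ _
  refine Differentiable.fun_sum fun j _ => Differentiable.fun_sum fun l _ => ?_
  exact (hX j).clm_comp ((differentiable_const (Mhat (cplx (A j l)))).clm_comp (hX l))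

theorem Bop_continuous (A : Fin d → Fin d → LI d) (V : LI d) :
    Continuous (fun k : E d => Bop A V (toC k)) := by
  have hX : ∀ j, Continuous (fun k : E d => Xop (toC k) j) := by
    intro j
    have h1 : (fun k : E d => Xop (toC k) j) =
        fun k : E d => Xop 0 j + (2 * (Real.pi : ℂ) * 1 * toC k j) • Wop d := by
      funext k
      rw [← Xop_add_smul, one_smul, zero_add]
    rw [h1]
    unfold toC
    fun_prop
  unfold Bop
  refine Continuous.sub ?_ continuous_const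
  refine continuous_finset_sum _ fun j _ => continuous_finset_sum _ fun l _ => ?_
  exact (hX j).clm_comp (continuous_const.clm_comp (hX l))

private theorem BopL_Mhat (a b : LI d) (t : ℝ) :
    Mhat (cplx (a + t • b)) = Mhat (cplx a) + (t : ℂ) • Mhat (cplx b) := by
  rw [cplx_add, cplx_smul, Mhat_add, Mhat_smul]

theorem Bop_addA (A0 A1 : Fin d → Fin d → LI d) (V0 V1 : LI d) (k : Fin d → ℂ)
    (t : ℝ) : Bop (addA A0 A1 t) (V0 + t • V1) k = Bop A0 V0 k + (t : ℂ) • Bop A1 V1 k := by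
  unfold Bop addA
  rw [BopL_Mhat]
  simp only [BopL_Mhat, ContinuousLinearMap.add_comp, ContinuousLinearMap.comp_add,
    ContinuousLinearMap.smul_comp, ContinuousLinearMap.comp_smul, Finset.sum_add_distrib,
    smul_sub, Finset.smul_sum]
  abel

end Pool.Agent.Lib.MP_c8757e_mp
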