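import Pool.Agent.Lib.MP_c8757e_mp.Fred

/-! FLAT, module Grow: eigenvalues of an analytic pencil move at most at a controlled speed. -/

open Filter Topology Set
open scoped ComplexInnerProductSpace

noncomputable section

namespace Pool.Agent.Lib.MP_c8757e_mp

variable {H : Type*} [NormedAddCommGroup H] [InnerProductSpace ℂ H] [CompleteSpace H]
  {N : H →L[ℂ] H}

private theorem grow_tendsto (x : ℕ → ℝ) (a : ℝ) (h : ∀ m : ℕ, |x m - a| < 1 / ((m : ℝ) + 1)) :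
    Tendsto x atTop (𝓝 a) := by
  rw [tendsto_iff_norm_sub_tendsto_zero]
  refine squeeze_zero (fun m => norm_nonneg _) (fun m => ?_) tendsto_one_div_add_atTop_nhds_zero_nat
  rw [Real.norm_eq_abs]
  exact (h m).le

/-- By contradiction: `t_m → t₀`, `μ_m → lam`, `P(t_m) u_m = μ_m N u_m`, `‖u_m‖ = 1`, and
`|μ_m - lam| > K' (lam + c) |t_m - t₀|`. By `exists_subseq_tendsto` (for `P t₀`, since
`(P t_m - P t₀) u_m → 0`) a subsequence of `u_m` converges to `u₀`, `‖u₀‖ = 1`,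
`P(t₀) u₀ = lam N u₀`. Pairing with `u₀` and using self-adjointness of `P t₀` and `N`:
`(μ_m - lam) ⟪N u_m, u₀⟫ = ⟪(P(t_m) - P(t₀)) u_m, u₀⟫` (`μ_m`, `lam` real). Divide by `t_m - t₀`
(if `t_m = t₀` infinitely often then `μ_m = lam` there, contradiction); in the limit
`|μ_m - lam| / |t_m - t₀| → |⟪P' u₀, u₀⟫| / ⟪N u₀, u₀⟫ ≤ K (lam + c)` because
`⟪(P t₀ + c N) u₀, u₀⟫ = (lam + c) ⟪N u₀, u₀⟫ > 0`. -/
theorem growth (hN : Weight N) (P : ℝ → H →L[ℂ] H) (P' : H →L[ℂ] H) (t₀ : ℝ)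
    (hP : HasDerivAt P P' t₀) (hs : IsSelfAdjoint (P t₀)) (c δ K : ℝ) (hδ : 0 < δ)
    (hco : ∀ u : H, δ * ‖u‖ ^ 2 ≤ (inner ℂ (P t₀ u) u).re + c * (inner ℂ (N u) u).re)
    (hK : ∀ u : H, ‖(inner ℂ (P' u) u : ℂ)‖ ≤
      K * ((inner ℂ (P t₀ u) u).re + c * (inner ℂ (N u) u).re))
    (lam K' : ℝ) (hK' : K < K') :
    ∃ ε > 0, ∀ᶠ t : ℝ in 𝓝 t₀, ∀ μ : ℝ, |μ - lam| < ε → IsEig N (P t) μ →
      |μ - lam| ≤ K' * (lam + c) * |t - t₀| := by
  by_contra hcon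
  push Not at hcon
  have h1 : ∀ m : ℕ, ∃ t μ : ℝ, ∃ u : H, |t - t₀| < 1 / ((m : ℝ) + 1) ∧
      |μ - lam| < 1 / ((m : ℝ) + 1) ∧ ‖u‖ = 1 ∧ P t u = (μ : ℂ) • N u ∧
      K' * (lam + c) * |t - t₀| < |μ - lam| := by
    intro m
    have hm : (0 : ℝ) < 1 / ((m : ℝ) + 1) := by positivity
    have h2 := hcon _ hm
    obtain ⟨t, ⟨μ, hμ, ⟨u, hu0, hu⟩, hlt⟩, ht⟩ :=
      (h2.and_eventually (Metric.ball_mem_nhds t₀ hm)).exists
    have hn : (‖u‖ : ℂ) ≠ 0 := by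
      exact_mod_cast norm_ne_zero_iff.mpr hu0
    refine ⟨t, μ, (‖u‖ : ℂ)⁻¹ • u, ?_, hμ, ?_, ?_, hlt⟩
    · have h3 : t ∈ Metric.ball t₀ (1 / ((m : ℝ) + 1)) := ht
      rwa [Metric.mem_ball, Real.dist_eq] at h3
    · rw [norm_smul, norm_inv, Complex.norm_real, norm_norm]
      exact inv_mul_cancel₀ (norm_ne_zero_iff.mpr hu0)
    · rw [map_smul, map_smul, hu, smul_comm]
  choose t μ u ht hμ hu hPu hlt using h1
  have htt := grow_tendsto t t₀ ht
  have hμt := grow_tendsto μ lam hμ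
  have hS : Elliptic N (P t₀) := ⟨hs, c, δ, hδ, hco⟩
  have hzero : Tendsto (fun m => P t₀ (u m) - (μ m : ℂ) • N (u m)) atTop (𝓝 0) := by
    rw [tendsto_zero_iff_norm_tendsto_zero]
    have h3 : Tendsto (fun m => ‖P t₀ - P (t m)‖) atTop (𝓝 0) := by
      have h4 : Tendsto (fun m => P (t m)) atTop (𝓝 (P t₀)) :=
        (hP.continuousAt.tendsto).comp htt
      have h5 := (tendsto_const_nhds (x := P t₀) (f := (atTop : Filter ℕ))).sub h4
      rw [sub_self] at h5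
      simpa using h5.norm
    refine squeeze_zero (fun m => norm_nonneg _) (fun m => ?_) h3
    rw [← hPu m, ← ContinuousLinearMap.sub_apply]
    have h6 := (P t₀ - P (t m)).le_opNorm (u m)
    rwa [hu m, mul_one] at h6
  have hzt : Tendsto (fun m => (μ m : ℂ)) atTop (𝓝 (lam : ℂ)) :=
    (Complex.continuous_ofReal.tendsto lam).comp hμt
  obtain ⟨φ, u₀, hφ, hlim, hu0, heig⟩ := exists_subseq_tendsto hN hS u hu _ _ hzt hzero
  have hu0ne : u₀ ≠ 0 := by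
    rintro rfl
    rw [norm_zero] at hu0
    exact zero_ne_one hu0
  set ν : ℝ := (inner ℂ (N u₀) u₀).re with hν
  have hνpos : 0 < ν := hN.pos u₀ hu0ne
  have hNsym : ∀ x y : H, (inner ℂ (N x) y : ℂ) = inner ℂ x (N y) := fun x y =>
    (ContinuousLinearMap.isSelfAdjoint_iff_isSymmetric.mp hN.sa) x y
  have hPsym : ∀ x y : H, (inner ℂ (P t₀ x) y : ℂ) = inner ℂ x (P t₀ y) := fun x y =>
    (ContinuousLinearMap.isSelfAdjoint_iff_isSymmetric.mp hs) x y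
  have hquad : (inner ℂ (P t₀ u₀) u₀).re + c * (inner ℂ (N u₀) u₀).re = (lam + c) * ν := by
    rw [heig, inner_smul_left, Complex.conj_ofReal, Complex.re_ofReal_mul, ← hν]
    ring
  have hpos : 0 < (lam + c) * ν := by
    have h7 := hco u₀
    rw [hquad, hu0] at h7
    nlinarith
  have hlc : 0 < lam + c := by
    by_contra h8
    push Not at h8
    have : (lam + c) * ν ≤ 0 := mul_nonpos_of_nonpos_of_nonneg h8 hνpos.le
    linarith
  have hPK : ‖(inner ℂ u₀ (P' u₀) : ℂ)‖ ≤ K * ((lam + c) * ν) := by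
    have h9 := hK u₀
    rw [hquad, norm_inner_symm] at h9
    exact h9
  have hνle : ν ≤ ‖(inner ℂ u₀ (N u₀) : ℂ)‖ := by
    rw [← hNsym]
    exact (Complex.re_le_norm _)
  set η : ℝ := (K' - K) * ((lam + c) * ν) / 2 with hη
  have hηpos : 0 < η := by
    have : 0 < K' - K := by linarith
    positivity
  -- limits
  have hlimN : Tendsto (fun m => ‖(inner ℂ u₀ (N (u (φ m))) : ℂ)‖) atTop
      (𝓝 ‖(inner ℂ u₀ (N u₀) : ℂ)‖) := by
    have h10 : Continuous fun x : H => ‖(inner ℂ u₀ (N x) : ℂ)‖ := by fun_prop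
    exact (h10.tendsto u₀).comp hlim
  have hlimP : Tendsto (fun m => ‖(inner ℂ u₀ (P' (u (φ m))) : ℂ)‖) atTop
      (𝓝 ‖(inner ℂ u₀ (P' u₀) : ℂ)‖) := by
    have h10 : Continuous fun x : H => ‖(inner ℂ u₀ (P' x) : ℂ)‖ := by fun_prop
    exact (h10.tendsto u₀).comp hlim
  have hder : ∀ᶠ m in atTop, ‖P (t (φ m)) - P t₀ - (t (φ m) - t₀) • P'‖ ≤
      (η / 2) * ‖t (φ m) - t₀‖ := by
    have h11 := hP.isLittleO.def (show (0 : ℝ) < η / 2 by linarith)
    exact (htt.comp hφ.tendsto_atTop).eventually h11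
  have hNev : ∀ᶠ m in atTop, 0 < ‖(inner ℂ u₀ (N (u (φ m))) : ℂ)‖ :=
    hlimN.eventually (lt_mem_nhds (lt_of_lt_of_le hνpos hνle))
  have key : ∀ᶠ m in atTop, K' * (lam + c) * ‖(inner ℂ u₀ (N (u (φ m))) : ℂ)‖ ≤
      ‖(inner ℂ u₀ (P' (u (φ m))) : ℂ)‖ + η / 2 := by
    filter_upwards [hder, hNev] with m hd hn
    set s := t (φ m) with hs'
    set x := u (φ m) with hx
    set a := μ (φ m) with ha
    have h12 : (inner ℂ u₀ ((P s - P t₀) x) : ℂ) = ((a - lam : ℝ) : ℂ) * inner ℂ u₀ (N x) := by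
      rw [ContinuousLinearMap.sub_apply, inner_sub_right, ← hPsym u₀ x, heig, hPu (φ m),
        inner_smul_left, inner_smul_right, Complex.conj_ofReal, hNsym]
      push_cast
      ring
    have h13 : ‖(inner ℂ u₀ ((P s - P t₀) x) : ℂ)‖ ≤
        |s - t₀| * ‖(inner ℂ u₀ (P' x) : ℂ)‖ + (η / 2) * |s - t₀| := by
      have h14 : (P s - P t₀) x = ((s - t₀ : ℝ) : ℂ) • P' x + (P s - P t₀ - (s - t₀) • P') x := by
        simp only [ContinuousLinearMap.sub_apply, ContinuousLinearMap.smul_apply]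
        rw [Complex.coe_smul]
        abel
      rw [h14, inner_add_right, inner_smul_right]
      refine (norm_add_le _ _).trans (add_le_add ?_ ?_)
      · rw [norm_mul, Complex.norm_real, Real.norm_eq_abs]
      · refine (norm_inner_le_norm _ _).trans ?_
        rw [hu0, one_mul]
        refine ((P s - P t₀ - (s - t₀) • P').le_opNorm x).trans ?_
        rw [hx, hu (φ m), mul_one]
        exact hd
    rw [h12, norm_mul, Complex.norm_real, Real.norm_eq_abs] at h13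
    have h15 : K' * (lam + c) * |s - t₀| * ‖(inner ℂ u₀ (N x) : ℂ)‖ <
        |a - lam| * ‖(inner ℂ u₀ (N x) : ℂ)‖ := mul_lt_mul_of_pos_right (hlt (φ m)) hn
    have h16 : |s - t₀| * (K' * (lam + c) * ‖(inner ℂ u₀ (N x) : ℂ)‖) <
        |s - t₀| * (‖(inner ℂ u₀ (P' x) : ℂ)‖ + η / 2) := by
      calc |s - t₀| * (K' * (lam + c) * ‖(inner ℂ u₀ (N x) : ℂ)‖)
          = K' * (lam + c) * |s - t₀| * ‖(inner ℂ u₀ (N x) : ℂ)‖ := by ring
        _ < |a - lam| * ‖(inner ℂ u₀ (N x) : ℂ)‖ := h15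
        _ ≤ _ := h13
        _ = _ := by ring
    exact (lt_of_mul_lt_mul_left h16 (abs_nonneg _)).le
  have hfin : K' * (lam + c) * ‖(inner ℂ u₀ (N u₀) : ℂ)‖ ≤
      ‖(inner ℂ u₀ (P' u₀) : ℂ)‖ + η / 2 :=
    le_of_tendsto_of_tendsto (hlimN.const_mul _) (hlimP.add_const _) key
  have hNeq : ‖(inner ℂ u₀ (N u₀) : ℂ)‖ = ν := by
    have h17 : (inner ℂ (N u₀) u₀ : ℂ) = ((inner ℂ (N u₀) u₀ : ℂ).re : ℂ) := by
      have h18 : (starRingEnd ℂ) (inner ℂ (N u₀) u₀ : ℂ) = inner ℂ (N u₀) u₀ := by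
        rw [inner_conj_symm, hNsym]
      exact (Complex.conj_eq_iff_re.mp h18).symm
    rw [← hNsym, h17, Complex.norm_real, Real.norm_eq_abs]
    exact abs_of_pos hνpos
  rw [hNeq] at hfin
  have : K' * ((lam + c) * ν) ≤ K * ((lam + c) * ν) + η / 2 := by
    calc K' * ((lam + c) * ν) = K' * (lam + c) * ν := by ring
      _ ≤ _ := hfin
      _ ≤ _ := by linarith
  rw [hη] at this
  nlinarith

end Pool.Agent.Lib.MP_c8757e_mp
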