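import Pool.Agent.Lib.MP_c8757e_mp.Dich
import Pool.Agent.Lib.MP_c8757e_mp.Grow

/-! FLAT, module Cont: continuation of common eigenvalues. -/

open Filter Topology Set
open scoped ComplexInnerProductSpace

noncomputable section

namespace Pool.Agent.Lib.MP_c8757e_mp

variable {H : Type*} [NormedAddCommGroup H] [InnerProductSpace ℂ H] [CompleteSpace H]
  {N : H →L[ℂ] H}

/-- `lam` is a common eigenvalue at `t₀` which persists. -/
def Pers (N : H →L[ℂ] H) (P Q : ℝ → H →L[ℂ] H) (t₀ lam : ℝ) : Prop :=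
  ∀ ε > 0, ∀ᶠ t : ℝ in 𝓝 t₀, ∃ μ : ℝ, |μ - lam| < ε ∧ IsEig N (P t) μ ∧ IsEig N (Q t) μ

/-- Compactness of a set on which the second alternative of the dichotomy holds. -/
theorem cont_compact (R : ℝ → ℝ → Prop) (t : ℝ) {s : Set ℝ} (hs : IsCompact s)
    (h : ∀ lam ∈ s, ∃ ε > 0, ∀ᶠ t' : ℝ in 𝓝[≠] t, ∀ μ : ℝ, |μ - lam| < ε → ¬ R t' μ) :
    ∃ U : Set ℝ, IsOpen U ∧ s ⊆ U ∧ ∀ᶠ t' : ℝ in 𝓝[≠] t, ∀ μ ∈ U, ¬ R t' μ := by
  refine hs.induction_on (p := fun s => ∃ U : Set ℝ, IsOpen U ∧ s ⊆ U ∧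
    ∀ᶠ t' : ℝ in 𝓝[≠] t, ∀ μ ∈ U, ¬ R t' μ) ?_ ?_ ?_ ?_
  · exact ⟨∅, isOpen_empty, Subset.rfl, by simp⟩
  · rintro s t hst ⟨U, hU, hs, h⟩
    exact ⟨U, hU, hst.trans hs, h⟩
  · rintro s t ⟨U, hU, hs, h⟩ ⟨U', hU', hs', h'⟩
    refine ⟨U ∪ U', hU.union hU', union_subset_union hs hs', ?_⟩
    filter_upwards [h, h'] with t' h1 h2 μ hμ
    rcases hμ with hμ | hμ
    · exact h1 μ hμ
    · exact h2 μ hμ
  · intro lam hlam
    obtain ⟨ε, hε, h⟩ := h lam hlam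
    refine ⟨Metric.ball lam ε, mem_nhdsWithin_of_mem_nhds (Metric.ball_mem_nhds lam hε),
      Metric.ball lam ε, Metric.isOpen_ball, Subset.rfl, ?_⟩
    filter_upwards [h] with t' h μ hμ
    exact h μ (by rwa [Metric.mem_ball, Real.dist_eq] at hμ)

theorem cont_eig_of_near {S : H →L[ℂ] H} (hN : Weight N) (hS : Elliptic N S) {lam : ℝ}
    (h : ∀ ε > 0, ∃ μ : ℝ, |μ - lam| < ε ∧ IsEig N S μ) : IsEig N S lam := by
  have h1 := eig_isolated hN hS lam
  rw [eventually_nhdsWithin_iff, Metric.eventually_nhds_iff] at h1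
  obtain ⟨ε, hε, h1⟩ := h1
  obtain ⟨μ, hμ, hμ'⟩ := h ε hε
  by_cases e : μ = lam
  · rwa [e] at hμ'
  · exact absurd hμ' (h1 (by rwa [Real.dist_eq]) e)

/-- A persistent number is a common eigenvalue (take `t = t₀`, and use `eig_isolated`). -/
theorem Pers.isEig {P Q : ℝ → H →L[ℂ] H} {t₀ lam : ℝ} (hN : Weight N)
    (hP : Elliptic N (P t₀)) (hQ : Elliptic N (Q t₀)) (h : Pers N P Q t₀ lam) :
    IsEig N (P t₀) lam ∧ IsEig N (Q t₀) lam := by
  have h1 : ∀ ε > 0, ∃ μ : ℝ, |μ - lam| < ε ∧ IsEig N (P t₀) μ ∧ IsEig N (Q t₀) μ :=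
    fun ε hε => (h ε hε).self_of_nhds
  exact ⟨cont_eig_of_near hN hP fun ε hε =>
      let ⟨μ, a, b, _⟩ := h1 ε hε
      ⟨μ, a, b⟩,
    cont_eig_of_near hN hQ fun ε hε =>
      let ⟨μ, a, _, b⟩ := h1 ε hε
      ⟨μ, a, b⟩⟩

theorem cont_form (A B : H →L[ℂ] H) (t : ℝ) (u : H) :
    (inner ℂ ((A + (t : ℂ) • B) u) u).re =
      (inner ℂ (A u) u).re + t * (inner ℂ (B u) u).re := by
  rw [ContinuousLinearMap.add_apply, ContinuousLinearMap.smul_apply, inner_add_left,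
    inner_smul_left, Complex.conj_ofReal, Complex.add_re, Complex.re_ofReal_mul]

theorem cont_N_nonneg (hN : Weight N) (u : H) : 0 ≤ (inner ℂ (N u) u).re := by
  by_cases h : u = 0
  · simp [h]
  · exact (hN.pos u h).le

/-- Uniform coercivity on a segment, by convexity (`N ≥ 0`). -/
theorem coer_segment (A B : H →L[ℂ] H) (hN : Weight N) {a b : ℝ}
    (ha : Elliptic N (A + (a : ℂ) • B)) (hb : Elliptic N (A + (b : ℂ) • B)) :
    ∃ c δ : ℝ, 0 < δ ∧ ∀ t ∈ Icc a b, ∀ u : H,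
      δ * ‖u‖ ^ 2 ≤ (inner ℂ ((A + (t : ℂ) • B) u) u).re + c * (inner ℂ (N u) u).re := by
  obtain ⟨c1, δ1, hδ1, h1⟩ := ha.coer
  obtain ⟨c2, δ2, hδ2, h2⟩ := hb.coer
  refine ⟨max c1 c2, min δ1 δ2, lt_min hδ1 hδ2, fun t ht u => ?_⟩
  have e1 := h1 u
  have e2 := h2 u
  rw [cont_form] at e1 e2 ⊢
  have hn := cont_N_nonneg hN u
  have hu : 0 ≤ ‖u‖ ^ 2 := by positivity
  have hc1 : c1 * (inner ℂ (N u) u).re ≤ max c1 c2 * (inner ℂ (N u) u).re :=
    mul_le_mul_of_nonneg_right (le_max_left _ _) hn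
  have hc2 : c2 * (inner ℂ (N u) u).re ≤ max c1 c2 * (inner ℂ (N u) u).re :=
    mul_le_mul_of_nonneg_right (le_max_right _ _) hn
  have hd1 : min δ1 δ2 * ‖u‖ ^ 2 ≤ δ1 * ‖u‖ ^ 2 :=
    mul_le_mul_of_nonneg_right (min_le_left _ _) hu
  have hd2 : min δ1 δ2 * ‖u‖ ^ 2 ≤ δ2 * ‖u‖ ^ 2 :=
    mul_le_mul_of_nonneg_right (min_le_right _ _) hu
  set α := (inner ℂ (A u) u).re
  set β := (inner ℂ (B u) u).re
  set ν := max c1 c2 * (inner ℂ (N u) u).re
  set κ := min δ1 δ2 * ‖u‖ ^ 2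
  have f1 : κ ≤ α + a * β + ν := by linarith
  have f2 : κ ≤ α + b * β + ν := by linarith
  rcases le_total 0 β with hβ | hβ
  · have := mul_le_mul_of_nonneg_right ht.1 hβ
    linarith
  · have := mul_le_mul_of_nonpos_right ht.2 hβ
    linarith

/-- From uncountably many bad points to one persistent pair: otherwise, for every `t` and every
`M`, a neighbourhood of `t` contains no point `t' ≠ t` with a common eigenvalue in `[-M, M]`
(compactness of `[-M, M]` and the second alternative of the dichotomy), so the bad points with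
`|μ| ≤ M` have no accumulation point in `J` and are countable. -/
theorem exists_pers (P Q : ℝ → H →L[ℂ] H) (J : Set ℝ) (hJ : IsOpen J)
    (hdich : ∀ t₀ ∈ J, ∀ lam : ℝ, Pers N P Q t₀ lam ∨
      (∃ ε > 0, ∀ᶠ t : ℝ in 𝓝[≠] t₀, ∀ μ : ℝ, |μ - lam| < ε →
        ¬ (IsEig N (P t) μ ∧ IsEig N (Q t) μ)))
    (hunc : ¬ {t ∈ J | ∃ μ : ℝ, IsEig N (P t) μ ∧ IsEig N (Q t) μ}.Countable) :
    ∃ t₀ ∈ J, ∃ lam : ℝ, Pers N P Q t₀ lam := by
  by_contra hno
  push_neg at hno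
  apply hunc
  have hM : ∀ M : ℕ, {t ∈ J | ∃ μ ∈ Icc (-(M : ℝ)) M, IsEig N (P t) μ ∧
      IsEig N (Q t) μ}.Countable := by
    intro M
    have hd : DiscreteTopology {t ∈ J | ∃ μ ∈ Icc (-(M : ℝ)) M, IsEig N (P t) μ ∧
        IsEig N (Q t) μ} := by
      rw [discreteTopology_subtype_iff]
      intro t ht
      obtain ⟨U, hU, hsU, h⟩ := cont_compact
        (fun t μ => IsEig N (P t) (μ : ℝ) ∧ IsEig N (Q t) (μ : ℝ)) t
        (isCompact_Icc (a := -(M : ℝ)) (b := M))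
        (fun lam _ => (hdich t ht.1 lam).resolve_left (hno t ht.1 lam))
      rw [← Filter.empty_mem_iff_bot]
      rw [Filter.mem_inf_principal]
      filter_upwards [h] with t' ht' hmem
      obtain ⟨_, μ, hμ, h1⟩ := hmem
      exact absurd h1 (ht' μ (hsU hμ))
    exact Set.countable_coe_iff.1
      (countable_of_Lindelof_of_discrete (X := {t ∈ J | ∃ μ ∈ Icc (-(M : ℝ)) M,
        IsEig N (P t) μ ∧ IsEig N (Q t) μ}))
  refine (Set.countable_iUnion hM).mono ?_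
  rintro t ⟨ht, μ, hμ⟩
  obtain ⟨M, hMM⟩ := exists_nat_ge |μ|
  exact Set.mem_iUnion.2 ⟨M, ht, μ, abs_le.1 hMM, hμ⟩

theorem cont_eig_pos (hN : Weight N) {S : H →L[ℂ] H} {c δ : ℝ} (hδ : 0 < δ)
    (hco : ∀ u : H, δ * ‖u‖ ^ 2 ≤ (inner ℂ (S u) u).re + c * (inner ℂ (N u) u).re) {lam : ℝ}
    (h : IsEig N S lam) : 0 < lam + c := by
  obtain ⟨u, hu, e⟩ := h
  have h1 := hco u
  rw [e, inner_smul_left, Complex.conj_ofReal, Complex.re_ofReal_mul, ← add_mul] at h1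
  have h2 := hN.pos u hu
  have h3 : 0 < δ * ‖u‖ ^ 2 := by
    have := norm_pos_iff.2 hu
    positivity
  by_contra hc
  push_neg at hc
  have := mul_nonpos_of_nonpos_of_nonneg hc h2.le
  linarith

theorem cont_deriv (A B : H →L[ℂ] H) (x : ℝ) :
    HasDerivAt (fun t : ℝ => A + (t : ℂ) • B) B x := by
  have h1 : HasDerivAt (fun t : ℝ => (t : ℂ)) 1 x := Complex.ofRealCLM.hasDerivAt
  have h2 := (h1.smul_const B).const_add A
  simpa using h2

theorem cont_bound {A B : H →L[ℂ] H} {c δ t : ℝ} (hδ : 0 < δ)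
    (hco : ∀ u : H, δ * ‖u‖ ^ 2 ≤
      (inner ℂ ((A + (t : ℂ) • B) u) u).re + c * (inner ℂ (N u) u).re) (u : H) :
    ‖(inner ℂ (B u) u : ℂ)‖ ≤ (‖B‖ / δ) *
      ((inner ℂ ((A + (t : ℂ) • B) u) u).re + c * (inner ℂ (N u) u).re) := by
  calc ‖(inner ℂ (B u) u : ℂ)‖ ≤ ‖B u‖ * ‖u‖ := norm_inner_le_norm _ _
    _ ≤ (‖B‖ * ‖u‖) * ‖u‖ := mul_le_mul_of_nonneg_right (B.le_opNorm u) (norm_nonneg u)
    _ = (‖B‖ / δ) * (δ * ‖u‖ ^ 2) := by field_simp
    _ ≤ _ := mul_le_mul_of_nonneg_left (hco u) (by positivity)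

/-- Continuation to the right. Real induction on `[a, b]` for the set `S` of `t` with a persistent
`lam` such that `lam + c ≤ (lam₀ + c) exp (K' (t - a))`, where `c`, `δ` are from `coer_segment` (for
`P`), `K = ‖B‖ / δ`, `K' = K + 1`. `S` is closed in `[a, b]`: `t_m → t`, a subsequence of `lam_m`
(in the bounded set `(-c, C]`) converges to `lam`; the second alternative at `(t, lam)` contradicts
`Pers` at `(t_m, lam_m)` for large `m` (choose `t' ≠ t` near `t_m`). `S` is open to the right: at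
`(t, lam)` persistent take `ε` from `growth`, `ε/2` in `Pers`; for `t' > t` near `t`, if no
`μ ∈ [lam - ε/2, lam + ε/2]` were persistent at `t'` then by compactness some `t'' ≠ t'` near `t'`
would have no common eigenvalue in that interval, contradiction; so there is a persistent `lam'`
there, by `Pers.isEig` it is an eigenvalue, and `growth` bounds `|lam' - lam|`.
Use `IsClosed.Icc_subset_of_forall_exists_gt` or a similar lemma. -/
theorem pers_right (hN : Weight N) (A B C D : H →L[ℂ] H) {a b : ℝ} (hab : a ≤ b)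
    (hP : ∀ t ∈ Icc a b, Elliptic N (A + (t : ℂ) • B))
    (hQ : ∀ t ∈ Icc a b, Elliptic N (C + (t : ℂ) • D))
    (hdich : ∀ t₀ ∈ Icc a b, ∀ lam : ℝ,
      Pers N (fun t => A + (t : ℂ) • B) (fun t => C + (t : ℂ) • D) t₀ lam ∨
      (∃ ε > 0, ∀ᶠ t : ℝ in 𝓝[≠] t₀, ∀ μ : ℝ, |μ - lam| < ε →
        ¬ (IsEig N (A + (t : ℂ) • B) μ ∧ IsEig N (C + (t : ℂ) • D) μ)))
    (lam₀ : ℝ) (h0 : Pers N (fun t => A + (t : ℂ) • B) (fun t => C + (t : ℂ) • D) a lam₀) :
    ∃ lam : ℝ, Pers N (fun t => A + (t : ℂ) • B) (fun t => C + (t : ℂ) • D) b lam := by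
  obtain ⟨c, δ, hδ, hco⟩ := coer_segment A B hN (hP a ⟨le_rfl, hab⟩) (hP b ⟨hab, le_rfl⟩)
  set K' : ℝ := ‖B‖ / δ + 1 with hK'
  have hKlt : ‖B‖ / δ < K' := by linarith
  have hK0 : 0 ≤ K' := by positivity
  -- the persistent numbers are eigenvalues
  have hpe : ∀ t ∈ Icc a b, ∀ lam : ℝ,
      Pers N (fun t => A + (t : ℂ) • B) (fun t => C + (t : ℂ) • D) t lam →
      IsEig N (A + (t : ℂ) • B) lam ∧ IsEig N (C + (t : ℂ) • D) lam ∧ 0 < lam + c := by
    intro t ht lam h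
    have h1 := Pers.isEig hN (hP t ht) (hQ t ht) h
    exact ⟨h1.1, h1.2, cont_eig_pos hN hδ (hco t ht) h1.1⟩
  have hpos0 : 0 < lam₀ + c := (hpe a ⟨le_rfl, hab⟩ lam₀ h0).2.2
  let g : ℝ → ℝ := fun t => (lam₀ + c) * Real.exp (K' * (t - a))
  have hg : Continuous g := by fun_prop
  have hgpos : ∀ t, 0 < g t := fun t => mul_pos hpos0 (Real.exp_pos _)
  let S : Set ℝ := {t | ∃ lam : ℝ,
    Pers N (fun t => A + (t : ℂ) • B) (fun t => C + (t : ℂ) • D) t lam ∧ lam + c ≤ g t}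
  have hclosed : IsClosed (S ∩ Icc a b) := by
    rw [isClosed_iff_frequently]
    intro t hf
    have htI : t ∈ Icc a b := by
      have : t ∈ closure (Icc a b) := mem_closure_iff_frequently.2 (hf.mono fun y hy => hy.2)
      rwa [isClosed_Icc.closure_eq] at this
    refine ⟨?_, htI⟩
    by_contra hS
    have hS' : ∀ lam : ℝ, lam + c ≤ g t →
        ¬ Pers N (fun t => A + (t : ℂ) • B) (fun t => C + (t : ℂ) • D) t lam :=
      fun lam hl hp => hS ⟨lam, hp, hl⟩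
    obtain ⟨U, hU, hsU, h⟩ := cont_compact
      (fun t μ => IsEig N (A + (t : ℂ) • B) (μ : ℝ) ∧ IsEig N (C + (t : ℂ) • D) (μ : ℝ)) t
      (isCompact_Icc (a := -c) (b := g t - c))
      (fun lam hlam => (hdich t htI lam).resolve_left (hS' lam (by linarith [hlam.2])))
    have hgU : g t - c ∈ U := hsU ⟨by linarith [hgpos t], le_rfl⟩
    obtain ⟨η, hη, hball⟩ := Metric.isOpen_iff.1 hU _ hgU
    have hev : ∀ᶠ t' in 𝓝 t, g t' < g t + η :=
      hg.continuousAt.eventually_lt continuousAt_const (by linarith)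
    rw [eventually_nhdsWithin_iff] at h
    obtain ⟨t', ⟨⟨⟨lam, hp, hle⟩, ht'I⟩, h1⟩, h2⟩ := ((hf.and_eventually h).and_eventually hev).exists
    have hne : t' ≠ t := by
      rintro rfl
      exact hS' lam hle hp
    obtain ⟨e1, e2, e3⟩ := hpe t' ht'I lam hp
    refine h1 hne lam ?_ ⟨e1, e2⟩
    rcases le_or_gt lam (g t - c) with hl | hl
    · exact hsU ⟨by linarith, hl⟩
    · apply hball
      rw [Metric.mem_ball, Real.dist_eq, abs_of_pos (by linarith)]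
      linarith
  have haS : a ∈ S := by
    refine ⟨lam₀, h0, ?_⟩
    simp [g]
  have hgt : ∀ x ∈ S ∩ Ico a b, ∀ y ∈ Ioi x, (S ∩ Ioc x y).Nonempty := by
    rintro x ⟨⟨lam, hp, hle⟩, hxI⟩ y hy
    have hx : x ∈ Icc a b := ⟨hxI.1, hxI.2.le⟩
    obtain ⟨_, _, hlpos⟩ := hpe x hx lam hp
    obtain ⟨ε, hε, hgr⟩ := growth hN (fun t : ℝ => A + (t : ℂ) • B) B x (cont_deriv A B x)
      (hP x hx).sa c δ (‖B‖ / δ) hδ (hco x hx) (cont_bound hδ (hco x hx)) lam K' hKlt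
    have hp' := eventually_eventually_nhds.2 (hp (ε / 2) (by positivity))
    have hev : ∀ᶠ t in 𝓝[>] x, t ∈ Ioc x (min y b) :=
      Ioc_mem_nhdsGT (lt_min hy hxI.2)
    obtain ⟨t, ⟨h1, h2⟩, h3⟩ :=
      (((hgr.filter_mono nhdsWithin_le_nhds).and (hp'.filter_mono nhdsWithin_le_nhds)).and
        hev).exists
    have htI : t ∈ Icc a b := ⟨by linarith [h3.1, hxI.1], h3.2.trans (min_le_right _ _)⟩
    have hex : ∃ lam' ∈ Icc (lam - ε / 2) (lam + ε / 2),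
        Pers N (fun t => A + (t : ℂ) • B) (fun t => C + (t : ℂ) • D) t lam' := by
      by_contra hno
      push_neg at hno
      obtain ⟨U, hU, hsU, h⟩ := cont_compact
        (fun t μ => IsEig N (A + (t : ℂ) • B) (μ : ℝ) ∧ IsEig N (C + (t : ℂ) • D) (μ : ℝ)) t
        (isCompact_Icc (a := lam - ε / 2) (b := lam + ε / 2))
        (fun lam' hlam' => (hdich t htI lam').resolve_left (hno lam' hlam'))
      obtain ⟨t', h4, μ, h5, h6⟩ := (h.and (h2.filter_mono nhdsWithin_le_nhds)).exists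
      refine h4 μ (hsU ?_) h6
      rw [abs_lt] at h5
      exact ⟨by linarith, by linarith⟩
    obtain ⟨lam', hl', hp1⟩ := hex
    obtain ⟨e1, _, _⟩ := hpe t htI lam' hp1
    have h4 := h1 lam' (by rw [abs_lt]; exact ⟨by linarith [hl'.1], by linarith [hl'.2]⟩) e1
    refine ⟨t, ⟨lam', hp1, ?_⟩, h3.1, h3.2.trans (min_le_left _ _)⟩
    have htx : 0 < t - x := by linarith [h3.1]
    rw [abs_of_pos htx] at h4
    have h5 : lam' - lam ≤ K' * (lam + c) * (t - x) := (le_abs_self _).trans h4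
    have h6 : K' * (t - x) + 1 ≤ Real.exp (K' * (t - x)) := Real.add_one_le_exp _
    have h7 : g t = g x * Real.exp (K' * (t - x)) := by
      simp only [g]
      rw [mul_assoc, ← Real.exp_add]
      congr 2
      ring
    rw [h7]
    calc lam' + c ≤ (lam + c) * (K' * (t - x) + 1) := by linarith
      _ ≤ (lam + c) * Real.exp (K' * (t - x)) := mul_le_mul_of_nonneg_left h6 hlpos.le
      _ ≤ _ := mul_le_mul_of_nonneg_right hle (Real.exp_pos _).le
  have hsub := hclosed.Icc_subset_of_forall_exists_gt haS hgt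
  obtain ⟨lam, hp, _⟩ := hsub (⟨hab, le_rfl⟩ : b ∈ Icc a b)
  exact ⟨lam, hp⟩

end Pool.Agent.Lib.MP_c8757e_mp
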