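import Pool.Agent.Lib.MP_c8757e_mp.Schw

/-! FLAT, module Four: weak divergence identities on the Fourier side. -/

open MeasureTheory Filter Topology Set
open scoped ENNReal SchwartzMap FourierTransform

noncomputable section

namespace Pool.Agent.Lib.MP_c8757e_mp

variable {d : ℕ}

/-- For Schwartz `g`, `∫ (𝓕 F) g = ∫ F (𝓕 g)` for `F ∈ L²`. -/
theorem integral_fourier_mul (F : L2E d) (g : 𝓢(E d, ℂ)) :
    ∫ ξ, (𝓕 F : L2E d) ξ * g ξ = ∫ x, F x * (𝓕 g : 𝓢(E d, ℂ)) x := by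
  have h := congrArg (fun T : 𝓢'(E d, ℂ) => T g)
    (Lp.fourier_toTemperedDistribution_eq F)
  simp only [TemperedDistribution.fourier_apply, Lp.toTemperedDistribution_apply,
    smul_eq_mul] at h
  simp only [mul_comm (g _), mul_comm ((𝓕 g) _)] at h
  exact h.symm

/-- The derivative of a Fourier transform: `∂_j (𝓕 g) = 𝓕 (-2πi x_j g)`. -/
theorem pd_fourier (g : 𝓢(E d, ℂ)) (j : Fin d) : ∃ g' : 𝓢(E d, ℂ),
    (∀ x, g' x = -(2 * (Real.pi : ℂ) * Complex.I * (x j : ℂ)) * g x) ∧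
    ∀ x, pd j (𝓕 g : 𝓢(E d, ℂ)) x = (𝓕 g' : 𝓢(E d, ℂ)) x := by
  have hT : (fun x : E d => inner ℝ x (EuclideanSpace.single j (1 : ℝ))).HasTemperateGrowth :=
    ((innerSL ℝ).flip (EuclideanSpace.single j (1 : ℝ))).hasTemperateGrowth
  refine ⟨-(2 * Real.pi * Complex.I) •
    SchwartzMap.smulLeftCLM ℂ (fun x : E d => inner ℝ x (EuclideanSpace.single j (1 : ℝ))) g,
    fun x => ?_, fun x => ?_⟩
  · rw [smul_apply, SchwartzMap.smulLeftCLM_apply_apply hT]
    rw [EuclideanSpace.inner_single_right]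
    simp only [one_mul, smul_eq_mul, Complex.real_smul, conj_trivial]
    ring
  · have h := congrArg (fun T : 𝓢(E d, ℂ) => T x)
      (SchwartzMap.lineDerivOp_fourier_eq g (EuclideanSpace.single j (1 : ℝ)))
    simp only [SchwartzMap.lineDerivOp_apply_eq_fderiv] at h
    exact h

private theorem Four_int (F : L2E d) (g : 𝓢(E d, ℂ)) : Integrable (fun x => F x * g x) volume :=
  MemLp.integrable_mul (Lp.memLp F) (g.memLp 2 volume)

/-- Both identities are tested with `𝓕 g`. -/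
private theorem Four_sum (h : Fin d → L2E d) (g : 𝓢(E d, ℂ)) :
    ∑ j, ∫ x, h j x * pd j (𝓕 g : 𝓢(E d, ℂ)) x =
      ∫ ξ, (- ∑ j, 2 * (Real.pi : ℂ) * Complex.I * (ξ j : ℂ) * (𝓕 (h j) : L2E d) ξ) * g ξ := by
  choose g' hg' hg'' using fun j => pd_fourier g j
  have h1 : ∀ j, ∫ x, h j x * pd j (𝓕 g : 𝓢(E d, ℂ)) x =
      ∫ ξ, (𝓕 (h j) : L2E d) ξ * g' j ξ := by
    intro j
    rw [integral_fourier_mul]
    simp only [hg'' j]
  rw [Finset.sum_congr rfl fun j _ => h1 j, ← integral_finsetSum]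
  · refine integral_congr_ae (Eventually.of_forall fun ξ => ?_)
    simp only [hg', neg_mul, mul_neg, Finset.sum_neg_distrib, Finset.sum_mul]
    congr 1
    refine Finset.sum_congr rfl fun j _ => ?_
    ring
  · exact fun j _ => Four_int _ _

/-- Test with `ψ = 𝓕 g`, `g` a test function: `schwartz_of_test`, `pd_fourier`,
`integral_fourier_mul`; then the two locally integrable functions agree a.e. -/
theorem fourier_of_weak (h : Fin d → L2E d) (w : L2E d)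
    (H : ∀ φ : E d → ℂ, IsTest φ → ∑ j, ∫ x, h j x * pd j φ x = ∫ x, w x * φ x) :
    ∀ᵐ ξ : E d, (𝓕 w : L2E d) ξ =
      - ∑ j, 2 * (Real.pi : ℂ) * Complex.I * (ξ j : ℂ) * (𝓕 (h j) : L2E d) ξ := by
  refine ae_eq_of_integral_contDiff_smul_eq ?_ ?_ ?_
  · exact (Lp.memLp (𝓕 w : L2E d)).locallyIntegrable (by norm_num)
  · refine LocallyIntegrable.neg ?_
    refine locallyIntegrable_finsetSum _ fun j _ => ?_
    have h1 : LocallyIntegrable (fun ξ => (𝓕 (h j) : L2E d) ξ) volume :=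
      (Lp.memLp (𝓕 (h j) : L2E d)).locallyIntegrable (by norm_num)
    have h2 : Continuous fun ξ : E d => 2 * (Real.pi : ℂ) * Complex.I * (ξ j : ℂ) := by
      fun_prop
    rw [← locallyIntegrableOn_univ] at h1 ⊢
    exact h1.continuousOn_mul h2.continuousOn isOpen_univ.isLocallyClosed
  · intro φ hφ hc
    have hg₁ : HasCompactSupport (Complex.ofRealCLM ∘ φ) := hc.comp_left rfl
    have hg₂ : ContDiff ℝ (⊤ : ℕ∞) (Complex.ofRealCLM ∘ φ) := by fun_prop
    let g : 𝓢(E d, ℂ) := hg₁.toSchwartzMap hg₂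
    have hg : ∀ x, g x = (φ x : ℂ) := fun x => rfl
    have h1 := schwartz_of_test h w H (𝓕 g)
    rw [Four_sum, ← integral_fourier_mul] at h1
    simp only [hg] at h1
    simp only [Complex.real_smul]
    simp only [mul_comm ((φ _ : ℝ) : ℂ)]
    exact h1.symm

/-- Converse: a test function is `𝓕 g` with `g = 𝓕⁻ φ` Schwartz. -/
theorem weak_of_fourier (h : Fin d → L2E d) (w : L2E d)
    (H : ∀ᵐ ξ : E d, (𝓕 w : L2E d) ξ =
      - ∑ j, 2 * (Real.pi : ℂ) * Complex.I * (ξ j : ℂ) * (𝓕 (h j) : L2E d) ξ)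
    (φ : E d → ℂ) (hφ : IsTest φ) :
    ∑ j, ∫ x, h j x * pd j φ x = ∫ x, w x * φ x := by
  let Φ : 𝓢(E d, ℂ) := hφ.2.toSchwartzMap hφ.1
  have hΦ : (Φ : E d → ℂ) = φ := rfl
  have hF : 𝓕 (𝓕⁻ Φ : 𝓢(E d, ℂ)) = Φ := by simp
  have h1 := Four_sum h (𝓕⁻ Φ : 𝓢(E d, ℂ))
  rw [hF] at h1
  rw [← hΦ, h1]
  have h2 := integral_fourier_mul w (𝓕⁻ Φ : 𝓢(E d, ℂ))
  rw [hF] at h2
  rw [← h2]
  refine integral_congr_ae ?_
  filter_upwards [H] with ξ hξ
  rw [hξ]

end Pool.Agent.Lib.MP_c8757e_mp
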