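import Pool.Agent.Lib.MP_c8757e_mp.Dich

/-! FLAT, module LineF: on a line, a number `lam` is an eigenvalue always or at countably many
points. -/

open Filter Topology Set
open scoped ComplexInnerProductSpace

noncomputable section

namespace Pool.Agent.Lib.MP_c8757e_mp

variable {H : Type*} [NormedAddCommGroup H] [InnerProductSpace ℂ H] [CompleteSpace H]
  {N : H →L[ℂ] H}

/-- A subset of the real line which locally contains all points or no points of a punctured
neighbourhood is countable or everything. -/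
private theorem LineF_aux (T : Set ℝ)
    (h : ∀ t₀ : ℝ, (∀ᶠ t : ℝ in 𝓝 t₀, t ∈ T) ∨ (∀ᶠ t : ℝ in 𝓝[≠] t₀, t ∉ T)) :
    T.Countable ∨ T = univ := by
  have h1 : IsOpen {t₀ : ℝ | ∀ᶠ t : ℝ in 𝓝 t₀, t ∈ T} := by
    rw [isOpen_iff_mem_nhds]
    intro t₀ ht₀
    exact eventually_eventually_nhds.2 ht₀
  have h2 : IsOpen {t₀ : ℝ | ∀ᶠ t : ℝ in 𝓝[≠] t₀, t ∉ T} := by
    rw [isOpen_iff_mem_nhds]
    intro t₀ ht₀
    have ht₁ : ∀ᶠ t : ℝ in 𝓝 t₀, t ≠ t₀ → t ∉ T := eventually_nhdsWithin_iff.1 ht₀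
    have ht₂ := eventually_eventually_nhds.2 ht₁
    filter_upwards [ht₂] with t ht
    rcases eq_or_ne t t₀ with rfl | hne
    · exact ht₀
    · show ∀ᶠ s : ℝ in 𝓝[≠] t, s ∉ T
      have ht₃ : ∀ᶠ s : ℝ in 𝓝 t, s ∉ T := by
        filter_upwards [ht, isOpen_ne.mem_nhds hne] with s hs hs'
        exact hs hs'
      exact ht₃.filter_mono nhdsWithin_le_nhds
  have h3 : {t₀ : ℝ | ∀ᶠ t : ℝ in 𝓝 t₀, t ∈ T}ᶜ = {t₀ : ℝ | ∀ᶠ t : ℝ in 𝓝[≠] t₀, t ∉ T} := by
    ext t₀
    constructor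
    · intro ht
      exact (h t₀).resolve_left ht
    · intro ht ht'
      have ht'' : ∀ᶠ t : ℝ in 𝓝[≠] t₀, t ∈ T := Eventually.filter_mono nhdsWithin_le_nhds ht'
      have ht3 : ∀ᶠ t : ℝ in 𝓝[≠] t₀, t ∉ T := ht
      have h4 := ht''.and ht3
      obtain ⟨t, h5, h6⟩ := h4.exists
      exact h6 h5
  have hc : IsClopen {t₀ : ℝ | ∀ᶠ t : ℝ in 𝓝 t₀, t ∈ T} := by
    refine ⟨?_, h1⟩
    rw [← isOpen_compl_iff, h3]
    exact h2
  rcases isClopen_iff.1 hc with he | hu
  · left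
    have h7 : ∀ t₀ : ℝ, ∀ᶠ t : ℝ in 𝓝[≠] t₀, t ∉ T := by
      intro t₀
      refine (h t₀).resolve_left fun h8 => ?_
      have h9 : t₀ ∈ {t₀ : ℝ | ∀ᶠ t : ℝ in 𝓝 t₀, t ∈ T} := h8
      rw [he] at h9
      exact h9
    have hd : DiscreteTopology T := by
      refine discreteTopology_of_noAccPts fun x _ hx => ?_
      rw [accPt_iff_frequently_nhdsNE] at hx
      exact hx (h7 x)
    exact Set.countable_coe_iff.mp (TopologicalSpace.separableSpace_iff_countable.mp inferInstance)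
  · right
    refine eq_univ_of_forall fun t => ?_
    have h8 : t ∈ {t₀ : ℝ | ∀ᶠ t : ℝ in 𝓝 t₀, t ∈ T} := by
      rw [hu]
      exact mem_univ t
    exact Eventually.self_of_nhds h8

/-- Let `T = {t | IsEig N (P t) lam}`. By `single_line_dichotomy` each `t₀` has a neighbourhood in
`T` or a punctured one outside `T`. The set of `t₀` of the first kind is open, and so is the set of
`t₀` of the second kind; they are disjoint, so one of them is `ℝ`. In the first case `T = ℝ`; in the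
second `T` has no accumulation point, so it is countable. -/
theorem line_countable_or_univ (hN : Weight N) (P : ℂ → H →L[ℂ] H)
    (hP : ∀ t : ℝ, AnalyticAt ℂ P t) (hPe : ∀ t : ℝ, Elliptic N (P t)) (lam : ℝ) :
    {t : ℝ | IsEig N (P t) lam}.Countable ∨ {t : ℝ | IsEig N (P t) lam} = univ :=
  LineF_aux _ fun t₀ => single_line_dichotomy hN P t₀ (hP t₀) (hPe t₀) lam

end Pool.Agent.Lib.MP_c8757e_mp
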