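import Pool.Agent.Lib.MP_c8757e_mp.NullU
import Pool.Agent.Lib.MP_c8757e_mp.LineF
import Pool.Agent.Lib.MP_c8757e_mp.BopL

/-! FLAT, module KSet: the set of quasimomenta at which `lam` is an eigenvalue. -/

open MeasureTheory Filter Topology Set
open scoped ENNReal

noncomputable section

namespace Pool.Agent.Lib.MP_c8757e_mp

variable {d : ℕ}

/-- Quasimomenta at which `lam` is an eigenvalue of the fibre pencil. -/
def Kset (A : Fin d → Fin d → LI d) (V : LI d) (lam : ℝ) : Set (E d) :=
  {k | IsEig (Nop d) (Bop A V (toC k)) lam}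

/-- The complement is open (`isEig_iff_not_isUnit`, `Bop_continuous`, `Units.isOpen`). -/
theorem Kset_isClosed {A : Fin d → Fin d → LI d} {c : ℝ} (hA : Coef A c)
    (V : LI d) (lam : ℝ) : IsClosed (Kset A V lam) := by
  have h1 : Kset A V lam =
      (fun k : E d => Bop A V (toC k) - (lam : ℂ) • Nop d) ⁻¹'
        {x : ell d →L[ℂ] ell d | IsUnit x}ᶜ := by
    ext k
    exact isEig_iff_not_isUnit Nop_weight (Bop_elliptic hA V k) lam
  rw [h1]
  refine IsClosed.preimage ?_ (Units.isOpen.isClosed_compl)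
  exact (Bop_continuous A V).sub continuous_const

private lemma KSet_toC (k₀ ω : E d) (t : ℝ) :
    toC (k₀ + t • ω) = toC k₀ + (t : ℂ) • toC ω := by
  funext j
  simp [toC]

/-- `null_or_univ` with `line_countable_or_univ` for `P z = Bop A V (toC k₀ + z • toC ω)`. -/
theorem Kset_null_or_univ {A : Fin d → Fin d → LI d} {c : ℝ} (hA : Coef A c)
    (V : LI d) (lam : ℝ) : volume (Kset A V lam) = 0 ∨ Kset A V lam = univ := by
  refine null_or_univ (Kset A V lam) (Kset_isClosed hA V lam) (fun k₀ ω => ?_)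
  have h1 := line_countable_or_univ (N := Nop d) Nop_weight
    (fun z : ℂ => Bop A V (toC k₀ + z • toC ω))
    (fun t => (Bop_differentiable A V (toC k₀) (toC ω)).analyticAt (t : ℂ))
    (fun t => by
      have h2 := Bop_elliptic hA V (k₀ + t • ω)
      rw [KSet_toC] at h2
      exact h2) lam
  have h3 : {t : ℝ | k₀ + t • ω ∈ Kset A V lam} =
      {t : ℝ | IsEig (Nop d) (Bop A V (toC k₀ + (t : ℂ) • toC ω)) lam} := by
    ext t
    change IsEig (Nop d) (Bop A V (toC (k₀ + t • ω))) lam ↔ _
    rw [KSet_toC]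
    rfl
  rw [h3]
  exact h1

end Pool.Agent.Lib.MP_c8757e_mp
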