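import Pool.Agent.Lib.MP_c8757e_mp.Defs

/-! FLAT, module Sel: a measurable choice of kernel vectors. -/

open MeasureTheory Filter Topology Set
open scoped ENNReal

noncomputable section

namespace Pool.Agent.Lib.MP_c8757e_mp

variable {d : ℕ}

section SelAbstract

variable {H : Type*} [NormedAddCommGroup H] [InnerProductSpace ℂ H] [CompleteSpace H]

/-- the operator `1 + m S²` -/
private def Sel_T (S : H →L[ℂ] H) (m : ℕ) : H →L[ℂ] H := 1 + (m : ℂ) • (S * S)

private theorem Sel_T_apply (S : H →L[ℂ] H) (m : ℕ) (x : H) :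
    Sel_T S m x = x + (m : ℂ) • S (S x) := rfl

private theorem Sel_symm {S : H →L[ℂ] H} (hS : IsSelfAdjoint S) (x y : H) :
    inner ℂ (S x) y = inner ℂ x (S y) := by
  have h := ContinuousLinearMap.adjoint_inner_left S y x
  rw [← ContinuousLinearMap.star_eq_adjoint, hS.star_eq] at h
  exact h

private theorem Sel_inner {S : H →L[ℂ] H} (hS : IsSelfAdjoint S) (m : ℕ) (x : H) :
    inner ℂ x (Sel_T S m x) = ((‖x‖ ^ 2 + m * ‖S x‖ ^ 2 : ℝ) : ℂ) := by
  rw [Sel_T_apply, inner_add_right, inner_smul_right, ← Sel_symm hS x (S x),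
    inner_self_eq_norm_sq_to_K, inner_self_eq_norm_sq_to_K]
  push_cast
  rfl

private theorem Sel_unit {S : H →L[ℂ] H} (hS : IsSelfAdjoint S) (m : ℕ) :
    IsUnit (Sel_T S m) := by
  refine ContinuousLinearMap.isUnit_of_forall_le_norm_inner_map (Sel_T S m) (c := 1) one_pos
    fun x => ?_
  rw [norm_inner_symm, Sel_inner hS, Complex.norm_real, Real.norm_eq_abs,
    abs_of_nonneg (by positivity)]
  have : (0 : ℝ) ≤ m * ‖S x‖ ^ 2 := by positivity
  simp only [NNReal.coe_one, mul_one]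
  linarith

/-- the resolvent -/
private def Sel_R (S : H →L[ℂ] H) (m : ℕ) : H →L[ℂ] H := Ring.inverse (Sel_T S m)

private theorem Sel_TR {S : H →L[ℂ] H} (hS : IsSelfAdjoint S) (m : ℕ) (w : H) :
    Sel_T S m (Sel_R S m w) = w := by
  have h := Ring.mul_inverse_cancel _ (Sel_unit hS m)
  exact congrArg (fun A : H →L[ℂ] H => A w) h

private theorem Sel_RT {S : H →L[ℂ] H} (hS : IsSelfAdjoint S) (m : ℕ) (w : H) :
    Sel_R S m (Sel_T S m w) = w := by
  have h := Ring.inverse_mul_cancel _ (Sel_unit hS m)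
  exact congrArg (fun A : H →L[ℂ] H => A w) h

private theorem Sel_key {S : H →L[ℂ] H} (hS : IsSelfAdjoint S) (m : ℕ) (w : H) :
    ‖Sel_R S m w‖ ^ 2 + m * ‖S (Sel_R S m w)‖ ^ 2 ≤ ‖inner ℂ (Sel_R S m w) w‖ := by
  have h := Sel_inner hS m (Sel_R S m w)
  rw [Sel_TR hS] at h
  rw [h, Complex.norm_real, Real.norm_eq_abs]
  exact le_abs_self _

private theorem Sel_norm_le {S : H →L[ℂ] H} (hS : IsSelfAdjoint S) (m : ℕ) (w : H) :
    ‖Sel_R S m w‖ ≤ ‖w‖ := by
  have h := Sel_key hS m w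
  have h2 := norm_inner_le_norm (𝕜 := ℂ) (Sel_R S m w) w
  have h3 : (0 : ℝ) ≤ m * ‖S (Sel_R S m w)‖ ^ 2 := by positivity
  rcases (norm_nonneg (Sel_R S m w)).eq_or_lt with h0 | h0
  · rw [← h0]
    exact norm_nonneg _
  · have h4 : ‖Sel_R S m w‖ * ‖Sel_R S m w‖ ≤ ‖Sel_R S m w‖ * ‖w‖ := by nlinarith
    exact le_of_mul_le_mul_left h4 h0

private theorem Sel_ker {S : H →L[ℂ] H} (hS : IsSelfAdjoint S) (m : ℕ) (w : H)
    (hw : S w = 0) : Sel_R S m w = w := by
  have h := Sel_RT hS m w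
  rw [Sel_T_apply, hw, map_zero, smul_zero, add_zero] at h
  exact h

private theorem Sel_range {S : H →L[ℂ] H} (hS : IsSelfAdjoint S) (m : ℕ) (hm : 0 < m) (y : H) :
    ‖Sel_R S m (S y)‖ ^ 2 ≤ ‖y‖ ^ 2 / m := by
  have h := Sel_key hS m (S y)
  rw [← Sel_symm hS] at h
  have h2 := norm_inner_le_norm (𝕜 := ℂ) (S (Sel_R S m (S y))) y
  set a := ‖S (Sel_R S m (S y))‖
  set b := ‖Sel_R S m (S y)‖
  have hm' : (0 : ℝ) < m := by exact_mod_cast hm
  rw [le_div_iff₀ hm']
  have h3 : b ^ 2 + m * a ^ 2 ≤ a * ‖y‖ := h.trans h2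
  have h4 : 0 ≤ (m * a - ‖y‖) ^ 2 := sq_nonneg _
  have h5 : b ^ 2 * m + m ^ 2 * a ^ 2 ≤ m * a * ‖y‖ := by nlinarith
  have h6 : 0 ≤ (m * a - ‖y‖ / 2) ^ 2 := sq_nonneg _
  nlinarith [sq_nonneg ‖y‖]

private theorem Sel_tendsto_zero {S : H →L[ℂ] H} (hS : IsSelfAdjoint S) (y : H) :
    Tendsto (fun m : ℕ => ‖Sel_R S m (S y)‖) atTop (𝓝 0) := by
  have h1 : Tendsto (fun m : ℕ => ‖y‖ ^ 2 / (m : ℝ)) atTop (𝓝 0) :=
    tendsto_const_div_atTop_nhds_zero_nat _
  have h2 : Tendsto (fun m : ℕ => Real.sqrt (‖y‖ ^ 2 / (m : ℝ))) atTop (𝓝 0) := by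
    have := (Real.continuous_sqrt.tendsto 0).comp h1
    rwa [Real.sqrt_zero] at this
  refine squeeze_zero' (Eventually.of_forall fun m => norm_nonneg _) ?_ h2
  filter_upwards [eventually_gt_atTop 0] with m hm
  exact Real.le_sqrt_of_sq_le (Sel_range hS m hm y)

private theorem Sel_tendsto {S : H →L[ℂ] H} (hS : IsSelfAdjoint S) (w : H) :
    Tendsto (fun m : ℕ => Sel_R S m w) atTop (𝓝 (S.ker.starProjection w)) := by
  set P := S.ker.starProjection w with hP
  have hPk : S P = 0 := by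
    have : P ∈ S.ker := Submodule.starProjection_apply_mem _ _
    exact this
  have hq : w - P ∈ S.range.topologicalClosure := by
    have h1 : w - P ∈ S.kerᗮ := Submodule.sub_starProjection_mem_orthogonal _
    rw [ContinuousLinearMap.orthogonal_ker, ← ContinuousLinearMap.star_eq_adjoint,
      hS.star_eq] at h1
    exact h1
  rw [Metric.tendsto_atTop]
  intro ε hε
  have hcl : w - P ∈ closure (S.range : Set H) := by
    rw [← Submodule.topologicalClosure_coe]
    exact hq
  obtain ⟨s, hs, hd⟩ := Metric.mem_closure_iff.1 hcl (ε / 2) (half_pos hε)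
  obtain ⟨y, rfl⟩ := hs
  obtain ⟨M, hM⟩ := (Metric.tendsto_atTop.1 (Sel_tendsto_zero hS y)) (ε / 2) (half_pos hε)
  refine ⟨M, fun m hm => ?_⟩
  have h1 := hM m hm
  rw [dist_zero_right, norm_norm] at h1
  have h2 : Sel_R S m w - P = Sel_R S m (w - P - S y) + Sel_R S m (S y) := by
    rw [← map_add, sub_add_cancel, map_sub, Sel_ker hS m P hPk]
  rw [dist_eq_norm, h2]
  have h3 : ‖Sel_R S m (w - P - S y)‖ < ε / 2 := by
    refine (Sel_norm_le hS m _).trans_lt ?_
    rw [← dist_eq_norm]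
    exact hd
  calc _ ≤ ‖Sel_R S m (w - P - S y)‖ + ‖Sel_R S m (S y)‖ := norm_add_le _ _
    _ < ε / 2 + ε / 2 := add_lt_add h3 h1
    _ = ε := add_halves ε

end SelAbstract

private theorem Sel_continuous {S : E d → ell d →L[ℂ] ell d} (hS : Continuous S)
    (hsa : ∀ k, IsSelfAdjoint (S k)) (m : ℕ) (w : ell d) :
    Continuous fun k => Sel_R (S k) m w := by
  have h1 : Continuous fun k => Sel_T (S k) m := by
    have h0 : Continuous fun k => S k * S k := hS.mul hS
    have h3 : Continuous fun k => (m : ℂ) • (S k * S k) := h0.const_smul (m : ℂ)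
    exact continuous_const.add h3
  have h2 : Continuous fun k => Sel_R (S k) m := by
    rw [continuous_iff_continuousAt]
    intro k
    obtain ⟨u, hu⟩ := Sel_unit (hsa k) m
    have h3 := NormedRing.inverse_continuousAt u
    rw [hu] at h3
    exact ContinuousAt.comp (f := fun k => Sel_T (S k) m) (g := Ring.inverse) h3
      h1.continuousAt
  exact h2.clm_apply continuous_const

private theorem Sel_cube : volume (cube (0 : Lat d)) ≠ 0 := by
  set O : Set (E d) := {k | ∀ i, (0 : ℝ) < k i ∧ k i < 1} with hO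
  have hopen : IsOpen O := by
    have : O = ⋂ i, ({k : E d | (0 : ℝ) < k i} ∩ {k : E d | k i < 1}) := by
      ext k
      simp [hO]
    rw [this]
    refine isOpen_iInter_of_finite fun i => ?_
    have hc : Continuous fun k : E d => k i := by fun_prop
    exact (isOpen_lt continuous_const hc).inter (isOpen_lt hc continuous_const)
  have hne : O.Nonempty := by
    refine ⟨WithLp.toLp 2 (fun _ => (1 / 2 : ℝ)), fun i => ?_⟩
    constructor
    · show (0 : ℝ) < 1 / 2
      norm_num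
    · show (1 / 2 : ℝ) < 1
      norm_num
  have hpos := hopen.measure_pos volume hne
  have hsub : O ⊆ cube (0 : Lat d) := by
    intro k hk i
    have := hk i
    simp only [Pi.zero_apply, Int.cast_zero, zero_add]
    exact ⟨this.1.le, this.2⟩
  exact (hpos.trans_le (measure_mono hsub)).ne'

/-- For self-adjoint `S`, `(1 + m S²)⁻¹ x → P x` as `m → ∞`, `P` the orthogonal projection to
`ker S`: clear on `ker S`; for `x = S y`, `z = (1 + m S²)⁻¹ S y` satisfies
`‖z‖² + m ‖S z‖² = ⟪y, S z⟫`, so `‖S z‖ ≤ ‖y‖/m` and `‖z‖² ≤ ‖y‖²/m`; the operators are bounded by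
`1`. Hence `k ↦ P(k) x` is a pointwise limit of continuous functions. Take `x` among the unit vectors
of `ℓ²(ℤ^d)`: for every `k` some `P(k) δ_m ≠ 0`, so for some `m` the set of such `k` in the cube has
positive measure; `v(k) = P(k) δ_m`. -/
theorem exists_section (S : E d → ell d →L[ℂ] ell d) (hS : Continuous S)
    (hsa : ∀ k, IsSelfAdjoint (S k)) (hk : ∀ k, ∃ u : ell d, u ≠ 0 ∧ S k u = 0) :
    ∃ v : E d → ell d, StronglyMeasurable v ∧ (∀ k, ‖v k‖ ≤ 1) ∧ (∀ k, S k (v k) = 0) ∧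
      volume {k ∈ cube (0 : Lat d) | v k ≠ 0} ≠ 0 := by
  classical
  -- the candidates
  let δ : Lat d → ell d := fun n => lp.single (E := fun _ : Lat d => ℂ) 2 n (1 : ℂ)
  let v : Lat d → E d → ell d := fun n k => (S k).ker.starProjection (δ n)
  have hδ : ∀ n, ‖δ n‖ = 1 := by
    intro n
    show ‖lp.single (E := fun _ : Lat d => ℂ) 2 n (1 : ℂ)‖ = 1
    rw [lp.norm_single (by norm_num)]
    exact norm_one
  have hmeas : ∀ n, StronglyMeasurable (v n) := by
    intro n
    exact stronglyMeasurable_of_tendsto atTop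
      (fun m => (Sel_continuous hS hsa m (δ n)).stronglyMeasurable)
      (tendsto_pi_nhds.2 fun k => Sel_tendsto (hsa k) (δ n))
  have hnorm : ∀ n k, ‖v n k‖ ≤ 1 := by
    intro n k
    calc ‖(S k).ker.starProjection (δ n)‖ ≤ ‖(S k).ker.starProjection‖ * ‖δ n‖ :=
          ContinuousLinearMap.le_opNorm _ _
      _ ≤ 1 * 1 := by
          rw [hδ]
          exact mul_le_mul_of_nonneg_right (Submodule.starProjection_norm_le _) zero_le_one
      _ = 1 := one_mul 1
  have hker : ∀ n k, S k (v n k) = 0 := by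
    intro n k
    have : v n k ∈ (S k).ker := Submodule.starProjection_apply_mem _ _
    exact this
  -- some candidate does not vanish at `k`
  have hex : ∀ k, ∃ n, v n k ≠ 0 := by
    intro k
    by_contra hcon
    push Not at hcon
    obtain ⟨u, hu, hSu⟩ := hk k
    apply hu
    have hmem : u ∈ (S k).ker := hSu
    ext n
    have h1 : inner ℂ (δ n - v n k) u = 0 :=
      Submodule.starProjection_inner_eq_zero _ _ hmem
    rw [hcon n, sub_zero] at h1
    have h2 : inner ℂ (δ n) u = u n := by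
      show inner ℂ (lp.single (E := fun _ : Lat d => ℂ) 2 n (1 : ℂ)) u = u n
      rw [lp.inner_single_left]
      simp
    rw [← h2, h1]
    rfl
  by_contra hcon
  push Not at hcon
  have hz : ∀ n, volume {k ∈ cube (0 : Lat d) | v n k ≠ 0} = 0 :=
    fun n => hcon (v n) (hmeas n) (hnorm n) (hker n)
  have hun : volume (⋃ n, {k ∈ cube (0 : Lat d) | v n k ≠ 0}) = 0 :=
    measure_iUnion_null hz
  have hsub : cube (0 : Lat d) ⊆ ⋃ n, {k ∈ cube (0 : Lat d) | v n k ≠ 0} := by
    intro k hkc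
    obtain ⟨n, hn⟩ := hex k
    exact mem_iUnion.2 ⟨n, hkc, hn⟩
  exact Sel_cube (measure_mono_null hsub hun)

end Pool.Agent.Lib.MP_c8757e_mp
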