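import Pool.Agent.Lib.MP_c8757e_mp.Fib

/-! FLAT, module Syn: synthesis of an `L²` function from its fibres over the unit cube. -/

open MeasureTheory Filter Topology Set
open scoped ENNReal

noncomputable section

namespace Pool.Agent.Lib.MP_c8757e_mp

variable {d : ℕ}

namespace Syn

/-- the integer part -/
def fl (ξ : E d) : Lat d := fun i => ⌊ξ i⌋

theorem measurable_fl : Measurable (fl (d := d)) := by
  unfold fl
  refine measurable_pi_lambda _ fun i => ?_
  refine Int.measurable_floor.comp ?_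
  fun_prop

theorem fl_add {k : E d} (hk : k ∈ cube (0 : Lat d)) (n : Lat d) : fl (k + latE n) = n := by
  funext i
  have h1 := (hk i).1
  have h2 := (hk i).2
  simp only [Pi.zero_apply, Int.cast_zero, zero_add] at h1 h2
  have h3 : (k + latE n) i = k i + (n i : ℝ) := rfl
  change ⌊(k + latE n) i⌋ = n i
  have h4 : ⌊k i⌋ = 0 := Int.floor_eq_iff.mpr ⟨by simpa using h1, by simpa using h2⟩
  rw [h3, Int.floor_add_intCast, h4, zero_add]

/-- the function with the given fibres -/
def fn (v : E d → ell d) (ξ : E d) : ℂ := v (ξ - latE (fl ξ)) (fl ξ)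

theorem fn_add (v : E d → ell d) {k : E d} (hk : k ∈ cube (0 : Lat d)) (n : Lat d) :
    fn v (k + latE n) = v k n := by
  unfold fn
  rw [fl_add hk, add_sub_cancel_right]

theorem continuous_coord (n : Lat d) : Continuous (fun w : ell d => (w : Lat d → ℂ) n) :=
  (continuous_apply n).comp (lp.uniformContinuous_coe).continuous

theorem measurable_fn {v : E d → ell d} (hv : StronglyMeasurable v) : Measurable (fn v) := by
  have h1 : Measurable (fun z : E d × Lat d => (v z.1 : Lat d → ℂ) z.2) := by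
    refine measurable_from_prod_countable_left fun n => ?_
    exact ((continuous_coord n).comp_stronglyMeasurable hv).measurable
  have h2 : Measurable (fun n : Lat d => latE n) := measurable_of_countable _
  have h3 : Measurable (fun ξ : E d => (ξ - latE (fl ξ), fl ξ)) :=
    (measurable_id.sub (h2.comp measurable_fl)).prodMk measurable_fl
  exact h1.comp h3

theorem vol_cube_lt : volume (cube (0 : Lat d)) < ∞ := by
  refine lt_of_le_of_lt (measure_mono (?_ : cube (0 : Lat d) ⊆ Metric.closedBall 0 (d : ℝ)))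
    measure_closedBall_lt_top
  intro k hk
  rw [mem_closedBall_zero_iff, EuclideanSpace.norm_eq]
  refine Real.sqrt_le_iff.mpr ⟨by positivity, ?_⟩
  have h1 : ∑ i, ‖k i‖ ^ 2 ≤ ∑ i : Fin d, (1 : ℝ) := by
    refine Finset.sum_le_sum fun i _ => ?_
    have h1 := (hk i).1
    have h2 := (hk i).2
    simp only [Pi.zero_apply, Int.cast_zero, zero_add] at h1 h2
    rw [Real.norm_eq_abs, abs_of_nonneg h1]
    nlinarith
  simp only [Finset.sum_const, Finset.card_univ, Fintype.card_fin, nsmul_eq_mul, mul_one] at h1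
  refine h1.trans ?_
  rcases Nat.eq_zero_or_pos d with rfl | hd
  · simp
  · have : (1 : ℝ) ≤ d := by exact_mod_cast hd
    nlinarith

theorem tsum_enorm (w : ell d) : ∑' n : Lat d, ‖(w : Lat d → ℂ) n‖ₑ ^ 2 = ‖w‖ₑ ^ 2 := by
  have h2 : (0 : ℝ) < (2 : ℝ≥0∞).toReal := by norm_num
  have hs := (lp.memℓp w).summable h2
  have hn := lp.norm_rpow_eq_tsum h2 w
  have e2 : (2 : ℝ≥0∞).toReal = 2 := by norm_num
  simp only [e2, Real.rpow_two] at hs hn
  have e3 : ∀ z : ℂ, ‖z‖ₑ ^ 2 = ENNReal.ofReal (‖z‖ ^ 2) := by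
    intro z
    rw [← ofReal_norm, ENNReal.ofReal_pow (norm_nonneg _)]
  simp only [e3]
  rw [← ENNReal.ofReal_tsum_of_nonneg (fun n => by positivity) hs, ← hn,
    ← ofReal_norm, ENNReal.ofReal_pow (norm_nonneg _)]

end Syn

open Syn in
/-- `Φ(ξ) = v(ξ - n)_n` for `ξ ∈ cube n` (`n = ⌊ξ⌋`); it is measurable and
`∫ |Φ|² = ∫_cube ‖v‖² ≤ C²` (`lintegral_eq_cube`). -/
theorem exists_of_fib (v : E d → ell d) (hv : StronglyMeasurable v) (C : ℝ)
    (hC : ∀ k, ‖v k‖ ≤ C) :
    ∃ Φ : L2E d, ∀ᵐ k : E d, k ∈ cube (0 : Lat d) → fib Φ k = v k := by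
  have hm := measurable_fn hv
  have hint : ∫⁻ ξ, ‖fn v ξ‖ₑ ^ 2 < ∞ := by
    rw [← lintegral_eq_cube (fun ξ => ‖fn v ξ‖ₑ ^ 2) (hm.enorm.pow_const 2).aemeasurable
      (0 : Lat d)]
    have hle : ∫⁻ k in cube (0 : Lat d), ∑' n : Lat d, ‖fn v (k + latE n)‖ₑ ^ 2 ≤
        ∫⁻ k in cube (0 : Lat d), ENNReal.ofReal C ^ 2 := by
      refine setLIntegral_mono measurable_const fun k hk => ?_
      have : ∀ n : Lat d, fn v (k + latE n) = v k n := fn_add v hk
      simp only [this]
      rw [tsum_enorm, ← ofReal_norm]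
      gcongr
      exact hC k
    refine lt_of_le_of_lt hle ?_
    rw [setLIntegral_const]
    exact ENNReal.mul_lt_top (ENNReal.pow_lt_top ENNReal.ofReal_lt_top) vol_cube_lt
  have hmem : MemLp (fn v) 2 volume := by
    refine ⟨hm.aestronglyMeasurable, ?_⟩
    rw [eLpNorm_lt_top_iff_lintegral_rpow_enorm_lt_top (by norm_num) (by norm_num)]
    have e2 : (2 : ℝ≥0∞).toReal = 2 := by norm_num
    simp only [e2, ENNReal.rpow_two]
    exact hint
  refine ⟨hmem.toLp (fn v), ?_⟩
  filter_upwards [fib_apply (hmem.toLp (fn v)), ae_shift hmem.coeFn_toLp] with k h1 h2 hk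
  refine lp.ext (funext fun n => ?_)
  rw [h1 n, h2 n, fn_add v hk n]

end Pool.Agent.Lib.MP_c8757e_mp
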