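import Pool.Agent.Lib.MP_c8757e_mp.FibMul
import Pool.Agent.Lib.MP_c8757e_mp.Four
import Pool.Agent.Lib.MP_c8757e_mp.KSet
import Pool.Agent.Lib.MP_c8757e_mp.Sel
import Pool.Agent.Lib.MP_c8757e_mp.Syn

/-! FLAT, module Conv: an eigenvalue of all fibres is an eigenvalue on `ℝ^d`. -/

open MeasureTheory Filter Topology Set UnitAddTorus
open scoped ENNReal FourierTransform

noncomputable section

namespace Pool.Agent.Lib.MP_c8757e_mp

variable {d : ℕ}

/-- A test function and its derivatives are in `L²`. -/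
private theorem Conv_test {φ : E d → ℂ} (hφ : IsTest φ) :
    MemLp φ 2 (volume : Measure (E d)) ∧ ∀ j, MemLp (pd j φ) 2 (volume : Measure (E d)) := by
  refine ⟨hφ.1.continuous.memLp_of_hasCompactSupport hφ.2, fun j => ?_⟩
  have h1 : Continuous (fderiv ℝ φ) := hφ.1.continuous_fderiv (by simp)
  have h2 : HasCompactSupport (fderiv ℝ φ) := hφ.2.fderiv (𝕜 := ℝ)
  have h3 : Continuous (pd j φ) := by
    unfold pd
    exact h1.clm_apply continuous_const
  refine h3.memLp_of_hasCompactSupport ?_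
  refine h2.comp_left (g := fun L : E d →L[ℝ] ℂ => L (EuclideanSpace.single j 1)) ?_
  simp

private theorem Conv_int {F : L2E d} {ψ : E d → ℂ} (hψ : MemLp ψ 2 (volume : Measure (E d))) :
    Integrable (fun x => F x * ψ x) volume :=
  (Lp.memLp F).integrable_mul hψ

private theorem Conv_X (v : E d → ell d) (j : Fin d) (k : E d) :
    Xop (toC k) j (v k) = Xop (0 : Fin d → ℂ) j (v k) +
      (2 * (Real.pi : ℂ) * (k j : ℂ)) • Wop d (v k) := by
  have h := Xop_add_smul (0 : Fin d → ℂ) (toC k) 1 j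
  rw [zero_add, one_smul] at h
  rw [h, add_apply, smul_apply]
  congr 2
  unfold toC
  ring

private theorem Conv_cube_meas : MeasurableSet (cube (0 : Lat d)) := by
  have : cube (0 : Lat d) = ⋂ i, {k : E d | (0 : ℝ) ≤ k i ∧ k i < 1} := by
    ext k
    simp [cube]
  rw [this]
  refine MeasurableSet.iInter fun i => ?_
  have h1 : Measurable fun k : E d => k i := by fun_prop
  exact (measurableSet_le measurable_const h1).inter (measurableSet_lt h1 measurable_const)

/-- The function with fibres `W v(k)`. -/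
private theorem Conv_Phi {v : E d → ell d} (hv : StronglyMeasurable v) (hb : ∀ k, ‖v k‖ ≤ 1) :
    ∃ Φ : L2E d, ∀ᵐ k : E d, k ∈ cube (0 : Lat d) → fib Φ k = Wop d (v k) := by
  refine exists_of_fib (fun k => Wop d (v k)) ((Wop d).continuous.comp_stronglyMeasurable hv)
    ‖Wop d‖ (fun k => ?_)
  calc ‖Wop d (v k)‖ ≤ ‖Wop d‖ * ‖v k‖ := (Wop d).le_opNorm _
    _ ≤ ‖Wop d‖ * 1 := mul_le_mul_of_nonneg_left (hb k) (norm_nonneg _)
    _ = ‖Wop d‖ := mul_one _

open Classical in
/-- The function with fibres `i X_j(k) v(k)`. -/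
private theorem Conv_Phij {v : E d → ell d} (hv : StronglyMeasurable v) (hb : ∀ k, ‖v k‖ ≤ 1)
    (j : Fin d) : ∃ Φ : L2E d, ∀ᵐ k : E d, k ∈ cube (0 : Lat d) →
      fib Φ k = Complex.I • Xop (toC k) j (v k) := by
  have hsm : StronglyMeasurable (fun k : E d => Complex.I • Xop (toC k) j (v k)) := by
    have h1 : StronglyMeasurable (fun k : E d => Xop (0 : Fin d → ℂ) j (v k)) :=
      (Xop (0 : Fin d → ℂ) j).continuous.comp_stronglyMeasurable hv
    have h2 : StronglyMeasurable (fun k : E d => Wop d (v k)) :=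
      (Wop d).continuous.comp_stronglyMeasurable hv
    have h3 : StronglyMeasurable (fun k : E d => (2 * (Real.pi : ℂ) * (k j : ℂ))) := by
      refine Continuous.stronglyMeasurable ?_
      fun_prop
    have h4 := (h1.add (h3.smul h2)).const_smul Complex.I
    have h5 : (fun k : E d => Complex.I • Xop (toC k) j (v k)) =
        Complex.I • ((fun k : E d => Xop (0 : Fin d → ℂ) j (v k)) +
          (fun k : E d => (2 * (Real.pi : ℂ) * (k j : ℂ))) • fun k : E d => Wop d (v k)) := by
      funext k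
      rw [Conv_X v j k]
      rfl
    rw [h5]
    exact h4
  have hsm2 : StronglyMeasurable ((cube (0 : Lat d)).indicator
      (fun k : E d => Complex.I • Xop (toC k) j (v k))) := hsm.indicator Conv_cube_meas
  obtain ⟨Φ, hΦ⟩ := exists_of_fib _ hsm2 (‖Xop (d := d) (0 : Fin d → ℂ) j‖ +
    2 * Real.pi * ‖Wop d‖) (fun k => by
      have hC : 0 ≤ ‖Xop (d := d) (0 : Fin d → ℂ) j‖ + 2 * Real.pi * ‖Wop d‖ := by positivity
      by_cases hk : k ∈ cube (0 : Lat d)
      · rw [indicator_of_mem hk, norm_smul, Complex.norm_I, one_mul, Conv_X v j k]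
        refine (norm_add_le _ _).trans (add_le_add ?_ ?_)
        · calc ‖Xop (0 : Fin d → ℂ) j (v k)‖ ≤ ‖Xop (d := d) (0 : Fin d → ℂ) j‖ * ‖v k‖ :=
              (Xop (0 : Fin d → ℂ) j).le_opNorm _
            _ ≤ ‖Xop (d := d) (0 : Fin d → ℂ) j‖ * 1 :=
              mul_le_mul_of_nonneg_left (hb k) (norm_nonneg _)
            _ = _ := mul_one _
        · have h1 := (hk j).1
          have h2 := (hk j).2
          simp only [Pi.zero_apply, Int.cast_zero, zero_add] at h1 h2
          rw [norm_smul, norm_mul, norm_mul, Complex.norm_real, Complex.norm_real,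
            Complex.norm_ofNat, Real.norm_eq_abs, Real.norm_eq_abs, abs_of_pos Real.pi_pos,
            abs_of_nonneg h1]
          have h3 : ‖Wop d (v k)‖ ≤ ‖Wop d‖ := by
            calc ‖Wop d (v k)‖ ≤ ‖Wop d‖ * ‖v k‖ := (Wop d).le_opNorm _
              _ ≤ ‖Wop d‖ * 1 := mul_le_mul_of_nonneg_left (hb k) (norm_nonneg _)
              _ = ‖Wop d‖ := mul_one _
          have h4 : 2 * Real.pi * k j ≤ 2 * Real.pi := by
            have := Real.pi_pos
            nlinarith
          exact mul_le_mul h4 h3 (norm_nonneg _) (by positivity)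
      · rw [indicator_of_notMem hk, norm_zero]
        exact hC)
  refine ⟨Φ, ?_⟩
  filter_upwards [hΦ] with k hk hkc
  rw [hk hkc, indicator_of_mem hkc]

private theorem Conv_fib_zero : ∀ᵐ k : E d, fib (0 : L2E d) k = 0 := by
  filter_upwards [fib_apply (0 : L2E d), ae_shift (Lp.coeFn_zero ℂ 2 (volume : Measure (E d)))]
    with k h1 h2
  ext n
  rw [h1 n, h2 n]
  rfl

/-- the Fourier transform of a finite sum, in the fibres -/
private theorem Conv_coe_sum {ι : Type*} (s : Finset ι) (F : ι → L2E d) :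
    ∀ᵐ x : E d, (∑ l ∈ s, F l : L2E d) x = ∑ l ∈ s, F l x := by
  classical
  induction s using Finset.induction_on with
  | empty =>
    filter_upwards [Lp.coeFn_zero ℂ 2 (volume : Measure (E d))] with x hx
    simp
  | insert a s ha ih =>
    rw [Finset.sum_insert ha]
    filter_upwards [Lp.coeFn_add (F a) (∑ l ∈ s, F l), ih] with x h1 h2
    rw [h1, Pi.add_apply, h2, Finset.sum_insert ha]

private theorem Conv_fourier_sum {ι : Type*} (s : Finset ι) (F : ι → L2E d) :
    (𝓕 (∑ l ∈ s, F l : L2E d) : L2E d) = ∑ l ∈ s, (𝓕 (F l) : L2E d) :=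
  map_sum (Lp.fourierTransformₗᵢ (E d) ℂ) F s

private theorem Conv_jap_ne (n : Lat d) : (jap n : ℂ) ≠ 0 := by
  have h := one_le_jap n
  have h2 : jap n ≠ 0 := by linarith
  exact_mod_cast h2

/-- `exists_section` for `S(k) = B(k) + μ N`; `exists_of_fib` for `W v(k)` and for
`i X_j(k) v(k)` (bounded by `C ‖v‖` on the cube; outside the cube replace `v` by `0`) gives `Φ`, `Φ_j`
with `Φ_j(ξ) = 2πi ξ_j Φ(ξ)` a.e. (`ae_of_ae_cube`). Let `u = 𝓕⁻ Φ`, `g_j = 𝓕⁻ Φ_j`. Weak gradient
and weak equation by `weak_of_fourier`; the Fourier identity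
`𝓕 w = - ∑ 2πi ξ_j 𝓕 h_j` is checked in the fibres over the cube with `fib_mulE` (divide the `n`-th
entry of `B(k) v = -μ N v` by `1/⟨n⟩`), then `ae_of_ae_cube`. -/
theorem isEigenvalue_of_Kset {A : Fin d → Fin d → LI d} {c : ℝ} (hA : Coef A c)
    (V : LI d) (μ : ℝ) (h : Kset A V (-μ) = univ) :
    IsEigenvalue (liftA A) (liftV V) μ := by
  -- the section
  have hScont : Continuous (fun k : E d => Bop A V (toC k) - (((-μ : ℝ) : ℂ)) • Nop d) :=
    (Bop_continuous A V).sub continuous_const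
  have hSsa : ∀ k : E d, IsSelfAdjoint (Bop A V (toC k) - (((-μ : ℝ) : ℂ)) • Nop d) := by
    intro k
    refine (Bop_isSelfAdjoint hA.symm V k).sub ?_
    refine IsSelfAdjoint.smul ?_ Nop_weight.sa
    rw [isSelfAdjoint_iff, Complex.star_def, Complex.conj_ofReal]
  have hSk : ∀ k : E d, ∃ u : ell d, u ≠ 0 ∧
      (Bop A V (toC k) - (((-μ : ℝ) : ℂ)) • Nop d) u = 0 := by
    intro k
    have hk : k ∈ Kset A V (-μ) := by
      rw [h]
      trivial
    obtain ⟨u, hu, hu2⟩ := hk
    refine ⟨u, hu, ?_⟩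
    rw [sub_apply, smul_apply, hu2, sub_self]
  obtain ⟨v, hvm, hvb, hvS, hvne⟩ := exists_section _ hScont hSsa hSk
  have hvB : ∀ k : E d, Bop A V (toC k) (v k) = (((-μ : ℝ) : ℂ)) • Nop d (v k) := by
    intro k
    have := hvS k
    rw [sub_apply, smul_apply, sub_eq_zero] at this
    exact this
  -- the functions on the Fourier side
  obtain ⟨Φ, hΦ⟩ := Conv_Phi hvm hvb
  choose Ψ hΨ using fun j => Conv_Phij hvm hvb j
  obtain ⟨u, hu⟩ : ∃ u : L2E d, (𝓕 u : L2E d) = Φ :=
    ⟨𝓕⁻ Φ, FourierTransform.fourier_fourierInv_eq Φ⟩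
  have hg' : ∀ j, ∃ g : L2E d, (𝓕 g : L2E d) = Ψ j :=
    fun j => ⟨𝓕⁻ (Ψ j), FourierTransform.fourier_fourierInv_eq (Ψ j)⟩
  choose g hg using hg'
  -- relation between the two
  have hrel : ∀ j, ∀ᵐ ξ : E d, Ψ j ξ = 2 * (Real.pi : ℂ) * Complex.I * (ξ j : ℂ) * Φ ξ := by
    intro j
    refine ae_of_ae_cube ?_
    filter_upwards [hΦ, hΨ j, fib_apply Φ, fib_apply (Ψ j)] with k h1 h2 h3 h4 hk n
    rw [← h4 n, ← h3 n, h1 hk, h2 hk, lp.coeFn_smul, Pi.smul_apply, Xop_apply, Wop_apply,
      smul_eq_mul]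
    have h5 : ((k + latE n) j : ℝ) = k j + (n j : ℝ) := rfl
    rw [h5]
    unfold toC
    have := Conv_jap_ne n
    push_cast
    field_simp
  -- nonzero
  have hu0 : ¬ ((u : E d → ℂ) =ᵐ[volume] 0) := by
    intro h0
    have h1 : u = 0 := (Lp.eq_zero_iff_ae_eq_zero).2 h0
    have h2 : Φ = 0 := by
      rw [← hu, h1]
      exact map_zero (Lp.fourierTransformₗᵢ (E d) ℂ)
    apply hvne
    rw [h2] at hΦ
    have h3 : ∀ᵐ k : E d, k ∉ {k ∈ cube (0 : Lat d) | v k ≠ 0} := by
      filter_upwards [hΦ, Conv_fib_zero (d := d)] with k h4 h5 h6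
      obtain ⟨h7, h8⟩ := h6
      apply h8
      have h9 := h4 h7
      rw [h5] at h9
      ext n
      have h10 := congrArg (fun w : ell d => (w : Lat d → ℂ) n) h9
      simp only [Wop_apply] at h10
      have h11 : ((1 / jap n : ℝ) : ℂ) ≠ 0 := by
        have := Conv_jap_ne n
        push_cast
        exact one_div_ne_zero this
      have h12 : ((0 : ell d) : Lat d → ℂ) n = 0 := rfl
      rw [h12] at h10 ⊢
      exact (mul_eq_zero.1 h10.symm).resolve_left h11
    exact measure_eq_zero_iff_ae_notMem.2 h3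
  refine ⟨u, fun j => g j, Lp.memLp u, fun j => Lp.memLp (g j), hu0, ?_, ?_⟩
  · -- weak gradient
    intro j φ hφ
    obtain ⟨ht1, ht2⟩ := Conv_test hφ
    have h1 := weak_of_fourier (Pi.single j u) (-(g j)) (by
      have e1 : (𝓕 (-(g j)) : L2E d) = - Ψ j := by
        rw [← hg j]
        exact map_neg (Lp.fourierTransformₗᵢ (E d) ℂ) (g j)
      rw [e1]
      filter_upwards [Lp.coeFn_neg (Ψ j), hrel j, Lp.coeFn_zero ℂ 2 (volume : Measure (E d))]
        with ξ h2 h3 h4
      rw [h2, Pi.neg_apply, h3]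
      congr 1
      rw [Finset.sum_eq_single j]
      · rw [Pi.single_eq_same, hu]
      · intro b _ hb
        rw [Pi.single_eq_of_ne hb]
        have e2 : (𝓕 (0 : L2E d) : L2E d) = 0 := map_zero (Lp.fourierTransformₗᵢ (E d) ℂ)
        rw [e2, h4]
        simp
      · intro hj
        exact absurd (Finset.mem_univ j) hj) φ hφ
    rw [Finset.sum_eq_single j] at h1
    · rw [Pi.single_eq_same] at h1
      rw [h1, ← integral_neg]
      refine integral_congr_ae ?_
      filter_upwards [Lp.coeFn_neg (g j)] with x hx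
      rw [hx, Pi.neg_apply]
      ring
    · intro b _ hb
      rw [Pi.single_eq_of_ne hb]
      have : (fun x => (0 : L2E d) x * pd b φ x) =ᵐ[volume] fun _ => (0 : ℂ) := by
        filter_upwards [Lp.coeFn_zero ℂ 2 (volume : Measure (E d))] with x hx
        rw [hx]
        simp
      rw [integral_congr_ae this, integral_zero]
    · intro hj
      exact absurd (Finset.mem_univ j) hj
  · -- weak equation
    intro φ hφ
    obtain ⟨ht1, ht2⟩ := Conv_test hφ
    have h1 := weak_of_fourier (fun j => ∑ l, mulE (cplx (A j l)) (g l))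
      (mulE (cplx V) u - (μ : ℂ) • u) (by
      refine ae_of_ae_cube ?_
      have e1 : (𝓕 (mulE (cplx V) u - (μ : ℂ) • u : L2E d) : L2E d) =
          (𝓕 (mulE (cplx V) u) : L2E d) - (μ : ℂ) • Φ := by
        rw [← hu]
        have e2 := map_sub (Lp.fourierTransformₗᵢ (E d) ℂ) (mulE (cplx V) u) ((μ : ℂ) • u)
        have e3 := map_smul (Lp.fourierTransformₗᵢ (E d) ℂ) (μ : ℂ) u
        rw [e3] at e2
        exact e2
      have e4 : ∀ j, (𝓕 (∑ l, mulE (cplx (A j l)) (g l) : L2E d) : L2E d) =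
          ∑ l, (𝓕 (mulE (cplx (A j l)) (g l)) : L2E d) := fun j => Conv_fourier_sum _ _
      simp only [e4]
      rw [e1]
      have a1 : ∀ᵐ k : E d, ∀ j, ∀ n : Lat d,
          (∑ l, (𝓕 (mulE (cplx (A j l)) (g l)) : L2E d) : L2E d) (k + latE n) =
          ∑ l, (𝓕 (mulE (cplx (A j l)) (g l)) : L2E d) (k + latE n) :=
        ae_all_iff.2 fun j => ae_shift (Conv_coe_sum _ _)
      have a2 : ∀ᵐ k : E d, ∀ j l, ∀ n : Lat d,
          fib (𝓕 (mulE (cplx (A j l)) (g l)) : L2E d) k n =
          (𝓕 (mulE (cplx (A j l)) (g l)) : L2E d) (k + latE n) :=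
        ae_all_iff.2 fun j => ae_all_iff.2 fun l => fib_apply _
      have a3 : ∀ᵐ k : E d, ∀ j l, fib (𝓕 (mulE (cplx (A j l)) (g l)) : L2E d) k =
          Mhat (cplx (A j l)) (fib (𝓕 (g l) : L2E d) k) :=
        ae_all_iff.2 fun j => ae_all_iff.2 fun l => fib_mulE _ _
      have a4 : ∀ᵐ k : E d, ∀ l, k ∈ cube (0 : Lat d) →
          fib (Ψ l) k = Complex.I • Xop (toC k) l (v k) := ae_all_iff.2 hΨ
      filter_upwards [a1, a2, a3, a4, hΦ, fib_mulE (cplx V) u, fib_apply (𝓕 (mulE (cplx V) u) : L2E d),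
        fib_apply Φ, ae_shift (Lp.coeFn_sub (𝓕 (mulE (cplx V) u) : L2E d) ((μ : ℂ) • Φ)),
        ae_shift (Lp.coeFn_smul (μ : ℂ) Φ)]
        with k b1 b2 b3 b4 b5 b6 b7 b8 b9 b10 hk n
      rw [b9 n, Pi.sub_apply, b10 n, Pi.smul_apply, ← b7 n, b6, hu, ← b8 n, b5 hk, smul_eq_mul]
      have b11 : ∀ j, (∑ l, (𝓕 (mulE (cplx (A j l)) (g l)) : L2E d) : L2E d) (k + latE n) =
          Complex.I * (∑ l, Mhat (cplx (A j l)) (Xop (toC k) l (v k)) n) := by
        intro j
        rw [b1 j n, Finset.mul_sum]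
        refine Finset.sum_congr rfl fun l _ => ?_
        rw [← b2 j l n, b3 j l, hg l, b4 l hk, map_smul, lp.coeFn_smul, Pi.smul_apply,
          smul_eq_mul]
      simp only [b11]
      -- the equation in the fibre
      have b12 := congrArg (fun w : ell d => (w : Lat d → ℂ) n) (hvB k)
      have b13 : Bop A V (toC k) (v k) =
          (∑ j, ∑ l, Xop (toC k) j (Mhat (cplx (A j l)) (Xop (toC k) l (v k)))) -
            Wop d (Mhat (cplx V) (Wop d (v k))) := by
        unfold Bop
        simp only [sub_apply, sum_apply, ContinuousLinearMap.comp_apply]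
      rw [b13] at b12
      have b14 : ∀ (ι : Type) (s : Finset ι) (f : ι → ell d),
          ((∑ i ∈ s, f i : ell d) : Lat d → ℂ) n = ∑ i ∈ s, (f i : Lat d → ℂ) n := by
        intro ι s f
        rw [lp.coeFn_sum, Finset.sum_apply]
      simp only [lp.coeFn_sub, Pi.sub_apply, b14, Xop_apply, Wop_apply, lp.coeFn_smul,
        Pi.smul_apply, Nop_apply, smul_eq_mul] at b12
      have hj := Conv_jap_ne n
      have b15 : ∀ j, ((k + latE n) j : ℝ) = k j + (n j : ℝ) := fun j => rfl
      simp only [b15]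
      have b16 : ∑ j, 2 * (Real.pi : ℂ) * Complex.I * (((k j + (n j : ℝ) : ℝ)) : ℂ) *
          (Complex.I * ∑ l, Mhat (cplx (A j l)) (Xop (toC k) l (v k)) n) =
          - ((jap n : ℂ) * ∑ j, ∑ l, 2 * (Real.pi : ℂ) * (toC k j + (n j : ℂ)) / (jap n : ℂ) *
            Mhat (cplx (A j l)) (Xop (toC k) l (v k)) n) := by
        rw [Finset.mul_sum, ← Finset.sum_neg_distrib]
        refine Finset.sum_congr rfl fun j _ => ?_
        rw [← Finset.mul_sum]
        unfold toC
        push_cast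
        have hI : Complex.I * Complex.I = -1 := Complex.I_mul_I
        field_simp
        linear_combination (((k j : ℂ) + (n j : ℂ)) *
          ∑ l, Mhat (cplx (A j l)) (Xop (fun j => ((k j : ℝ) : ℂ)) l (v k)) n) * hI
      rw [b16, neg_neg]
      rw [sub_eq_iff_eq_add] at b12
      rw [b12, Wop_apply]
      push_cast
      field_simp
      ring) φ hφ
    -- conversion of the integrals
    have h2 : ∀ j, ∫ x, (∑ l, mulE (cplx (A j l)) (g l) : L2E d) x * pd j φ x =
        ∑ l, ∫ x, (liftA A x j l : ℂ) * g l x * pd j φ x := by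
      intro j
      have e1 : (fun x => (∑ l, mulE (cplx (A j l)) (g l) : L2E d) x * pd j φ x) =ᵐ[volume]
          fun x => ∑ l, mulE (cplx (A j l)) (g l) x * pd j φ x := by
        filter_upwards [Conv_coe_sum Finset.univ (fun l => mulE (cplx (A j l)) (g l))] with x hx
        rw [hx, Finset.sum_mul]
      rw [integral_congr_ae e1, integral_finsetSum _ (fun l _ => Conv_int (ht2 j))]
      refine Finset.sum_congr rfl fun l _ => integral_congr_ae ?_
      filter_upwards [coeFn_mulE (cplx (A j l)) (g l), ae_proj (coeFn_cplx (A j l))] with x h3 h4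
      rw [h3, h4]
      rfl
    have h3 : ∫ x, (mulE (cplx V) u - (μ : ℂ) • u : L2E d) x * φ x =
        ∫ x, ((liftV V x : ℂ) - (μ : ℂ)) * u x * φ x := by
      refine integral_congr_ae ?_
      filter_upwards [Lp.coeFn_sub (mulE (cplx V) u) ((μ : ℂ) • u), Lp.coeFn_smul (μ : ℂ) u,
        coeFn_mulE (cplx V) u, ae_proj (coeFn_cplx V)] with x h4 h5 h6 h7
      rw [h4, Pi.sub_apply, h5, h6, h7, Pi.smul_apply, smul_eq_mul]
      unfold liftV
      ring
    rw [h3] at h1
    rw [← h1]
    exact Finset.sum_congr rfl fun j _ => (h2 j).symm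

end Pool.Agent.Lib.MP_c8757e_mp
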