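import Pool.Agent.Lib.MP_c8757e_mp.Base

/-!
# FLAT: definitions

Periodic elliptic operators `div (A grad) + V` on `ℝ^d`, their eigenvalues, and the Floquet-Bloch
fibre operators on `ℓ²(ℤ^d)`.
-/

open MeasureTheory Filter Topology Set
open scoped ENNReal

noncomputable section

namespace Pool.Agent.Lib.MP_c8757e_mp

/-- The torus `(ℝ/ℤ)^d`. -/
abbrev Tor (d : ℕ) := UnitAddTorus (Fin d)

/-- The lattice `ℤ^d`. -/
abbrev Lat (d : ℕ) := Fin d → ℤ

/-- The Hilbert space `ℓ²(ℤ^d)`. -/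
abbrev ell (d : ℕ) := lp (fun _ : Lat d => ℂ) 2

/-- The Hilbert space `L²(ℝ^d)`. -/
abbrev L2E (d : ℕ) := Lp ℂ 2 (volume : Measure (E d))

/-- The projection `ℝ^d → (ℝ/ℤ)^d`. -/
def proj {d : ℕ} (x : E d) : Tor d := fun i => (x i : UnitAddCircle)

/-! ### Coefficients on the torus -/

/-- The probability Haar measure of the torus. -/
def torM (d : ℕ) : Measure (Tor d) := Measure.pi (fun _ => AddCircle.haarAddCircle)

instance instTorMProb (d : ℕ) : IsProbabilityMeasure (torM d) :=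
  inferInstanceAs (IsProbabilityMeasure (Measure.pi (fun _ : Fin d => AddCircle.haarAddCircle)))

instance instTorMHaar (d : ℕ) : Measure.IsAddHaarMeasure (torM d) :=
  inferInstanceAs (Measure.IsAddHaarMeasure (Measure.pi (fun _ : Fin d => AddCircle.haarAddCircle)))

/-- Bounded measurable real functions on the torus (classes). -/
abbrev LI (d : ℕ) := Lp ℝ ∞ (torM d)

/-- Bounded measurable complex functions on the torus (classes). -/
abbrev LIC (d : ℕ) := Lp ℂ ∞ (torM d)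

/-- The complex Hilbert space `L²(T^d; ℂ)`. -/
abbrev LC (d : ℕ) := Lp ℂ 2 (torM d)

/-- A matrix of bounded functions on the torus, as a matrix valued function on `ℝ^d`. -/
def liftA {d : ℕ} (A : Fin d → Fin d → LI d) (x : E d) : Matrix (Fin d) (Fin d) ℝ :=
  fun j l => A j l (proj x)

/-- A bounded function on the torus, as a function on `ℝ^d`. -/
def liftV {d : ℕ} (V : LI d) (x : E d) : ℝ := V (proj x)

/-- Symmetric coefficient matrix with ellipticity constant `c`. -/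
structure Coef {d : ℕ} (A : Fin d → Fin d → LI d) (c : ℝ) : Prop where
  symm : ∀ j l, A j l = A l j
  pos : 0 < c
  ell : ∀ᵐ x ∂(torM d), ∀ ξ : Fin d → ℝ,
    c * ∑ j, ξ j ^ 2 ≤ ∑ j, ∑ l, A j l x * ξ j * ξ l

/-- The complexification of a real bounded function. -/
def cplx {d : ℕ} (a : LI d) : LIC d := Complex.ofRealCLM.compLp a

/-- A continuous function as an element of `L^∞`. -/
def toLIC {d : ℕ} : C(Tor d, ℂ) →L[ℂ] LIC d := ContinuousMap.toLp ∞ (torM d) ℂ

/-! ### Operators on `ℓ²(ℤ^d)` -/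

theorem memℓp_bdd_mul {ι : Type*} {f : ι → ℂ} {C : ℝ} (hC : ∀ i, ‖f i‖ ≤ C)
    (v : lp (fun _ : ι => ℂ) 2) : Memℓp (fun i => f i * v i) 2 := by
  have h2 : (0 : ℝ) < (2 : ℝ≥0∞).toReal := by norm_num
  rw [memℓp_gen_iff h2]
  have hv := (lp.memℓp v).summable h2
  refine Summable.of_nonneg_of_le (fun i => by positivity) (fun i => ?_) (hv.mul_left (C ^ 2))
  have e2 : (2 : ℝ≥0∞).toReal = 2 := by norm_num
  rw [e2, Real.rpow_two, Real.rpow_two, norm_mul, mul_pow]
  have h0 : ‖f i‖ ^ 2 ≤ C ^ 2 := by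
    have := norm_nonneg (f i)
    have := hC i
    nlinarith
  exact mul_le_mul_of_nonneg_right h0 (by positivity)

/-- Multiplication by a bounded sequence, as a linear map. -/
def diagLin {ι : Type*} (f : ι → ℂ) (h : ∃ C : ℝ, ∀ i, ‖f i‖ ≤ C) :
    lp (fun _ : ι => ℂ) 2 →ₗ[ℂ] lp (fun _ : ι => ℂ) 2 where
  toFun := fun v => ⟨fun i => f i * v i, memℓp_bdd_mul h.choose_spec v⟩
  map_add' := by
    intro v w
    ext i
    simp [mul_add]
  map_smul' := by
    intro c v
    ext i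
    simp [mul_left_comm]

theorem diagLin_norm_le {ι : Type*} (f : ι → ℂ) (h : ∃ C : ℝ, ∀ i, ‖f i‖ ≤ C) {C : ℝ}
    (hC : ∀ i, ‖f i‖ ≤ C) (v : lp (fun _ : ι => ℂ) 2) : ‖diagLin f h v‖ ≤ |C| * ‖v‖ := by
  have h2 : (0 : ℝ) < (2 : ℝ≥0∞).toReal := by norm_num
  refine lp.norm_le_of_tsum_le h2 (by positivity) ?_
  have hv := (lp.memℓp v).summable h2
  have hn := lp.norm_rpow_eq_tsum h2 v
  have e2 : (2 : ℝ≥0∞).toReal = 2 := by norm_num
  simp only [e2, Real.rpow_two] at hv hn ⊢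
  rw [mul_pow, hn, ← tsum_mul_left]
  have hle : ∀ i, ‖diagLin f h v i‖ ^ 2 ≤ |C| ^ 2 * ‖v i‖ ^ 2 := by
    intro i
    change ‖f i * v i‖ ^ 2 ≤ _
    rw [norm_mul, mul_pow]
    have h0 : ‖f i‖ ^ 2 ≤ |C| ^ 2 := by
      have h1 := norm_nonneg (f i)
      have h3 := (hC i).trans (le_abs_self C)
      nlinarith
    exact mul_le_mul_of_nonneg_right h0 (by positivity)
  exact Summable.tsum_le_tsum hle
    (Summable.of_nonneg_of_le (fun i => by positivity) hle (hv.mul_left _)) (hv.mul_left _)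

/-- Multiplication by a bounded sequence (zero if the sequence is unbounded). -/
def diagOp {ι : Type*} (f : ι → ℂ) : lp (fun _ : ι => ℂ) 2 →L[ℂ] lp (fun _ : ι => ℂ) 2 :=
  open Classical in
  if h : ∃ C : ℝ, ∀ i, ‖f i‖ ≤ C then
    (diagLin f h).mkContinuous |h.choose| (fun v => diagLin_norm_le f h h.choose_spec v)
  else 0

theorem diagOp_apply {ι : Type*} {f : ι → ℂ} {C : ℝ} (hC : ∀ i, ‖f i‖ ≤ C)
    (v : lp (fun _ : ι => ℂ) 2) (i : ι) : diagOp f v i = f i * v i := by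
  unfold diagOp
  rw [dif_pos ⟨C, hC⟩]
  rfl

theorem diagOp_norm_le {ι : Type*} {f : ι → ℂ} {C : ℝ} (hC0 : 0 ≤ C) (hC : ∀ i, ‖f i‖ ≤ C) :
    ‖diagOp f‖ ≤ C := by
  refine ContinuousLinearMap.opNorm_le_bound _ hC0 (fun v => ?_)
  have h := diagLin_norm_le f ⟨C, hC⟩ hC v
  rw [abs_of_nonneg hC0] at h
  unfold diagOp
  rw [dif_pos ⟨C, hC⟩]
  exact h

/-- The weight `⟨n⟩ = (1 + |n|²)^{1/2}`. -/
def jap {d : ℕ} (n : Lat d) : ℝ := Real.sqrt (1 + ∑ i, (n i : ℝ) ^ 2)

/-- `W = diag (1/⟨n⟩)`. -/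
def Wop (d : ℕ) : ell d →L[ℂ] ell d := diagOp (fun n => ((1 / jap n : ℝ) : ℂ))

/-- `N = W²= diag (1/⟨n⟩²)`. -/
def Nop (d : ℕ) : ell d →L[ℂ] ell d := diagOp (fun n => ((1 / jap n ^ 2 : ℝ) : ℂ))

/-- `X_j(k) = diag (2π (k + n)_j / ⟨n⟩)`, for complex `k`. -/
def Xop {d : ℕ} (k : Fin d → ℂ) (j : Fin d) : ell d →L[ℂ] ell d :=
  diagOp (fun n => 2 * (Real.pi : ℂ) * (k j + (n j : ℂ)) / (jap n : ℂ))

attribute [local instance] instMeasureSpaceUnitAddCircle

/-- The measure on `ℝ / ℤ` is a Haar measure. -/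
local instance instHaarCirc : Measure.IsAddHaarMeasure (volume : Measure UnitAddCircle) :=
  inferInstanceAs (Measure.IsAddHaarMeasure AddCircle.haarAddCircle)

/-- The measure on `ℝ / ℤ` is a probability measure. -/
local instance instProbCirc : IsProbabilityMeasure (volume : Measure UnitAddCircle) :=
  inferInstanceAs (IsProbabilityMeasure AddCircle.haarAddCircle)

/-- Fourier coefficients, as a unitary operator. -/
def fb (d : ℕ) : LC d ≃ₗᵢ[ℂ] ell d := (UnitAddTorus.mFourierBasis (d := Fin d)).repr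

/-- Multiplication by a bounded function on `L²` of the torus. -/
def mulL {d : ℕ} (a : LIC d) : LC d →L[ℂ] LC d :=
  (ContinuousLinearMap.mul ℂ ℂ).holderL (torM d) ∞ 2 2 a

/-- The operator on `ℓ²(ℤ^d)` which is, in Fourier coefficients, multiplication by `a`. -/
def Mhat {d : ℕ} (a : LIC d) : ell d →L[ℂ] ell d :=
  (fb d).toContinuousLinearEquiv.toContinuousLinearMap ∘L mulL a ∘L
    (fb d).symm.toContinuousLinearEquiv.toContinuousLinearMap

/-- The fibre operator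
`B(k) = ∑ X_j(k) M(A_jl) X_l(k) - W M(V) W`. Here `k` may be complex. -/
def Bop {d : ℕ} (A : Fin d → Fin d → LI d) (V : LI d) (k : Fin d → ℂ) :
    ell d →L[ℂ] ell d :=
  (∑ j, ∑ l, Xop k j ∘L Mhat (cplx (A j l)) ∘L Xop k l) - Wop d ∘L Mhat (cplx V) ∘L Wop d

/-- A real vector as a complex one. -/
def toC {d : ℕ} (k : E d) : Fin d → ℂ := fun j => (k j : ℂ)

/-! ### Multiplication and fibres on `L²(ℝ^d)` -/

theorem continuous_proj {d : ℕ} : Continuous (proj (d := d)) := by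
  unfold proj
  refine continuous_pi fun i => ?_
  exact (AddCircle.continuous_mk' (1 : ℝ)).comp (by fun_prop)

/-- The function `a ∘ proj` on `ℝ^d` (it is essentially bounded, see module Quasi). -/
def compE {d : ℕ} (a : LIC d) : Lp ℂ ∞ (volume : Measure (E d)) :=
  open Classical in
  if h : MemLp (fun x : E d => a (proj x)) ∞ volume then h.toLp else 0

/-- Multiplication by the periodic function `a ∘ proj` on `L²(ℝ^d)`. -/
def mulE {d : ℕ} (a : LIC d) : L2E d →L[ℂ] L2E d :=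
  (ContinuousLinearMap.mul ℂ ℂ).holderL volume ∞ 2 2 (compE a)

/-- The fibre of `Φ` over `k`: the sequence `n ↦ Φ(k + n)` (zero if it is not in `ℓ²`). -/
def fib {d : ℕ} (Φ : E d → ℂ) (k : E d) : ell d :=
  open Classical in
  if h : Memℓp (fun n : Lat d => Φ (k + latE n)) 2 then ⟨fun n => Φ (k + latE n), h⟩ else 0

/-- The half-open unit cube at the lattice point `m`. -/
def cube {d : ℕ} (m : Lat d) : Set (E d) := {k | ∀ i, (m i : ℝ) ≤ k i ∧ k i < (m i : ℝ) + 1}

/-! ### Abstract pencils -/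

section Abstract

variable {H : Type*} [NormedAddCommGroup H] [InnerProductSpace ℂ H] [CompleteSpace H]

/-- `N` is self-adjoint, compact and strictly positive. -/
structure Weight (N : H →L[ℂ] H) : Prop where
  sa : IsSelfAdjoint N
  cpt : IsCompactOperator N
  pos : ∀ u : H, u ≠ 0 → 0 < (inner ℂ (N u) u).re

/-- `S` is self-adjoint and coercive modulo `N`. -/
structure Elliptic (N S : H →L[ℂ] H) : Prop where
  sa : IsSelfAdjoint S
  coer : ∃ c δ : ℝ, 0 < δ ∧
    ∀ u : H, δ * ‖u‖ ^ 2 ≤ (inner ℂ (S u) u).re + c * (inner ℂ (N u) u).re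

/-- `z` is an eigenvalue of the pencil `S - z N`. -/
def IsEig (N S : H →L[ℂ] H) (z : ℂ) : Prop := ∃ u : H, u ≠ 0 ∧ S u = z • N u

end Abstract

end Pool.Agent.Lib.MP_c8757e_mp
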