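import Pool.Agent.Lib.MP_c8757e_mp.Defs

/-! FLAT, module Diag: the diagonal operators `W`, `N`, `X_j(k)`. -/

open MeasureTheory Filter Topology Set
open scoped ENNReal ComplexInnerProductSpace

noncomputable section

namespace Pool.Agent.Lib.MP_c8757e_mp

variable {d : ℕ}

theorem one_le_jap (n : Lat d) : 1 ≤ jap n := by
  unfold jap
  rw [Real.one_le_sqrt]
  have : 0 ≤ ∑ i, (n i : ℝ) ^ 2 := Finset.sum_nonneg (fun i _ => sq_nonneg _)
  linarith

theorem jap_sq (n : Lat d) : jap n ^ 2 = 1 + ∑ i, (n i : ℝ) ^ 2 := by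
  unfold jap
  rw [Real.sq_sqrt]
  have : 0 ≤ ∑ i, (n i : ℝ) ^ 2 := Finset.sum_nonneg (fun i _ => sq_nonneg _)
  linarith

private theorem Diag_jap_pos (n : Lat d) : 0 < jap n := lt_of_lt_of_le one_pos (one_le_jap n)

private theorem Diag_abs_le (n : Lat d) (i : Fin d) : |(n i : ℝ)| ≤ jap n := by
  apply abs_le_of_sq_le_sq _ (Diag_jap_pos n).le
  rw [jap_sq]
  have h := Finset.single_le_sum (f := fun i => (n i : ℝ) ^ 2) (fun i _ => sq_nonneg _)
    (Finset.mem_univ i)
  linarith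

private theorem Diag_W_bd (n : Lat d) : ‖((1 / jap n : ℝ) : ℂ)‖ ≤ 1 := by
  rw [Complex.norm_real, Real.norm_eq_abs, abs_of_nonneg (by
    have := Diag_jap_pos n
    positivity), div_le_one (Diag_jap_pos n)]
  exact one_le_jap n

private theorem Diag_N_bd (n : Lat d) : ‖((1 / jap n ^ 2 : ℝ) : ℂ)‖ ≤ 1 := by
  rw [Complex.norm_real, Real.norm_eq_abs, abs_of_nonneg (by
    have := Diag_jap_pos n
    positivity), div_le_one (by
    have := Diag_jap_pos n
    positivity)]
  exact one_le_pow₀ (one_le_jap n)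

theorem Wop_apply (v : ell d) (n : Lat d) : Wop d v n = ((1 / jap n : ℝ) : ℂ) * v n :=
  diagOp_apply Diag_W_bd v n

theorem Nop_apply (v : ell d) (n : Lat d) : Nop d v n = ((1 / jap n ^ 2 : ℝ) : ℂ) * v n :=
  diagOp_apply Diag_N_bd v n

private theorem Diag_ext {A B : ell d →L[ℂ] ell d} (h : ∀ v n, A v n = B v n) : A = B := by
  apply ContinuousLinearMap.ext
  intro v
  apply lp.ext
  funext n
  exact h v n

theorem Nop_eq : Nop d = Wop d ∘L Wop d := by
  apply Diag_ext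
  intro v n
  rw [Nop_apply, ContinuousLinearMap.comp_apply, Wop_apply, Wop_apply]
  push_cast
  ring

/-- The multiplier of `X_j(k)` is bounded by `2π (‖k j‖ + 1)`. -/
theorem Xop_apply (k : Fin d → ℂ) (j : Fin d) (v : ell d) (n : Lat d) :
    Xop k j v n = 2 * (Real.pi : ℂ) * (k j + (n j : ℂ)) / (jap n : ℂ) * v n := by
  refine diagOp_apply (C := 2 * Real.pi * (‖k j‖ + 1)) (fun n => ?_) v n
  have hp := Diag_jap_pos n
  have h1 : ‖(n j : ℂ)‖ = |(n j : ℝ)| := by
    rw [← Complex.ofReal_intCast, Complex.norm_real, Real.norm_eq_abs]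
  rw [norm_div, norm_mul, norm_mul, Complex.norm_real, Complex.norm_real, Real.norm_eq_abs,
    Real.norm_eq_abs, abs_of_pos hp, abs_of_pos Real.pi_pos, Complex.norm_ofNat,
    div_le_iff₀ hp]
  have h2 : ‖k j + (n j : ℂ)‖ ≤ (‖k j‖ + 1) * jap n := by
    refine (norm_add_le _ _).trans ?_
    rw [h1]
    have h3 := Diag_abs_le n j
    have h4 := one_le_jap n
    have h5 := norm_nonneg (k j)
    nlinarith
  have h6 := mul_le_mul_of_nonneg_left h2 (by positivity : (0 : ℝ) ≤ 2 * Real.pi)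
  linarith

/-- `X_j(k + z ω) = X_j(k) + 2π z ω_j W`. -/
theorem Xop_add_smul (k ω : Fin d → ℂ) (z : ℂ) (j : Fin d) :
    Xop (k + z • ω) j = Xop k j + (2 * (Real.pi : ℂ) * z * ω j) • Wop d := by
  apply Diag_ext
  intro v n
  rw [ContinuousLinearMap.add_apply, ContinuousLinearMap.smul_apply, lp.coeFn_add, Pi.add_apply,
    lp.coeFn_smul, Pi.smul_apply, Xop_apply, Xop_apply, Wop_apply, smul_eq_mul, Pi.add_apply,
    Pi.smul_apply, smul_eq_mul]
  have hp : (jap n : ℂ) ≠ 0 := by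
    exact_mod_cast (Diag_jap_pos n).ne'
  push_cast
  field_simp
  ring

private theorem Diag_selfAdjoint (A : ell d →L[ℂ] ell d) (f : Lat d → ℝ)
    (h : ∀ v n, A v n = ((f n : ℝ) : ℂ) * v n) : IsSelfAdjoint A := by
  rw [ContinuousLinearMap.isSelfAdjoint_iff_isSymmetric]
  intro v w
  change inner ℂ (A v) w = inner ℂ v (A w)
  rw [lp.inner_eq_tsum, lp.inner_eq_tsum]
  congr 1
  funext n
  rw [h v n, h w n]
  simp only [RCLike.inner_apply, map_mul, Complex.conj_ofReal]
  ring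

theorem Wop_isSelfAdjoint : IsSelfAdjoint (Wop d) :=
  Diag_selfAdjoint _ (fun n => 1 / jap n) Wop_apply

theorem Xop_isSelfAdjoint (k : E d) (j : Fin d) : IsSelfAdjoint (Xop (toC k) j) := by
  refine Diag_selfAdjoint _ (fun n => 2 * Real.pi * (k j + (n j : ℝ)) / jap n) (fun v n => ?_)
  rw [Xop_apply]
  unfold toC
  push_cast
  rfl

private theorem Diag_hasSum (v : ell d) : HasSum (fun n => ‖v n‖ ^ 2) (‖v‖ ^ 2) := by
  have h2 : (0 : ℝ) < (2 : ℝ≥0∞).toReal := by norm_num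
  have h := lp.hasSum_norm h2 v
  have e2 : (2 : ℝ≥0∞).toReal = 2 := by norm_num
  simp only [e2, Real.rpow_two] at h
  exact h

private def Diag_T (n : Lat d) : ell d →L[ℂ] ell d :=
  (ContinuousLinearMap.toSpanSingleton ℂ (lp.single 2 n (1 : ℂ) : ell d)) ∘L
    (innerSL ℂ (lp.single 2 n (1 : ℂ) : ell d))

private theorem Diag_T_compact (n : Lat d) : IsCompactOperator (Diag_T n) := by
  unfold Diag_T
  exact (isCompactOperator_of_locallyCompactSpace_rng
    (ContinuousLinearMap.toSpanSingleton ℂ _)).comp_clm _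

private theorem Diag_T_apply (n m : Lat d) (v : ell d) :
    Diag_T n v m = if m = n then v n else 0 := by
  unfold Diag_T
  rw [ContinuousLinearMap.comp_apply, ContinuousLinearMap.toSpanSingleton_apply,
    innerSL_apply_apply, lp.inner_single_left, lp.coeFn_smul, Pi.smul_apply, lp.coeFn_single]
  by_cases h : m = n
  · subst h
    rw [Pi.single_eq_same, if_pos rfl]
    simp
  · rw [Pi.single_eq_of_ne h, if_neg h, smul_zero]

private theorem Diag_finite (R : ℝ) : {n : Lat d | jap n ≤ R}.Finite := by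
  refine Set.Finite.subset (Set.finite_Icc (fun _ : Fin d => -⌈R⌉) (fun _ => ⌈R⌉)) ?_
  intro n hn
  have h1 : ∀ i, |(n i : ℝ)| ≤ ⌈R⌉ := fun i =>
    (Diag_abs_le n i).trans ((show jap n ≤ R from hn).trans (Int.le_ceil R))
  refine ⟨fun i => ?_, fun i => ?_⟩
  · have h2 := (abs_le.1 (h1 i)).1
    exact_mod_cast h2
  · have h2 := (abs_le.1 (h1 i)).2
    exact_mod_cast h2

private theorem Diag_compact : IsCompactOperator (Nop d) := by
  classical
  let F : Finset (Lat d) → (ell d →L[ℂ] ell d) := fun s =>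
    ∑ n ∈ s, ((1 / jap n ^ 2 : ℝ) : ℂ) • Diag_T n
  have hF : ∀ s, IsCompactOperator (F s) := by
    intro s
    have h1 : F s ∈ compactOperator (RingHom.id ℂ) (ell d) (ell d) :=
      Submodule.sum_mem _ (fun n _ => Submodule.smul_mem _ _ (Diag_T_compact n))
    exact h1
  have hval : ∀ s v m, F s v m = if m ∈ s then ((1 / jap m ^ 2 : ℝ) : ℂ) * v m else 0 := by
    intro s v m
    have h1 : F s v m = ∑ n ∈ s, ((1 / jap n ^ 2 : ℝ) : ℂ) * (Diag_T n v m) := by
      show (∑ n ∈ s, ((1 / jap n ^ 2 : ℝ) : ℂ) • Diag_T n) v m = _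
      rw [ContinuousLinearMap.sum_apply, lp.coeFn_sum, Finset.sum_apply]
      rfl
    rw [h1]
    have h2 : ∀ n ∈ s, ((1 / jap n ^ 2 : ℝ) : ℂ) * (Diag_T n v m) =
        if m = n then ((1 / jap m ^ 2 : ℝ) : ℂ) * v m else 0 := by
      intro n _
      rw [Diag_T_apply]
      by_cases h : m = n
      · subst h
        rw [if_pos rfl, if_pos rfl]
      · rw [if_neg h, if_neg h, mul_zero]
    rw [Finset.sum_congr rfl h2, Finset.sum_ite_eq]
  have hlim : Tendsto F atTop (𝓝 (Nop d)) := by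
    rw [Metric.tendsto_atTop]
    intro ε hε
    obtain ⟨R, hR0, hR⟩ : ∃ R : ℝ, 0 < R ∧ 1 / R ^ 2 < ε := by
      refine ⟨1 / ε + 1, by positivity, ?_⟩
      have h1 : 0 < 1 / ε := by positivity
      rw [div_lt_iff₀ (by positivity)]
      have h2 : ε * (1 / ε) = 1 := by field_simp
      nlinarith
    refine ⟨(Diag_finite (d := d) R).toFinset, fun s hs => ?_⟩
    rw [dist_eq_norm]
    refine lt_of_le_of_lt ?_ hR
    have hdiff : F s - Nop d =
        diagOp (fun n => if n ∈ s then (0 : ℂ) else -((1 / jap n ^ 2 : ℝ) : ℂ)) := by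
      apply Diag_ext
      intro v m
      rw [ContinuousLinearMap.sub_apply, lp.coeFn_sub, Pi.sub_apply, hval, Nop_apply,
        diagOp_apply (C := 1) (fun n => ?_)]
      · by_cases h : m ∈ s
        · rw [if_pos h, if_pos h]
          ring
        · rw [if_neg h, if_neg h]
          ring
      · by_cases h : n ∈ s
        · rw [if_pos h, norm_zero]
          exact zero_le_one
        · rw [if_neg h, norm_neg]
          exact Diag_N_bd n
    rw [hdiff]
    refine diagOp_norm_le (by positivity) (fun n => ?_)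
    by_cases h : n ∈ s
    · rw [if_pos h, norm_zero]
      positivity
    · rw [if_neg h, norm_neg, Complex.norm_real, Real.norm_eq_abs]
      have h1 : R < jap n := by
        by_contra hc
        exact h (hs ((Diag_finite (d := d) R).mem_toFinset.2 (not_lt.1 hc)))
      have h2 := Diag_jap_pos n
      rw [abs_of_nonneg (by positivity)]
      exact one_div_le_one_div_of_le (by positivity) (pow_le_pow_left₀ hR0.le h1.le 2)
  exact isCompactOperator_of_tendsto hlim (Filter.Eventually.of_forall hF)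

theorem norm_Wop_sq (v : ell d) : ‖Wop d v‖ ^ 2 = (inner ℂ (Nop d v) v).re := by
  have h1 : inner ℂ (Nop d v) v = inner ℂ (Wop d v) (Wop d v) := by
    rw [Nop_eq, ContinuousLinearMap.comp_apply]
    have h2 := (ContinuousLinearMap.isSelfAdjoint_iff_isSymmetric.1 (Wop_isSelfAdjoint (d := d)))
      (Wop d v) v
    exact h2
  rw [h1, inner_self_eq_norm_sq_to_K]
  norm_cast

/-- Compactness: the truncations of `N` to `⟨n⟩ ≤ R` have finite rank and are within `1/R²` of `N`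
in norm (`diagOp_norm_le`); limits of finite rank operators are compact. -/
theorem Nop_weight : Weight (Nop d) := by
  refine ⟨Diag_selfAdjoint _ (fun n => 1 / jap n ^ 2) Nop_apply, Diag_compact, fun u hu => ?_⟩
  rw [← norm_Wop_sq]
  have h1 : Wop d u ≠ 0 := by
    intro h
    apply hu
    apply lp.ext
    funext n
    have h2 : Wop d u n = 0 := by
      rw [h]
      rfl
    rw [Wop_apply] at h2
    have h3 : ((1 / jap n : ℝ) : ℂ) ≠ 0 := by
      have := Diag_jap_pos n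
      exact_mod_cast (by positivity : (1 / jap n : ℝ) ≠ 0)
    exact (mul_eq_zero.1 h2).resolve_left h3
  have h2 := norm_pos_iff.2 h1
  positivity

/-- `|2π(k+n)|² ≥ 4π² (|n|²/2 - |k|²)`, summed over `n` with weight `|v_n|²/⟨n⟩²`. -/
theorem Xop_coercive (k : E d) (v : ell d) :
    2 * Real.pi ^ 2 * ‖v‖ ^ 2 ≤ (∑ j, ‖Xop (toC k) j v‖ ^ 2) +
      (4 * Real.pi ^ 2 * ‖k‖ ^ 2 + 2 * Real.pi ^ 2) * ‖Wop d v‖ ^ 2 := by
  have hL := (Diag_hasSum v).mul_left (2 * Real.pi ^ 2)
  have hR := (hasSum_sum (s := (Finset.univ : Finset (Fin d)))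
    (fun j _ => Diag_hasSum (Xop (toC k) j v))).add
    ((Diag_hasSum (Wop d v)).mul_left (4 * Real.pi ^ 2 * ‖k‖ ^ 2 + 2 * Real.pi ^ 2))
  refine hasSum_le (fun n => ?_) hL hR
  have hp := Diag_jap_pos n
  have hX : ∀ j, ‖Xop (toC k) j v n‖ ^ 2 =
      4 * Real.pi ^ 2 * (k j + (n j : ℝ)) ^ 2 * (‖v n‖ ^ 2 / jap n ^ 2) := by
    intro j
    have h1 : Xop (toC k) j v n = ((2 * Real.pi * (k j + (n j : ℝ)) / jap n : ℝ) : ℂ) * v n := by
      rw [Xop_apply]
      unfold toC
      push_cast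
      rfl
    rw [h1, norm_mul, Complex.norm_real, Real.norm_eq_abs, mul_pow, sq_abs]
    field_simp
    ring
  have hW : ‖Wop d v n‖ ^ 2 = ‖v n‖ ^ 2 / jap n ^ 2 := by
    rw [Wop_apply, norm_mul, Complex.norm_real, Real.norm_eq_abs, mul_pow, sq_abs]
    field_simp
  have hv : ‖v n‖ ^ 2 = jap n ^ 2 * (‖v n‖ ^ 2 / jap n ^ 2) := by
    field_simp
  rw [hW]
  simp only [hX]
  rw [← Finset.sum_mul, ← Finset.mul_sum]
  set y : ℝ := ‖v n‖ ^ 2 / jap n ^ 2 with hy
  have hy0 : 0 ≤ y := by positivity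
  rw [hv, jap_sq]
  have hk : ‖k‖ ^ 2 = ∑ j, k j ^ 2 := by
    rw [EuclideanSpace.norm_sq_eq]
    refine Finset.sum_congr rfl (fun j _ => ?_)
    rw [Real.norm_eq_abs, sq_abs]
  have h1 : ∑ i, (n i : ℝ) ^ 2 ≤ 2 * ∑ j, (k j + (n j : ℝ)) ^ 2 + 2 * ‖k‖ ^ 2 := by
    rw [hk, Finset.mul_sum, Finset.mul_sum, ← Finset.sum_add_distrib]
    refine Finset.sum_le_sum (fun j _ => ?_)
    nlinarith [sq_nonneg (2 * k j + (n j : ℝ))]
  have h2 : 2 * Real.pi ^ 2 * (1 + ∑ i, (n i : ℝ) ^ 2) ≤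
      4 * Real.pi ^ 2 * ∑ j, (k j + (n j : ℝ)) ^ 2 +
      (4 * Real.pi ^ 2 * ‖k‖ ^ 2 + 2 * Real.pi ^ 2) := by
    have h3 := mul_le_mul_of_nonneg_left h1 (by positivity : (0 : ℝ) ≤ 2 * Real.pi ^ 2)
    linarith
  have h4 := mul_le_mul_of_nonneg_right h2 hy0
  linarith

end Pool.Agent.Lib.MP_c8757e_mp
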