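import Mathlib

/-! FLAT, module Mat: two analytic families of matrices either have a common eigenvalue near `z₀`,
or have none in a punctured neighbourhood. -/

open Filter Topology Set Polynomial

noncomputable section

namespace Pool.Agent.Lib.MP_c8757e_mp

/-- A family of polynomials with analytic coefficients. -/
def MatAP (p : ℂ → ℂ[X]) (z₀ : ℂ) : Prop := ∀ k, AnalyticAt ℂ (fun z => (p z).coeff k) z₀

theorem MatAP.const (q : ℂ[X]) (z₀ : ℂ) : MatAP (fun _ => q) z₀ := fun _ => analyticAt_const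

theorem MatAP.C' {f : ℂ → ℂ} {z₀ : ℂ} (hf : AnalyticAt ℂ f z₀) : MatAP (fun z => C (f z)) z₀ := by
  intro k
  simp only [coeff_C]
  by_cases hk : k = 0
  · simpa [hk] using hf
  · simp only [hk, if_false]
    exact analyticAt_const

theorem MatAP.sub {p q : ℂ → ℂ[X]} {z₀ : ℂ} (hp : MatAP p z₀) (hq : MatAP q z₀) :
    MatAP (fun z => p z - q z) z₀ := by
  intro k
  simp only [coeff_sub]
  exact (hp k).sub (hq k)

theorem MatAP.mul {p q : ℂ → ℂ[X]} {z₀ : ℂ} (hp : MatAP p z₀) (hq : MatAP q z₀) :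
    MatAP (fun z => p z * q z) z₀ := by
  intro k
  simp only [coeff_mul]
  exact Finset.analyticAt_fun_sum _ fun x _ => (hp x.1).mul (hq x.2)

theorem MatAP.sum {ι : Type*} (s : Finset ι) {p : ι → ℂ → ℂ[X]} {z₀ : ℂ}
    (hp : ∀ i ∈ s, MatAP (p i) z₀) : MatAP (fun z => ∑ i ∈ s, p i z) z₀ := by
  intro k
  simp only [finsetSum_coeff]
  exact Finset.analyticAt_fun_sum _ fun x hx => hp x hx k

theorem MatAP.prod {ι : Type*} (s : Finset ι) {p : ι → ℂ → ℂ[X]} {z₀ : ℂ}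
    (hp : ∀ i ∈ s, MatAP (p i) z₀) : MatAP (fun z => ∏ i ∈ s, p i z) z₀ := by
  classical
  induction s using Finset.induction_on with
  | empty =>
    simp only [Finset.prod_empty]
    exact MatAP.const 1 z₀
  | insert a s ha ih =>
    simp only [Finset.prod_insert ha]
    exact (hp a (Finset.mem_insert_self a s)).mul
      (ih fun i hi => hp i (Finset.mem_insert_of_mem hi))

theorem MatAP.charpoly {n : ℕ} {B : ℂ → Matrix (Fin n) (Fin n) ℂ} {z₀ : ℂ}
    (hB : ∀ i j, AnalyticAt ℂ (fun z => B z i j) z₀) : MatAP (fun z => (B z).charpoly) z₀ := by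
  simp only [Matrix.charpoly, Matrix.det_apply']
  refine MatAP.sum _ fun σ _ => ?_
  refine (MatAP.const _ z₀).mul ?_
  refine MatAP.prod _ fun i _ => ?_
  simp only [Matrix.charmatrix_apply]
  exact (MatAP.const _ z₀).sub (MatAP.C' (hB _ _))

theorem mat_det_analytic {k : ℕ} {M : ℂ → Matrix (Fin k) (Fin k) ℂ} {z₀ : ℂ}
    (hM : ∀ i j, AnalyticAt ℂ (fun z => M z i j) z₀) : AnalyticAt ℂ (fun z => (M z).det) z₀ := by
  simp only [Matrix.det_apply']
  refine Finset.analyticAt_fun_sum _ fun σ _ => ?_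
  refine analyticAt_const.mul ?_
  exact Finset.analyticAt_fun_prod _ fun i _ => hM _ _

theorem mat_resultant_analytic {f g : ℂ → ℂ[X]} {z₀ : ℂ} (hf : MatAP f z₀) (hg : MatAP g z₀)
    (m n : ℕ) : AnalyticAt ℂ (fun z => resultant (f z) (g z) m n) z₀ := by
  unfold resultant
  refine mat_det_analytic fun i j => ?_
  simp only [sylvester, Matrix.of_apply]
  refine Fin.addCases (fun j => ?_) (fun j => ?_) j
  · simp only [Fin.addCases_left]
    split_ifs
    · exact hg _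
    · exact analyticAt_const
  · simp only [Fin.addCases_right]
    split_ifs
    · exact hf _
    · exact analyticAt_const

theorem mat_det_iff {n : ℕ} (B : Matrix (Fin n) (Fin n) ℂ) (ζ : ℂ) :
    (B - ζ • (1 : Matrix _ _ ℂ)).det = 0 ↔ B.charpoly.eval ζ = 0 := by
  rw [Matrix.eval_charpoly]
  have e : B - ζ • (1 : Matrix _ _ ℂ) = - ((Matrix.scalar (Fin n)) ζ - B) := by
    rw [neg_sub]
    congr 1
    rw [Matrix.smul_one_eq_diagonal]
    rfl
  rw [e, Matrix.det_neg]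
  simp

theorem mat_resultant_iff {n m : ℕ} (B : Matrix (Fin n) (Fin n) ℂ) (C : Matrix (Fin m) (Fin m) ℂ) :
    resultant B.charpoly C.charpoly n m = 0 ↔
      ∃ ζ : ℂ, (B - ζ • (1 : Matrix _ _ ℂ)).det = 0 ∧ (C - ζ • (1 : Matrix _ _ ℂ)).det = 0 := by
  have hn : B.charpoly.natDegree = n := by
    rw [Matrix.charpoly_natDegree_eq_dim, Fintype.card_fin]
  have hm : C.charpoly.natDegree = m := by
    rw [Matrix.charpoly_natDegree_eq_dim, Fintype.card_fin]
  have h := resultant_eq_prod_eval B.charpoly C.charpoly m hm.le (IsAlgClosed.splits _)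
  rw [hn, (Matrix.charpoly_monic B).leadingCoeff, one_pow, one_mul] at h
  rw [h, Multiset.prod_eq_zero_iff, Multiset.mem_map]
  constructor
  · rintro ⟨ζ, h1, h2⟩
    exact ⟨ζ, (mat_det_iff B ζ).2 ((mem_roots (Matrix.charpoly_monic B).ne_zero).1 h1),
      (mat_det_iff C ζ).2 h2⟩
  · rintro ⟨ζ, h1, h2⟩
    exact ⟨ζ, (mem_roots (Matrix.charpoly_monic B).ne_zero).2 ((mat_det_iff B ζ).1 h1),
      (mat_det_iff C ζ).1 h2⟩

/-- `r(z) = det (aeval (B z) (charpoly (C z)))` is analytic at `z₀` and vanishes iff `B z` and `C z`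
have a common eigenvalue (over `ℂ` the characteristic polynomial of `C z` splits). Then
`AnalyticAt.eventually_eq_zero_or_eventually_ne_zero`. -/
theorem common_dichotomy {n m : ℕ} (B : ℂ → Matrix (Fin n) (Fin n) ℂ)
    (C : ℂ → Matrix (Fin m) (Fin m) ℂ) (z₀ : ℂ)
    (hB : ∀ i j, AnalyticAt ℂ (fun z => B z i j) z₀)
    (hC : ∀ i j, AnalyticAt ℂ (fun z => C z i j) z₀) :
    (∀ᶠ z in 𝓝 z₀, ∃ ζ : ℂ, (B z - ζ • (1 : Matrix _ _ ℂ)).det = 0 ∧
      (C z - ζ • (1 : Matrix _ _ ℂ)).det = 0) ∨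
    (∀ᶠ z in 𝓝[≠] z₀, ¬ ∃ ζ : ℂ, (B z - ζ • (1 : Matrix _ _ ℂ)).det = 0 ∧
      (C z - ζ • (1 : Matrix _ _ ℂ)).det = 0) := by
  have h := (mat_resultant_analytic (MatAP.charpoly hB) (MatAP.charpoly hC) n
    m).eventually_eq_zero_or_eventually_ne_zero
  rcases h with h | h
  · left
    filter_upwards [h] with z hz
    exact (mat_resultant_iff (B z) (C z)).1 hz
  · right
    filter_upwards [h] with z hz hc
    exact hz ((mat_resultant_iff (B z) (C z)).2 hc)

/-- One family, fixed number `lam`. -/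
theorem single_dichotomy {n : ℕ} (B : ℂ → Matrix (Fin n) (Fin n) ℂ) (z₀ lam : ℂ)
    (hB : ∀ i j, AnalyticAt ℂ (fun z => B z i j) z₀) :
    (∀ᶠ z in 𝓝 z₀, (B z - lam • (1 : Matrix _ _ ℂ)).det = 0) ∨
    (∀ᶠ z in 𝓝[≠] z₀, (B z - lam • (1 : Matrix _ _ ℂ)).det ≠ 0) := by
  refine AnalyticAt.eventually_eq_zero_or_eventually_ne_zero (mat_det_analytic fun i j => ?_)
  simp only [Matrix.sub_apply]
  exact (hB i j).sub analyticAt_const

/-- The eigenvalues of `B z` are close to `lam` when `B z₀ = lam • 1`: the coefficients of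
`B z - lam` tend to `0`, and an eigenvalue `ζ` of `B z` satisfies
`|ζ - lam| ≤ ∑_{ij} |(B z - lam)_{ij}|`. -/
theorem near_eig {n : ℕ} (B : ℂ → Matrix (Fin n) (Fin n) ℂ) (z₀ lam : ℂ)
    (hB : ∀ i j, AnalyticAt ℂ (fun z => B z i j) z₀) (h0 : B z₀ = lam • (1 : Matrix _ _ ℂ))
    (ε : ℝ) (hε : 0 < ε) :
    ∀ᶠ z in 𝓝 z₀, ∀ ζ : ℂ, (B z - ζ • (1 : Matrix _ _ ℂ)).det = 0 → ‖ζ - lam‖ < ε := by
  have hcont : Tendsto (fun z => ∑ i, ∑ j, ‖B z i j - (lam • (1 : Matrix _ _ ℂ)) i j‖) (𝓝 z₀)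
      (𝓝 (∑ i, ∑ j, ‖B z₀ i j - (lam • (1 : Matrix _ _ ℂ)) i j‖)) := by
    refine tendsto_finsetSum _ fun i _ => tendsto_finsetSum _ fun j _ => ?_
    exact ((hB i j).continuousAt.tendsto.sub tendsto_const_nhds).norm
  have hz0 : ∑ i, ∑ j, ‖B z₀ i j - (lam • (1 : Matrix _ _ ℂ)) i j‖ = 0 := by
    rw [h0]
    simp
  rw [hz0] at hcont
  filter_upwards [hcont.eventually (gt_mem_nhds hε)] with z hz ζ hdet
  obtain ⟨v, hv0, hv⟩ := Matrix.exists_mulVec_eq_zero_iff.2 hdet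
  have hn : ∃ i₀, ∀ i, ‖v i‖ ≤ ‖v i₀‖ := by
    have hne : Nonempty (Fin n) := by
      by_contra hc
      rw [not_nonempty_iff] at hc
      exact hv0 (Subsingleton.elim _ _)
    exact Finite.exists_max fun i => ‖v i‖
  obtain ⟨i₀, hi₀⟩ := hn
  have hpos : 0 < ‖v i₀‖ := by
    rcases (norm_nonneg (v i₀)).lt_or_eq with h | h
    · exact h
    · exfalso
      apply hv0
      ext i
      have := hi₀ i
      rw [← h] at this
      exact norm_le_zero_iff.1 this
  have h1 : ∑ j, (B z i₀ j - (lam • (1 : Matrix _ _ ℂ)) i₀ j) * v j = (ζ - lam) * v i₀ := by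
    have h2 := congrFun hv i₀
    simp only [Matrix.mulVec, dotProduct, Pi.zero_apply, Matrix.sub_apply, Matrix.smul_apply,
      smul_eq_mul, sub_mul, Finset.sum_sub_distrib] at h2
    simp only [Matrix.smul_apply, smul_eq_mul, sub_mul, Finset.sum_sub_distrib]
    have h3 : ∀ a : ℂ, ∑ j, a * (1 : Matrix (Fin n) (Fin n) ℂ) i₀ j * v j = a * v i₀ := by
      intro a
      rw [Finset.sum_eq_single i₀]
      · simp
      · intro j _ hj
        simp [Matrix.one_apply_ne (Ne.symm hj)]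
      · simp
    rw [h3] at h2 ⊢
    linear_combination h2
  have h4 : ‖ζ - lam‖ * ‖v i₀‖ ≤
      (∑ i, ∑ j, ‖B z i j - (lam • (1 : Matrix _ _ ℂ)) i j‖) * ‖v i₀‖ := by
    rw [← norm_mul, ← h1]
    calc ‖∑ j, (B z i₀ j - (lam • (1 : Matrix _ _ ℂ)) i₀ j) * v j‖
        ≤ ∑ j, ‖B z i₀ j - (lam • (1 : Matrix _ _ ℂ)) i₀ j‖ * ‖v i₀‖ := by
          refine (norm_sum_le _ _).trans (Finset.sum_le_sum fun j _ => ?_)
          rw [norm_mul]
          exact mul_le_mul_of_nonneg_left (hi₀ j) (norm_nonneg _)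
      _ = (∑ j, ‖B z i₀ j - (lam • (1 : Matrix _ _ ℂ)) i₀ j‖) * ‖v i₀‖ := by
          rw [Finset.sum_mul]
      _ ≤ _ := by
          refine mul_le_mul_of_nonneg_right ?_ hpos.le
          exact Finset.single_le_sum
            (f := fun i => ∑ j, ‖B z i j - (lam • (1 : Matrix _ _ ℂ)) i j‖)
            (fun i _ => Finset.sum_nonneg fun j _ => norm_nonneg _) (Finset.mem_univ i₀)
  exact lt_of_le_of_lt (le_of_mul_le_mul_right h4 hpos) hz

end Pool.Agent.Lib.MP_c8757e_mp
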