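import Pool.Agent.Lib.MP_c8757e_mp.Red
import Pool.Agent.Lib.MP_c8757e_mp.Mat

/-! FLAT, module Dich: local dichotomies for analytic pencils on the real line. -/

open Filter Topology Set
open scoped ComplexInnerProductSpace

noncomputable section

namespace Pool.Agent.Lib.MP_c8757e_mp

variable {H : Type*} [NormedAddCommGroup H] [InnerProductSpace ℂ H] [CompleteSpace H]
  {N : H →L[ℂ] H}

private theorem dich_tendsto (t₀ : ℝ) {p : ℂ → Prop} (h : ∀ᶠ z in 𝓝 (t₀ : ℂ), p z) :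
    ∀ᶠ t : ℝ in 𝓝 t₀, p (t : ℂ) :=
  (Complex.continuous_ofReal.tendsto t₀).eventually h

private theorem dich_tendsto_ne (t₀ : ℝ) {p : ℂ → Prop} (h : ∀ᶠ z in 𝓝[≠] (t₀ : ℂ), p z) :
    ∀ᶠ t : ℝ in 𝓝[≠] t₀, p (t : ℂ) := by
  have h1 : Tendsto (fun t : ℝ => (t : ℂ)) (𝓝[≠] t₀) (𝓝[≠] (t₀ : ℂ)) := by
    refine tendsto_nhdsWithin_of_tendsto_nhds_of_eventually_within _
      ((Complex.continuous_ofReal.tendsto t₀).mono_left nhdsWithin_le_nhds) ?_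
    filter_upwards [self_mem_nhdsWithin] with t ht
    intro hc
    exact ht (Complex.ofReal_injective hc)
  exact h1.eventually h

/-- `red` for `P` and `Q` at `lam` (`Elliptic.sub_smul`), `common_dichotomy`, `near_eig`,
`isEig_real`; restriction of the filters from `ℂ` to `ℝ` along `Complex.ofReal`. -/
theorem pencil_dichotomy (hN : Weight N) (P Q : ℂ → H →L[ℂ] H) (t₀ : ℝ)
    (hP : AnalyticAt ℂ P t₀) (hQ : AnalyticAt ℂ Q t₀)
    (hPe : ∀ᶠ t : ℝ in 𝓝 t₀, Elliptic N (P t)) (hQe : ∀ᶠ t : ℝ in 𝓝 t₀, Elliptic N (Q t))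
    (lam : ℝ) :
    (∀ ε > 0, ∀ᶠ t : ℝ in 𝓝 t₀, ∃ μ : ℝ, |μ - lam| < ε ∧ IsEig N (P t) μ ∧ IsEig N (Q t) μ) ∨
    (∃ ε > 0, ∀ᶠ t : ℝ in 𝓝[≠] t₀, ∀ μ : ℝ, |μ - lam| < ε →
      ¬ (IsEig N (P t) μ ∧ IsEig N (Q t) μ)) := by
  obtain ⟨n, B, hB, hB0, e1, he1, h1⟩ :=
    red hN P (t₀ : ℂ) hP lam (Elliptic.sub_smul hPe.self_of_nhds hN lam)
  obtain ⟨m, C, hC, hC0, e2, he2, h2⟩ :=
    red hN Q (t₀ : ℂ) hQ lam (Elliptic.sub_smul hQe.self_of_nhds hN lam)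
  rcases common_dichotomy B C (t₀ : ℂ) hB hC with h | h
  · left
    intro ε hε
    have h3 := near_eig B (t₀ : ℂ) (lam : ℂ) hB hB0 (min ε (min e1 e2))
      (lt_min hε (lt_min he1 he2))
    filter_upwards [dich_tendsto t₀ h, dich_tendsto t₀ h1, dich_tendsto t₀ h2,
      dich_tendsto t₀ h3, hPe] with t ht ht1 ht2 ht3 htP
    obtain ⟨ζ, hζ1, hζ2⟩ := ht
    have hlt := ht3 ζ hζ1
    have hlt0 : ‖ζ - (lam : ℂ)‖ < ε := lt_of_lt_of_le hlt (min_le_left _ _)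
    have hlt1 : ‖ζ - (lam : ℂ)‖ < e1 :=
      lt_of_lt_of_le hlt ((min_le_right _ _).trans (min_le_left _ _))
    have hlt2 : ‖ζ - (lam : ℂ)‖ < e2 :=
      lt_of_lt_of_le hlt ((min_le_right _ _).trans (min_le_right _ _))
    have hP1 : IsEig N (P (t : ℂ)) ζ := (ht1 ζ hlt1).2 hζ1
    have hQ1 : IsEig N (Q (t : ℂ)) ζ := (ht2 ζ hlt2).2 hζ2
    have hre : ζ = (ζ.re : ℂ) := isEig_real hN htP.sa hP1
    refine ⟨ζ.re, ?_, ?_, ?_⟩
    · refine lt_of_le_of_lt ?_ hlt0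
      have h4 := Complex.abs_re_le_norm (ζ - (lam : ℂ))
      simpa using h4
    · rw [← hre]
      exact hP1
    · rw [← hre]
      exact hQ1
  · right
    refine ⟨min e1 e2, lt_min he1 he2, ?_⟩
    filter_upwards [dich_tendsto_ne t₀ h, mem_nhdsWithin_of_mem_nhds (dich_tendsto t₀ h1),
      mem_nhdsWithin_of_mem_nhds (dich_tendsto t₀ h2)] with t ht ht1 ht2
    intro μ hμ hc
    have hn : ‖(μ : ℂ) - (lam : ℂ)‖ < min e1 e2 := by
      rw [← Complex.ofReal_sub, Complex.norm_real, Real.norm_eq_abs]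
      exact hμ
    exact ht ⟨(μ : ℂ), (ht1 μ (lt_of_lt_of_le hn (min_le_left _ _))).1 hc.1,
      (ht2 μ (lt_of_lt_of_le hn (min_le_right _ _))).1 hc.2⟩

/-- `red` for `P` at `lam` and `single_dichotomy`. -/
theorem single_line_dichotomy (hN : Weight N) (P : ℂ → H →L[ℂ] H) (t₀ : ℝ)
    (hP : AnalyticAt ℂ P t₀) (hPe : Elliptic N (P t₀)) (lam : ℝ) :
    (∀ᶠ t : ℝ in 𝓝 t₀, IsEig N (P t) lam) ∨ (∀ᶠ t : ℝ in 𝓝[≠] t₀, ¬ IsEig N (P t) lam) := by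
  obtain ⟨n, B, hB, hB0, e1, he1, h1⟩ :=
    red hN P (t₀ : ℂ) hP lam (Elliptic.sub_smul hPe hN lam)
  have hl : ‖(lam : ℂ) - (lam : ℂ)‖ < e1 := by simpa using he1
  rcases single_dichotomy B (t₀ : ℂ) (lam : ℂ) hB with h | h
  · left
    filter_upwards [dich_tendsto t₀ h, dich_tendsto t₀ h1] with t ht ht1
    exact (ht1 lam hl).2 ht
  · right
    filter_upwards [dich_tendsto_ne t₀ h,
      mem_nhdsWithin_of_mem_nhds (dich_tendsto t₀ h1)] with t ht ht1 hc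
    exact ht ((ht1 lam hl).1 hc)

end Pool.Agent.Lib.MP_c8757e_mp
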