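import Pool.Agent.Lib.MP_c8757e_mp.Defs

/-! FLAT, module Fib: fibres of `L²` functions over the unit cells. -/

open MeasureTheory Filter Topology Set
open scoped ENNReal

noncomputable section

namespace Pool.Agent.Lib.MP_c8757e_mp

variable {d : ℕ}

private theorem Fib_coord (k : E d) (n : Lat d) (i : Fin d) :
    (k + latE n) i = k i + (n i : ℝ) := by
  simp [latE]

private theorem Fib_meas (m : Lat d) : MeasurableSet (cube m) := by
  have h : cube m = ⋂ i, {k : E d | (m i : ℝ) ≤ k i ∧ k i < (m i : ℝ) + 1} := by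
    ext k
    simp [cube]
  rw [h]
  refine MeasurableSet.iInter fun i => ?_
  have hc : Measurable fun k : E d => k i :=
    (by fun_prop : Continuous fun k : E d => k i).measurable
  exact (measurableSet_le measurable_const hc).inter (measurableSet_lt hc measurable_const)

private theorem Fib_mem_shift (m n : Lat d) (k : E d) :
    k + latE n ∈ cube (m + n) ↔ k ∈ cube m := by
  unfold cube
  simp only [mem_setOf_eq, Fib_coord, Pi.add_apply, Int.cast_add]
  constructor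
  · intro h i
    have := h i
    constructor <;> linarith
  · intro h i
    have := h i
    constructor <;> linarith

private theorem Fib_cover (m : Lat d) (k : E d) : ∃ n : Lat d, k ∈ cube (m + n) := by
  refine ⟨fun i => ⌊k i⌋ - m i, ?_⟩
  intro i
  have h1 := Int.floor_le (k i)
  have h2 := Int.lt_floor_add_one (k i)
  simp only [Pi.add_apply, add_sub_cancel]
  exact ⟨h1, h2⟩

private theorem Fib_unique {m m' : Lat d} {k : E d} (h : k ∈ cube m) (h' : k ∈ cube m') :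
    m = m' := by
  funext i
  have h1 := h i
  have h2 := h' i
  have e1 : ⌊k i⌋ = m i := Int.floor_eq_iff.2 ⟨h1.1, h1.2⟩
  have e2 : ⌊k i⌋ = m' i := Int.floor_eq_iff.2 ⟨h2.1, h2.2⟩
  rw [← e1, ← e2]

private theorem Fib_shift_lintegral (f : E d → ℝ≥0∞) (m n : Lat d) :
    ∫⁻ k in cube m, f (k + latE n) = ∫⁻ ξ in cube (m + n), f ξ := by
  have h := (measurePreserving_add_right (volume : Measure (E d))
    (latE n)).setLIntegral_comp_preimage_emb (measurableEmbedding_addRight (latE n)) f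
    (cube (m + n))
  rw [← h]
  congr 2
  ext k
  rw [mem_preimage]
  exact (Fib_mem_shift m n k).symm

/-- The cubes `cube m` tile `ℝ^d`: for measurable `f ≥ 0`,
`∫ f = ∫_{cube m} ∑_n f(k + n) dk`. -/
theorem lintegral_eq_cube (f : E d → ℝ≥0∞) (hf : AEMeasurable f volume) (m : Lat d) :
    ∫⁻ k in cube m, ∑' n : Lat d, f (k + latE n) = ∫⁻ ξ, f ξ := by
  rw [lintegral_tsum]
  · have h1 : ∫⁻ ξ, f ξ = ∫⁻ ξ in ⋃ n : Lat d, cube (m + n), f ξ := by
      have h2 : (⋃ n : Lat d, cube (m + n)) = univ :=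
        eq_univ_of_forall fun k => mem_iUnion.2 (Fib_cover m k)
      rw [h2, Measure.restrict_univ]
    rw [h1, lintegral_iUnion (fun n => Fib_meas (m + n))]
    · exact tsum_congr fun n => Fib_shift_lintegral f m n
    · intro n n' hnn
      rw [Function.onFun, Set.disjoint_left]
      intro k hk hk'
      exact hnn (add_left_cancel (Fib_unique hk hk'))
  · intro n
    exact (hf.comp_quasiMeasurePreserving
      (measurePreserving_add_right (volume : Measure (E d)) (latE n)).quasiMeasurePreserving).restrict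

/-- A property which holds a.e. holds, for a.e. `k`, at all `k + n`. -/
private theorem Fib_ae_shift {p : E d → Prop} (h : ∀ᵐ ξ : E d, p ξ) :
    ∀ᵐ k : E d, ∀ n : Lat d, p (k + latE n) := by
  rw [ae_all_iff]
  intro n
  exact (measurePreserving_add_right (volume : Measure (E d))
    (latE n)).quasiMeasurePreserving.ae h

private theorem Fib_enorm (Φ : L2E d) : ∫⁻ ξ, ‖Φ ξ‖ₑ ^ 2 = ‖Φ‖ₑ ^ 2 := by
  have h1 : ‖Φ‖ₑ = eLpNorm Φ 2 volume := Lp.enorm_def Φ
  have h2 := eLpNorm_nnreal_pow_eq_lintegral (μ := (volume : Measure (E d))) (f := Φ)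
    (p := 2) (by norm_num)
  rw [h1]
  have h3 : ((2 : NNReal) : ℝ≥0∞) = 2 := by norm_num
  rw [h3] at h2
  have h4 : (((2 : NNReal) : ℝ)) = ((2 : ℕ) : ℝ) := by norm_num
  simp only [h4, ENNReal.rpow_natCast] at h2
  exact h2.symm

private theorem Fib_sum_lintegral (Φ : L2E d) (m : Lat d) :
    ∫⁻ k in cube m, ∑' n : Lat d, ‖Φ (k + latE n)‖ₑ ^ 2 = ‖Φ‖ₑ ^ 2 := by
  rw [lintegral_eq_cube (fun ξ => ‖Φ ξ‖ₑ ^ 2)
    ((Lp.aestronglyMeasurable Φ).enorm.pow_const 2) m, Fib_enorm]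

private theorem Fib_memℓp {f : Lat d → ℂ} (h : ∑' n, ‖f n‖ₑ ^ 2 < ∞) : Memℓp f 2 := by
  have h2 : (0 : ℝ) < (2 : ℝ≥0∞).toReal := by norm_num
  rw [memℓp_gen_iff h2]
  have e2 : (2 : ℝ≥0∞).toReal = 2 := by norm_num
  simp only [e2, Real.rpow_two]
  have h3 : Summable fun n => (‖f n‖ₑ ^ 2).toReal := ENNReal.summable_toReal h.ne
  refine h3.congr fun n => ?_
  rw [ENNReal.toReal_pow, toReal_enorm]

theorem fib_mem (Φ : L2E d) :
    ∀ᵐ k : E d, Memℓp (fun n : Lat d => Φ (k + latE n)) 2 := by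
  have h1 : ∀ m : Lat d, ∀ᵐ k : E d, k ∈ cube m →
      ∑' n : Lat d, ‖Φ (k + latE n)‖ₑ ^ 2 < ∞ := by
    intro m
    rw [← ae_restrict_iff' (Fib_meas m)]
    refine ae_lt_top' ?_ ?_
    · refine AEMeasurable.ennreal_tsum fun n => ?_
      exact (((Lp.aestronglyMeasurable Φ).enorm.pow_const 2).comp_quasiMeasurePreserving
        (measurePreserving_add_right (volume : Measure (E d))
          (latE n)).quasiMeasurePreserving).restrict
    · rw [Fib_sum_lintegral]
      exact (ENNReal.pow_lt_top enorm_lt_top).ne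
  rw [← ae_all_iff] at h1
  filter_upwards [h1] with k hk
  obtain ⟨n, hn⟩ := Fib_cover 0 k
  exact Fib_memℓp (hk _ hn)

theorem fib_apply (Φ : L2E d) : ∀ᵐ k : E d, ∀ n : Lat d, fib Φ k n = Φ (k + latE n) := by
  filter_upwards [fib_mem Φ] with k hk n
  unfold fib
  rw [dif_pos hk]

/-- `∫_{cube m} ‖fib Φ k‖² dk = ‖Φ‖²`. -/
theorem lintegral_fib (Φ : L2E d) (m : Lat d) :
    ∫⁻ k in cube m, ‖fib Φ k‖ₑ ^ 2 = ‖Φ‖ₑ ^ 2 := by
  rw [← Fib_sum_lintegral Φ m]
  refine lintegral_congr_ae (ae_restrict_of_ae ?_)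
  filter_upwards [fib_mem Φ, fib_apply Φ] with k hk hk'
  have h2 : (0 : ℝ) < (2 : ℝ≥0∞).toReal := by norm_num
  have hn := lp.norm_rpow_eq_tsum h2 (fib Φ k)
  have hs := (lp.memℓp (fib Φ k)).summable h2
  have e2 : (2 : ℝ≥0∞).toReal = 2 := by norm_num
  simp only [e2, Real.rpow_two] at hn hs
  have h3 : ‖fib Φ k‖ₑ ^ 2 = ENNReal.ofReal (‖fib Φ k‖ ^ 2) := by
    rw [ENNReal.ofReal_pow (norm_nonneg _), ofReal_norm]
  rw [h3, hn, ENNReal.ofReal_tsum_of_nonneg (fun n => by positivity) hs]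
  refine tsum_congr fun n => ?_
  rw [ENNReal.ofReal_pow (norm_nonneg _), ofReal_norm, hk' n]

theorem fib_sub (Φ Ψ : L2E d) : ∀ᵐ k : E d, fib (Φ - Ψ : L2E d) k = fib Φ k - fib Ψ k := by
  filter_upwards [fib_apply Φ, fib_apply Ψ, fib_apply (Φ - Ψ),
    Fib_ae_shift (Lp.coeFn_sub Φ Ψ)] with k h1 h2 h3 h4
  ext n
  rw [h3 n, h4 n, lp.coeFn_sub, Pi.sub_apply, Pi.sub_apply, h1 n, h2 n]

/-- A property which holds for all `k + n`, `k` in the unit cube, holds everywhere (a.e.). -/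
theorem ae_of_ae_cube {p : E d → Prop}
    (h : ∀ᵐ k : E d, k ∈ cube (0 : Lat d) → ∀ n : Lat d, p (k + latE n)) : ∀ᵐ ξ : E d, p ξ := by
  have h1 : ∀ᵐ ξ : E d, ∀ n : Lat d, ξ + latE n ∈ cube (0 : Lat d) →
      ∀ n' : Lat d, p (ξ + latE n + latE n') := Fib_ae_shift h
  filter_upwards [h1] with ξ hξ
  obtain ⟨n, hn⟩ := Fib_cover 0 ξ
  have h2 : ξ + latE (-n) ∈ cube (0 : Lat d) := by
    have h3 := (Fib_mem_shift (0 + n) (-n) ξ).2 hn
    simpa using h3
  have h4 := hξ (-n) h2 n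
  have h5 : ξ + latE (-n) + latE n = ξ := by
    ext i
    rw [Fib_coord, Fib_coord]
    simp
  rwa [h5] at h4

/-- A property which holds a.e. holds, for a.e. `k`, at all `k + n`. -/
theorem ae_shift {p : E d → Prop} (h : ∀ᵐ ξ : E d, p ξ) :
    ∀ᵐ k : E d, ∀ n : Lat d, p (k + latE n) := Fib_ae_shift h

end Pool.Agent.Lib.MP_c8757e_mp
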