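import Pool.Agent.Lib.MP_c8757e_mp.Defs

/-! FLAT, module Mul: the operators `Mhat a` (multiplication by `a`, in Fourier coefficients). -/

open MeasureTheory Filter Topology Set UnitAddTorus
open scoped ENNReal ComplexInnerProductSpace

noncomputable section

namespace Pool.Agent.Lib.MP_c8757e_mp

variable {d : ℕ}

attribute [local instance] instMeasureSpaceUnitAddCircle instHaarCirc instProbCirc

theorem coeFn_mulL (a : LIC d) (F : LC d) : mulL a F =ᵐ[torM d] fun x => a x * F x := by
  have h := (ContinuousLinearMap.mul ℂ ℂ).coeFn_holder (r := 2) a F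
  exact h

private theorem Mhat_apply (a : LIC d) (v : ell d) :
    Mhat a v = fb d (mulL a ((fb d).symm v)) := rfl

private theorem mulL_add' (a b : LIC d) (F : LC d) : mulL (a + b) F = mulL a F + mulL b F := by
  have h : mulL (a + b) = mulL a + mulL b := by
    unfold mulL
    exact map_add _ a b
  rw [h]
  rfl

private theorem mulL_smul' (z : ℂ) (a : LIC d) (F : LC d) : mulL (z • a) F = z • mulL a F := by
  have h : mulL (z • a) = z • mulL a := by
    unfold mulL
    exact map_smul _ z a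
  rw [h]
  rfl

private theorem mulL_norm_le' (a : LIC d) (F : LC d) : ‖mulL a F‖ ≤ ‖a‖ * ‖F‖ := by
  have h := (ContinuousLinearMap.mul ℂ ℂ).norm_holder_apply_apply_le (r := 2) a F
  have h1 : ‖ContinuousLinearMap.mul ℂ ℂ‖ ≤ 1 := ContinuousLinearMap.opNorm_mul_le ℂ ℂ
  refine h.trans ?_
  have h2 := norm_nonneg a
  have h3 := norm_nonneg F
  calc ‖ContinuousLinearMap.mul ℂ ℂ‖ * ‖a‖ * ‖F‖ ≤ 1 * ‖a‖ * ‖F‖ := by gcongr
    _ = ‖a‖ * ‖F‖ := by ring

theorem Mhat_add (a b : LIC d) : Mhat (a + b) = Mhat a + Mhat b := by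
  refine ContinuousLinearMap.ext fun v => ?_
  rw [ContinuousLinearMap.add_apply, Mhat_apply, Mhat_apply, Mhat_apply, mulL_add', map_add]

theorem Mhat_smul (z : ℂ) (a : LIC d) : Mhat (z • a) = z • Mhat a := by
  refine ContinuousLinearMap.ext fun v => ?_
  rw [ContinuousLinearMap.smul_apply, Mhat_apply, Mhat_apply, mulL_smul', map_smul]

theorem Mhat_norm_le (a : LIC d) : ‖Mhat a‖ ≤ ‖a‖ := by
  refine ContinuousLinearMap.opNorm_le_bound _ (norm_nonneg _) fun v => ?_
  rw [Mhat_apply, LinearIsometryEquiv.norm_map]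
  refine (mulL_norm_le' a _).trans ?_
  rw [LinearIsometryEquiv.norm_map]

private theorem fb_apply (F : LC d) (n : Lat d) : fb d F n = mFourierCoeff F n :=
  mFourierBasis_repr F n

/-- Multiplication by `mFourier m` is the shift by `m`. -/
theorem Mhat_mFourier (m : Lat d) (v : ell d) (n : Lat d) :
    Mhat (toLIC (mFourier m)) v n = v (n - m) := by
  have hv : fb d ((fb d).symm v) = v := (fb d).apply_symm_apply v
  have h1 : v (n - m) = mFourierCoeff ((fb d).symm v) (n - m) := by
    rw [← fb_apply, hv]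
  rw [Mhat_apply, fb_apply, h1]
  unfold mFourierCoeff
  refine integral_congr_ae ?_
  have h2 := coeFn_mulL (toLIC (mFourier m)) ((fb d).symm v)
  have h3 : toLIC (mFourier m) =ᵐ[torM d] mFourier m := ContinuousMap.coeFn_toLp (torM d) (mFourier m)
  filter_upwards [h2, h3] with x hx hy
  rw [hx, hy]
  have e : mFourier (-(n - m)) x = mFourier (-n) x * mFourier m x := by
    rw [← mFourier_add]
    congr 2
    abel
  rw [e, smul_eq_mul, smul_eq_mul, mul_assoc]

theorem Mhat_one : Mhat (toLIC (1 : C(Tor d, ℂ))) = 1 := by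
  refine ContinuousLinearMap.ext fun v => ?_
  rw [← mFourier_zero]
  refine lp.ext (funext fun n => ?_)
  rw [Mhat_mFourier, sub_zero]
  rfl

private theorem coeFn_cplx (a : LI d) : cplx a =ᵐ[torM d] fun x => ((a x : ℝ) : ℂ) :=
  ContinuousLinearMap.coeFn_compLp Complex.ofRealCLM a

theorem Mhat_cplx_isSelfAdjoint (a : LI d) : IsSelfAdjoint (Mhat (cplx a)) := by
  rw [ContinuousLinearMap.isSelfAdjoint_iff_isSymmetric]
  intro v w
  have hv : fb d ((fb d).symm v) = v := (fb d).apply_symm_apply v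
  have hw : fb d ((fb d).symm w) = w := (fb d).apply_symm_apply w
  change inner ℂ (fb d (mulL (cplx a) ((fb d).symm v))) w =
    inner ℂ v (fb d (mulL (cplx a) ((fb d).symm w)))
  conv_lhs => rw [← hw]
  conv_rhs => rw [← hv]
  rw [LinearIsometryEquiv.inner_map_map, LinearIsometryEquiv.inner_map_map]
  rw [MeasureTheory.L2.inner_def, MeasureTheory.L2.inner_def]
  refine integral_congr_ae ?_
  have h1 := coeFn_mulL (cplx a) ((fb d).symm v)
  have h2 := coeFn_mulL (cplx a) ((fb d).symm w)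
  have h3 := coeFn_cplx a
  filter_upwards [h1, h2, h3] with x e1 e2 e3
  rw [e1, e2, e3]
  simp only [RCLike.inner_apply, map_mul, Complex.conj_ofReal]
  ring

private theorem norm_sq_LC (G : LC d) : ‖G‖ ^ 2 = ∫ x, ‖G x‖ ^ 2 ∂(torM d) := by
  have h1 : (inner ℂ G G : ℂ).re = ‖G‖ ^ 2 := inner_self_eq_norm_sq (𝕜 := ℂ) G
  rw [← h1, MeasureTheory.L2.inner_def]
  have h2 := integral_re (𝕜 := ℂ) (L2.integrable_inner (𝕜 := ℂ) G G)
  have h3 : (∫ x, (inner ℂ (G x) (G x) : ℂ) ∂(torM d)).re =
      ∫ x, (inner ℂ (G x) (G x) : ℂ).re ∂(torM d) := h2.symm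
  rw [h3]
  refine integral_congr_ae (Eventually.of_forall fun x => ?_)
  exact inner_self_eq_norm_sq (𝕜 := ℂ) (G x)

private theorem ae_norm_le' (a : LIC d) (C : ℝ) (hC : ‖a‖ ≤ C) : ∀ᵐ x ∂(torM d), ‖a x‖ ≤ C := by
  have h := ae_le_eLpNormEssSup (f := a) (μ := torM d)
  have hfin : eLpNorm a ∞ (torM d) ≠ ∞ := Lp.eLpNorm_ne_top a
  have hn : ‖a‖ = (eLpNorm a ∞ (torM d)).toReal := Lp.norm_def a
  filter_upwards [h] with x hx
  rw [← eLpNorm_exponent_top] at hx
  have h4 := ENNReal.toReal_mono hfin hx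
  rw [toReal_enorm] at h4
  rw [hn] at hC
  exact h4.trans hC

/-- Strong convergence (dominated convergence in `L²(T^d)`). -/
theorem Mhat_tendsto (a : ℕ → LIC d) (b : LIC d) (C : ℝ) (hC : ∀ j, ‖a j‖ ≤ C)
    (h : ∀ᵐ x ∂(torM d), Tendsto (fun j => a j x) atTop (𝓝 (b x))) (v : ell d) :
    Tendsto (fun j => Mhat (a j) v) atTop (𝓝 (Mhat b v)) := by
  set F : LC d := (fb d).symm v with hF
  have hkey : Tendsto (fun j => mulL (a j) F) atTop (𝓝 (mulL b F)) := by
    rw [tendsto_iff_norm_sub_tendsto_zero]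
    have hsq : Tendsto (fun j => ‖mulL (a j) F - mulL b F‖ ^ 2) atTop (𝓝 0) := by
      have hall : ∀ᵐ x ∂(torM d), ∀ j, ‖a j x‖ ≤ C :=
        ae_all_iff.2 fun j => ae_norm_le' (a j) C (hC j)
      have hb : ∀ᵐ x ∂(torM d), ‖b x‖ ≤ C := by
        filter_upwards [h, hall] with x hx hy
        exact le_of_tendsto hx.norm (Eventually.of_forall hy)
      have hform : ∀ j, ‖mulL (a j) F - mulL b F‖ ^ 2 =
          ∫ x, ‖(a j x - b x) * F x‖ ^ 2 ∂(torM d) := by
        intro j
        rw [norm_sq_LC]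
        refine integral_congr_ae ?_
        filter_upwards [Lp.coeFn_sub (mulL (a j) F) (mulL b F), coeFn_mulL (a j) F,
          coeFn_mulL b F] with x e1 e2 e3
        rw [e1, Pi.sub_apply, e2, e3, sub_mul]
      simp_rw [hform]
      have h0 : (0 : ℝ) = ∫ x, (0 : ℝ) ∂(torM d) := by simp
      rw [h0]
      have hFi : Integrable (fun x => ‖F x‖ ^ 2) (torM d) := by
        have := (Lp.memLp F).integrable_norm_pow (p := 2) (by norm_num)
        simpa using this
      refine tendsto_integral_of_dominated_convergence (fun x => (2 * C) ^ 2 * ‖F x‖ ^ 2) ?_ ?_ ?_ ?_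
      · intro j
        exact ((((Lp.aestronglyMeasurable (a j)).sub (Lp.aestronglyMeasurable b)).mul
          (Lp.aestronglyMeasurable F)).norm.pow 2)
      · exact hFi.const_mul _
      · intro j
        filter_upwards [hall, hb] with x hx hy
        rw [Real.norm_eq_abs, abs_of_nonneg (by positivity), norm_mul, mul_pow]
        have h1 : ‖a j x - b x‖ ≤ 2 * C := by
          refine (norm_sub_le _ _).trans ?_
          linarith [hx j]
        gcongr
      · filter_upwards [h] with x hx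
        have h1 : Tendsto (fun j => a j x - b x) atTop (𝓝 0) := by
          have := hx.sub_const (b x)
          simpa using this
        have h2 : Tendsto (fun j => ‖(a j x - b x) * F x‖ ^ 2) atTop (𝓝 (‖(0 : ℂ) * F x‖ ^ 2)) :=
          ((h1.mul_const (F x)).norm).pow 2
        simpa using h2
    have h5 := hsq.sqrt
    simpa [Real.sqrt_sq (norm_nonneg _)] using h5
  have h6 := ((fb d).continuous.tendsto (mulL b F)).comp hkey
  exact h6

theorem cplx_norm (a : LI d) : ‖cplx a‖ = ‖a‖ := by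
  rw [Lp.norm_def, Lp.norm_def]
  congr 1
  refine eLpNorm_congr_norm_ae ?_
  filter_upwards [coeFn_cplx a] with x hx
  rw [hx, Complex.norm_real]

theorem cplx_add (a b : LI d) : cplx (a + b) = cplx a + cplx b :=
  (Complex.ofRealCLM.compLpₗ ∞ (torM d)).map_add a b

theorem cplx_smul (t : ℝ) (a : LI d) : cplx (t • a) = (t : ℂ) • cplx a := by
  have h : cplx (t • a) = t • cplx a := (Complex.ofRealCLM.compLpₗ ∞ (torM d)).map_smul t a
  rw [h]
  refine Lp.ext ?_
  filter_upwards [Lp.coeFn_smul t (cplx a), Lp.coeFn_smul (t : ℂ) (cplx a)] with x h1 h2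
  rw [h1, h2, Pi.smul_apply, Pi.smul_apply, Complex.real_smul, smul_eq_mul]

end Pool.Agent.Lib.MP_c8757e_mp
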