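import Pool.Agent.Lib.MP_c8757e_mp.Quasi

/-! FLAT, module Shift: modulation by `mFourier m` is translation by `m` on the Fourier side. -/

open MeasureTheory Filter Topology Set UnitAddTorus
open scoped ENNReal SchwartzMap FourierTransform

noncomputable section

namespace Pool.Agent.Lib.MP_c8757e_mp

variable {d : ℕ}

theorem mFourier_proj (m : Lat d) (x : E d) :
    mFourier m (proj x) = Complex.exp (2 * (Real.pi : ℂ) * Complex.I * (inner ℝ (latE m) x : ℂ)) := by
  have h1 : (inner ℝ (latE m) x : ℝ) = ∑ i, (m i : ℝ) * x i := by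
    rw [PiLp.inner_apply]
    refine Finset.sum_congr rfl fun i _ => ?_
    simp [latE, mul_comm]
  rw [h1]
  change ∏ i, fourier (m i) ((x i : ℝ) : UnitAddCircle) = _
  rw [Complex.ofReal_sum, Finset.mul_sum, Complex.exp_sum]
  refine Finset.prod_congr rfl fun i _ => ?_
  rw [fourier_coe_apply]
  congr 1
  push_cast
  ring

/-- translation on `L²` -/
private def shTr (a : E d) (F : L2E d) : L2E d :=
  Lp.compMeasurePreserving (fun ξ : E d => ξ - a) (measurePreserving_sub_right volume a) F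

private theorem shTr_continuous (a : E d) : Continuous (shTr (d := d) a) := by
  refine AddMonoidHomClass.continuous_of_bound
    (Lp.compMeasurePreserving (E := ℂ) (p := 2) (fun ξ : E d => ξ - a)
      (measurePreserving_sub_right volume a)) 1 (fun F => ?_)
  rw [one_mul, Lp.norm_compMeasurePreserving]

private theorem shTr_coe (a : E d) (F : L2E d) : shTr a F =ᵐ[volume] fun ξ => F (ξ - a) :=
  Lp.coeFn_compMeasurePreserving F (measurePreserving_sub_right volume a)

/-- the modulated Schwartz function -/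
private def shMod (m : Lat d) (f : 𝓢(E d, ℂ)) : 𝓢(E d, ℂ) :=
  𝓕⁻ ((𝓕 f : 𝓢(E d, ℂ)).compSubConstCLM ℂ (latE m))

private theorem shMod_apply (m : Lat d) (f : 𝓢(E d, ℂ)) (x : E d) :
    shMod m f x = Complex.exp (2 * (Real.pi : ℂ) * Complex.I * (inner ℝ (latE m) x : ℂ)) * f x := by
  unfold shMod
  rw [SchwartzMap.fourierInv_coe, Real.fourierInv_eq']
  have h2 : f x = ∫ v : E d, Complex.exp (((2 * Real.pi * inner ℝ v x : ℝ) : ℂ) * Complex.I) •
      (𝓕 f : 𝓢(E d, ℂ)) v := by
    have h3 : (𝓕⁻ (𝓕 f : 𝓢(E d, ℂ)) : 𝓢(E d, ℂ)) x = f x := by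
      rw [FourierTransform.fourierInv_fourier_eq]
    rw [← h3, SchwartzMap.fourierInv_coe, Real.fourierInv_eq']
  rw [h2, ← integral_const_mul]
  rw [← integral_add_right_eq_self _ (latE m)]
  refine integral_congr_ae (Filter.Eventually.of_forall fun v => ?_)
  simp only [SchwartzMap.compSubConstCLM_apply, add_sub_cancel_right, smul_eq_mul]
  rw [← mul_assoc, ← Complex.exp_add]
  congr 2
  rw [inner_add_left]
  push_cast
  ring

private theorem mulE_toLp (m : Lat d) (f : 𝓢(E d, ℂ)) :
    mulE (toLIC (mFourier m)) (f.toLp 2) = (shMod m f).toLp 2 := by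
  apply Lp.ext
  have h1 := coeFn_mulE (toLIC (mFourier m)) (f.toLp 2)
  have h2 := ae_proj (ContinuousMap.coeFn_toLp (p := ∞) (μ := torM d) (𝕜 := ℂ) (mFourier m))
  filter_upwards [h1, h2, f.coeFn_toLp 2 volume, (shMod m f).coeFn_toLp 2 volume]
    with x k1 k2 k3 k4
  rw [k1, k4, k3, shMod_apply, ← mFourier_proj]
  congr 1

/-- For Schwartz functions by the integral formula, for `L²` by density and continuity. -/
theorem fourier_mulE_mFourier (m : Lat d) (F : L2E d) :
    ∀ᵐ ξ : E d, (𝓕 (mulE (toLIC (mFourier m)) F) : L2E d) ξ = (𝓕 F : L2E d) (ξ - latE m) := by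
  have key : (𝓕 (mulE (toLIC (mFourier m)) F) : L2E d) = shTr (latE m) (𝓕 F : L2E d) := by
    refine DenseRange.induction_on
      (p := fun F : L2E d => (𝓕 (mulE (toLIC (mFourier m)) F) : L2E d) =
        shTr (latE m) (𝓕 F : L2E d))
      (SchwartzMap.denseRange_toLpCLM (p := 2) ENNReal.ofNat_ne_top) F ?_ ?_
    · apply isClosed_eq
      · exact (Lp.fourierTransformₗᵢ (E d) ℂ).continuous.comp
          (mulE (toLIC (mFourier m))).continuous
      · exact (shTr_continuous _).comp (Lp.fourierTransformₗᵢ (E d) ℂ).continuous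
    · intro f
      change (𝓕 (mulE (toLIC (mFourier m)) (f.toLp 2)) : L2E d) =
        shTr (latE m) (𝓕 (f.toLp 2) : L2E d)
      rw [mulE_toLp, SchwartzMap.toLp_fourier_eq, SchwartzMap.toLp_fourier_eq]
      unfold shMod
      rw [FourierTransform.fourier_fourierInv_eq]
      apply Lp.ext
      have h5 := shTr_coe (latE m) ((𝓕 f : 𝓢(E d, ℂ)).toLp 2)
      have h6 : ∀ᵐ ξ : E d, ((𝓕 f : 𝓢(E d, ℂ)).toLp 2 : L2E d) (ξ - latE m) =
          (𝓕 f : 𝓢(E d, ℂ)) (ξ - latE m) :=
        (measurePreserving_sub_right (volume : Measure (E d)) (latE m)).quasiMeasurePreserving.ae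
          ((𝓕 f : 𝓢(E d, ℂ)).coeFn_toLp 2 volume)
      filter_upwards [h5, h6, ((𝓕 f : 𝓢(E d, ℂ)).compSubConstCLM ℂ (latE m)).coeFn_toLp 2 volume]
        with ξ k5 k6 k7
      rw [k7, k5, k6]
      rfl
  rw [key]
  exact shTr_coe _ _

end Pool.Agent.Lib.MP_c8757e_mp
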