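import Pool.Agent.Lib.MP_c8757e_mp.Fib
import Pool.Agent.Lib.MP_c8757e_mp.Shift
import Pool.Agent.Lib.MP_c8757e_mp.Mul

/-! FLAT, module FibMul: multiplication by a periodic function acts fibrewise by `Mhat`. -/

open MeasureTheory Filter Topology Set UnitAddTorus
open scoped ENNReal FourierTransform

noncomputable section

namespace Pool.Agent.Lib.MP_c8757e_mp

variable {d : ℕ}

/-- the radial projection to the disc of radius `r` -/
private def FibMul_pr (r : ℝ) (z : ℂ) : ℂ := ((r / max r ‖z‖ : ℝ) : ℂ) * z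

private theorem FibMul_pr_cont {r : ℝ} (hr : 0 < r) : Continuous (FibMul_pr r) := by
  unfold FibMul_pr
  refine Continuous.mul (Complex.continuous_ofReal.comp ?_) continuous_id
  refine Continuous.div continuous_const (continuous_const.max continuous_norm) fun z => ?_
  exact (lt_of_lt_of_le hr (le_max_left _ _)).ne'

private theorem FibMul_pr_norm {r : ℝ} (hr : 0 < r) (z : ℂ) : ‖FibMul_pr r z‖ ≤ r := by
  unfold FibMul_pr
  have h1 : 0 < max r ‖z‖ := lt_of_lt_of_le hr (le_max_left _ _)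
  rw [norm_mul, Complex.norm_real, Real.norm_of_nonneg (by positivity), div_mul_eq_mul_div,
    div_le_iff₀ h1]
  exact mul_le_mul_of_nonneg_left (le_max_right _ _) hr.le

private theorem FibMul_pr_eq {r : ℝ} (hr : 0 < r) {z : ℂ} (hz : ‖z‖ ≤ r) : FibMul_pr r z = z := by
  unfold FibMul_pr
  rw [max_eq_left hz, div_self hr.ne']
  simp

/-- Approximation of a bounded function by trigonometric polynomials: there are `p j` in the span of
the `mFourier m` with `‖p j‖ ≤ ‖a‖ + 1` and `p j → a` a.e. (continuous functions are dense in `L²`;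
truncate them by the radial projection to the disc of radius `‖a‖`; pass to a subsequence; approximate
uniformly with `span_mFourier_closure_eq_top`). -/
theorem exists_trig_approx (a : LIC d) : ∃ p : ℕ → C(Tor d, ℂ),
    (∀ j, p j ∈ Submodule.span ℂ (range (mFourier (d := Fin d)))) ∧
    (∀ j, ‖p j‖ ≤ ‖a‖ + 1) ∧ ∀ᵐ x ∂(torM d), Tendsto (fun j => p j x) atTop (𝓝 (a x)) := by
  have ha2 : MemLp (a : Tor d → ℂ) 2 (torM d) := (Lp.memLp a).mono_exponent le_top
  let a2 : Lp ℂ 2 (torM d) := ha2.toLp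
  have hdense := ContinuousMap.toLp_denseRange (α := Tor d) (E := ℂ) (torM d) ℂ
    (p := 2) (by norm_num)
  have hg : ∀ j : ℕ, ∃ g : C(Tor d, ℂ), dist a2 (ContinuousMap.toLp 2 (torM d) ℂ g) <
      1 / ((j : ℝ) + 1) := fun j => hdense.exists_dist_lt a2 (by positivity)
  choose g hg using hg
  have hlim : Tendsto (fun j => (ContinuousMap.toLp 2 (torM d) ℂ (g j) : Lp ℂ 2 (torM d))) atTop
      (𝓝 a2) := by
    rw [tendsto_iff_dist_tendsto_zero]
    refine squeeze_zero (fun _ => dist_nonneg) (fun j => ?_)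
      tendsto_one_div_add_atTop_nhds_zero_nat
    rw [dist_comm]
    exact (hg j).le
  obtain ⟨ns, -, hns⟩ := (tendstoInMeasure_of_tendsto_Lp hlim).exists_seq_tendsto_ae
  -- truncation
  obtain ⟨r, hr⟩ : ∃ r : ℝ, r = ‖a‖ + 1 / 2 := ⟨_, rfl⟩
  have hr0 : 0 < r := by rw [hr]; positivity
  let h : ℕ → C(Tor d, ℂ) := fun j => ⟨fun x => FibMul_pr r (g (ns j) x),
    (FibMul_pr_cont hr0).comp (g (ns j)).continuous⟩
  have hh : ∀ j, ‖h j‖ ≤ r := by
    intro j
    rw [ContinuousMap.norm_le _ hr0.le]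
    exact fun x => FibMul_pr_norm hr0 _
  have hspan : ∀ j, ∃ p ∈ Submodule.span ℂ (range (mFourier (d := Fin d))),
      dist (h j) p < 1 / 2 * (1 / ((j : ℝ) + 1)) := by
    intro j
    have h1 : h j ∈ (Submodule.span ℂ (range (mFourier (d := Fin d)))).topologicalClosure := by
      rw [span_mFourier_closure_eq_top]
      trivial
    rw [← SetLike.mem_coe, Submodule.topologicalClosure_coe, Metric.mem_closure_iff] at h1
    exact h1 _ (by positivity)
  choose p hp1 hp2 using hspan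
  refine ⟨p, hp1, ?_, ?_⟩
  · intro j
    have h1 : ‖p j‖ ≤ ‖h j‖ + dist (h j) (p j) := by
      rw [dist_eq_norm]
      have := norm_sub_norm_le (p j) (h j)
      rw [norm_sub_rev] at this
      linarith
    have h2 : (1 : ℝ) / 2 * (1 / ((j : ℝ) + 1)) ≤ 1 / 2 := by
      have : (1 : ℝ) / ((j : ℝ) + 1) ≤ 1 := by
        rw [div_le_one (by positivity)]
        linarith [Nat.cast_nonneg (α := ℝ) j]
      linarith
    linarith [hh j, hp2 j]
  · have hbd : ∀ᵐ x ∂(torM d), ‖a x‖ ≤ ‖a‖ := by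
      have := ae_le_eLpNormEssSup (f := (a : Tor d → ℂ)) (μ := torM d)
      filter_upwards [this] with x hx
      rw [Lp.norm_def, eLpNorm_exponent_top]
      have hfin : eLpNormEssSup (a : Tor d → ℂ) (torM d) ≠ ∞ := by
        have := (Lp.memLp a).2
        rw [eLpNorm_exponent_top] at this
        exact this.ne
      rw [← ofReal_norm] at hx
      exact (ENNReal.ofReal_le_iff_le_toReal hfin).1 hx
    have hcoe : ∀ᵐ x ∂(torM d), ∀ j, (ContinuousMap.toLp 2 (torM d) ℂ (g (ns j)) :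
        Lp ℂ 2 (torM d)) x = g (ns j) x := by
      rw [ae_all_iff]
      exact fun j => ContinuousMap.coeFn_toLp (torM d) (g (ns j))
    filter_upwards [hns, hbd, hcoe, ha2.coeFn_toLp] with x h1 h2 h3 h4
    simp only [h3] at h1
    change Tendsto _ _ (𝓝 (a2 x)) at h1
    have h4' : a2 x = a x := h4
    rw [h4'] at h1
    have h5 : Tendsto (fun j => h j x) atTop (𝓝 (a x)) := by
      have h6 := ((FibMul_pr_cont hr0).tendsto (a x)).comp h1
      rw [FibMul_pr_eq hr0 (by rw [hr]; linarith)] at h6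
      exact h6
    have h7 : Tendsto (fun j => p j x - h j x) atTop (𝓝 0) := by
      rw [tendsto_zero_iff_norm_tendsto_zero]
      refine squeeze_zero (fun _ => norm_nonneg _) (fun j => ?_)
        (g := fun j : ℕ => 1 / 2 * (1 / ((j : ℝ) + 1))) ?_
      · rw [← dist_eq_norm, dist_comm]
        exact (ContinuousMap.dist_apply_le_dist x).trans (hp2 j).le
      · have := (tendsto_one_div_add_atTop_nhds_zero_nat (𝕜 := ℝ)).const_mul (1 / 2 : ℝ)
        simpa using this
    simpa using h7.add h5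

private theorem FibMul_toLIC_coe (p : C(Tor d, ℂ)) : ∀ᵐ x ∂(torM d), toLIC p x = p x :=
  ContinuousMap.coeFn_toLp (torM d) p

private theorem FibMul_toLIC_norm (p : C(Tor d, ℂ)) : ‖toLIC p‖ ≤ ‖p‖ := by
  have h := Lp.norm_le_of_ae_bound (f := toLIC p) (norm_nonneg p) (by
    filter_upwards [FibMul_toLIC_coe p] with x hx
    rw [hx]
    exact p.norm_coe_le_norm x)
  simpa using h

/-- the statement for `mFourier m` -/
private theorem FibMul_mFourier (m : Lat d) (F : L2E d) :
    ∀ᵐ k : E d, fib (𝓕 (mulE (toLIC (mFourier m)) F) : L2E d) k =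
      Mhat (toLIC (mFourier m)) (fib (𝓕 F : L2E d) k) := by
  filter_upwards [ae_shift (fourier_mulE_mFourier m F), fib_apply (𝓕 F : L2E d),
    fib_apply (𝓕 (mulE (toLIC (mFourier m)) F) : L2E d)] with k h1 h2 h3
  ext n
  rw [h3 n, h1 n, Mhat_mFourier, h2 (n - m)]
  congr 1
  rw [add_sub_assoc]
  congr 1
  ext i
  simp [latE]

private theorem FibMul_add (Φ Ψ : L2E d) :
    ∀ᵐ k : E d, fib (Φ + Ψ : L2E d) k = fib Φ k + fib Ψ k := by
  filter_upwards [ae_shift (Lp.coeFn_add Φ Ψ), fib_apply Φ, fib_apply Ψ,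
    fib_apply (Φ + Ψ : L2E d)] with k h1 h2 h3 h4
  ext n
  rw [h4 n, h1 n, lp.coeFn_add, Pi.add_apply, Pi.add_apply, h2 n, h3 n]

private theorem FibMul_smul (z : ℂ) (Φ : L2E d) :
    ∀ᵐ k : E d, fib (z • Φ : L2E d) k = z • fib Φ k := by
  filter_upwards [ae_shift (Lp.coeFn_smul z Φ), fib_apply Φ,
    fib_apply (z • Φ : L2E d)] with k h1 h2 h4
  ext n
  rw [h4 n, h1 n, lp.coeFn_smul, Pi.smul_apply, Pi.smul_apply, h2 n]

/-- the statement for trigonometric polynomials -/
private theorem FibMul_span (F : L2E d) (p : C(Tor d, ℂ))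
    (hp : p ∈ Submodule.span ℂ (range (mFourier (d := Fin d)))) :
    ∀ᵐ k : E d, fib (𝓕 (mulE (toLIC p) F) : L2E d) k =
      Mhat (toLIC p) (fib (𝓕 F : L2E d) k) := by
  induction hp using Submodule.span_induction with
  | mem x hx =>
    obtain ⟨m, rfl⟩ := hx
    exact FibMul_mFourier m F
  | zero =>
    have e1 : (toLIC (0 : C(Tor d, ℂ))) = 0 := map_zero _
    have e2 : mulE (0 : LIC d) F = 0 := by
      have := mulE_smul (0 : ℂ) (0 : LIC d) F
      simpa using this
    have e3 : Mhat (0 : LIC d) = 0 := by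
      have := Mhat_smul (0 : ℂ) (0 : LIC d)
      simpa using this
    rw [e1, e2, e3]
    have e4 : (𝓕 (0 : L2E d) : L2E d) = (0 : ℂ) • (𝓕 (0 : L2E d) : L2E d) := by
      rw [← FourierTransform.fourier_smul]
      simp
    rw [e4, zero_smul]
    filter_upwards [FibMul_smul (0 : ℂ) (0 : L2E d)] with k hk
    simpa using hk
  | add x y _ _ hx hy =>
    have e1 : toLIC (x + y) = toLIC x + toLIC y := map_add _ _ _
    rw [e1, mulE_add, Mhat_add, FourierTransform.fourier_add]
    filter_upwards [hx, hy, FibMul_add (𝓕 (mulE (toLIC x) F) : L2E d)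
      (𝓕 (mulE (toLIC y) F) : L2E d)] with k h1 h2 h3
    rw [h3, h1, h2]
    rfl
  | smul z x _ hx =>
    have e1 : toLIC (z • x) = z • toLIC x := map_smul _ _ _
    rw [e1, mulE_smul, Mhat_smul, FourierTransform.fourier_smul]
    filter_upwards [hx, FibMul_smul z (𝓕 (mulE (toLIC x) F) : L2E d)] with k h1 h3
    rw [h3, h1]
    rfl

/-- dominated convergence in `L²(ℝ^d)` -/
private theorem FibMul_lim (a : LIC d) (F : L2E d) (p : ℕ → C(Tor d, ℂ))
    (hp : ∀ j, ‖p j‖ ≤ ‖a‖ + 1)
    (hlim : ∀ᵐ x ∂(torM d), Tendsto (fun j => p j x) atTop (𝓝 (a x))) :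
    Tendsto (fun j => mulE (toLIC (p j)) F) atTop (𝓝 (mulE a F)) := by
  have hbd : ∀ᵐ x ∂(torM d), ‖a x‖ ≤ ‖a‖ := by
    have := ae_le_eLpNormEssSup (f := (a : Tor d → ℂ)) (μ := torM d)
    filter_upwards [this] with x hx
    rw [Lp.norm_def, eLpNorm_exponent_top]
    have hfin : eLpNormEssSup (a : Tor d → ℂ) (torM d) ≠ ∞ := by
      have := (Lp.memLp a).2
      rw [eLpNorm_exponent_top] at this
      exact this.ne
    rw [← ofReal_norm] at hx
    exact (ENNReal.ofReal_le_iff_le_toReal hfin).1 hx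
  rw [Lp.tendsto_Lp_iff_tendsto_eLpNorm']
  have e : ∀ j, eLpNorm (⇑(mulE (toLIC (p j)) F) - ⇑(mulE a F)) 2 volume =
      (∫⁻ x, ‖(mulE (toLIC (p j)) F) x - (mulE a F) x‖ₑ ^ (2 : ℝ)) ^ (1 / 2 : ℝ) := by
    intro j
    rw [eLpNorm_eq_lintegral_rpow_enorm_toReal (by norm_num) (by norm_num)]
    simp
  simp only [e]
  have hpt : ∀ j, ∀ᵐ x : E d, (mulE (toLIC (p j)) F) x - (mulE a F) x =
      (p j (proj x) - a (proj x)) * F x := by
    intro j
    filter_upwards [coeFn_mulE (toLIC (p j)) F, coeFn_mulE a F,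
      ae_proj (FibMul_toLIC_coe (p j))] with x h1 h2 h3
    rw [h1, h2, h3]
    ring
  obtain ⟨C, hC⟩ : ∃ C : ℝ, C = 2 * ‖a‖ + 1 := ⟨_, rfl⟩
  have hC0 : 0 ≤ C := by rw [hC]; positivity
  have key : Tendsto (fun j => ∫⁻ x, ‖(mulE (toLIC (p j)) F) x - (mulE a F) x‖ₑ ^ (2 : ℝ)) atTop
      (𝓝 (∫⁻ _ : E d, 0)) := by
    refine tendsto_lintegral_of_dominated_convergence'
      (fun x => (ENNReal.ofReal C * ‖F x‖ₑ) ^ (2 : ℝ)) (fun j => ?_) (fun j => ?_) ?_ ?_
    · exact (((Lp.aestronglyMeasurable _).sub (Lp.aestronglyMeasurable _)).enorm).pow_const _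
    · filter_upwards [hpt j, ae_proj hbd] with x h1 h2
      rw [h1, enorm_mul]
      refine ENNReal.rpow_le_rpow (mul_le_mul_left ?_ _) (by norm_num)
      rw [← ofReal_norm]
      apply ENNReal.ofReal_le_ofReal
      refine (norm_sub_le _ _).trans ?_
      have h3 := (p j).norm_coe_le_norm (proj x)
      rw [hC]
      linarith [hp j]
    · have h1 : ∫⁻ x, ‖F x‖ₑ ^ (2 : ℝ) < ∞ := by
        have := lintegral_rpow_enorm_lt_top_of_eLpNorm_lt_top (p := 2) (f := (F : E d → ℂ))
          (μ := volume) (by norm_num) (by norm_num) (Lp.memLp F).2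
        simpa using this
      simp only [ENNReal.mul_rpow_of_nonneg _ _ (show (0 : ℝ) ≤ 2 by norm_num)]
      rw [lintegral_const_mul' _ _ (by
        exact ENNReal.rpow_ne_top_of_nonneg (by norm_num) ENNReal.ofReal_ne_top)]
      exact ENNReal.mul_ne_top
        (ENNReal.rpow_ne_top_of_nonneg (by norm_num) ENNReal.ofReal_ne_top) h1.ne
    · have hall := ae_all_iff.2 hpt
      filter_upwards [hall, ae_proj hlim] with x h1 h2
      simp only [h1]
      have h3 : Tendsto (fun j => ‖(p j (proj x) - a (proj x)) * F x‖) atTop (𝓝 0) := by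
        have h4 : Tendsto (fun j => (p j (proj x) - a (proj x)) * F x) atTop (𝓝 0) := by
          have := (h2.sub_const (a (proj x))).mul_const (F x)
          simpa using this
        simpa using h4.norm
      have h5 : Tendsto (fun j => ‖(p j (proj x) - a (proj x)) * F x‖ₑ) atTop (𝓝 0) := by
        have h := (ENNReal.continuous_ofReal.tendsto 0).comp h3
        rw [ENNReal.ofReal_zero] at h
        exact h.congr fun j => ofReal_norm _
      have h6 := (ENNReal.continuous_rpow_const (y := (2 : ℝ))).tendsto (0 : ℝ≥0∞)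
      have h7 := h6.comp h5
      simpa [Function.comp_def] using h7
  rw [lintegral_zero] at key
  have h8 := ((ENNReal.continuous_rpow_const (y := (1 / 2 : ℝ))).tendsto (0 : ℝ≥0∞)).comp key
  simpa [Function.comp_def] using h8

/-- For `a = mFourier m` by `fourier_mulE_mFourier` and `Mhat_mFourier`; for trigonometric
polynomials by linearity; in general take `p j → a` from `exists_trig_approx`. Then `p_j F → a F` in
`L²(ℝ^d)` (dominated convergence, `ae_proj`), so for a subsequence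
`∑_j ∫_{cube m} ‖fib (𝓕 (a F)) k - fib (𝓕 (p_j F)) k‖² < ∞` (`lintegral_fib`, `fib_sub`) and the
difference tends to `0` for a.e. `k`; and `Mhat p_j v → Mhat a v` for every `v` (`Mhat_tendsto`).
Second proof (helper21), without approximation of `a`: for `F` bounded with compact support and every
`ξ`, `∫ a F e(-ξ x) = ∫_T a h`, `h = ∑_γ (F e(-ξ ·))(x + γ)` (finite sum), Parseval on the torus; for
general `F` choose `F_j → F` with `‖F_j - F‖² ≤ 4^{-j}`. -/
theorem fib_mulE (a : LIC d) (F : L2E d) :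
    ∀ᵐ k : E d, fib (𝓕 (mulE a F) : L2E d) k = Mhat a (fib (𝓕 F : L2E d) k) := by
  obtain ⟨p, hp1, hp2, hp3⟩ := exists_trig_approx a
  have hlim := FibMul_lim a F p hp2 hp3
  have hlimF : Tendsto (fun j => (𝓕 (mulE (toLIC (p j)) F) : L2E d)) atTop
      (𝓝 (𝓕 (mulE a F) : L2E d)) :=
    ((Lp.fourierTransformₗᵢ (E d) ℂ).continuous.tendsto _).comp hlim
  obtain ⟨ns, hns1, hns⟩ := (tendstoInMeasure_of_tendsto_Lp hlimF).exists_seq_tendsto_ae
  have hall : ∀ᵐ k : E d, ∀ j, fib (𝓕 (mulE (toLIC (p j)) F) : L2E d) k =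
      Mhat (toLIC (p j)) (fib (𝓕 F : L2E d) k) :=
    ae_all_iff.2 fun j => FibMul_span F (p j) (hp1 j)
  have hall2 : ∀ᵐ k : E d, ∀ j, ∀ n : Lat d, fib (𝓕 (mulE (toLIC (p j)) F) : L2E d) k n =
      (𝓕 (mulE (toLIC (p j)) F) : L2E d) (k + latE n) :=
    ae_all_iff.2 fun j => fib_apply _
  filter_upwards [ae_shift hns, hall, hall2, fib_apply (𝓕 (mulE a F) : L2E d)] with k h1 h2 h3 h4
  ext n
  rw [h4 n]
  refine tendsto_nhds_unique (h1 n) ?_
  have h5 : ∀ j, (𝓕 (mulE (toLIC (p j)) F) : L2E d) (k + latE n) =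
      Mhat (toLIC (p j)) (fib (𝓕 F : L2E d) k) n := by
    intro j
    rw [← h3 j n, h2 j]
  simp only [h5]
  have h6 : Tendsto (fun j => Mhat (toLIC (p j)) (fib (𝓕 F : L2E d) k)) atTop
      (𝓝 (Mhat a (fib (𝓕 F : L2E d) k))) := by
    refine Mhat_tendsto _ _ (‖a‖ + 1) (fun j => (FibMul_toLIC_norm _).trans (hp2 j)) ?_ _
    have h7 : ∀ᵐ x ∂(torM d), ∀ j, toLIC (p j) x = p j x :=
      ae_all_iff.2 fun j => FibMul_toLIC_coe (p j)
    filter_upwards [h7, hp3] with x h8 h9
    simp only [h8]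
    exact h9
  have h7 := h6.comp hns1.tendsto_atTop
  rw [tendsto_iff_norm_sub_tendsto_zero] at h7 ⊢
  refine squeeze_zero (fun _ => norm_nonneg _) (fun j => ?_) h7
  have := lp.norm_apply_le_norm (p := 2) (by norm_num)
    (Mhat (toLIC (p (ns j))) (fib (𝓕 F : L2E d) k) - Mhat a (fib (𝓕 F : L2E d) k)) n
  simpa using this

end Pool.Agent.Lib.MP_c8757e_mp
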