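import Pool.Agent.Lib.MP_c8757e_mp.Four

/-! FLAT, module Lap: the Laplacian has no eigenvalue; scaling. -/

open MeasureTheory Filter Topology Set
open scoped ENNReal FourierTransform

noncomputable section

namespace Pool.Agent.Lib.MP_c8757e_mp

variable {d : ℕ}

private theorem Lap_fourier_smul (c : ℂ) (F : L2E d) :
    ∀ᵐ ξ : E d, (𝓕 (c • F) : L2E d) ξ = c * (𝓕 F : L2E d) ξ := by
  have h : (𝓕 (c • F) : L2E d) = c • (𝓕 F : L2E d) := FourierTransform.fourier_smul c F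
  rw [h]
  filter_upwards [Lp.coeFn_smul c (𝓕 F : L2E d)] with ξ hξ
  rw [hξ, Pi.smul_apply, smul_eq_mul]

private theorem Lap_int_smul (c : ℂ) (F : L2E d) (f : E d → ℂ) (hf : F =ᵐ[volume] f)
    (φ : E d → ℂ) : ∫ x, (c • F : L2E d) x * φ x = c * ∫ x, f x * φ x := by
  rw [← integral_const_mul]
  refine integral_congr_ae ?_
  filter_upwards [Lp.coeFn_smul c F, hf] with x hx hx2
  rw [hx, Pi.smul_apply, smul_eq_mul, hx2]
  ring

private theorem Lap_null (hd : 0 < d) (μ : ℝ) :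
    ∀ᵐ ξ : E d, 4 * Real.pi ^ 2 * ‖ξ‖ ^ 2 + μ ≠ 0 := by
  haveI : Nonempty (Fin d) := ⟨⟨0, hd⟩⟩
  haveI : Nontrivial (E d) := inferInstance
  have h0 := Measure.addHaar_sphere (volume : Measure (E d)) (0 : E d)
    (Real.sqrt (-μ / (4 * Real.pi ^ 2)))
  rw [ae_iff]
  refine measure_mono_null ?_ h0
  intro ξ hξ
  simp only [ne_eq, not_not, mem_setOf_eq] at hξ
  rw [mem_sphere_zero_iff_norm]
  have hpi : (0 : ℝ) < 4 * Real.pi ^ 2 := by positivity
  have h1 : ‖ξ‖ ^ 2 = -μ / (4 * Real.pi ^ 2) := by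
    field_simp
    linarith
  rw [← h1, Real.sqrt_sq (norm_nonneg ξ)]

/-- `(4π²|ξ|² + μ) 𝓕 u = 0` a.e., and a sphere (or a point) is a null set for `d > 0`. -/
theorem laplace_not_isEigenvalue (hd : 0 < d) (μ : ℝ) :
    ¬ IsEigenvalue (fun _ : E d => (1 : Matrix (Fin d) (Fin d) ℝ)) (fun _ => 0) μ := by
  rintro ⟨u, g, hu, hg, hne, hgrad, heq⟩
  set U : L2E d := hu.toLp u with hU
  set G : Fin d → L2E d := fun j => (hg j).toLp (g j) with hG
  have hUu : U =ᵐ[volume] u := hu.coeFn_toLp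
  have hGg : ∀ j, G j =ᵐ[volume] g j := fun j => (hg j).coeFn_toLp
  have h1 : ∀ j0 : Fin d, ∀ᵐ ξ : E d, (𝓕 (G j0) : L2E d) ξ =
      2 * (Real.pi : ℂ) * Complex.I * (ξ j0 : ℂ) * (𝓕 U : L2E d) ξ := by
    intro j0
    have key := fourier_of_weak (d := d) (fun j => (if j = j0 then (1 : ℂ) else 0) • U)
      ((-1 : ℂ) • G j0) (by
        intro φ hφ
        have e1 : ∀ j, ∫ x, ((if j = j0 then (1 : ℂ) else 0) • U : L2E d) x * pd j φ x =
            (if j = j0 then (1 : ℂ) else 0) * ∫ x, u x * pd j φ x := fun j =>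
          Lap_int_smul _ U u hUu (pd j φ)
        rw [Finset.sum_congr rfl fun j _ => e1 j]
        simp only [ite_mul, one_mul, zero_mul, Finset.sum_ite_eq', Finset.mem_univ, if_true]
        rw [Lap_int_smul _ (G j0) (g j0) (hGg j0) φ, hgrad j0 φ hφ]
        ring)
    have hs : ∀ j, ∀ᵐ ξ : E d, (𝓕 ((if j = j0 then (1 : ℂ) else 0) • U) : L2E d) ξ =
        (if j = j0 then (1 : ℂ) else 0) * (𝓕 U : L2E d) ξ := fun j => Lap_fourier_smul _ U
    filter_upwards [key, Lap_fourier_smul (-1) (G j0), ae_all_iff.2 hs] with ξ k1 k2 k3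
    rw [k2] at k1
    rw [Finset.sum_congr rfl fun j _ => by rw [k3 j]] at k1
    simp only [ite_mul, one_mul, zero_mul, mul_ite, mul_zero, Finset.sum_ite_eq', Finset.mem_univ,
      if_true] at k1
    linear_combination -k1
  have h2 := fourier_of_weak (d := d) G (((-μ : ℝ) : ℂ) • U) (by
    intro φ hφ
    rw [Lap_int_smul _ U u hUu φ]
    have e := heq φ hφ
    have e1 : ∀ j, ∑ l, ∫ x, (((1 : Matrix (Fin d) (Fin d) ℝ) j l : ℝ) : ℂ) * g l x * pd j φ x =
        ∫ x, G j x * pd j φ x := by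
      intro j
      rw [Finset.sum_eq_single j]
      · refine integral_congr_ae ?_
        filter_upwards [hGg j] with x hx
        rw [hx, Matrix.one_apply_eq]
        push_cast
        ring
      · intro l _ hl
        rw [Matrix.one_apply_ne (Ne.symm hl)]
        simp
      · intro h
        exact absurd (Finset.mem_univ _) h
    rw [Finset.sum_congr rfl fun j _ => e1 j] at e
    rw [e, ← integral_const_mul]
    refine integral_congr_ae (Eventually.of_forall fun x => ?_)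
    simp only
    push_cast
    ring)
  have h3 : ∀ᵐ ξ : E d, (𝓕 U : L2E d) ξ = 0 := by
    filter_upwards [h2, ae_all_iff.2 h1, Lap_fourier_smul (((-μ : ℝ) : ℂ)) U, Lap_null hd μ]
      with ξ k1 k2 k3 k4
    rw [k3] at k1
    rw [Finset.sum_congr rfl fun j _ => by rw [k2 j]] at k1
    have e1 : ∑ j : Fin d, 2 * (Real.pi : ℂ) * Complex.I * (ξ j : ℂ) *
        (2 * (Real.pi : ℂ) * Complex.I * (ξ j : ℂ) * (𝓕 U : L2E d) ξ) =
        -(4 * (Real.pi : ℂ) ^ 2 * ((‖ξ‖ ^ 2 : ℝ) : ℂ)) * (𝓕 U : L2E d) ξ := by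
      rw [EuclideanSpace.norm_sq_eq]
      push_cast
      rw [Finset.mul_sum, ← Finset.sum_neg_distrib, Finset.sum_mul]
      refine Finset.sum_congr rfl fun j _ => ?_
      have e2 : ((‖ξ j‖ : ℝ) : ℂ) ^ 2 = (ξ j : ℂ) ^ 2 := by
        rw [← Complex.ofReal_pow, ← Complex.ofReal_pow, Real.norm_eq_abs, sq_abs]
      rw [e2]
      linear_combination (4 * (Real.pi : ℂ) ^ 2 * (ξ j : ℂ) ^ 2 * (𝓕 U : L2E d) ξ) *
        Complex.I_sq
    rw [e1] at k1
    have k5 : ((4 * Real.pi ^ 2 * ‖ξ‖ ^ 2 + μ : ℝ) : ℂ) * (𝓕 U : L2E d) ξ = 0 := by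
      push_cast at k1 ⊢
      linear_combination -k1
    rcases mul_eq_zero.1 k5 with h | h
    · exact absurd (Complex.ofReal_eq_zero.1 h) k4
    · exact h
  have h4 : (𝓕 U : L2E d) = 0 := by
    refine (Lp.eq_zero_iff_ae_eq_zero).2 ?_
    filter_upwards [h3] with ξ hξ
    simpa using hξ
  have h5 : U = 0 := by
    have := Lp.norm_fourier_eq U
    rw [h4, norm_zero] at this
    exact norm_eq_zero.1 this.symm
  refine hne ?_
  have h6 := (Lp.eq_zero_iff_ae_eq_zero).1 h5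
  filter_upwards [h6, hUu] with x hx hx2
  rw [← hx2, hx]

theorem isEigenvalue_smul (A : E d → Matrix (Fin d) (Fin d) ℝ) (V : E d → ℝ) (μ t : ℝ)
    (ht : t ≠ 0) (h : IsEigenvalue (fun x => t • A x) (fun x => t * V x) (t * μ)) :
    IsEigenvalue A V μ := by
  obtain ⟨u, g, hu, hg, hne, hgrad, heq⟩ := h
  refine ⟨u, g, hu, hg, hne, hgrad, fun φ hφ => ?_⟩
  have e := heq φ hφ
  have htc : (t : ℂ) ≠ 0 := Complex.ofReal_ne_zero.2 ht
  have e1 : ∀ j l, ∫ x, (((t • A x) j l : ℝ) : ℂ) * g l x * pd j φ x =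
      (t : ℂ) * ∫ x, (A x j l : ℂ) * g l x * pd j φ x := by
    intro j l
    rw [← integral_const_mul]
    refine integral_congr_ae (Eventually.of_forall fun x => ?_)
    simp only [Matrix.smul_apply, smul_eq_mul]
    push_cast
    ring
  have e2 : ∫ x, (((t * V x : ℝ) : ℂ) - ((t * μ : ℝ) : ℂ)) * u x * φ x =
      (t : ℂ) * ∫ x, ((V x : ℂ) - (μ : ℂ)) * u x * φ x := by
    rw [← integral_const_mul]
    refine integral_congr_ae (Eventually.of_forall fun x => ?_)
    simp only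
    push_cast
    ring
  have e3 : ∑ j, ∑ l, ∫ x, (((t • A x) j l : ℝ) : ℂ) * g l x * pd j φ x =
      (t : ℂ) * ∑ j, ∑ l, ∫ x, (A x j l : ℂ) * g l x * pd j φ x := by
    rw [Finset.mul_sum]
    refine Finset.sum_congr rfl fun j _ => ?_
    rw [Finset.mul_sum]
    exact Finset.sum_congr rfl fun l _ => e1 j l
  rw [e3, e2] at e
  exact mul_left_cancel₀ htc e

end Pool.Agent.Lib.MP_c8757e_mp
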