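import Pool.Agent.Lib.MP_c8757e_mp.Quasi

/-! FLAT, module Tran: periodic functions on `ℝ^d` and functions on the torus. -/

open MeasureTheory Filter Topology Set
open scoped ENNReal

noncomputable section

namespace Pool.Agent.Lib.MP_c8757e_mp

variable {d : ℕ}

private theorem Tran_coe_eq (a b : ℝ) :
    ((a : ℝ) : UnitAddCircle) = ((b : ℝ) : UnitAddCircle) ↔ ∃ n : ℤ, b = a + n := by
  rw [show ((a : ℝ) : UnitAddCircle) = (QuotientAddGroup.mk a : ℝ ⧸ AddSubgroup.zmultiples (1 : ℝ))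
    from rfl, show ((b : ℝ) : UnitAddCircle) =
    (QuotientAddGroup.mk b : ℝ ⧸ AddSubgroup.zmultiples (1 : ℝ)) from rfl, QuotientAddGroup.eq,
    AddSubgroup.mem_zmultiples_iff]
  constructor
  · rintro ⟨k, hk⟩
    refine ⟨k, ?_⟩
    rw [zsmul_eq_mul, mul_one] at hk
    linarith
  · rintro ⟨n, hn⟩
    refine ⟨n, ?_⟩
    rw [zsmul_eq_mul, mul_one]
    linarith

theorem proj_surjective : Function.Surjective (proj (d := d)) := by
  intro y
  have h : ∀ i, ∃ r : ℝ, ((r : ℝ) : UnitAddCircle) = y i := fun i =>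
    QuotientAddGroup.mk_surjective (y i)
  choose r hr using h
  exact ⟨WithLp.toLp 2 r, funext hr⟩

theorem proj_eq_iff (x y : E d) : proj x = proj y ↔ ∃ n : Lat d, y = x + latE n := by
  constructor
  · intro h
    have h1 : ∀ i, ∃ n : ℤ, y i = x i + n := fun i =>
      (Tran_coe_eq (x i) (y i)).1 (congrFun h i)
    choose n hn using h1
    refine ⟨n, ?_⟩
    ext i
    exact hn i
  · rintro ⟨n, rfl⟩
    funext i
    exact (Tran_coe_eq _ _).2 ⟨n i, rfl⟩

/-- The section `T^d → [0,1)^d`. -/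
private def Tran_sec (y : Tor d) : E d :=
  WithLp.toLp 2 (fun i => ((AddCircle.measurableEquivIco (1 : ℝ) 0 (y i) : Ico (0 : ℝ) (0 + 1)) : ℝ))

private theorem Tran_sec_meas : Measurable (Tran_sec (d := d)) := by
  unfold Tran_sec
  refine (WithLp.measurable_toLp 2 (Fin d → ℝ)).comp ?_
  refine measurable_pi_lambda _ fun i => ?_
  exact measurable_subtype_coe.comp
    ((AddCircle.measurableEquivIco (1 : ℝ) 0).measurable.comp (measurable_pi_apply i))

private theorem Tran_proj_sec (y : Tor d) : proj (Tran_sec y) = y := by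
  funext i
  exact (AddCircle.equivIco (1 : ℝ) 0).symm_apply_apply (y i)

/-- A measurable section `r : T^d → [0,1)^d` (`AddCircle.equivIco`); `g = f ∘ r`. -/
theorem exists_torus_fun (f : E d → ℝ) (hf : Measurable f) (hb : ∃ C, ∀ x, |f x| ≤ C)
    (hp : Periodic f) : ∃ g : Tor d → ℝ, Measurable g ∧ (∃ C, ∀ y, |g y| ≤ C) ∧
      ∀ x, g (proj x) = f x := by
  obtain ⟨C, hC⟩ := hb
  refine ⟨fun y => f (Tran_sec y), hf.comp Tran_sec_meas, ⟨C, fun y => hC _⟩, fun x => ?_⟩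
  obtain ⟨n, hn⟩ := (proj_eq_iff x (Tran_sec (proj x))).1 (Tran_proj_sec (proj x)).symm
  change f (Tran_sec (proj x)) = f x
  rw [hn]
  exact hp x n

theorem exists_torus (f : E d → ℝ) (hf : Measurable f) (hb : ∃ C, ∀ x, |f x| ≤ C)
    (hp : Periodic f) : ∃ a : LI d, (∀ᵐ x : E d, a (proj x) = f x) ∧
      ∃ g : Tor d → ℝ, (∀ x, g (proj x) = f x) ∧ ∀ᵐ y ∂(torM d), a y = g y := by
  obtain ⟨g, hg, ⟨C, hC⟩, hgf⟩ := exists_torus_fun f hf hb hp
  have hm : MemLp g ∞ (torM d) :=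
    memLp_top_of_bound hg.aestronglyMeasurable C (Filter.Eventually.of_forall fun y => by
      rw [Real.norm_eq_abs]
      exact hC y)
  have h1 : ∀ᵐ y ∂(torM d), (hm.toLp g : LI d) y = g y := hm.coeFn_toLp
  refine ⟨hm.toLp g, ?_, g, hgf, h1⟩
  filter_upwards [ae_proj h1] with x hx
  rw [hx, hgf]

/-- Only the classes of the coefficients matter. -/
theorem isEigenvalue_congr {A A' : E d → Matrix (Fin d) (Fin d) ℝ} {V V' : E d → ℝ} {μ : ℝ}
    (hA : ∀ᵐ x : E d, A x = A' x) (hV : ∀ᵐ x : E d, V x = V' x) (h : IsEigenvalue A V μ) :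
    IsEigenvalue A' V' μ := by
  obtain ⟨u, g, hu, hg, hne, hw, he⟩ := h
  refine ⟨u, g, hu, hg, hne, hw, fun φ hφ => ?_⟩
  have h1 : ∑ j, ∑ l, ∫ x, (A' x j l : ℂ) * g l x * pd j φ x =
      ∑ j, ∑ l, ∫ x, (A x j l : ℂ) * g l x * pd j φ x := by
    refine Finset.sum_congr rfl fun j _ => Finset.sum_congr rfl fun l _ => ?_
    refine integral_congr_ae ?_
    filter_upwards [hA] with x hx
    rw [hx]
  have h2 : ∫ x, ((V' x : ℂ) - (μ : ℂ)) * u x * φ x = ∫ x, ((V x : ℂ) - (μ : ℂ)) * u x * φ x := by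
    refine integral_congr_ae ?_
    filter_upwards [hV] with x hx
    rw [hx]
  rw [h1, h2]
  exact he φ hφ

end Pool.Agent.Lib.MP_c8757e_mp
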