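import Pool.Agent.Lib.MP_c8757e_mp.LineT
import Pool.Agent.Lib.MP_c8757e_mp.Tran
import Pool.Agent.Lib.MP_c8757e_mp.Lap

/-! FLAT, module Fin: the two final theorems. -/

open MeasureTheory Filter Topology Set

noncomputable section

namespace Pool.Agent.Lib.MP_c8757e_mp

variable {d : ℕ}

/-- The quadratic form of a matrix. -/
private def FinQ (M : Matrix (Fin d) (Fin d) ℝ) (ξ : Fin d → ℝ) : ℝ :=
  ∑ j, ∑ l, M j l * ξ j * ξ l

private theorem FinQ_add (M N : Matrix (Fin d) (Fin d) ℝ) (ξ : Fin d → ℝ) :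
    FinQ (M + N) ξ = FinQ M ξ + FinQ N ξ := by
  simp only [FinQ, Matrix.add_apply, add_mul, Finset.sum_add_distrib]

private theorem FinQ_sub (M N : Matrix (Fin d) (Fin d) ℝ) (ξ : Fin d → ℝ) :
    FinQ (M - N) ξ = FinQ M ξ - FinQ N ξ := by
  simp only [FinQ, Matrix.sub_apply, sub_mul, Finset.sum_sub_distrib]

private theorem FinQ_smul (t : ℝ) (M : Matrix (Fin d) (Fin d) ℝ) (ξ : Fin d → ℝ) :
    FinQ (t • M) ξ = t * FinQ M ξ := by
  simp only [FinQ, Matrix.smul_apply, smul_eq_mul, Finset.mul_sum, mul_assoc]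

private theorem FinQ_one (ξ : Fin d → ℝ) :
    FinQ (1 : Matrix (Fin d) (Fin d) ℝ) ξ = ∑ j, ξ j ^ 2 := by
  unfold FinQ
  refine Finset.sum_congr rfl fun j _ => ?_
  rw [Finset.sum_eq_single j]
  · rw [Matrix.one_apply_eq]
    ring
  · intro l _ hl
    rw [Matrix.one_apply_ne (Ne.symm hl)]
    ring
  · intro h
    exact absurd (Finset.mem_univ j) h

/-- A periodic bounded symmetric matrix function as a matrix of functions on the torus. -/
private theorem Fin_torus (A : E d → Matrix (Fin d) (Fin d) ℝ)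
    (hA : ∀ i j, Measurable fun x => A x i j) (bA : ∃ C, ∀ x i j, |A x i j| ≤ C)
    (pA : Periodic A) (sA : ∀ x, (A x).IsSymm) :
    ∃ (a : Fin d → Fin d → LI d) (g : Tor d → Matrix (Fin d) (Fin d) ℝ),
      (∀ x, g (proj x) = A x) ∧ (∀ᵐ y ∂(torM d), ∀ j l, a j l y = g y j l) ∧
        ∀ j l, a j l = a l j := by
  obtain ⟨C, hC⟩ := bA
  have h := fun j l => exists_torus (fun x => A x j l) (hA j l) ⟨C, fun x => hC x j l⟩
    (fun x n => congrFun (congrFun (pA x n) j) l)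
  choose a h1 g h2 h3 using h
  refine ⟨a, fun y j l => g j l y, ?_, ?_, ?_⟩
  · intro x
    ext j l
    exact h2 j l x
  · rw [ae_all_iff]
    intro j
    rw [ae_all_iff]
    exact fun l => h3 j l
  · intro j l
    have hg : g j l = g l j := by
      funext y
      obtain ⟨x, rfl⟩ := proj_surjective (d := d) y
      rw [h2, h2]
      exact (congrFun (congrFun (sA x) l) j)
    refine Lp.ext ?_
    filter_upwards [h3 j l, h3 l j] with y e1 e2
    rw [e1, e2, hg]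

private theorem Fin_addA (a0 a1 : Fin d → Fin d → LI d) (g0 g1 : Tor d → Matrix (Fin d) (Fin d) ℝ)
    (h0 : ∀ᵐ y ∂(torM d), ∀ j l, a0 j l y = g0 y j l)
    (h1 : ∀ᵐ y ∂(torM d), ∀ j l, a1 j l y = g1 y j l) (t : ℝ) :
    ∀ᵐ y ∂(torM d), ∀ j l, addA a0 a1 t j l y = (g0 y + t • g1 y) j l := by
  have h2 : ∀ᵐ y ∂(torM d), ∀ j l, addA a0 a1 t j l y = a0 j l y + t * a1 j l y := by
    rw [ae_all_iff]
    intro j
    rw [ae_all_iff]
    intro l
    have e1 := Lp.coeFn_add (a0 j l) (t • a1 j l)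
    have e2 := Lp.coeFn_smul t (a1 j l)
    filter_upwards [e1, e2] with y e1 e2
    have e3 : addA a0 a1 t j l = a0 j l + t • a1 j l := rfl
    rw [e3, e1, Pi.add_apply, e2, Pi.smul_apply, smul_eq_mul]
  filter_upwards [h0, h1, h2] with y e0 e1 e2 j l
  rw [e2 j l, e0 j l, e1 j l, Matrix.add_apply, Matrix.smul_apply, smul_eq_mul]

/-- The line law: `exists_torus` for the entries, `line_torus`, `isEigenvalue_congr`. -/
theorem line_law (A₀ A₁ : E d → Matrix (Fin d) (Fin d) ℝ) (V₀ V₁ : E d → ℝ)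
    (hA₀ : ∀ i j, Measurable fun x => A₀ x i j) (hA₁ : ∀ i j, Measurable fun x => A₁ x i j)
    (hV₀ : Measurable V₀) (hV₁ : Measurable V₁)
    (bA₀ : ∃ C, ∀ x i j, |A₀ x i j| ≤ C) (bA₁ : ∃ C, ∀ x i j, |A₁ x i j| ≤ C)
    (bV₀ : ∃ C, ∀ x, |V₀ x| ≤ C) (bV₁ : ∃ C, ∀ x, |V₁ x| ≤ C)
    (pA₀ : Periodic A₀) (pA₁ : Periodic A₁) (pV₀ : Periodic V₀) (pV₁ : Periodic V₁)
    (sA₀ : ∀ x, (A₀ x).IsSymm) (sA₁ : ∀ x, (A₁ x).IsSymm) :
    {t : ℝ | (∃ c, EllipticWith (fun x => A₀ x + t • A₁ x) c) ∧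
      ∃ μ, IsEigenvalue (fun x => A₀ x + t • A₁ x) (fun x => V₀ x + t * V₁ x) μ}.Countable ∨
    ∀ t : ℝ, (∃ c, EllipticWith (fun x => A₀ x + t • A₁ x) c) →
      ∃ μ, IsEigenvalue (fun x => A₀ x + t • A₁ x) (fun x => V₀ x + t * V₁ x) μ := by
  obtain ⟨a0, g0, hg0, ha0, hs0⟩ := Fin_torus A₀ hA₀ bA₀ pA₀ sA₀
  obtain ⟨a1, g1, hg1, ha1, hs1⟩ := Fin_torus A₁ hA₁ bA₁ pA₁ sA₁
  obtain ⟨v0, hv0, -⟩ := exists_torus V₀ hV₀ bV₀ pV₀
  obtain ⟨v1, hv1, -⟩ := exists_torus V₁ hV₁ bV₁ pV₁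
  have hell : ∀ t : ℝ, (∃ c, EllipticWith (fun x => A₀ x + t • A₁ x) c) →
      t ∈ ellSet a0 a1 := by
    rintro t ⟨c, hc, hE⟩
    refine ⟨c, ⟨?_, hc, ?_⟩⟩
    · intro j l
      have e1 : addA a0 a1 t j l = a0 j l + t • a1 j l := rfl
      have e2 : addA a0 a1 t l j = a0 l j + t • a1 l j := rfl
      rw [e1, e2, hs0 j l, hs1 j l]
    · filter_upwards [Fin_addA a0 a1 g0 g1 ha0 ha1 t] with y hy ξ
      obtain ⟨x, rfl⟩ := proj_surjective (d := d) y
      have h1 := hE x ξ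
      have h2 : ∀ j l, addA a0 a1 t j l (proj x) = (A₀ x + t • A₁ x) j l := by
        intro j l
        rw [hy j l, hg0, hg1]
      have h3 : ∑ j, ∑ l, addA a0 a1 t j l (proj x) * ξ j * ξ l =
          ∑ j, ∑ l, (A₀ x + t • A₁ x) j l * ξ j * ξ l :=
        Finset.sum_congr rfl fun j _ => Finset.sum_congr rfl fun l _ => by rw [h2 j l]
      rw [h3]
      exact h1
  have hAe : ∀ t : ℝ, ∀ᵐ x : E d, liftA (addA a0 a1 t) x = A₀ x + t • A₁ x := by
    intro t
    filter_upwards [ae_proj (Fin_addA a0 a1 g0 g1 ha0 ha1 t)] with x hx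
    ext j l
    show addA a0 a1 t j l (proj x) = _
    rw [hx j l, hg0, hg1]
  have hVe : ∀ t : ℝ, ∀ᵐ x : E d, liftV (v0 + t • v1) x = V₀ x + t * V₁ x := by
    intro t
    have e1 := ae_proj (Lp.coeFn_add v0 (t • v1))
    have e2 := ae_proj (Lp.coeFn_smul t v1)
    filter_upwards [e1, e2, hv0, hv1] with x e1 e2 e3 e4
    show (v0 + t • v1 : LI d) (proj x) = _
    rw [e1, Pi.add_apply, e2, Pi.smul_apply, smul_eq_mul, e3, e4]
  rcases line_torus a0 a1 hs0 hs1 v0 v1 with h | h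
  · left
    refine h.mono ?_
    rintro t ⟨ht, μ, hμ⟩
    refine ⟨hell t ht, μ, ?_⟩
    exact isEigenvalue_congr ((hAe t).mono fun x hx => hx.symm)
      ((hVe t).mono fun x hx => hx.symm) hμ
  · right
    intro t ht
    obtain ⟨μ, hμ⟩ := h t (hell t ht)
    exact ⟨μ, isEigenvalue_congr (hAe t) (hVe t) hμ⟩

/-- Adding `s` times the Laplacian. If the set is empty there is nothing to show; otherwise let
`A + s₁` be elliptic. If the set is not countable, by `line_law` (direction `A₁ = 1`, `V₁ = 0`) all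
`s` with `A + s` elliptic are bad. The line `(1 - t) 1 + t (A + s₁)`, `t V`, is elliptic for
`t ∈ [0, 1]` and has no eigenvalue at `t = 0` (`laplace_not_isEigenvalue`), so by `line_law` it has
none for some `t ∈ (0, 1)`. There the operator is `t` times `A + s₁ + (1 - t)/t`, `V`
(`isEigenvalue_smul` with `t⁻¹`), contradiction. -/
theorem add_laplacian (hd : 0 < d) (A : E d → Matrix (Fin d) (Fin d) ℝ) (V : E d → ℝ)
    (hA : ∀ i j, Measurable fun x => A x i j) (hV : Measurable V)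
    (bA : ∃ C, ∀ x i j, |A x i j| ≤ C) (bV : ∃ C, ∀ x, |V x| ≤ C)
    (pA : Periodic A) (pV : Periodic V) (sA : ∀ x, (A x).IsSymm) :
    {s : ℝ | (∃ c, EllipticWith (fun x => A x + s • (1 : Matrix (Fin d) (Fin d) ℝ)) c) ∧
      ∃ μ, IsEigenvalue (fun x => A x + s • (1 : Matrix (Fin d) (Fin d) ℝ)) V μ}.Countable := by
  by_contra hcon
  have b1 : ∃ C, ∀ (_ : E d) (i j : Fin d), |(1 : Matrix (Fin d) (Fin d) ℝ) i j| ≤ C := by
    refine ⟨1, fun _ i j => ?_⟩
    rw [Matrix.one_apply]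
    split_ifs <;> simp
  have s1 : ∀ _ : E d, (1 : Matrix (Fin d) (Fin d) ℝ).IsSymm := fun _ => Matrix.isSymm_one
  have hV0 : ∀ t : ℝ, (fun x => V x + t * (fun _ : E d => (0 : ℝ)) x) = V := by
    intro t
    funext x
    simp
  -- the first line
  have l1 := line_law A (fun _ => 1) V (fun _ => 0) hA (fun i j => measurable_const) hV
    measurable_const bA b1 bV ⟨0, fun x => by simp⟩ pA (fun _ _ => rfl) pV (fun _ _ => rfl) sA s1
  have hall : ∀ s : ℝ, (∃ c, EllipticWith (fun x => A x + s • (1 : Matrix (Fin d) (Fin d) ℝ)) c) →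
      ∃ μ, IsEigenvalue (fun x => A x + s • (1 : Matrix (Fin d) (Fin d) ℝ)) V μ := by
    rcases l1 with h | h
    · exfalso
      apply hcon
      refine h.mono ?_
      rintro s ⟨hs, μ, hμ⟩
      refine ⟨hs, μ, ?_⟩
      rw [hV0 s]
      exact hμ
    · intro s hs
      obtain ⟨μ, hμ⟩ := h s hs
      rw [hV0 s] at hμ
      exact ⟨μ, hμ⟩
  have hne : ({s : ℝ | (∃ c, EllipticWith (fun x => A x + s • (1 : Matrix (Fin d) (Fin d) ℝ)) c) ∧
      ∃ μ, IsEigenvalue (fun x => A x + s • (1 : Matrix (Fin d) (Fin d) ℝ)) V μ}).Nonempty := by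
    by_contra h
    rw [Set.not_nonempty_iff_eq_empty] at h
    rw [h] at hcon
    exact hcon Set.countable_empty
  obtain ⟨s₁, ⟨c, hc, hE⟩, -⟩ := hne
  have hE' : ∀ (x : E d) (ξ : Fin d → ℝ), c * ∑ j, ξ j ^ 2 ≤
      FinQ (A x) ξ + s₁ * ∑ j, ξ j ^ 2 := by
    intro x ξ
    have h1 : c * ∑ j, ξ j ^ 2 ≤ FinQ (A x + s₁ • (1 : Matrix (Fin d) (Fin d) ℝ)) ξ := hE x ξ
    rwa [FinQ_add, FinQ_smul, FinQ_one] at h1
  -- the second line
  obtain ⟨C, hC⟩ := bA
  have l2 := line_law (fun _ => 1)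
    (fun x => A x + s₁ • (1 : Matrix (Fin d) (Fin d) ℝ) - 1) (fun _ => 0) V
    (fun i j => measurable_const)
    (fun i j => by
      have : (fun x => (A x + s₁ • (1 : Matrix (Fin d) (Fin d) ℝ) - 1) i j) =
          fun x => A x i j + (s₁ • (1 : Matrix (Fin d) (Fin d) ℝ) - 1) i j := by
        funext x
        simp only [Matrix.sub_apply, Matrix.add_apply]
        ring
      rw [this]
      exact (hA i j).add_const _) measurable_const hV b1
    ⟨C + (|s₁| + 1), fun x i j => by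
      have e1 : |(1 : Matrix (Fin d) (Fin d) ℝ) i j| ≤ 1 := by
        rw [Matrix.one_apply]
        split_ifs <;> simp
      have e2 : (A x + s₁ • (1 : Matrix (Fin d) (Fin d) ℝ) - 1) i j =
          A x i j + (s₁ * (1 : Matrix (Fin d) (Fin d) ℝ) i j - (1 : Matrix (Fin d) (Fin d) ℝ) i j) := by
        simp only [Matrix.sub_apply, Matrix.add_apply, Matrix.smul_apply, smul_eq_mul]
        ring
      rw [e2]
      refine (abs_add_le _ _).trans (add_le_add (hC x i j) ?_)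
      refine (abs_sub _ _).trans (add_le_add ?_ e1)
      rw [abs_mul]
      exact mul_le_of_le_one_right (abs_nonneg _) e1⟩
    ⟨0, fun x => by simp⟩ bV (fun _ _ => rfl) (fun x n => by
      show A (x + latE n) + _ - _ = A x + _ - _
      rw [pA x n]) (fun _ _ => rfl) pV s1
    (fun x => ((sA x).add (Matrix.isSymm_one.smul s₁)).sub Matrix.isSymm_one)
  have hQ : ∀ (t : ℝ) (x : E d) (ξ : Fin d → ℝ),
      FinQ (1 + t • (A x + s₁ • (1 : Matrix (Fin d) (Fin d) ℝ) - 1)) ξ =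
        (1 - t) * ∑ j, ξ j ^ 2 + t * (FinQ (A x) ξ + s₁ * ∑ j, ξ j ^ 2) := by
    intro t x ξ
    rw [FinQ_add, FinQ_smul, FinQ_sub, FinQ_add, FinQ_smul, FinQ_one]
    ring
  have hell : ∀ t : ℝ, 0 ≤ t → t ≤ 1 → ∃ c', EllipticWith
      (fun x => 1 + t • (A x + s₁ • (1 : Matrix (Fin d) (Fin d) ℝ) - 1)) c' := by
    intro t h0 h1
    refine ⟨(1 - t) + t * c, ?_, ?_⟩
    · rcases h0.eq_or_lt with h | h
      · rw [← h]
        norm_num
      · have := mul_pos h hc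
        linarith
    · intro x ξ
      show _ ≤ FinQ (1 + t • (A x + s₁ • (1 : Matrix (Fin d) (Fin d) ℝ) - 1)) ξ
      rw [hQ]
      have := mul_le_mul_of_nonneg_left (hE' x ξ) h0
      calc (1 - t + t * c) * ∑ j, ξ j ^ 2 =
          (1 - t) * ∑ j, ξ j ^ 2 + t * (c * ∑ j, ξ j ^ 2) := by ring
        _ ≤ _ := by linarith
  rcases l2 with h | h
  · -- some good value of `t`
    have hunc : ¬ (Set.Ioo (0 : ℝ) 1).Countable := by
      intro hh
      have h1 := hh.measure_zero volume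
      rw [Real.volume_Ioo] at h1
      simp at h1
    have hex : ∃ t ∈ Set.Ioo (0 : ℝ) 1, t ∉ {t : ℝ |
        (∃ c, EllipticWith (fun x => (fun _ => 1) x +
          t • (A x + s₁ • (1 : Matrix (Fin d) (Fin d) ℝ) - 1)) c) ∧
        ∃ μ, IsEigenvalue (fun x => (fun _ => 1) x +
          t • (A x + s₁ • (1 : Matrix (Fin d) (Fin d) ℝ) - 1))
          (fun x => (fun _ => 0) x + t * V x) μ} := by
      by_contra hcon2
      push Not at hcon2
      exact hunc (h.mono hcon2)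
    obtain ⟨t, ⟨ht0, ht1⟩, htn⟩ := hex
    apply htn
    refine ⟨hell t ht0.le ht1.le, ?_⟩
    have hell2 : ∃ c', EllipticWith (fun x => A x +
        (s₁ + (1 - t) / t) • (1 : Matrix (Fin d) (Fin d) ℝ)) c' := by
      refine ⟨c, hc, fun x ξ => ?_⟩
      show _ ≤ FinQ (A x + (s₁ + (1 - t) / t) • (1 : Matrix (Fin d) (Fin d) ℝ)) ξ
      rw [FinQ_add, FinQ_smul, FinQ_one, add_mul]
      have h1 := hE' x ξ
      have h2 : 0 ≤ (1 - t) / t * ∑ j, ξ j ^ 2 :=
        mul_nonneg (div_nonneg (by linarith) ht0.le) (Finset.sum_nonneg fun j _ => sq_nonneg _)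
      linarith
    obtain ⟨μ, hμ⟩ := hall _ hell2
    refine ⟨t * μ, ?_⟩
    refine isEigenvalue_smul _ _ _ t⁻¹ (inv_ne_zero ht0.ne') ?_
    have e1 : (fun x => t⁻¹ • ((fun _ => 1) x +
        t • (A x + s₁ • (1 : Matrix (Fin d) (Fin d) ℝ) - 1))) =
        fun x => A x + (s₁ + (1 - t) / t) • (1 : Matrix (Fin d) (Fin d) ℝ) := by
      funext x
      ext j l
      simp only [Matrix.smul_apply, Matrix.add_apply, Matrix.sub_apply, smul_eq_mul]
      field_simp
      ring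
    have e2 : (fun x => t⁻¹ * ((fun _ : E d => (0 : ℝ)) x + t * V x)) = V := by
      funext x
      field_simp
      ring
    have e3 : t⁻¹ * (t * μ) = μ := by
      field_simp
    rw [e1, e2, e3]
    exact hμ
  · obtain ⟨μ, hμ⟩ := h 0 (hell 0 le_rfl zero_le_one)
    apply laplace_not_isEigenvalue hd μ
    have e1 : (fun x : E d => (fun _ => 1) x +
        (0 : ℝ) • (A x + s₁ • (1 : Matrix (Fin d) (Fin d) ℝ) - 1)) =
        fun _ => (1 : Matrix (Fin d) (Fin d) ℝ) := by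
      funext x
      rw [zero_smul, add_zero]
    have e2 : (fun x => (fun _ : E d => (0 : ℝ)) x + 0 * V x) = fun _ => (0 : ℝ) := by
      funext x
      simp
    rw [e1, e2] at hμ
    exact hμ

end Pool.Agent.Lib.MP_c8757e_mp
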