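import Pool.Agent.Lib.MP_c8757e_mp.Defs

/-! FLAT, module Fred: Fredholm facts for operators which are coercive modulo a compact weight. -/

open Filter Topology Set
open scoped ComplexInnerProductSpace

noncomputable section

namespace Pool.Agent.Lib.MP_c8757e_mp

variable {H : Type*} [NormedAddCommGroup H] [InnerProductSpace ℂ H] [CompleteSpace H]
  {N S : H →L[ℂ] H}

private theorem Fred_symm {T : H →L[ℂ] H} (hT : IsSelfAdjoint T) (x y : H) :
    (inner ℂ (T x) y : ℂ) = inner ℂ x (T y) :=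
  (ContinuousLinearMap.isSelfAdjoint_iff_isSymmetric.1 hT) x y

private theorem Fred_real {T : H →L[ℂ] H} (hT : IsSelfAdjoint T) (x : H) :
    (starRingEnd ℂ) (inner ℂ (T x) x : ℂ) = inner ℂ (T x) x := by
  rw [inner_conj_symm, Fred_symm hT]

theorem Elliptic.sub_smul (hS : Elliptic N S) (hN : Weight N) (lam : ℝ) :
    Elliptic N (S - (lam : ℂ) • N) := by
  refine ⟨?_, ?_⟩
  · refine hS.sa.sub ?_
    refine IsSelfAdjoint.smul ?_ hN.sa
    exact Complex.conj_ofReal lam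
  · obtain ⟨c, δ, hδ, h⟩ := hS.coer
    refine ⟨c + lam, δ, hδ, fun u => ?_⟩
    have h1 : (inner ℂ ((S - (lam : ℂ) • N) u) u : ℂ).re =
        (inner ℂ (S u) u : ℂ).re - lam * (inner ℂ (N u) u : ℂ).re := by
      have h2 : (S - (lam : ℂ) • N) u = S u - (lam : ℂ) • N u := rfl
      rw [h2, inner_sub_left, inner_smul_left, Complex.conj_ofReal, Complex.sub_re,
        Complex.re_ofReal_mul]
    rw [h1]
    have h3 := h u
    linarith

theorem isEig_sub_iff (N S : H →L[ℂ] H) (z w : ℂ) :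
    IsEig N (S - w • N) z ↔ IsEig N S (z + w) := by
  unfold IsEig
  constructor
  · rintro ⟨u, hu, h⟩
    refine ⟨u, hu, ?_⟩
    have h2 : (S - w • N) u = S u - w • N u := rfl
    rw [h2, sub_eq_iff_eq_add] at h
    rw [h, add_smul]
  · rintro ⟨u, hu, h⟩
    refine ⟨u, hu, ?_⟩
    have h2 : (S - w • N) u = S u - w • N u := rfl
    rw [h2, h, add_smul, add_sub_cancel_right]

/-- Eigenvalues of a self-adjoint pencil are real. -/
theorem isEig_real (hN : Weight N) (hS : IsSelfAdjoint S) {z : ℂ} (h : IsEig N S z) :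
    z = (z.re : ℂ) := by
  obtain ⟨u, hu, h⟩ := h
  have h1 : (inner ℂ (S u) u : ℂ) = (starRingEnd ℂ) z * inner ℂ (N u) u := by
    rw [h, inner_smul_left]
  have h2 := Fred_real hS u
  rw [h1, map_mul, Fred_real hN.sa u, Complex.conj_conj] at h2
  have h3 : (inner ℂ (N u) u : ℂ) ≠ 0 := by
    intro h0
    have := hN.pos u hu
    rw [h0] at this
    simp at this
  have h4 : z = (starRingEnd ℂ) z := mul_right_cancel₀ h3 h2
  exact (Complex.conj_eq_iff_re.1 h4.symm).symm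

/-- a left inverse of `S + c N` -/
private theorem Fred_inv (hS : Elliptic N S) :
    ∃ (c : ℝ) (R : H →L[ℂ] H), ∀ v, R (S v + (c : ℂ) • N v) = v := by
  obtain ⟨c, δ, hδ, h⟩ := hS.coer
  have hu : IsUnit (S + (c : ℂ) • N) := by
    refine ContinuousLinearMap.isUnit_of_forall_le_norm_inner_map _ (c := ⟨δ, hδ.le⟩) hδ
      fun u => ?_
    have h1 := h u
    have h2 : (inner ℂ (S u) u : ℂ).re + c * (inner ℂ (N u) u : ℂ).re =
        (inner ℂ ((S + (c : ℂ) • N) u) u : ℂ).re := by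
      have h3 : (S + (c : ℂ) • N) u = S u + (c : ℂ) • N u := rfl
      rw [h3, inner_add_left, inner_smul_left, Complex.conj_ofReal, Complex.add_re,
        Complex.re_ofReal_mul]
    rw [h2] at h1
    calc ‖u‖ ^ 2 * δ = δ * ‖u‖ ^ 2 := mul_comm _ _
      _ ≤ _ := h1
      _ ≤ _ := Complex.re_le_norm _
  obtain ⟨a, ha⟩ := hu
  refine ⟨c, (a⁻¹ : (H →L[ℂ] H)ˣ), fun v => ?_⟩
  have h3 : ((a⁻¹ : (H →L[ℂ] H)ˣ) : H →L[ℂ] H) * (a : H →L[ℂ] H) = 1 := a.inv_mul
  rw [ha] at h3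
  have h4 := congrArg (fun T : H →L[ℂ] H => T v) h3
  exact h4

private theorem Fred_compact (hN : Weight N) : ∃ K : Set H, IsCompact K ∧ ∀ u : H, ‖u‖ ≤ 1 → N u ∈ K := by
  have h0 : IsCompactOperator ((N : H →ₗ[ℂ] H) : H → H) := hN.cpt
  obtain ⟨K, hK, hsub⟩ := h0.image_closedBall_subset_compact 1
  refine ⟨K, hK, fun u hu => hsub ⟨u, ?_, rfl⟩⟩
  rw [mem_closedBall_zero_iff]
  exact hu

/-- A sequence of unit vectors with `S u_m - z_m N u_m → 0`, `z_m` bounded, has a strongly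
convergent subsequence (used in `Grow`, `eig_isolated`). -/
private theorem Fred_subseq (hN : Weight N) (hS : Elliptic N S) (u : ℕ → H)
    (hu : ∀ m, ‖u m‖ = 1) (z : ℕ → ℂ) (z₀ : ℂ) (hz : Tendsto z atTop (𝓝 z₀))
    (h : Tendsto (fun m => S (u m) - z m • N (u m)) atTop (𝓝 0)) :
    ∃ (φ : ℕ → ℕ) (u₀ : H), StrictMono φ ∧ Tendsto (fun m => u (φ m)) atTop (𝓝 u₀) ∧
      ‖u₀‖ = 1 ∧ S u₀ = z₀ • N u₀ := by
  obtain ⟨c, R, hR⟩ := Fred_inv hS
  obtain ⟨K, hK, hNK⟩ := Fred_compact hN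
  obtain ⟨n, _, φ, hφ, hn⟩ := hK.tendsto_subseq (x := fun m => N (u m))
    fun m => hNK _ (hu m).le
  have hφ' := hφ.tendsto_atTop
  have hn' : Tendsto (fun m => N (u (φ m))) atTop (𝓝 n) := hn
  have hz' : Tendsto (fun m => z (φ m)) atTop (𝓝 z₀) := hz.comp hφ'
  have h' : Tendsto (fun m => S (u (φ m)) - z (φ m) • N (u (φ m))) atTop (𝓝 0) := h.comp hφ'
  have h1 : Tendsto (fun m => (S (u (φ m)) - z (φ m) • N (u (φ m))) +
      (z (φ m) + (c : ℂ)) • N (u (φ m))) atTop (𝓝 (0 + (z₀ + (c : ℂ)) • n)) :=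
    h'.add ((hz'.add tendsto_const_nhds).smul hn')
  have h2 : Tendsto (fun m => u (φ m)) atTop (𝓝 (R (0 + (z₀ + (c : ℂ)) • n))) := by
    refine ((R.continuous.tendsto _).comp h1).congr fun m => ?_
    have h3 : (S (u (φ m)) - z (φ m) • N (u (φ m))) + (z (φ m) + (c : ℂ)) • N (u (φ m)) =
        S (u (φ m)) + (c : ℂ) • N (u (φ m)) := by
      rw [add_smul]
      abel
    have h6 : R ((S (u (φ m)) - z (φ m) • N (u (φ m))) + (z (φ m) + (c : ℂ)) • N (u (φ m))) =
        u (φ m) := by rw [h3, hR]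
    exact h6
  refine ⟨φ, _, hφ, h2, ?_, ?_⟩
  · have h4 : Tendsto (fun m => ‖u (φ m)‖) atTop (𝓝 1) := by
      simp only [hu]
      exact tendsto_const_nhds
    exact tendsto_nhds_unique h2.norm h4
  · have h5 := ((S.continuous.tendsto _).comp h2).sub (hz'.smul ((N.continuous.tendsto _).comp h2))
    exact sub_eq_zero.1 (tendsto_nhds_unique h5 h')

/-- With `T = S + c N` (invertible by Lax-Milgram), `S = T (1 - c T⁻¹ N)`, `T⁻¹ N` is compact:
Fredholm alternative. -/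
theorem isUnit_of_not_isEig (hN : Weight N) (hS : Elliptic N S) (h : ¬ IsEig N S 0) :
    IsUnit S := by
  have hinj : ∀ u : H, S u = 0 → u = 0 := by
    intro u hu
    by_contra hu0
    exact h ⟨u, hu0, by rw [zero_smul, hu]⟩
  rw [ContinuousLinearMap.isUnit_iff_bijective,
    ContinuousLinearMap.bijective_iff_dense_range_and_antilipschitz]
  constructor
  · rw [Submodule.topologicalClosure_eq_top_iff, Submodule.eq_bot_iff]
    intro x hx
    apply hinj
    have h1 : (inner ℂ (S (S x)) x : ℂ) = 0 := hx (S (S x)) ⟨S x, rfl⟩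
    rw [Fred_symm hS.sa] at h1
    exact inner_self_eq_zero.1 h1
  · rw [antilipschitzWith_iff_exists_mul_le_norm]
    by_contra hcon
    push Not at hcon
    have hx : ∀ m : ℕ, ∃ x : H, ‖S x‖ < (1 / ((m : ℝ) + 1)) * ‖x‖ := fun m =>
      hcon (1 / ((m : ℝ) + 1)) (by positivity)
    choose x hx using hx
    have hx0 : ∀ m, 0 < ‖x m‖ := by
      intro m
      by_contra h0
      have h1 : ‖x m‖ = 0 := le_antisymm (not_lt.1 h0) (norm_nonneg _)
      have h2 := hx m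
      rw [h1, mul_zero] at h2
      exact absurd (norm_nonneg _) (not_le.2 h2)
    have hu : ∀ m, ‖((‖x m‖ : ℂ))⁻¹ • x m‖ = 1 := by
      intro m
      rw [norm_smul, norm_inv, Complex.norm_real, norm_norm, inv_mul_cancel₀ (hx0 m).ne']
    have hlim : Tendsto (fun m => S (((‖x m‖ : ℂ))⁻¹ • x m) -
        (0 : ℂ) • N (((‖x m‖ : ℂ))⁻¹ • x m)) atTop (𝓝 0) := by
      refine squeeze_zero_norm (a := fun m : ℕ => 1 / ((m : ℝ) + 1)) (fun m => ?_)
        tendsto_one_div_add_atTop_nhds_zero_nat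
      rw [zero_smul, sub_zero, map_smul, norm_smul, norm_inv, Complex.norm_real, norm_norm,
        inv_mul_le_iff₀ (hx0 m), mul_comm]
      exact (hx m).le
    obtain ⟨φ, u₀, _, _, h3, h4⟩ := Fred_subseq hN hS (fun m => ((‖x m‖ : ℂ))⁻¹ • x m) hu
      (fun _ => 0) 0 tendsto_const_nhds hlim
    rw [zero_smul] at h4
    rw [hinj u₀ h4, norm_zero] at h3
    exact zero_ne_one h3

theorem isEig_iff_not_isUnit (hN : Weight N) (hS : Elliptic N S) (lam : ℝ) :
    IsEig N S lam ↔ ¬ IsUnit (S - (lam : ℂ) • N) := by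
  have h0 : IsEig N (S - (lam : ℂ) • N) 0 ↔ IsEig N S lam := by
    rw [isEig_sub_iff, zero_add]
  rw [← h0]
  constructor
  · rintro ⟨u, hu, h⟩ hunit
    rw [zero_smul] at h
    have h1 := (ContinuousLinearMap.isUnit_iff_bijective.1 hunit).1
    exact hu (h1 (by rw [h, map_zero]))
  · intro h
    by_contra h1
    exact h (isUnit_of_not_isEig hN (hS.sub_smul hN lam) h1)

/-- A sequence of unit vectors with `S u_m - z_m N u_m → 0`, `z_m` bounded, has a strongly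
convergent subsequence (used in `Grow`, `eig_isolated`). -/
theorem exists_subseq_tendsto (hN : Weight N) (hS : Elliptic N S) (u : ℕ → H)
    (hu : ∀ m, ‖u m‖ = 1) (z : ℕ → ℂ) (z₀ : ℂ) (hz : Tendsto z atTop (𝓝 z₀))
    (h : Tendsto (fun m => S (u m) - z m • N (u m)) atTop (𝓝 0)) :
    ∃ (φ : ℕ → ℕ) (u₀ : H), StrictMono φ ∧ Tendsto (fun m => u (φ m)) atTop (𝓝 u₀) ∧
      ‖u₀‖ = 1 ∧ S u₀ = z₀ • N u₀ :=
  Fred_subseq hN hS u hu z z₀ hz h

theorem ker_finiteDimensional (hN : Weight N) (hS : Elliptic N S) :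
    FiniteDimensional ℂ (LinearMap.ker (S : H →ₗ[ℂ] H)) := by
  obtain ⟨c, R, hR⟩ := Fred_inv hS
  have h0 : IsCompactOperator ((R ∘L ((c : ℂ) • N) : H →L[ℂ] H) : H → H) :=
    (hN.cpt.smul (c : ℂ)).clm_comp R
  have h1 := h0.comp_clm (LinearMap.ker (S : H →ₗ[ℂ] H)).subtypeL
  have hfix : ∀ x : LinearMap.ker (S : H →ₗ[ℂ] H), R ((c : ℂ) • N (x : H)) = x := by
    intro x
    have h2 : S (x : H) = 0 := LinearMap.mem_ker.1 x.2
    have h3 := hR (x : H)
    rw [h2, zero_add] at h3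
    exact h3
  have hclosed : IsClosed ((LinearMap.ker (S : H →ₗ[ℂ] H) : Submodule ℂ H) : Set H) :=
    S.isClosed_ker
  let f : LinearMap.ker (S : H →ₗ[ℂ] H) →ₗ[ℂ] H :=
    (((R ∘L ((c : ℂ) • N)) ∘L (LinearMap.ker (S : H →ₗ[ℂ] H)).subtypeL :
      LinearMap.ker (S : H →ₗ[ℂ] H) →L[ℂ] H) : LinearMap.ker (S : H →ₗ[ℂ] H) →ₗ[ℂ] H)
  have hf : IsCompactOperator f := h1
  have hV : ∀ x, f x ∈ LinearMap.ker (S : H →ₗ[ℂ] H) := by
    intro x
    have h4 : f x = x := hfix x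
    rw [h4]
    exact x.2
  have h5 := hf.codRestrict hV hclosed
  apply FiniteDimensional.of_isCompactOperator_id
  have h6 : Set.codRestrict f ((LinearMap.ker (S : H →ₗ[ℂ] H) : Submodule ℂ H) : Set H) hV =
      id := by
    funext x
    exact Subtype.ext (hfix x)
  rw [h6] at h5
  exact h5

/-- Eigenvectors of different eigenvalues are `N`-orthogonal; a convergent sequence of distinct
eigenvalues contradicts `exists_subseq_tendsto`. -/
theorem eig_isolated (hN : Weight N) (hS : Elliptic N S) (lam : ℝ) :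
    ∀ᶠ μ : ℝ in 𝓝[≠] lam, ¬ IsEig N S μ := by
  by_contra hcon
  rw [not_eventually] at hcon
  have hseq : ∃ μ : ℕ → ℝ, Tendsto μ atTop (𝓝[≠] lam) ∧ ∀ m, ¬ ¬ IsEig N S (μ m) :=
    exists_seq_forall_of_frequently hcon
  obtain ⟨μ, hμ, hE⟩ := hseq
  obtain ⟨hμ1, hμ2⟩ := tendsto_nhdsWithin_iff.1 hμ
  have hE' : ∀ m, ∃ u : H, ‖u‖ = 1 ∧ S u = (μ m : ℂ) • N u := by
    intro m
    obtain ⟨v, hv, h⟩ := not_not.1 (hE m)
    have hv' : ‖v‖ ≠ 0 := norm_ne_zero_iff.2 hv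
    refine ⟨((‖v‖ : ℂ))⁻¹ • v, ?_, ?_⟩
    · rw [norm_smul, norm_inv, Complex.norm_real, norm_norm, inv_mul_cancel₀ hv']
    · rw [map_smul, map_smul, h, smul_comm]
  choose u hu1 hu2 using hE'
  have hz : Tendsto (fun m => (μ m : ℂ)) atTop (𝓝 (lam : ℂ)) :=
    (Complex.continuous_ofReal.tendsto lam).comp hμ1
  obtain ⟨φ, u₀, hφ, hlim, hn, heq⟩ := Fred_subseq hN hS u hu1 (fun m => (μ m : ℂ)) lam hz
    (by simp only [hu2, sub_self]; exact tendsto_const_nhds)
  have horth : ∀ᶠ m in atTop, (inner ℂ (N (u (φ m))) u₀ : ℂ) = 0 := by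
    filter_upwards [hφ.tendsto_atTop.eventually hμ2] with m hm
    have h1 : (inner ℂ (S (u (φ m))) u₀ : ℂ) = (μ (φ m) : ℂ) * inner ℂ (N (u (φ m))) u₀ := by
      rw [hu2, inner_smul_left, Complex.conj_ofReal]
    have h2 : (inner ℂ (S (u (φ m))) u₀ : ℂ) = (lam : ℂ) * inner ℂ (N (u (φ m))) u₀ := by
      rw [Fred_symm hS.sa, heq, inner_smul_right, Fred_symm hN.sa]
    have h3 : ((μ (φ m) : ℂ) - (lam : ℂ)) * inner ℂ (N (u (φ m))) u₀ = 0 := by
      rw [sub_mul, ← h1, ← h2, sub_self]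
    rcases mul_eq_zero.1 h3 with h | h
    · exfalso
      apply hm
      have h4 := sub_eq_zero.1 h
      exact_mod_cast h4
    · exact h
  have hlim2 : Tendsto (fun m => (inner ℂ (N (u (φ m))) u₀ : ℂ)) atTop
      (𝓝 (inner ℂ (N u₀) u₀)) :=
    ((N.continuous.tendsto u₀).comp hlim).inner tendsto_const_nhds
  have h0 : (inner ℂ (N u₀) u₀ : ℂ) = 0 :=
    tendsto_nhds_unique hlim2 (tendsto_const_nhds.congr' (horth.mono fun m hm => hm.symm))
  have hu0 : u₀ ≠ 0 := by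
    rintro rfl
    rw [norm_zero] at hn
    exact zero_ne_one hn
  have hpos := hN.pos u₀ hu0
  rw [h0] at hpos
  simp at hpos

theorem eig_countable (hN : Weight N) (hS : Elliptic N S) :
    {μ : ℝ | IsEig N S μ}.Countable := by
  have h1 : ∀ x : ℝ, Disjoint (𝓝[≠] x) (𝓟 {μ : ℝ | IsEig N S μ}) := by
    intro x
    rw [disjoint_principal_right]
    exact eig_isolated hN hS x
  have h2 := (isClosed_and_discrete_iff.2 h1).2
  have h3 : DiscreteTopology {μ : ℝ | IsEig N S μ} := h2.to_subtype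
  have h4 : Countable {μ : ℝ | IsEig N S μ} := countable_of_Lindelof_of_discrete
  exact Set.countable_coe_iff.1 h4

end Pool.Agent.Lib.MP_c8757e_mp
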