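import Pool.Agent.Lib.MP_c8757e_mp.GRes

/-! FLAT, module GAlg: from derivative identities to a symmetry of `T₀`, `T₁`. -/

open MeasureTheory Filter Topology Set
open scoped ENNReal

noncomputable section

namespace Pool.Agent.Lib.MP_c8757e_mp

variable {d : ℕ} {T T₀ T₁ : HR d →L[ℝ] HR d}

/-- Symmetry of the reduced resolvent. -/
private theorem GAlg_symm {T R : HR d →L[ℝ] HR d} {V : C(Tor d, ℝ)} {lam : ℝ} {e : HR d}
    (hR : IsRed T V lam e R) (x y : HR d) : inner ℝ (R x) y = inner ℝ x (R y) :=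
  hR.sa.isSymmetric x y

/-- Density: a vector orthogonal to all `(V + lam) R x + x - ⟪e, x⟫ e` and to `(V + lam) e` is
zero. -/
private theorem GAlg_dense {T R : HR d →L[ℝ] HR d} (V : C(Tor d, ℝ)) (lam : ℝ) {e : HR d}
    (he : ‖e‖ = 1) (hm : e ∈ kerR T V lam) (hR : IsRed T V lam e R) (z : HR d)
    (h1 : ∀ x : HR d,
      inner ℝ (mulR (pot V lam) (R x) + x - (inner ℝ e x : ℝ) • e) z = 0)
    (h2 : inner ℝ (mulR (pot V lam) e) z = 0) : z = 0 := by
  have hm' : T (mulR (pot V lam) e) = e := hm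
  have h3 : R (mulR (pot V lam) z) + z - (inner ℝ e z : ℝ) • e = 0 := by
    refine ext_inner_left ℝ fun x => ?_
    rw [inner_zero_right, inner_sub_right, inner_add_right, inner_smul_right]
    have h4 := h1 x
    rw [inner_sub_left, inner_add_left, real_inner_smul_left, mulR_inner, GAlg_symm hR] at h4
    rw [real_inner_comm e x]
    linarith
  set w : HR d := R (mulR (pot V lam) z) with hw
  have h4 : w + z = (inner ℝ e z : ℝ) • e := by
    rw [sub_eq_zero] at h3
    exact h3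
  have h5 : inner ℝ e (mulR (pot V lam) z) = 0 := by
    rw [← mulR_inner]
    exact h2
  have h6 : w = (inner ℝ e z : ℝ) • e := by
    have h7 := hR.eq (mulR (pot V lam) z)
    rw [← hw, h5, zero_smul, sub_zero, ← map_add, h4, map_smul, map_smul, hm'] at h7
    exact h7
  have h8 : inner ℝ e w = 0 := hR.orth _
  have h9 : (inner ℝ e z : ℝ) = 0 := by
    rw [h6, inner_smul_right, real_inner_self_eq_norm_sq, he] at h8
    linarith
  rw [h6, h9, zero_smul, zero_add] at h4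
  exact h4

/-- The common abstract statement. -/
private theorem GAlg_intertwine (V : C(Tor d, ℝ)) (lam : ℝ) {R₀ R₁ U : HR d →L[ℝ] HR d}
    {e f : HR d} (he : ‖e‖ = 1) (hm₀ : e ∈ kerR T₀ V lam) (hm₁ : f ∈ kerR T₁ V lam)
    (hR₀ : IsRed T₀ V lam e R₀) (hR₁ : IsRed T₁ V lam f R₁)
    (hUM : ∀ h, U (mulR (pot V lam) h) = mulR (pot V lam) (U h))
    (hUR : ∀ h, R₁ (U h) = U (R₀ h)) (hUe : U e = f)
    (hUi : ∀ x : HR d, (inner ℝ f (U x) : ℝ) = inner ℝ e x) :
    ∀ h : HR d, T₁ (U h) = U (T₀ h) := by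
  have hm₀' : T₀ (mulR (pot V lam) e) = e := hm₀
  have hm₁' : T₁ (mulR (pot V lam) f) = f := hm₁
  set D : HR d →L[ℝ] HR d := T₁ ∘L U - U ∘L T₀ with hD
  have hDa : ∀ h, D h = T₁ (U h) - U (T₀ h) := fun h => rfl
  set K : Submodule ℝ (HR d) := LinearMap.ker D.toLinearMap with hK
  have hKmem : ∀ h, h ∈ K ↔ D h = 0 := fun h => LinearMap.mem_ker
  have hKc : IsClosed (K : Set (HR d)) := D.isClosed_ker
  have hKcs : CompleteSpace K := hKc.completeSpace_coe
  have h1 : ∀ x : HR d, mulR (pot V lam) (R₀ x) + x - (inner ℝ e x : ℝ) • e ∈ K := by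
    intro x
    rw [hKmem, hDa, ← hR₀.eq x, ← hUR x, sub_eq_zero, map_sub, map_add, hUM, map_smul, hUe,
      ← hUR x, ← hUi x]
    exact (hR₁.eq (U x)).symm
  have h2 : mulR (pot V lam) e ∈ K := by
    rw [hKmem, hDa, hUM, hUe, hm₁', hm₀', hUe, sub_self]
  have h3 : Kᗮ = ⊥ := by
    rw [Submodule.eq_bot_iff]
    intro z hz
    rw [Submodule.mem_orthogonal] at hz
    exact GAlg_dense V lam he hm₀ hR₀ z (fun x => hz _ (h1 x)) (hz _ h2)
  have h4 : K = ⊤ := (Submodule.orthogonal_eq_bot_iff).1 h3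
  intro h
  have h5 : h ∈ K := by rw [h4]; exact Submodule.mem_top
  rw [hKmem, hDa, sub_eq_zero] at h5
  exact h5

/-- If the reduced resolvent maps `L²(S)` to itself, `S = {e ≠ 0}`, then so does `T`. Let `s = 1_S`
(indicator as an element of `L^∞`), `Z` the complement. `R` is self-adjoint, so it maps `L²(Z)` to
itself. For `x ∈ L²(Z)`: `⟪e, x⟫ = 0`, `R x = T ((V + lam) R x + x)`. The vectors `(V + lam) R x + x`,
`x ∈ L²(Z)`, are dense in `L²(Z)`: if `z ∈ L²(Z)` is orthogonal to them then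
`z = - R ((V + lam) z)`, so `z = R x₀` with `x₀ = -(V + lam) z ∈ L²(Z)` and
`z = T ((V + lam) z + x₀) = 0`. So `T` maps `L²(Z)` to itself, and commutes with `s` because it is
self-adjoint.
Second proof (helper21), in bounded form: `P` = projection on `e`, `Y := 1 - P + (V + lam) (R + P)`;
then `T Y = R + P` (from `IsRed.eq` and `T ((V+lam) e) = e`), `Y = 1 + compact` is injective
(`Y u = 0` gives `(R + P) u = 0`, so `P u = 0`, `R u = 0`, `u = 0`), so invertible, and
`T = (R + P) Y⁻¹`; `s` commutes with `P`, `R`, `V`, so with `Y`, so with `T`. -/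
theorem commute_of_red (hT : WeightR T) (V : C(Tor d, ℝ)) (lam : ℝ) (e : HR d) (he : ‖e‖ = 1)
    (hm : e ∈ kerR T V lam) {R : HR d →L[ℝ] HR d} (hR : IsRed T V lam e R)
    (hRS : ∀ h : HR d, (∀ᵐ x ∂(torM d), e x = 0 → h x = 0) →
      ∀ᵐ x ∂(torM d), e x = 0 → (R h) x = 0) :
    ∃ s : LI d, (∀ᵐ x ∂(torM d), s x = if e x = 0 then 0 else 1) ∧
      ∀ h : HR d, T (mulInf s h) = mulInf s (T h) := by
  have hms : MeasurableSet {x | e x ≠ 0} :=
    ((Lp.stronglyMeasurable e).measurable (measurableSet_singleton (0 : ℝ))).compl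
  set s : LI d := indicatorConstLp ∞ hms (measure_ne_top _ _) (1 : ℝ) with hs
  have hsx : ∀ᵐ x ∂(torM d), s x = if e x = 0 then 0 else 1 := by
    filter_upwards [indicatorConstLp_coeFn (p := ∞) (hs := hms)
      (hμs := measure_ne_top (torM d) _) (c := (1 : ℝ))] with x hx
    rw [hs, hx]
    by_cases h0 : e x = 0
    · rw [if_pos h0, indicator_of_notMem]
      exact fun h => h h0
    · rw [if_neg h0, indicator_of_mem]
      exact h0
  have hfix : ∀ h : HR d, mulInf s h = h ↔ ∀ᵐ x ∂(torM d), e x = 0 → h x = 0 := by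
    intro h
    constructor
    · intro h1
      filter_upwards [coeFn_mulInf s h, hsx] with x h2 h3 h4
      rw [h1, h3, if_pos h4, zero_mul] at h2
      exact h2
    · intro h1
      apply Lp.ext
      filter_upwards [coeFn_mulInf s h, hsx, h1] with x h2 h3 h4
      rw [h2, h3]
      by_cases h0 : e x = 0
      · rw [if_pos h0, h4 h0, zero_mul]
      · rw [if_neg h0, one_mul]
  have hidem : ∀ h : HR d, mulInf s (mulInf s h) = mulInf s h := by
    intro h
    rw [hfix]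
    filter_upwards [coeFn_mulInf s h, hsx] with x h2 h3 h4
    rw [h2, h3, if_pos h4, zero_mul]
  have hse : mulInf s e = e := (hfix e).2 (Filter.Eventually.of_forall fun x h => h)
  have hRfix : ∀ h : HR d, mulInf s h = h → mulInf s (R h) = R h := by
    intro h hh
    exact (hfix _).2 (hRS h ((hfix h).1 hh))
  have hcomm : ∀ h : HR d, R (mulInf s h) = mulInf s (R h) := by
    intro h
    refine ext_inner_right ℝ fun y => ?_
    rw [← hRfix _ (hidem h), mulInf_inner, GAlg_symm hR, mulInf_inner, hRfix _ (hidem y),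
      mulInf_inner, GAlg_symm hR]
  refine ⟨s, hsx, ?_⟩
  exact GAlg_intertwine V lam he hm hm hR hR (fun h => mulInf_mulR_comm s _ h) hcomm hse
    (fun x => by rw [← mulInf_inner, hse])

/-- `s = ±1`, `f = s e`, `R₁ (s h) = s R₀ h` for all `h`. Then `T₁ (s h) = s T₀ h` for all `h`: for
`y = R₀ x`, `y = T₀ ((V + lam) y + x - ⟪e,x⟫ e)` and `s y = R₁ (s x) = T₁ (s ((V+lam) y + x - ⟪e,x⟫ e))`;
so the identity holds on `M = {(V+lam) R₀ x + x - ⟪e,x⟫ e}`, and for `h = (V + lam) e` (both kernels).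
`M ⊕ ℝ (V+lam) e` is dense: if `z` is orthogonal to `M` then `z + R₀ ((V+lam) z) = ⟪z,e⟫ e`, which gives
`z = β T₀ e`, `β = ⟪z, (V+lam) e⟫`; and orthogonality to `(V+lam) e` gives `β = 0`.
Second proof (helper21): with `Y₀`, `Y₁` as in `commute_of_red`, `T_i = (R_i + P_i) Y_i⁻¹`,
`s P₀ s = P₁`, `s R₀ s = R₁`, so `s Y₀ s = Y₁` and `s T₀ s = T₁` (`s² = 1`). -/
theorem intertwine_of_red (h₀ : WeightR T₀) (h₁ : WeightR T₁) (V : C(Tor d, ℝ)) (lam : ℝ)
    (e f : HR d) (he : ‖e‖ = 1) (hf : ‖f‖ = 1) (hm₀ : e ∈ kerR T₀ V lam) (hm₁ : f ∈ kerR T₁ V lam)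
    {R₀ R₁ : HR d →L[ℝ] HR d} (hR₀ : IsRed T₀ V lam e R₀) (hR₁ : IsRed T₁ V lam f R₁)
    (s : LI d) (hs : ∀ᵐ x ∂(torM d), s x = 1 ∨ s x = -1) (hfe : f = mulInf s e)
    (hint : ∀ h : HR d, R₁ (mulInf s h) = mulInf s (R₀ h)) :
    ∀ h : HR d, T₁ (mulInf s h) = mulInf s (T₀ h) := by
  have hss : ∀ h : HR d, mulInf s (mulInf s h) = h := by
    intro h
    apply Lp.ext
    filter_upwards [coeFn_mulInf s (mulInf s h), coeFn_mulInf s h, hs] with x h1 h2 h3
    rw [h1, h2]
    rcases h3 with h3 | h3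
    · rw [h3]; ring
    · rw [h3]; ring
  exact GAlg_intertwine V lam he hm₀ hm₁ hR₀ hR₁ (fun h => mulInf_mulR_comm s _ h) hint
    hfe.symm (fun x => by rw [hfe, mulInf_inner, hss])

end Pool.Agent.Lib.MP_c8757e_mp
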