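import Mathlib

/-! FLAT, module GBaire: a lower semicontinuous function on an open subset of a Baire space has a
point of continuity. -/

open Filter Topology Set

noncomputable section

namespace Pool.Agent.Lib.MP_c8757e_mp

/-- For rational `q` the set `G_q = {x ∈ U | q < g x}` is open, so `frontier G_q` is closed and nowhere
dense; a point of `U` outside all frontiers is a point of continuity: for `ε > 0` choose a rational
`q ∈ (g x, g x + ε)`; `x ∉ G_q`, `x ∉ frontier G_q`, so `g ≤ q` near `x`. -/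
theorem exists_continuity_point {X : Type*} [TopologicalSpace X] [BaireSpace X] (U : Set X)
    (hU : IsOpen U) (hne : U.Nonempty) (g : X → ℝ)
    (hg : ∀ x ∈ U, ∀ q : ℝ, q < g x → ∀ᶠ y in 𝓝 x, q < g y) :
    ∃ x ∈ U, ContinuousAt g x := by
  set G : ℚ → Set X := fun q => {x | x ∈ U ∧ (q : ℝ) < g x} with hG
  have hGo : ∀ q, IsOpen (G q) := by
    intro q
    rw [isOpen_iff_mem_nhds]
    rintro x ⟨hxU, hxq⟩
    filter_upwards [hU.mem_nhds hxU, hg x hxU q hxq] with y h1 h2
    exact ⟨h1, h2⟩
  have hd : Dense (⋂ q : ℚ, (frontier (G q))ᶜ) := by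
    apply dense_iInter_of_isOpen
    · intro q
      exact isClosed_frontier.isOpen_compl
    · intro q
      rw [← interior_eq_empty_iff_dense_compl]
      rw [← frontier_compl]
      exact interior_frontier (hGo q).isClosed_compl
  obtain ⟨x, hxU, hx⟩ := hd.inter_open_nonempty U hU hne
  rw [mem_iInter] at hx
  refine ⟨x, hxU, ?_⟩
  rw [Metric.continuousAt_iff']
  intro ε hε
  obtain ⟨q, hq1, hq2⟩ := exists_rat_btwn (show g x < g x + ε by linarith)
  have h1 : ∀ᶠ y in 𝓝 x, g x - ε < g y := hg x hxU _ (by linarith)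
  have hxG : x ∉ G q := fun h => absurd h.2 (not_lt.mpr hq1.le)
  have hxc : x ∉ closure (G q) := by
    intro hc
    have : x ∈ frontier (G q) := by
      rw [(hGo q).frontier_eq]
      exact ⟨hc, hxG⟩
    exact hx q this
  have h2 : ∀ᶠ y in 𝓝 x, y ∉ closure (G q) :=
    isClosed_closure.isOpen_compl.mem_nhds hxc
  filter_upwards [h1, h2, hU.mem_nhds hxU] with y hy1 hy2 hyU
  have hy3 : g y ≤ q := by
    by_contra hlt
    exact hy2 (subset_closure ⟨hyU, not_le.mp hlt⟩)
  rw [Real.dist_eq, abs_lt]
  constructor <;> linarith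

end Pool.Agent.Lib.MP_c8757e_mp
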