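import Pool.Agent.Lib.MP_c8757e_mp.GSpec

/-! FLAT, module GCount: the number of common eigenvectors in an interval and its upper
semicontinuity. -/

open MeasureTheory Filter Topology Set
open scoped ENNReal

noncomputable section

namespace Pool.Agent.Lib.MP_c8757e_mp

variable {d : ℕ} {T₀ T₁ : HR d →L[ℝ] HR d}

/-- There are `k₀` orthonormal eigenvectors of the first problem and `k₁` of the second one, with
eigenvalues in `[a, b]` which are common eigenvalues. -/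
def Sys (T₀ T₁ : HR d →L[ℝ] HR d) (V : C(Tor d, ℝ)) (a b : ℝ) (k₀ k₁ : ℕ) : Prop :=
  (∃ (u : Fin k₀ → HR d) (lam : Fin k₀ → ℝ), Orthonormal ℝ u ∧
    ∀ i, lam i ∈ Icc a b ∧ Common T₀ T₁ V (lam i) ∧ u i ∈ kerR T₀ V (lam i)) ∧
  (∃ (u : Fin k₁ → HR d) (lam : Fin k₁ → ℝ), Orthonormal ℝ u ∧
    ∀ i, lam i ∈ Icc a b ∧ Common T₀ T₁ V (lam i) ∧ u i ∈ kerR T₁ V (lam i))

/-- The largest `k₀ + k₁` (a natural number by `orthonormal_bounded`). -/
def Dnum (T₀ T₁ : HR d →L[ℝ] HR d) (V : C(Tor d, ℝ)) (a b : ℝ) : ℕ :=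
  sSup {k | ∃ k₀ k₁, k = k₀ + k₁ ∧ Sys T₀ T₁ V a b k₀ k₁}

theorem Dnum_bddAbove (h₀ : WeightR T₀) (h₁ : WeightR T₁) (V : C(Tor d, ℝ)) (a b : ℝ) :
    BddAbove {k | ∃ k₀ k₁, k = k₀ + k₁ ∧ Sys T₀ T₁ V a b k₀ k₁} := by
  obtain ⟨M₀, hM₀⟩ := orthonormal_bounded h₀ V a b
  obtain ⟨M₁, hM₁⟩ := orthonormal_bounded h₁ V a b
  refine ⟨M₀ + M₁, ?_⟩
  rintro k ⟨k₀, k₁, rfl, ⟨u, lam, ho, h⟩, ⟨u', lam', ho', h'⟩⟩
  exact Nat.add_le_add (hM₀ k₀ u lam ho (fun i => (h i).1) (fun i => (h i).2.2))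
    (hM₁ k₁ u' lam' ho' (fun i => (h' i).1) (fun i => (h' i).2.2))

theorem le_Dnum (h₀ : WeightR T₀) (h₁ : WeightR T₁) {V : C(Tor d, ℝ)} {a b : ℝ} {k₀ k₁ : ℕ}
    (h : Sys T₀ T₁ V a b k₀ k₁) : k₀ + k₁ ≤ Dnum T₀ T₁ V a b :=
  le_csSup (Dnum_bddAbove h₀ h₁ V a b) ⟨k₀, k₁, rfl, h⟩

private theorem GCount_orthonormal_empty (u : Fin 0 → HR d) : Orthonormal ℝ u :=
  ⟨fun i => i.elim0, fun i => i.elim0⟩

theorem exists_Dnum (h₀ : WeightR T₀) (h₁ : WeightR T₁) (V : C(Tor d, ℝ)) (a b : ℝ) :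
    ∃ k₀ k₁, Dnum T₀ T₁ V a b = k₀ + k₁ ∧ Sys T₀ T₁ V a b k₀ k₁ := by
  have hne : {k | ∃ k₀ k₁, k = k₀ + k₁ ∧ Sys T₀ T₁ V a b k₀ k₁}.Nonempty :=
    ⟨0, 0, 0, rfl, ⟨fun i => i.elim0, fun i => i.elim0, GCount_orthonormal_empty _,
      fun i => i.elim0⟩, ⟨fun i => i.elim0, fun i => i.elim0, GCount_orthonormal_empty _,
      fun i => i.elim0⟩⟩
  exact Nat.sSup_mem hne (Dnum_bddAbove h₀ h₁ V a b)

/-- A unit vector in a nonzero kernel. -/
private theorem GCount_unit {T : HR d →L[ℝ] HR d} {V : C(Tor d, ℝ)} {lam : ℝ}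
    (h : ∃ u ∈ kerR T V lam, u ≠ 0) : ∃ u ∈ kerR T V lam, ‖u‖ = 1 := by
  obtain ⟨u, hu, hu0⟩ := h
  refine ⟨(‖u‖)⁻¹ • u, (kerR T V lam).smul_mem _ hu, ?_⟩
  rw [norm_smul, norm_inv, norm_norm, inv_mul_cancel₀ (norm_ne_zero_iff.2 hu0)]

/-- The limit of eigenvalues is an eigenvalue. -/
private theorem GCount_one {T : HR d →L[ℝ] HR d} (hT : WeightR T) {V : ℕ → C(Tor d, ℝ)}
    {V₀ : C(Tor d, ℝ)} (hV : Tendsto V atTop (𝓝 V₀)) {lam : ℕ → ℝ} {L : ℝ}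
    (hl : Tendsto lam atTop (𝓝 L)) (h : ∀ m, ∃ u ∈ kerR T (V m) (lam m), u ≠ 0) :
    ∃ u ∈ kerR T V₀ L, u ≠ 0 := by
  choose u hu hn using fun m => GCount_unit (h m)
  obtain ⟨φ, u₀, _, ho, hk, _⟩ := orthonormal_limit hT 1 V V₀ hV (fun m _ => lam m) (fun _ => L)
    (fun _ => hl) (fun m _ => u m)
    (fun m => ⟨fun _ => hn m, fun i j hij => absurd (Subsingleton.elim i j) hij⟩)
    (fun m _ => hu m)
  exact ⟨u₀ 0, hk 0, ho.ne_zero 0⟩

/-- The limit of common eigenvalues is a common eigenvalue. -/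
private theorem GCount_common (h₀ : WeightR T₀) (h₁ : WeightR T₁) {V : ℕ → C(Tor d, ℝ)}
    {V₀ : C(Tor d, ℝ)} (hV : Tendsto V atTop (𝓝 V₀)) {lam : ℕ → ℝ} {L : ℝ}
    (hl : Tendsto lam atTop (𝓝 L)) (h : ∀ m, Common T₀ T₁ (V m) (lam m)) :
    Common T₀ T₁ V₀ L :=
  ⟨GCount_one h₀ hV hl (fun m => (h m).1), GCount_one h₁ hV hl (fun m => (h m).2)⟩

/-- One half of `Sys` is a closed condition. -/
private theorem GCount_part (h₀ : WeightR T₀) (h₁ : WeightR T₁) {T : HR d →L[ℝ] HR d}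
    (hT : WeightR T) (a b : ℝ) (k : ℕ) :
    IsClosed {V : C(Tor d, ℝ) | ∃ (u : Fin k → HR d) (lam : Fin k → ℝ), Orthonormal ℝ u ∧
      ∀ i, lam i ∈ Icc a b ∧ Common T₀ T₁ V (lam i) ∧ u i ∈ kerR T V (lam i)} := by
  refine IsSeqClosed.isClosed fun V V₀ hV hlim => ?_
  choose u lam ho h using hV
  have hc : IsCompact (Set.pi univ (fun _ : Fin k => Icc a b)) :=
    isCompact_univ_pi fun _ => isCompact_Icc
  obtain ⟨L, hL, φ, hφ, hφL⟩ := hc.tendsto_subseq (x := lam) (fun m i _ => (h m i).1)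
  have hl : ∀ i, Tendsto (fun m => lam (φ m) i) atTop (𝓝 (L i)) := fun i =>
    (tendsto_pi_nhds.1 hφL) i
  have hVφ : Tendsto (fun m => V (φ m)) atTop (𝓝 V₀) := hlim.comp hφ.tendsto_atTop
  obtain ⟨ψ, u₀, _, ho₀, hk₀, _⟩ := orthonormal_limit hT k (fun m => V (φ m)) V₀ hVφ
    (fun m => lam (φ m)) L hl (fun m => u (φ m)) (fun m => ho (φ m)) (fun m i => (h (φ m) i).2.2)
  exact ⟨u₀, L, ho₀, fun i => ⟨hL i (mem_univ i),
    GCount_common h₀ h₁ hVφ (hl i) (fun m => (h (φ m) i).2.1), hk₀ i⟩⟩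

private theorem GCount_isClosed_Sys (h₀ : WeightR T₀) (h₁ : WeightR T₁) (a b : ℝ) (k₀ k₁ : ℕ) :
    IsClosed {V : C(Tor d, ℝ) | Sys T₀ T₁ V a b k₀ k₁} :=
  (GCount_part h₀ h₁ h₀ a b k₀).inter (GCount_part h₀ h₁ h₁ a b k₁)

/-- Having a common eigenvalue in `[a, b]` is a closed condition (`orthonormal_limit`, `k = 1`). -/
theorem isClosed_bad (h₀ : WeightR T₀) (h₁ : WeightR T₁) (a b : ℝ) :
    IsClosed {V : C(Tor d, ℝ) | ∃ lam ∈ Icc a b, Common T₀ T₁ V lam} := by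
  refine IsSeqClosed.isClosed fun V V₀ hV hlim => ?_
  choose lam hI hc using hV
  obtain ⟨L, hL, φ, hφ, hφL⟩ := isCompact_Icc.tendsto_subseq hI
  exact ⟨L, hL, GCount_common h₀ h₁ (hlim.comp hφ.tendsto_atTop) hφL (fun m => hc (φ m))⟩

private theorem GCount_mono_part {T : HR d →L[ℝ] HR d} {V : C(Tor d, ℝ)} {a b : ℝ} {k k' : ℕ}
    (hk : k' ≤ k) (h : ∃ (u : Fin k → HR d) (lam : Fin k → ℝ), Orthonormal ℝ u ∧
      ∀ i, lam i ∈ Icc a b ∧ Common T₀ T₁ V (lam i) ∧ u i ∈ kerR T V (lam i)) :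
    ∃ (u : Fin k' → HR d) (lam : Fin k' → ℝ), Orthonormal ℝ u ∧
      ∀ i, lam i ∈ Icc a b ∧ Common T₀ T₁ V (lam i) ∧ u i ∈ kerR T V (lam i) := by
  obtain ⟨u, lam, ho, h⟩ := h
  exact ⟨fun i => u (Fin.castLE hk i), fun i => lam (Fin.castLE hk i),
    ho.comp _ (Fin.castLE_injective hk), fun i => h _⟩

/-- `{V | k ≤ Dnum V}` is closed (`orthonormal_limit`, the space is metrizable, finitely many
`(k₀, k₁)` with `k₀ + k₁ = k`; `Sys` passes to smaller numbers). -/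
theorem isClosed_le_Dnum (h₀ : WeightR T₀) (h₁ : WeightR T₁) (a b : ℝ) (k : ℕ) :
    IsClosed {V : C(Tor d, ℝ) | k ≤ Dnum T₀ T₁ V a b} := by
  have h : {V : C(Tor d, ℝ) | k ≤ Dnum T₀ T₁ V a b} =
      ⋃ i ∈ Finset.range (k + 1), {V : C(Tor d, ℝ) | Sys T₀ T₁ V a b i (k - i)} := by
    ext V
    simp only [mem_iUnion, exists_prop, Finset.mem_range]
    constructor
    · intro hk
      obtain ⟨k₀, k₁, he, hs⟩ := exists_Dnum h₀ h₁ V a b
      have hk' : k ≤ k₀ + k₁ := by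
        rw [← he]
        exact hk
      refine ⟨min k k₀, by omega, GCount_mono_part (min_le_right _ _) hs.1,
        GCount_mono_part (by omega) hs.2⟩
    · rintro ⟨i, hi, hs⟩
      have h1 := le_Dnum h₀ h₁ hs
      show k ≤ Dnum T₀ T₁ V a b
      omega
  rw [h]
  exact isClosed_biUnion_finset fun i _ => GCount_isClosed_Sys h₀ h₁ a b i (k - i)

/-- A common eigenvalue in `[a, b]` outside `[a', b']` makes the number larger (add an eigenvector,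
orthogonal to the others by `kerR_orthogonal`). -/
theorem Dnum_lt (h₀ : WeightR T₀) (h₁ : WeightR T₁) {V : C(Tor d, ℝ)} {a b a' b' lam : ℝ}
    (hsub : Icc a' b' ⊆ Icc a b) (hl : lam ∈ Icc a b) (hl' : lam ∉ Icc a' b')
    (hc : Common T₀ T₁ V lam) : Dnum T₀ T₁ V a' b' < Dnum T₀ T₁ V a b := by
  obtain ⟨k₀, k₁, he, ⟨u, μ, ho, h⟩, ⟨u', μ', ho', h'⟩⟩ := exists_Dnum h₀ h₁ V a' b'
  obtain ⟨v, hv, hv1⟩ := GCount_unit hc.1
  have horth : ∀ i, inner ℝ v (u i) = 0 := fun i =>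
    kerR_orthogonal h₀ V (show lam ≠ μ i from fun heq => hl' (by rw [heq]; exact (h i).1)) hv
      (h i).2.2
  have hs : Sys T₀ T₁ V a b (k₀ + 1) k₁ := by
    refine ⟨⟨Fin.cons v u, Fin.cons lam μ, ⟨fun i => ?_, fun i j hij => ?_⟩, fun i => ?_⟩,
      ⟨u', μ', ho', fun i => ⟨hsub (h' i).1, (h' i).2⟩⟩⟩
    · refine Fin.cases ?_ (fun i => ?_) i
      · rw [Fin.cons_zero]
        exact hv1
      · rw [Fin.cons_succ]
        exact ho.1 i
    · revert hij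
      refine Fin.cases ?_ (fun i => ?_) i
      · refine Fin.cases ?_ (fun j => ?_) j
        · intro hij
          exact absurd rfl hij
        · intro _
          rw [Fin.cons_zero, Fin.cons_succ]
          exact horth j
      · refine Fin.cases ?_ (fun j => ?_) j
        · intro _
          rw [Fin.cons_zero, Fin.cons_succ, real_inner_comm]
          exact horth i
        · intro hij
          rw [Fin.cons_succ, Fin.cons_succ]
          exact ho.2 (fun heq => hij (congrArg Fin.succ heq))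
    · refine Fin.cases ?_ (fun i => ?_) i
      · rw [Fin.cons_zero, Fin.cons_zero]
        exact ⟨hl, hc, hv⟩
      · rw [Fin.cons_succ, Fin.cons_succ]
        exact ⟨hsub (h i).1, (h i).2⟩
  have := le_Dnum h₀ h₁ hs
  omega

private theorem GCount_le_finrank {T : HR d →L[ℝ] HR d} (hT : WeightR T) {V : C(Tor d, ℝ)}
    {lam : ℝ} {k : ℕ} {u : Fin k → HR d} (ho : Orthonormal ℝ u)
    (hu : ∀ i, u i ∈ kerR T V lam) : k ≤ Module.finrank ℝ (kerR T V lam) := by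
  have hfin := kerR_finiteDimensional hT V lam
  have hli : LinearIndependent ℝ (fun i => (⟨u i, hu i⟩ : kerR T V lam)) := by
    refine LinearIndependent.of_comp (kerR T V lam).subtype ?_
    exact ho.linearIndependent
  have := hli.fintype_card_le_finrank
  rwa [Fintype.card_fin] at this

private theorem GCount_basis {T : HR d →L[ℝ] HR d} (hT : WeightR T) {V : C(Tor d, ℝ)}
    {a b lam : ℝ} (hl : lam ∈ Icc a b) (hc : Common T₀ T₁ V lam) :
    ∃ (u : Fin (Module.finrank ℝ (kerR T V lam)) → HR d)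
      (μ : Fin (Module.finrank ℝ (kerR T V lam)) → ℝ), Orthonormal ℝ u ∧
      ∀ i, μ i ∈ Icc a b ∧ Common T₀ T₁ V (μ i) ∧ u i ∈ kerR T V (μ i) := by
  have hfin := kerR_finiteDimensional hT V lam
  let B := stdOrthonormalBasis ℝ (kerR T V lam)
  refine ⟨fun i => (B i : HR d), fun _ => lam, ?_, fun i => ⟨hl, hc, (B i).2⟩⟩
  exact B.orthonormal.comp_linearIsometry (kerR T V lam).subtypeₗᵢ

/-- If `lam` is the only common eigenvalue in `[a, b]`, the number is the sum of the dimensions. -/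
theorem Dnum_eq (h₀ : WeightR T₀) (h₁ : WeightR T₁) {V : C(Tor d, ℝ)} {a b lam : ℝ}
    (hl : lam ∈ Icc a b) (hc : Common T₀ T₁ V lam)
    (hu : ∀ μ ∈ Icc a b, Common T₀ T₁ V μ → μ = lam) :
    Dnum T₀ T₁ V a b = Module.finrank ℝ (kerR T₀ V lam) + Module.finrank ℝ (kerR T₁ V lam) := by
  apply le_antisymm
  · obtain ⟨k₀, k₁, he, ⟨u, μ, ho, h⟩, ⟨u', μ', ho', h'⟩⟩ := exists_Dnum h₀ h₁ V a b
    rw [he]
    refine Nat.add_le_add (GCount_le_finrank h₀ ho fun i => ?_)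
      (GCount_le_finrank h₁ ho' fun i => ?_)
    · rw [← hu (μ i) (h i).1 (h i).2.1]
      exact (h i).2.2
    · rw [← hu (μ' i) (h' i).1 (h' i).2.1]
      exact (h' i).2.2
  · exact le_Dnum h₀ h₁ ⟨GCount_basis h₀ hl hc, GCount_basis h₁ hl hc⟩

end Pool.Agent.Lib.MP_c8757e_mp
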