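import Pool.Agent.Lib.MP_c8757e_mp.Defs

/-! FLAT, Part G (generic potentials): definitions. The real Hilbert space `L²(T^d)`, multiplication
operators, and the kernels of `1 - T (V + lam)`. -/

open MeasureTheory Filter Topology Set
open scoped ENNReal

noncomputable section

namespace Pool.Agent.Lib.MP_c8757e_mp

/-- The real Hilbert space `L²(T^d; ℝ)`. -/
abbrev HR (d : ℕ) := Lp ℝ 2 (torM d)

/-- Multiplication by a bounded measurable function. -/
def mulInf {d : ℕ} (s : LI d) : HR d →L[ℝ] HR d :=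
  (ContinuousLinearMap.mul ℝ ℝ).holderL (torM d) ∞ 2 2 s

/-- A continuous function as an element of `L^∞`. -/
def toInf {d : ℕ} : C(Tor d, ℝ) →L[ℝ] LI d := ContinuousMap.toLp ∞ (torM d) ℝ

/-- Multiplication by a continuous function. -/
def mulR {d : ℕ} (a : C(Tor d, ℝ)) : HR d →L[ℝ] HR d := mulInf (toInf a)

/-- Self-adjoint, compact, strictly positive operators on `L²(T^d; ℝ)`. -/
structure WeightR {d : ℕ} (T : HR d →L[ℝ] HR d) : Prop where
  sa : IsSelfAdjoint T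
  cpt : IsCompactOperator T
  pos : ∀ u : HR d, u ≠ 0 → 0 < inner ℝ (T u) u

/-- The potential `V + lam`. -/
def pot {d : ℕ} (V : C(Tor d, ℝ)) (lam : ℝ) : C(Tor d, ℝ) := V + ContinuousMap.const _ lam

/-- The solutions of `u = T ((V + lam) u)`. -/
def kerR {d : ℕ} (T : HR d →L[ℝ] HR d) (V : C(Tor d, ℝ)) (lam : ℝ) : Submodule ℝ (HR d) where
  carrier := {u | T (mulR (pot V lam) u) = u}
  add_mem' := by
    intro a b ha hb
    change T (mulR (pot V lam) (a + b)) = a + b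
    rw [map_add, map_add, show T (mulR (pot V lam) a) = a from ha,
      show T (mulR (pot V lam) b) = b from hb]
  zero_mem' := by
    change T (mulR (pot V lam) 0) = 0
    rw [map_zero, map_zero]
  smul_mem' := by
    intro c a ha
    change T (mulR (pot V lam) (c • a)) = c • a
    rw [map_smul, map_smul, show T (mulR (pot V lam) a) = a from ha]

theorem mem_kerR {d : ℕ} {T : HR d →L[ℝ] HR d} {V : C(Tor d, ℝ)} {lam : ℝ} {u : HR d} :
    u ∈ kerR T V lam ↔ T (mulR (pot V lam) u) = u := Iff.rfl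

/-- `lam` is an eigenvalue of both problems at the potential `V`. -/
def Common {d : ℕ} (T₀ T₁ : HR d →L[ℝ] HR d) (V : C(Tor d, ℝ)) (lam : ℝ) : Prop :=
  (∃ u ∈ kerR T₀ V lam, u ≠ 0) ∧ (∃ u ∈ kerR T₁ V lam, u ≠ 0)

/-- `T₀` commutes with no nontrivial indicator function. -/
def Irr {d : ℕ} (T₀ : HR d →L[ℝ] HR d) : Prop :=
  ∀ s : LI d, (∀ᵐ x ∂(torM d), s x = 0 ∨ s x = 1) →
    (∀ h : HR d, T₀ (mulInf s h) = mulInf s (T₀ h)) →
    (∀ᵐ x ∂(torM d), s x = 0) ∨ (∀ᵐ x ∂(torM d), s x = 1)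

/-- No sign function intertwines `T₀` and `T₁`. -/
def NoSign {d : ℕ} (T₀ T₁ : HR d →L[ℝ] HR d) : Prop :=
  ∀ s : LI d, (∀ᵐ x ∂(torM d), s x = 1 ∨ s x = -1) →
    ¬ ∀ h : HR d, T₁ (mulInf s h) = mulInf s (T₀ h)

end Pool.Agent.Lib.MP_c8757e_mp
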