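import Pool.Agent.Lib.MP_c8757e_mp.GReal

/-! FLAT, module GIrr: irreducibility and absence of a sign intertwiner. -/

open MeasureTheory Filter Topology Set UnitAddTorus
open scoped ENNReal ComplexInnerProductSpace

noncomputable section

namespace Pool.Agent.Lib.MP_c8757e_mp

variable {d : ℕ}

/-- The constant function `1`. -/
def oneR (d : ℕ) : HR d := (memLp_const (μ := torM d) (p := 2) (1 : ℝ)).toLp

theorem coeFn_oneR (d : ℕ) : oneR d =ᵐ[torM d] fun _ => 1 :=
  MemLp.coeFn_toLp (memLp_const (μ := torM d) (p := 2) (1 : ℝ))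

private theorem GIrr_coe_ofC (h : HR d) : ofC d h =ᵐ[torM d] fun x => (h x : ℂ) :=
  ContinuousLinearMap.coeFn_compLpL (μ := torM d) (p := 2) Complex.ofRealCLM h

private theorem GIrr_ofC_inj {u v : HR d} (h : ofC d u = ofC d v) : u = v := by
  apply Lp.ext
  have h1 := GIrr_coe_ofC u
  rw [h] at h1
  filter_upwards [h1, GIrr_coe_ofC v] with x e1 e2
  rw [e1] at e2
  exact_mod_cast e2

private theorem GIrr_TU_apply (A : Fin d → Fin d → LI d) (κ : E d) (F : LC d) :
    TU A κ F = Uop κ (TC A κ ((Uop κ).symm F)) := rfl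

private theorem GIrr_lat_zero : latE (0 : Lat d) = (2 : ℝ) • (0 : E d) := by
  rw [smul_zero]
  ext i
  simp [latE]

private theorem GIrr_ofC_one : ofC d (oneR d) = Uop (0 : E d) (lp.single 2 (0 : Lat d) (1 : ℂ)) := by
  apply Lp.ext
  filter_upwards [GIrr_coe_ofC (oneR d), coeFn_oneR d, Uop_single d] with x e1 e2 e3
  rw [e1, e2, e3, Complex.ofReal_one]

/-- `T(0) 1 = 1` (`TC_single`, `Uop_single`, `ofC_TR`; `ofC` is injective). -/
theorem TR_one {A : Fin d → Fin d → LI d} {c : ℝ} (hA : Coef A c) :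
    TR A (0 : E d) (oneR d) = oneR d := by
  apply GIrr_ofC_inj
  rw [ofC_TR hA 0 0 GIrr_lat_zero, GIrr_ofC_one, GIrr_TU_apply,
    LinearIsometryEquiv.symm_apply_apply, TC_single hA]

private theorem GIrr_fixed {A : Fin d → Fin d → LI d} {c : ℝ} (hA : Coef A c) (κ : E d)
    (m : Lat d) (hm : latE m = (2 : ℝ) • κ) (u : HR d) (hu : TR A κ u = u) :
    TC A κ ((Uop κ).symm (ofC d u)) = (Uop κ).symm (ofC d u) := by
  have h1 := ofC_TR hA κ m hm u
  rw [hu, GIrr_TU_apply] at h1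
  rw [LinearIsometryEquiv.eq_symm_apply]
  exact h1.symm

/-- A fixed point of `T(κ)`, `κ` not in `ℤ^d`, is zero (`ofC_TR`, `TC_fixed`). -/
theorem TR_fixed_zero {A : Fin d → Fin d → LI d} {c : ℝ} (hA : Coef A c) (κ : E d)
    (m : Lat d) (hm : latE m = (2 : ℝ) • κ) (hκ : ∀ n : Lat d, κ + latE n ≠ 0) (u : HR d)
    (hu : TR A κ u = u) : u = 0 := by
  have h1 := GIrr_fixed hA κ m hm u hu
  have h2 : (Uop κ).symm (ofC d u) = 0 := by
    ext n
    exact TC_fixed hA κ _ h1 n (hκ n)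
  apply GIrr_ofC_inj
  rw [map_zero]
  rw [← LinearIsometryEquiv.apply_symm_apply (Uop κ) (ofC d u), h2, map_zero]

/-- A fixed point of `T(0)` is constant (`TC_fixed`: its coefficients are a multiple of `δ_0`). -/
theorem TR_fixed_const {A : Fin d → Fin d → LI d} {c : ℝ} (hA : Coef A c) (u : HR d)
    (hu : TR A (0 : E d) u = u) : ∃ a : ℝ, ∀ᵐ x ∂(torM d), u x = a := by
  have h1 := GIrr_fixed hA 0 0 GIrr_lat_zero u hu
  set x := (Uop (0 : E d)).symm (ofC d u) with hx
  have h2 : x = x 0 • lp.single 2 (0 : Lat d) (1 : ℂ) := by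
    ext n
    rw [lp.coeFn_smul, Pi.smul_apply]
    by_cases hn : n = 0
    · subst hn
      simp
    · rw [lp.single_apply_ne _ _ _ hn, smul_zero]
      refine TC_fixed hA 0 x h1 n ?_
      rw [zero_add]
      intro h0
      apply hn
      funext i
      have h3 := congrArg (fun v : E d => v i) h0
      have h4 : ((n i : ℤ) : ℝ) = 0 := by simpa [latE] using h3
      exact_mod_cast h4
  have h3 : ofC d u = x 0 • Uop (0 : E d) (lp.single 2 (0 : Lat d) (1 : ℂ)) := by
    rw [← LinearIsometryEquiv.apply_symm_apply (Uop (0 : E d)) (ofC d u), ← hx]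
    conv_lhs => rw [h2]
    rw [map_smul]
  refine ⟨(x 0).re, ?_⟩
  have h4 := GIrr_coe_ofC u
  rw [h3] at h4
  filter_upwards [h4, Lp.coeFn_smul (x 0) (Uop (0 : E d) (lp.single 2 (0 : Lat d) (1 : ℂ))),
    Uop_single d] with y e1 e2 e3
  rw [e1, Pi.smul_apply, e3, smul_eq_mul, mul_one] at e2
  rw [← e2, Complex.ofReal_re]

private theorem GIrr_mulInf_one (s : LI d) : mulInf s (oneR d) =ᵐ[torM d] fun x => s x := by
  filter_upwards [coeFn_mulInf s (oneR d), coeFn_oneR d] with x e1 e2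
  rw [e1, e2, mul_one]

/-- `u = s 1` satisfies `T(0) u = s T(0) 1 = u`, so `s` is constant. -/
theorem TR_irr {A : Fin d → Fin d → LI d} {c : ℝ} (hA : Coef A c) :
    Irr (TR A (0 : E d)) := by
  intro s hs h
  have h1 := h (oneR d)
  rw [TR_one hA] at h1
  obtain ⟨a, ha⟩ := TR_fixed_const hA _ h1
  have h2 : ∀ᵐ x ∂(torM d), s x = a := by
    filter_upwards [ha, GIrr_mulInf_one s] with x e1 e2
    rw [← e2, e1]
  obtain ⟨x, hx1, hx2⟩ := (hs.and h2).exists
  rw [hx2] at hx1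
  rcases hx1 with h0 | h0
  · left
    filter_upwards [h2] with y hy
    rw [hy, h0]
  · right
    filter_upwards [h2] with y hy
    rw [hy, h0]

/-- `u = s 1` satisfies `T(κ) u = s T(0) 1 = u`, `κ = e_i/2`, so `u = 0`; but `|u| = 1`. -/
theorem TR_noSign {A : Fin d → Fin d → LI d} {c : ℝ} (hA : Coef A c) (i : Fin d) :
    NoSign (TR A (0 : E d)) (TR A (EuclideanSpace.single i (1 / 2 : ℝ))) := by
  intro s hs h
  have h1 := h (oneR d)
  rw [TR_one hA] at h1
  have hm : latE (Pi.single i 1 : Lat d) = (2 : ℝ) • (EuclideanSpace.single i (1 / 2 : ℝ) : E d) := by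
    ext j
    by_cases hj : j = i
    · subst hj
      simp [latE]
    · simp [latE, hj]
  have hκ : ∀ n : Lat d, (EuclideanSpace.single i (1 / 2 : ℝ) : E d) + latE n ≠ 0 := by
    intro n h0
    have h3 := congrArg (fun v : E d => v i) h0
    have h4 : (1 / 2 : ℝ) + ((n i : ℤ) : ℝ) = 0 := by simpa [latE] using h3
    have h5 : (1 : ℝ) + 2 * ((n i : ℤ) : ℝ) = 0 := by linarith
    have h6 : (1 : ℤ) + 2 * n i = 0 := by exact_mod_cast h5
    omega
  have h2 := TR_fixed_zero hA _ _ hm hκ _ h1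
  have h3 := GIrr_mulInf_one s
  rw [h2] at h3
  obtain ⟨x, hx1, hx2, hx3⟩ := (hs.and (h3.and (Lp.coeFn_zero ℝ 2 (torM d)))).exists
  rw [hx3, Pi.zero_apply] at hx2
  have hx4 : s x = 0 := hx2.symm
  rw [hx4] at hx1
  rcases hx1 with h0 | h0 <;> norm_num at h0

end Pool.Agent.Lib.MP_c8757e_mp
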