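import Pool.Agent.Lib.MP_c8757e_mp.FibMul
import Pool.Agent.Lib.MP_c8757e_mp.Four
import Pool.Agent.Lib.MP_c8757e_mp.KSet

/-! FLAT, module Pos: an eigenvalue on `ℝ^d` is an eigenvalue of all fibres. -/

open MeasureTheory Filter Topology Set UnitAddTorus
open scoped ENNReal FourierTransform

noncomputable section

namespace Pool.Agent.Lib.MP_c8757e_mp

variable {d : ℕ}

private lemma pos_memLp {φ : E d → ℂ} (hφ : IsTest φ) : MemLp φ 2 (volume : Measure (E d)) :=
  hφ.1.continuous.memLp_of_hasCompactSupport hφ.2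

private lemma pos_memLp_pd {φ : E d → ℂ} (hφ : IsTest φ) (j : Fin d) :
    MemLp (pd j φ) 2 (volume : Measure (E d)) := by
  have h1 : Continuous (fderiv ℝ φ) := hφ.1.continuous_fderiv (by simp)
  have h2 : Continuous (pd j φ) := by
    unfold pd
    fun_prop
  have h3 : HasCompactSupport (pd j φ) := hφ.2.fderiv_apply ℝ (EuclideanSpace.single j 1)
  exact h2.memLp_of_hasCompactSupport h3

private lemma pos_integrable {F ψ : E d → ℂ} (hF : MemLp F 2 (volume : Measure (E d)))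
    (hψ : MemLp ψ 2 (volume : Measure (E d))) : Integrable (fun x => F x * ψ x) volume :=
  hF.integrable_mul hψ

private lemma pos_coeFn_sum {ι : Type} (s : Finset ι) (F : ι → L2E d) :
    ∀ᵐ x : E d, (∑ i ∈ s, F i : L2E d) x = ∑ i ∈ s, F i x := by
  classical
  induction s using Finset.induction_on with
  | empty =>
    filter_upwards [Lp.coeFn_zero ℂ 2 (volume : Measure (E d))] with x hx
    rw [Finset.sum_empty, Finset.sum_empty, hx]
    rfl
  | insert a s ha ih =>
    filter_upwards [ih, Lp.coeFn_add (F a) (∑ i ∈ s, F i)] with x h1 h2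
    rw [Finset.sum_insert ha, Finset.sum_insert ha, h2, Pi.add_apply, h1]

private lemma pos_grad (U : L2E d) (G : Fin d → L2E d)
    (H : ∀ j φ, IsTest φ → ∫ x, U x * pd j φ x = - ∫ x, G j x * φ x) (j : Fin d) :
    ∀ᵐ ξ : E d, (𝓕 (G j) : L2E d) ξ =
      2 * (Real.pi : ℂ) * Complex.I * (ξ j : ℂ) * (𝓕 U : L2E d) ξ := by
  classical
  have h1 := fourier_of_weak (fun i => if i = j then U else 0) (-(G j)) (fun φ hφ => by
    rw [Finset.sum_eq_single j]
    · rw [if_pos rfl, H j φ hφ, ← integral_neg]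
      refine integral_congr_ae ?_
      filter_upwards [Lp.coeFn_neg (G j)] with x hx
      rw [hx, Pi.neg_apply, neg_mul]
    · intro i _ hij
      rw [if_neg hij]
      refine integral_eq_zero_of_ae ?_
      filter_upwards [Lp.coeFn_zero ℂ 2 (volume : Measure (E d))] with x hx
      rw [hx, Pi.zero_apply, zero_mul]
    · intro h
      exact absurd (Finset.mem_univ j) h)
  rw [FourierTransform.fourier_neg] at h1
  filter_upwards [h1, Lp.coeFn_neg (𝓕 (G j) : L2E d),
    Lp.coeFn_zero ℂ 2 (volume : Measure (E d))] with ξ h2 h3 h4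
  rw [h3, Pi.neg_apply] at h2
  have h5 : ∑ i, 2 * (Real.pi : ℂ) * Complex.I * (ξ i : ℂ) *
      (𝓕 (if i = j then U else 0 : L2E d) : L2E d) ξ =
      2 * (Real.pi : ℂ) * Complex.I * (ξ j : ℂ) * (𝓕 U : L2E d) ξ := by
    rw [Finset.sum_eq_single j]
    · rw [if_pos rfl]
    · intro i _ hij
      rw [if_neg hij, FourierTransform.fourier_zero, h4, Pi.zero_apply, mul_zero]
    · intro h
      exact absurd (Finset.mem_univ j) h
  rw [h5] at h2
  exact neg_injective h2

private lemma pos_mulE (a : LI d) (F : L2E d) :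
    ∀ᵐ x : E d, mulE (cplx a) F x = ((a (proj x) : ℝ) : ℂ) * F x := by
  filter_upwards [coeFn_mulE (cplx a) F, ae_proj (coeFn_cplx a)] with x h1 h2
  rw [h1, h2]

private lemma pos_eqn (A : Fin d → Fin d → LI d) (V : LI d) (μ : ℝ) (U : L2E d)
    (G : Fin d → L2E d)
    (H : ∀ φ, IsTest φ → ∑ j, ∑ l, ∫ x, ((A j l (proj x) : ℝ) : ℂ) * G l x * pd j φ x =
      ∫ x, (((V (proj x) : ℝ) : ℂ) - (μ : ℂ)) * U x * φ x) :
    ∀ᵐ ξ : E d, (𝓕 (mulE (cplx V) U) : L2E d) ξ - (μ : ℂ) * (𝓕 U : L2E d) ξ =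
      - ∑ j, 2 * (Real.pi : ℂ) * Complex.I * (ξ j : ℂ) *
        ∑ l, (𝓕 (mulE (cplx (A j l)) (G l)) : L2E d) ξ := by
  have h1 := fourier_of_weak (fun j => ∑ l, mulE (cplx (A j l)) (G l))
    (mulE (cplx V) U + (-(μ : ℂ)) • U) (fun φ hφ => by
      have e1 : ∀ j, ∫ x, (∑ l, mulE (cplx (A j l)) (G l) : L2E d) x * pd j φ x =
          ∑ l, ∫ x, ((A j l (proj x) : ℝ) : ℂ) * G l x * pd j φ x := by
        intro j
        have e2 : ∀ l, Integrable (fun x => mulE (cplx (A j l)) (G l) x * pd j φ x) volume :=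
          fun l => pos_integrable (Lp.memLp _) (pos_memLp_pd hφ j)
        have e3 : ∀ l, ∫ x, ((A j l (proj x) : ℝ) : ℂ) * G l x * pd j φ x =
            ∫ x, mulE (cplx (A j l)) (G l) x * pd j φ x := by
          intro l
          refine integral_congr_ae ?_
          filter_upwards [pos_mulE (A j l) (G l)] with x hx
          rw [hx]
        rw [Finset.sum_congr rfl fun l _ => e3 l, ← integral_finsetSum _ fun l _ => e2 l]
        refine integral_congr_ae ?_
        filter_upwards [pos_coeFn_sum Finset.univ fun l => mulE (cplx (A j l)) (G l)] with x hx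
        rw [hx, Finset.sum_mul]
      rw [Finset.sum_congr rfl fun j _ => e1 j, H φ hφ]
      refine integral_congr_ae ?_
      filter_upwards [pos_mulE V U, Lp.coeFn_add (mulE (cplx V) U) ((-(μ : ℂ)) • U),
        Lp.coeFn_smul (-(μ : ℂ)) U] with x h2 h3 h4
      rw [h3, Pi.add_apply, h4, Pi.smul_apply, h2, smul_eq_mul]
      ring)
  rw [FourierTransform.fourier_add, FourierTransform.fourier_smul] at h1
  have h5 : ∀ j, ∀ᵐ ξ : E d, (𝓕 (∑ l, mulE (cplx (A j l)) (G l) : L2E d) : L2E d) ξ =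
      ∑ l, (𝓕 (mulE (cplx (A j l)) (G l)) : L2E d) ξ := by
    intro j
    rw [FourierTransform.fourier_sum]
    exact pos_coeFn_sum Finset.univ fun l => (𝓕 (mulE (cplx (A j l)) (G l)) : L2E d)
  filter_upwards [h1, Lp.coeFn_add (𝓕 (mulE (cplx V) U) : L2E d) ((-(μ : ℂ)) • (𝓕 U : L2E d)),
    Lp.coeFn_smul (-(μ : ℂ)) (𝓕 U : L2E d), ae_all_iff.2 h5] with ξ h6 h7 h8 h9
  rw [h7, Pi.add_apply, h8, Pi.smul_apply, smul_eq_mul] at h6
  have h10 : (𝓕 (mulE (cplx V) U) : L2E d) ξ - (μ : ℂ) * (𝓕 U : L2E d) ξ =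
      (𝓕 (mulE (cplx V) U) : L2E d) ξ + -(μ : ℂ) * (𝓕 U : L2E d) ξ := by ring
  rw [h10, h6]
  congr 1
  refine Finset.sum_congr rfl fun j _ => ?_
  rw [h9 j]

/-- the algebra on one fibre -/
private lemma pos_fibre (A : Fin d → Fin d → LI d) (V : LI d) (μ : ℝ) (k : E d) (c : ell d)
    (g : Fin d → ell d)
    (hg : ∀ l n, g l n = 2 * (Real.pi : ℂ) * Complex.I * ((k l : ℂ) + (n l : ℂ)) * c n)
    (he : ∀ n, Mhat (cplx V) c n - (μ : ℂ) * c n =
      - ∑ j, 2 * (Real.pi : ℂ) * Complex.I * ((k j : ℂ) + (n j : ℂ)) *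
        ∑ l, Mhat (cplx (A j l)) (g l) n) (hc : c ≠ 0) : k ∈ Kset A V (-μ) := by
  have hpi : (2 * (Real.pi : ℂ) * Complex.I) ≠ 0 :=
    mul_ne_zero (mul_ne_zero two_ne_zero (Complex.ofReal_ne_zero.2 Real.pi_ne_zero)) Complex.I_ne_zero
  have hjap : ∀ n : Lat d, (jap n : ℂ) ≠ 0 := fun n => by
    have h1 := one_le_jap n
    exact Complex.ofReal_ne_zero.2 (by linarith)
  -- the sequence `n_i c_n`
  let e : Fin d → ell d := fun i => (2 * (Real.pi : ℂ) * Complex.I)⁻¹ • g i - (k i : ℂ) • c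
  have he' : ∀ i n, e i n = (n i : ℂ) * c n := by
    intro i n
    show (2 * (Real.pi : ℂ) * Complex.I)⁻¹ * g i n - (k i : ℂ) * c n = _
    rw [hg]
    field_simp
    ring
  have h2 : (0 : ℝ) < (2 : ℝ≥0∞).toReal := by norm_num
  have hmem : Memℓp (fun n : Lat d => (jap n : ℂ) * c n) 2 := by
    rw [memℓp_gen_iff h2]
    have e2 : (2 : ℝ≥0∞).toReal = 2 := by norm_num
    have s1 := (lp.memℓp c).summable h2
    have s2 : ∀ i, Summable fun n => ‖e i n‖ ^ (2 : ℝ≥0∞).toReal := fun i =>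
      (lp.memℓp (e i)).summable h2
    have s3 := s1.add (summable_sum (s := Finset.univ) fun i _ => s2 i)
    refine s3.congr fun n => ?_
    simp only [e2, Real.rpow_two, he']
    rw [norm_mul, mul_pow, Complex.norm_real, Real.norm_eq_abs, sq_abs, jap_sq, add_mul, one_mul,
      Finset.sum_mul]
    congr 1
    refine Finset.sum_congr rfl fun i _ => ?_
    rw [norm_mul, mul_pow]
    congr 1
    rw [← sq_abs ((n i : ℤ) : ℝ), ← Real.norm_eq_abs, ← Complex.norm_real]
    simp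
  let v : ell d := ⟨fun n => (jap n : ℂ) * c n, hmem⟩
  have hv : ∀ n, v n = (jap n : ℂ) * c n := fun n => rfl
  have hW : Wop d v = c := by
    ext n
    rw [Wop_apply, hv]
    have := hjap n
    push_cast
    field_simp
  have hX : ∀ l, g l = Complex.I • Xop (toC k) l v := by
    intro l
    ext n
    show g l n = Complex.I * Xop (toC k) l v n
    rw [Xop_apply, hv, hg]
    have := hjap n
    show _ = Complex.I * (2 * (Real.pi : ℂ) * ((k l : ℂ) + (n l : ℂ)) / (jap n : ℂ) *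
      ((jap n : ℂ) * c n))
    field_simp
  have hM : ∀ j l n, Mhat (cplx (A j l)) (g l) n =
      Complex.I * Mhat (cplx (A j l)) (Xop (toC k) l v) n := by
    intro j l n
    rw [hX l, map_smul]
    rfl
  refine ⟨v, ?_, ?_⟩
  · intro h0
    rw [h0, map_zero] at hW
    exact hc hW.symm
  · ext n
    have h3 : Bop A V (toC k) v n = (∑ j, ∑ l,
        Xop (toC k) j (Mhat (cplx (A j l)) (Xop (toC k) l v)) n) -
        Wop d (Mhat (cplx V) (Wop d v)) n := by
      unfold Bop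
      rw [ContinuousLinearMap.sub_apply, lp.coeFn_sub, Pi.sub_apply,
        ContinuousLinearMap.sum_apply, lp.coeFn_sum, Finset.sum_apply]
      congr 1
      refine Finset.sum_congr rfl fun j _ => ?_
      rw [ContinuousLinearMap.sum_apply, lp.coeFn_sum, Finset.sum_apply]
      rfl
    have h4 : ((((-μ : ℝ) : ℂ) • Nop d v : ell d) : Lat d → ℂ) n =
        -(μ : ℂ) * (((1 / jap n ^ 2 : ℝ) : ℂ) * v n) := by
      show ((-μ : ℝ) : ℂ) * Nop d v n = _
      rw [Nop_apply]
      push_cast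
      ring
    rw [h3, h4, hW, Wop_apply, hv]
    have h5 : ∀ j, ∑ l, Xop (toC k) j (Mhat (cplx (A j l)) (Xop (toC k) l v)) n =
        2 * (Real.pi : ℂ) * ((k j : ℂ) + (n j : ℂ)) / (jap n : ℂ) *
          ∑ l, Mhat (cplx (A j l)) (Xop (toC k) l v) n := by
      intro j
      rw [Finset.mul_sum]
      refine Finset.sum_congr rfl fun l _ => ?_
      rw [Xop_apply]
      rfl
    have h6 : Mhat (cplx V) c n - (μ : ℂ) * c n =
        ∑ j, 2 * (Real.pi : ℂ) * ((k j : ℂ) + (n j : ℂ)) *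
          ∑ l, Mhat (cplx (A j l)) (Xop (toC k) l v) n := by
      rw [he n, ← Finset.sum_neg_distrib]
      refine Finset.sum_congr rfl fun j _ => ?_
      rw [Finset.sum_congr rfl fun l _ => hM j l n, ← Finset.mul_sum]
      linear_combination (-(2 * (Real.pi : ℂ) * ((k j : ℂ) + (n j : ℂ)) *
        ∑ l, Mhat (cplx (A j l)) (Xop (toC k) l v) n)) * Complex.I_mul_I
    rw [Finset.sum_congr rfl fun j _ => h5 j]
    have h7 : ∑ j, 2 * (Real.pi : ℂ) * ((k j : ℂ) + (n j : ℂ)) / (jap n : ℂ) *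
          ∑ l, Mhat (cplx (A j l)) (Xop (toC k) l v) n =
        (jap n : ℂ)⁻¹ * (Mhat (cplx V) c n - (μ : ℂ) * c n) := by
      rw [h6, Finset.mul_sum]
      refine Finset.sum_congr rfl fun j _ => ?_
      ring
    rw [h7]
    have := hjap n
    push_cast
    field_simp
    ring

/-- `u`, `g_j` as elements of `L²`. Weak gradient: `fourier_of_weak` with `h = (0,..,u,..,0)` and
`w = - g_j` gives `𝓕 g_j = 2πi ξ_j 𝓕 u`. Equation: with `h_j = ∑_l A_jl g_l` (`mulE`, `coeFn_mulE`), `w = (V-μ) u`,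
`𝓕 w = - ∑ 2πi ξ_j 𝓕 h_j`. Fibres: `c = fib (𝓕 u) k` satisfies `∑ (1+|n|²)|c_n|² < ∞` for a.e. `k`;
let `v_n = ⟨n⟩ c_n`, so `c = W v`, `fib (𝓕 g_j) k = i X_j(k) v`, and by `fib_mulE`
`∑ X_j Mhat(A_jl) X_l v = W Mhat(V - μ) W v`, i.e. `B(k) v = -μ N v`. The set where `fib (𝓕 u) k ≠ 0`
has positive measure because `u ≠ 0`. -/
theorem Kset_pos {A : Fin d → Fin d → LI d} {c : ℝ} (hA : Coef A c) (V : LI d)
    (μ : ℝ) (h : IsEigenvalue (liftA A) (liftV V) μ) : volume (Kset A V (-μ)) ≠ 0 := by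
  obtain ⟨u, g, hu, hg, hne, hw1, hw2⟩ := h
  intro h0
  set U : L2E d := hu.toLp u with hU
  set G : Fin d → L2E d := fun j => (hg j).toLp (g j) with hG
  have cU : U =ᵐ[volume] u := hu.coeFn_toLp
  have cG : ∀ j, G j =ᵐ[volume] g j := fun j => (hg j).coeFn_toLp
  have k1 := pos_grad U G (fun j φ hφ => by
    have e1 : ∫ x, U x * pd j φ x = ∫ x, u x * pd j φ x := by
      refine integral_congr_ae ?_
      filter_upwards [cU] with x hx
      rw [hx]
    have e2 : ∫ x, G j x * φ x = ∫ x, g j x * φ x := by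
      refine integral_congr_ae ?_
      filter_upwards [cG j] with x hx
      rw [hx]
    rw [e1, e2]
    exact hw1 j φ hφ)
  have k2 := pos_eqn A V μ U G (fun φ hφ => by
    have e1 : ∀ j l, ∫ x, ((A j l (proj x) : ℝ) : ℂ) * G l x * pd j φ x =
        ∫ x, (liftA A x j l : ℂ) * g l x * pd j φ x := by
      intro j l
      refine integral_congr_ae ?_
      filter_upwards [cG l] with x hx
      rw [hx]
      rfl
    have e2 : ∫ x, (((V (proj x) : ℝ) : ℂ) - (μ : ℂ)) * U x * φ x =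
        ∫ x, ((liftV V x : ℂ) - (μ : ℂ)) * u x * φ x := by
      refine integral_congr_ae ?_
      filter_upwards [cU] with x hx
      rw [hx]
      rfl
    rw [e2, ← hw2 φ hφ]
    refine Finset.sum_congr rfl fun j _ => Finset.sum_congr rfl fun l _ => e1 j l)
  have k3 : ∀ᵐ k : E d, fib (𝓕 U : L2E d) k = 0 := by
    have a1 : ∀ᵐ k : E d, k ∉ Kset A V (-μ) := measure_eq_zero_iff_ae_notMem.1 h0
    have a2 := fib_apply (𝓕 U : L2E d)
    have a3 := ae_all_iff.2 fun l => fib_apply (𝓕 (G l) : L2E d)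
    have a4 := ae_all_iff.2 fun j => ae_all_iff.2 fun l =>
      fib_apply (𝓕 (mulE (cplx (A j l)) (G l)) : L2E d)
    have a5 := fib_apply (𝓕 (mulE (cplx V) U) : L2E d)
    have a6 := ae_all_iff.2 fun j => ae_all_iff.2 fun l => fib_mulE (cplx (A j l)) (G l)
    have a7 := fib_mulE (cplx V) U
    have a8 := ae_all_iff.2 fun j => ae_shift (k1 j)
    have a9 := ae_shift k2
    filter_upwards [a1, a2, a3, a4, a5, a6, a7, a8, a9] with k b1 b2 b3 b4 b5 b6 b7 b8 b9
    by_contra hc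
    refine b1 (pos_fibre A V μ k (fib (𝓕 U : L2E d) k) (fun l => fib (𝓕 (G l) : L2E d) k)
      (fun l n => ?_) (fun n => ?_) hc)
    · rw [b3, b8, b2]
      have e1 : (((k + latE n : E d) l : ℝ) : ℂ) = (k l : ℂ) + (n l : ℂ) := by
        rw [PiLp.add_apply]
        simp [latE]
      rw [e1]
    · rw [← b7, b5, b2, b9]
      congr 1
      refine Finset.sum_congr rfl fun j _ => ?_
      have e1 : (((k + latE n : E d) j : ℝ) : ℂ) = (k j : ℂ) + (n j : ℂ) := by
        rw [PiLp.add_apply]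
        simp [latE]
      rw [e1]
      congr 1
      refine Finset.sum_congr rfl fun l _ => ?_
      rw [← b6, b4]
  have k4 : ∫⁻ k in cube (0 : Lat d), ‖fib (𝓕 U : L2E d) k‖ₑ ^ 2 = 0 := by
    rw [lintegral_congr_ae (g := fun _ => 0)]
    · exact lintegral_zero
    · filter_upwards [ae_restrict_of_ae k3] with k hk
      rw [hk]
      simp
  rw [lintegral_fib] at k4
  have k5 : (𝓕 U : L2E d) = 0 := by
    have h1 : ‖(𝓕 U : L2E d)‖ₑ = 0 := by
      by_contra h2
      exact (pow_ne_zero 2 h2) k4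
    exact enorm_eq_zero.1 h1
  have k6 : U = 0 := by
    have h1 := Lp.norm_fourier_eq U
    rw [k5, norm_zero] at h1
    exact norm_eq_zero.1 h1.symm
  refine hne ?_
  filter_upwards [cU, (Lp.coeFn_zero ℂ 2 (volume : Measure (E d)))] with x h1 h2
  rw [← h1, k6, h2]

theorem Kset_univ {A : Fin d → Fin d → LI d} {c : ℝ} (hA : Coef A c) (V : LI d)
    (μ : ℝ) (h : IsEigenvalue (liftA A) (liftV V) μ) : Kset A V (-μ) = univ :=
  (Kset_null_or_univ hA V (-μ)).resolve_left (Kset_pos hA V μ h)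

end Pool.Agent.Lib.MP_c8757e_mp
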