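import Pool.Agent.Lib.MP_c8757e_mp.GMain
import Pool.Agent.Lib.MP_c8757e_mp.GIrr
import Pool.Agent.Lib.MP_c8757e_mp.Pos
import Pool.Agent.Lib.MP_c8757e_mp.Tran

/-! FLAT, module GFin: generic potentials. -/

open MeasureTheory Filter Topology Set
open scoped ENNReal

noncomputable section

namespace Pool.Agent.Lib.MP_c8757e_mp

variable {d : ℕ}

/-- A continuous function on the torus as a function on `ℝ^d`. -/
def liftC (V : C(Tor d, ℝ)) (x : E d) : ℝ := V (proj x)

theorem GFin_latE_zero : latE (0 : Lat d) = (2 : ℝ) • (0 : E d) := by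
  ext i
  simp [latE]

theorem GFin_latE_single (i : Fin d) :
    latE (Pi.single i 1 : Lat d) = (2 : ℝ) • (EuclideanSpace.single i (1 / 2 : ℝ) : E d) := by
  ext k
  by_cases h : k = i
  · subst h
    simp [latE]
  · simp [latE, h]

/-- The coefficients as bounded functions on the torus. -/
theorem GFin_coef (A : E d → Matrix (Fin d) (Fin d) ℝ)
    (hA : ∀ i j, Measurable fun x => A x i j) (bA : ∃ C, ∀ x i j, |A x i j| ≤ C)
    (pA : Periodic A) (sA : ∀ x, (A x).IsSymm) (c : ℝ) (eA : EllipticWith A c) :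
    ∃ a : Fin d → Fin d → LI d, Coef a c ∧ ∀ᵐ x : E d, A x = liftA a x := by
  obtain ⟨C, hC⟩ := bA
  have h0 : ∀ i j, ∃ a : LI d, (∀ᵐ x : E d, a (proj x) = A x i j) ∧
      ∃ g : Tor d → ℝ, (∀ x, g (proj x) = A x i j) ∧ ∀ᵐ y ∂(torM d), a y = g y := by
    intro i j
    refine exists_torus (fun x => A x i j) (hA i j) ⟨C, fun x => hC x i j⟩ ?_
    intro x n
    change A (x + latE n) i j = A x i j
    rw [pA x n]
  choose a ha g hg hag using h0
  have hall : ∀ᵐ y ∂(torM d), ∀ j l, a j l y = g j l y := by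
    rw [ae_all_iff]
    intro j
    rw [ae_all_iff]
    intro l
    exact hag j l
  refine ⟨a, ⟨?_, eA.1, ?_⟩, ?_⟩
  · intro j l
    apply Lp.ext
    filter_upwards [hall] with y hy
    obtain ⟨x, rfl⟩ := proj_surjective y
    rw [hy j l, hy l j, hg j l, hg l j]
    exact (sA x).apply l j
  · filter_upwards [hall] with y hy
    intro ξ
    obtain ⟨x, rfl⟩ := proj_surjective y
    have h1 := eA.2 x ξ
    refine h1.trans (le_of_eq ?_)
    refine Finset.sum_congr rfl fun j _ => Finset.sum_congr rfl fun l _ => ?_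
    rw [hy j l, hg j l]
  · have h2 : ∀ᵐ x : E d, ∀ j l, a j l (proj x) = A x j l := by
      rw [ae_all_iff]
      intro j
      rw [ae_all_iff]
      intro l
      exact ha j l
    filter_upwards [h2] with x hx
    ext j l
    exact (hx j l).symm

/-- If `μ` is an eigenvalue then (`Kset_univ`) it is an eigenvalue of the fibres at `0` and at
`e_0/2`; `exists_TC_of_isEig`, `exists_real_of_TC`: `Common (TR A 0) (TR A (e_0/2)) V (-μ + 1)`.
`generic_abstract` with `TR_weight`, `TR_irr`, `TR_noSign`; `latE m = 2κ` for `m = 0` and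
`m = Pi.single 0 1`. -/
theorem generic_potential (hd : 0 < d) (A : E d → Matrix (Fin d) (Fin d) ℝ)
    (hA : ∀ i j, Measurable fun x => A x i j) (bA : ∃ C, ∀ x i j, |A x i j| ≤ C)
    (pA : Periodic A) (sA : ∀ x, (A x).IsSymm) (c : ℝ) (eA : EllipticWith A c)
    {X : Type*} [AddCommGroup X] [Module ℝ X] [TopologicalSpace X] [IsTopologicalAddGroup X]
    [ContinuousSMul ℝ X] [BaireSpace X] (j : X →L[ℝ] C(Tor d, ℝ)) (hj : DenseRange j) :
    IsMeagre {V : X | ∃ μ : ℝ, IsEigenvalue A (liftC (j V)) μ} := by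
  obtain ⟨a, ha, hAa⟩ := GFin_coef A hA bA pA sA c eA
  set i0 : Fin d := ⟨0, hd⟩ with hi0
  have hw0 : WeightR (TR a (0 : E d)) := TR_weight ha 0 0 GFin_latE_zero
  have hw1 : WeightR (TR a (EuclideanSpace.single i0 (1 / 2 : ℝ))) :=
    TR_weight ha _ (Pi.single i0 1) (GFin_latE_single i0)
  refine (generic_abstract hw0 hw1 (TR_irr ha) (TR_noSign ha i0) j hj).mono ?_
  rintro V ⟨μ, hμ⟩
  refine ⟨-μ + 1, ?_⟩
  have hV : ∀ᵐ x : E d, liftC (j V) x = liftV (toInf (j V)) x := by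
    have h1 : ∀ᵐ y ∂(torM d), toInf (j V) y = (j V) y :=
      ContinuousMap.coeFn_toLp (p := ∞) (μ := torM d) (𝕜 := ℝ) (j V)
    filter_upwards [ae_proj h1] with x hx
    exact hx.symm
  have h2 : IsEigenvalue (liftA a) (liftV (toInf (j V))) μ := isEigenvalue_congr hAa hV hμ
  have h3 := Kset_univ ha (toInf (j V)) μ h2
  have h4 : ∀ κ : E d, IsEig (Nop d) (Bop a (toInf (j V)) (toC κ)) ((-μ : ℝ) : ℂ) := by
    intro κ
    have h5 : κ ∈ Kset a (toInf (j V)) (-μ) := by
      rw [h3]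
      exact mem_univ κ
    exact h5
  constructor
  · obtain ⟨x, hx0, hx⟩ := exists_TC_of_isEig ha 0 (j V) (-μ) (h4 0)
    exact exists_real_of_TC ha 0 0 GFin_latE_zero (j V) (-μ + 1) x hx0 hx
  · obtain ⟨x, hx0, hx⟩ := exists_TC_of_isEig ha (EuclideanSpace.single i0 (1 / 2 : ℝ)) (j V) (-μ)
      (h4 _)
    exact exists_real_of_TC ha _ (Pi.single i0 1) (GFin_latE_single i0) (j V) (-μ + 1) x hx0 hx

end Pool.Agent.Lib.MP_c8757e_mp
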