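import Pool.Agent.Lib.MP_c8757e_mp.GSpec

/-! FLAT, module GFirst: first order perturbation theory on a line of potentials. -/

open MeasureTheory Filter Topology Set
open scoped ENNReal

noncomputable section

namespace Pool.Agent.Lib.MP_c8757e_mp

variable {d : ℕ} {T T₀ T₁ : HR d →L[ℝ] HR d}

/-- For `u ∈ ker` at `V + t W`, `lam_t`, and `v ∈ ker` at `V`, `lam`: `⟪(t W + lam_t - lam) u, v⟫ = 0`
(both are in the range of `T`, `T` self-adjoint). -/
theorem pairing (hT : WeightR T) (V W : C(Tor d, ℝ)) (t lam lam' : ℝ) {u v : HR d}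
    (hu : u ∈ kerR T (V + t • W) lam') (hv : v ∈ kerR T V lam) :
    t * inner ℝ (mulR W u) v + (lam' - lam) * inner ℝ u v = 0 := by
  have hu' := mem_kerR.1 hu
  have hv' := mem_kerR.1 hv
  have hsym : ∀ x y : HR d, inner ℝ (T x) y = inner ℝ x (T y) := fun x y =>
    ContinuousLinearMap.isSelfAdjoint_iff_isSymmetric.1 hT.sa x y
  have h1 : inner ℝ (mulR (pot (V + t • W) lam') u) v = inner ℝ u (mulR (pot V lam) v) := by
    calc inner ℝ (mulR (pot (V + t • W) lam') u) v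
        = inner ℝ (mulR (pot (V + t • W) lam') u) (T (mulR (pot V lam) v)) := by rw [hv']
      _ = inner ℝ (T (mulR (pot (V + t • W) lam') u)) (mulR (pot V lam) v) := (hsym _ _).symm
      _ = inner ℝ u (mulR (pot V lam) v) := by rw [hu']
  rw [mulR_pot, mulR_pot, mulR_add, mulR_smul] at h1
  simp only [ContinuousLinearMap.add_apply, ContinuousLinearMap.smul_apply, inner_add_left,
    inner_add_right, inner_smul_left, inner_smul_right, conj_trivial] at h1
  rw [← mulR_inner V u v] at h1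
  linarith

/-- Orthonormal bases of the kernels, indexed by `Fin m`. -/
theorem GFirst_basis (V : C(Tor d, ℝ)) (lam : ℝ) (m : ℕ) (hm : 0 < m)
    (h : Module.finrank ℝ (kerR T V lam) = m) :
    ∃ u : Fin m → HR d, Orthonormal ℝ u ∧ ∀ i, u i ∈ kerR T V lam := by
  haveI : FiniteDimensional ℝ (kerR T V lam) :=
    FiniteDimensional.of_finrank_pos (by rw [h]; exact hm)
  let b := (stdOrthonormalBasis ℝ (kerR T V lam)).reindex (finCongr h)
  refine ⟨fun i => (b i : HR d), ?_, fun i => (b i).2⟩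
  exact b.orthonormal.comp_linearIsometry (kerR T V lam).subtypeₗᵢ

/-- The first order equation for all vectors of the kernel from the one for an orthonormal
family of the right size. -/
theorem GFirst_extend (V W : C(Tor d, ℝ)) (lam c : ℝ) (m : ℕ) (hm : 0 < m)
    (h : Module.finrank ℝ (kerR T V lam) = m) (u₀ : Fin m → HR d) (ho : Orthonormal ℝ u₀)
    (hu₀ : ∀ i, u₀ i ∈ kerR T V lam)
    (hc : ∀ i, ∀ v ∈ kerR T V lam, inner ℝ (mulR W (u₀ i)) v = c * inner ℝ (u₀ i) v) :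
    ∀ u ∈ kerR T V lam, ∀ v ∈ kerR T V lam, inner ℝ (mulR W u) v = c * inner ℝ u v := by
  haveI : FiniteDimensional ℝ (kerR T V lam) :=
    FiniteDimensional.of_finrank_pos (by rw [h]; exact hm)
  intro u hu v hv
  have hsp : Submodule.span ℝ (range u₀) = kerR T V lam := by
    apply Submodule.eq_of_le_of_finrank_eq
    · rw [Submodule.span_le]
      rintro _ ⟨i, rfl⟩
      exact hu₀ i
    · rw [finrank_span_eq_card ho.linearIndependent, h, Fintype.card_fin]
  have hu' : u ∈ Submodule.span ℝ (range u₀) := by rw [hsp]; exact hu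
  induction hu' using Submodule.span_induction with
  | mem x hx =>
    obtain ⟨i, rfl⟩ := hx
    exact hc i v hv
  | zero => simp
  | add x y hx hy ihx ihy =>
    rw [hsp] at hx hy
    rw [map_add, inner_add_left, inner_add_left, ihx hx, ihy hy]
    ring
  | smul a x hx ih =>
    rw [hsp] at hx
    rw [map_smul, inner_smul_left, inner_smul_left, ih hx]
    simp only [conj_trivial]
    ring

/-- Let `lam t → lam 0` and let both kernels along `V + t W` have constant positive dimension. For a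
sequence `t_m → 0`, `t_m ≠ 0`, take orthonormal bases of the kernels; a subsequence converges to
orthonormal bases at `t = 0` (`orthonormal_limit`). By `pairing`, for a limit basis vector `u₀` and
`v` in the kernel at `0`: `⟪W u₀, v⟫ = - lim ((lam t_m - lam 0)/t_m) ⟪u₀, v⟫`; with `v = u₀` the limit
exists along the subsequence and equals `-⟪W u₀, u₀⟫`: the same number `c` for all basis vectors of
both problems. -/
theorem first_order (h₀ : WeightR T₀) (h₁ : WeightR T₁) (V W : C(Tor d, ℝ)) (lam : ℝ → ℝ)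
    (hlam : ContinuousAt lam 0) (m₀ m₁ : ℕ) (hm₀ : 0 < m₀) (hm₁ : 0 < m₁)
    (hd : ∀ᶠ t in 𝓝 (0 : ℝ), Module.finrank ℝ (kerR T₀ (V + t • W) (lam t)) = m₀ ∧
      Module.finrank ℝ (kerR T₁ (V + t • W) (lam t)) = m₁) :
    ∃ c : ℝ, (∀ u ∈ kerR T₀ V (lam 0), ∀ v ∈ kerR T₀ V (lam 0),
        inner ℝ (mulR W u) v = c * inner ℝ u v) ∧
      (∀ u ∈ kerR T₁ V (lam 0), ∀ v ∈ kerR T₁ V (lam 0),
        inner ℝ (mulR W u) v = c * inner ℝ u v) := by
  have hd0 := hd.self_of_nhds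
  rw [zero_smul, add_zero] at hd0
  obtain ⟨ε, hε, hball⟩ := Metric.eventually_nhds_iff.1 hd
  let t : ℕ → ℝ := fun m => ε / ((m : ℝ) + 2)
  have htpos : ∀ m, 0 < t m := fun m => by positivity
  have htlt : ∀ m, dist (t m) 0 < ε := by
    intro m
    rw [Real.dist_0_eq_abs, abs_of_pos (htpos m)]
    exact div_lt_self hε (by
      have : (0 : ℝ) ≤ m := Nat.cast_nonneg m
      linarith)
  have ht0 : Tendsto t atTop (𝓝 0) := by
    have : Tendsto (fun m : ℕ => (m : ℝ) + 2) atTop atTop :=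
      tendsto_atTop_add_const_right _ _ tendsto_natCast_atTop_atTop
    exact this.const_div_atTop ε
  have hVt : Tendsto (fun m => V + t m • W) atTop (𝓝 V) := by
    have h := (tendsto_const_nhds (x := V)).add (ht0.smul_const W)
    rwa [zero_smul, add_zero] at h
  have hlt : Tendsto (fun m => lam (t m)) atTop (𝓝 (lam 0)) := hlam.tendsto.comp ht0
  choose U hUo hUk using fun m => GFirst_basis (T := T₀) (V + t m • W) (lam (t m)) m₀ hm₀
    (hball (htlt m)).1
  choose Z hZo hZk using fun m => GFirst_basis (T := T₁) (V + t m • W) (lam (t m)) m₁ hm₁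
    (hball (htlt m)).2
  obtain ⟨φ, u₀, hφ, hu₀o, hu₀k, hu₀l⟩ := orthonormal_limit h₀ m₀ (fun m => V + t m • W) V hVt
    (fun m _ => lam (t m)) (fun _ => lam 0) (fun _ => hlt) U hUo hUk
  obtain ⟨ψ, w₀, hψ, hw₀o, hw₀k, hw₀l⟩ := orthonormal_limit h₁ m₁
    (fun m => V + t (φ m) • W) V (hVt.comp hφ.tendsto_atTop)
    (fun m _ => lam (t (φ m))) (fun _ => lam 0) (fun _ => hlt.comp hφ.tendsto_atTop)
    (fun m => Z (φ m)) (fun m => hZo _) (fun m => hZk _)
  -- the common subsequence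
  let s : ℕ → ℝ := fun m => t (φ (ψ m))
  have hspos : ∀ m, 0 < s m := fun m => htpos _
  let D : ℕ → ℝ := fun m => (lam (s m) - lam 0) / s m
  have hkey0 : ∀ (i : Fin m₀) (v : HR d), v ∈ kerR T₀ V (lam 0) → ∀ m,
      inner ℝ (mulR W (U (φ (ψ m)) i)) v + D m * inner ℝ (U (φ (ψ m)) i) v = 0 := by
    intro i v hv m
    have h := pairing h₀ V W (s m) (lam 0) (lam (s m)) (hUk (φ (ψ m)) i) hv
    have hs := (hspos m).ne'
    have h2 : s m * (inner ℝ (mulR W (U (φ (ψ m)) i)) v +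
        D m * inner ℝ (U (φ (ψ m)) i) v) = 0 := by
      rw [← h]
      simp only [D]
      field_simp
    exact (mul_eq_zero.1 h2).resolve_left hs
  have hkey1 : ∀ (i : Fin m₁) (v : HR d), v ∈ kerR T₁ V (lam 0) → ∀ m,
      inner ℝ (mulR W (Z (φ (ψ m)) i)) v + D m * inner ℝ (Z (φ (ψ m)) i) v = 0 := by
    intro i v hv m
    have h := pairing h₁ V W (s m) (lam 0) (lam (s m)) (hZk (φ (ψ m)) i) hv
    have hs := (hspos m).ne'
    have h2 : s m * (inner ℝ (mulR W (Z (φ (ψ m)) i)) v +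
        D m * inner ℝ (Z (φ (ψ m)) i) v) = 0 := by
      rw [← h]
      simp only [D]
      field_simp
    exact (mul_eq_zero.1 h2).resolve_left hs
  have hUl : ∀ i, Tendsto (fun m => U (φ (ψ m)) i) atTop (𝓝 (u₀ i)) := fun i =>
    (hu₀l i).comp hψ.tendsto_atTop
  have hZl : ∀ i, Tendsto (fun m => Z (φ (ψ m)) i) atTop (𝓝 (w₀ i)) := hw₀l
  have hin : ∀ (x : ℕ → HR d) (y v : HR d), Tendsto x atTop (𝓝 y) →
      Tendsto (fun m => inner ℝ (x m) v) atTop (𝓝 (inner ℝ y v)) := fun x y v hx =>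
    hx.inner tendsto_const_nhds
  have hinW : ∀ (x : ℕ → HR d) (y v : HR d), Tendsto x atTop (𝓝 y) →
      Tendsto (fun m => inner ℝ (mulR W (x m)) v) atTop (𝓝 (inner ℝ (mulR W y) v)) :=
    fun x y v hx => (((mulR W).continuous.tendsto y).comp hx).inner tendsto_const_nhds
  -- the limit of the difference quotients
  let i₀ : Fin m₀ := ⟨0, hm₀⟩
  let c : ℝ := inner ℝ (mulR W (u₀ i₀)) (u₀ i₀)
  have hone : inner ℝ (u₀ i₀) (u₀ i₀) = (1 : ℝ) := by
    rw [real_inner_self_eq_norm_sq, hu₀o.1 i₀]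
    norm_num
  have hD : Tendsto D atTop (𝓝 (-c)) := by
    have ha := hin _ _ (u₀ i₀) (hUl i₀)
    have hb := hinW _ _ (u₀ i₀) (hUl i₀)
    rw [hone] at ha
    have hq : Tendsto (fun m => -(inner ℝ (mulR W (U (φ (ψ m)) i₀)) (u₀ i₀) /
        inner ℝ (U (φ (ψ m)) i₀) (u₀ i₀))) atTop (𝓝 (-(c / 1))) :=
      (hb.div ha one_ne_zero).neg
    rw [div_one] at hq
    refine hq.congr' ?_
    filter_upwards [ha.eventually_ne one_ne_zero] with m hm
    have h := hkey0 i₀ (u₀ i₀) (hu₀k i₀) m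
    rw [eq_comm, ← neg_eq_iff_eq_neg, eq_div_iff hm]
    linarith
  refine ⟨c, ?_, ?_⟩
  · refine GFirst_extend V W (lam 0) c m₀ hm₀ hd0.1 u₀ hu₀o hu₀k fun i v hv => ?_
    have hl := (hinW _ _ v (hUl i)).add (hD.mul (hin _ _ v (hUl i)))
    have h0 : Tendsto (fun _ : ℕ => (0 : ℝ)) atTop (𝓝 0) := tendsto_const_nhds
    have he := tendsto_nhds_unique (hl.congr fun m => hkey0 i v hv m) h0
    linarith
  · refine GFirst_extend V W (lam 0) c m₁ hm₁ hd0.2 w₀ hw₀o hw₀k fun i v hv => ?_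
    have hl := (hinW _ _ v (hZl i)).add (hD.mul (hin _ _ v (hZl i)))
    have h0 : Tendsto (fun _ : ℕ => (0 : ℝ)) atTop (𝓝 0) := tendsto_const_nhds
    have he := tendsto_nhds_unique (hl.congr fun m => hkey1 i v hv m) h0
    linarith

/-- The one dimensionality of one kernel. -/
theorem GFirst_oneDim {X : Type*} (j : X → C(Tor d, ℝ)) (hj : DenseRange j)
    (V : C(Tor d, ℝ)) (lam : ℝ) (hn : 0 < Module.finrank ℝ (kerR T V lam))
    (h : ∀ W : X, ∃ c : ℝ, ∀ u ∈ kerR T V lam, ∀ v ∈ kerR T V lam,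
        inner ℝ (mulR (j W) u) v = c * inner ℝ u v) :
    ∃ e : HR d, ‖e‖ = 1 ∧ e ∈ kerR T V lam ∧ ∀ u ∈ kerR T V lam, ∃ a : ℝ, u = a • e := by
  haveI : Nontrivial (kerR T V lam) := Module.nontrivial_of_finrank_pos hn
  obtain ⟨x, hx⟩ := exists_ne (0 : kerR T V lam)
  have hx' : (x : HR d) ≠ 0 := fun h0 => hx (Subtype.ext h0)
  have hunit : ∀ y : HR d, y ≠ 0 → y ∈ kerR T V lam →
      ‖(‖y‖⁻¹ • y)‖ = 1 ∧ ‖y‖⁻¹ • y ∈ kerR T V lam := by
    intro y hy hk
    refine ⟨?_, (kerR T V lam).smul_mem _ hk⟩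
    rw [norm_smul, norm_inv, norm_norm, inv_mul_cancel₀ (norm_ne_zero_iff.2 hy)]
  obtain ⟨he1, hek⟩ := hunit _ hx' x.2
  set e : HR d := ‖(x : HR d)‖⁻¹ • (x : HR d) with he
  refine ⟨e, he1, hek, fun u hu => ⟨inner ℝ e u, ?_⟩⟩
  by_contra hne
  have hne' : u - inner ℝ e u • e ≠ 0 := sub_ne_zero.2 hne
  have hk' : u - inner ℝ e u • e ∈ kerR T V lam :=
    (kerR T V lam).sub_mem hu ((kerR T V lam).smul_mem _ hek)
  obtain ⟨hf1, hfk⟩ := hunit _ hne' hk'
  set f : HR d := ‖u - inner ℝ e u • e‖⁻¹ • (u - inner ℝ e u • e) with hf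
  have hee : inner ℝ e e = (1 : ℝ) := by rw [real_inner_self_eq_norm_sq, he1]; norm_num
  have hff : inner ℝ f f = (1 : ℝ) := by rw [real_inner_self_eq_norm_sq, hf1]; norm_num
  have hef : inner ℝ e f = (0 : ℝ) := by
    rw [hf, inner_smul_right, inner_sub_right, inner_smul_right, hee]
    ring
  have h1 : ∀ᵐ y ∂(torM d), e y * f y = 0 := by
    refine mul_eq_zero_of_dense j hj e f fun W => ?_
    obtain ⟨c, hc⟩ := h W
    rw [hc e hek f hfk, hef, mul_zero]
  have h2 : ∀ᵐ y ∂(torM d), e y ^ 2 = f y ^ 2 := by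
    refine sq_eq_sq_of_dense j hj e f fun W => ?_
    obtain ⟨c, hc⟩ := h W
    rw [hc e hek e hek, hc f hfk f hfk, hee, hff]
  have h3 : e = 0 := by
    rw [Lp.eq_zero_iff_ae_eq_zero]
    filter_upwards [h1, h2] with y hy1 hy2
    have : (e y ^ 2) ^ 2 = 0 := by
      calc (e y ^ 2) ^ 2 = e y ^ 2 * e y ^ 2 := by ring
        _ = e y ^ 2 * f y ^ 2 := by rw [← hy2]
        _ = (e y * f y) ^ 2 := by ring
        _ = 0 := by rw [hy1]; ring
    simpa using this
  rw [h3, norm_zero] at he1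
  exact zero_ne_one he1

/-- Consequences when this holds for all `W` in a dense set: both kernels are one dimensional, with
unit vectors `e`, `f`, and `e² = f²` a.e. (if `u, v` are orthonormal in one kernel, `u v = 0` and
`u² = v²`, so `u = 0`). -/
theorem first_order_structure {X : Type*} (j : X → C(Tor d, ℝ)) (hj : DenseRange j)
    (V : C(Tor d, ℝ)) (lam : ℝ) (hn₀ : 0 < Module.finrank ℝ (kerR T₀ V lam))
    (hn₁ : 0 < Module.finrank ℝ (kerR T₁ V lam))
    (h : ∀ W : X, ∃ c : ℝ, (∀ u ∈ kerR T₀ V lam, ∀ v ∈ kerR T₀ V lam,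
        inner ℝ (mulR (j W) u) v = c * inner ℝ u v) ∧
      (∀ u ∈ kerR T₁ V lam, ∀ v ∈ kerR T₁ V lam,
        inner ℝ (mulR (j W) u) v = c * inner ℝ u v)) :
    ∃ e f : HR d, ‖e‖ = 1 ∧ ‖f‖ = 1 ∧ e ∈ kerR T₀ V lam ∧ f ∈ kerR T₁ V lam ∧
      (∀ u ∈ kerR T₀ V lam, ∃ a : ℝ, u = a • e) ∧ (∀ u ∈ kerR T₁ V lam, ∃ a : ℝ, u = a • f) ∧
      ∀ᵐ x ∂(torM d), e x ^ 2 = f x ^ 2 := by
  obtain ⟨e, he1, hek, hes⟩ := GFirst_oneDim j hj V lam hn₀ fun W => by
    obtain ⟨c, hc, _⟩ := h W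
    exact ⟨c, hc⟩
  obtain ⟨f, hf1, hfk, hfs⟩ := GFirst_oneDim j hj V lam hn₁ fun W => by
    obtain ⟨c, _, hc⟩ := h W
    exact ⟨c, hc⟩
  refine ⟨e, f, he1, hf1, hek, hfk, hes, hfs, ?_⟩
  refine sq_eq_sq_of_dense j hj e f fun W => ?_
  obtain ⟨c, hc0, hc1⟩ := h W
  rw [hc0 e hek e hek, hc1 f hfk f hfk, real_inner_self_eq_norm_sq, real_inner_self_eq_norm_sq,
    he1, hf1]

end Pool.Agent.Lib.MP_c8757e_mp
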