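import Pool.Agent.Lib.MP_c8757e_mp.GMul
import Pool.Agent.Lib.MP_c8757e_mp.Mul

/-! FLAT, module GU: the unitary `U(κ)` from coefficients to functions
`x ↦ ∑ c_n exp(2πi (n + κ) x)` on the unit cube (= torus as a measure space). -/

open MeasureTheory Filter Topology Set UnitAddTorus
open scoped ENNReal ComplexInnerProductSpace

noncomputable section

namespace Pool.Agent.Lib.MP_c8757e_mp

variable {d : ℕ}

attribute [local instance] instMeasureSpaceUnitAddCircle instHaarCirc instProbCirc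

/-- The representative in `[0, 1)`. -/
def rep (x : UnitAddCircle) : ℝ := (AddCircle.equivIco (1 : ℝ) 0 x : ℝ)

/-- `χ_κ(x) = exp(2πi κ · x)`, `x ∈ [0,1)^d`. -/
def chi (κ : E d) (x : Tor d) : ℂ :=
  Complex.exp (2 * (Real.pi : ℂ) * Complex.I * ((∑ i, κ i * rep (x i) : ℝ) : ℂ))

theorem measurable_rep : Measurable rep := by
  have h := (AddCircle.measurableEquivIco (1 : ℝ) 0).measurable
  exact measurable_subtype_coe.comp h

theorem coe_rep (x : UnitAddCircle) : ((rep x : ℝ) : UnitAddCircle) = x :=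
  AddCircle.coe_equivIco

theorem measurable_chi (κ : E d) : Measurable (chi κ) := by
  unfold chi
  refine Complex.measurable_exp.comp (Measurable.const_mul ?_ _)
  refine Complex.measurable_ofReal.comp ?_
  refine Finset.measurable_sum _ fun i _ => ?_
  exact (measurable_rep.comp (measurable_pi_apply i)).const_mul _

theorem norm_chi (κ : E d) (x : Tor d) : ‖chi κ x‖ = 1 := by
  unfold chi
  have h : 2 * (Real.pi : ℂ) * Complex.I * ((∑ i, κ i * rep (x i) : ℝ) : ℂ) =
      ((2 * Real.pi * ∑ i, κ i * rep (x i) : ℝ) : ℂ) * Complex.I := by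
    push_cast
    ring
  rw [h]
  exact Complex.norm_exp_ofReal_mul_I _

theorem chi_zero (x : Tor d) : chi (0 : E d) x = 1 := by
  unfold chi
  have h : (∑ i, (0 : E d) i * rep (x i) : ℝ) = 0 := by
    refine Finset.sum_eq_zero fun i _ => ?_
    simp
  rw [h]
  simp

private theorem chi_memLp (κ : E d) : MemLp (chi κ) ∞ (torM d) :=
  memLp_top_of_bound (measurable_chi κ).aestronglyMeasurable 1
    (Eventually.of_forall fun x => (norm_chi κ x).le)

private theorem measurable_star_chi (κ : E d) :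
    Measurable (fun x : Tor d => (starRingEnd ℂ) (chi κ x)) :=
  Complex.continuous_conj.measurable.comp (measurable_chi κ)

private theorem star_chi_memLp (κ : E d) :
    MemLp (fun x : Tor d => (starRingEnd ℂ) (chi κ x)) ∞ (torM d) :=
  memLp_top_of_bound (measurable_star_chi κ).aestronglyMeasurable 1
    (Eventually.of_forall fun x => by rw [RCLike.norm_conj]; exact (norm_chi κ x).le)

private def chiL (κ : E d) : LIC d := (chi_memLp κ).toLp

private def chiLs (κ : E d) : LIC d := (star_chi_memLp κ).toLp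

private theorem coe_mul_chi (κ : E d) (F : LC d) :
    mulL (chiL κ) F =ᵐ[torM d] fun x => chi κ x * F x := by
  filter_upwards [coeFn_mulL (chiL κ) F, (chi_memLp κ).coeFn_toLp] with x h1 h2
  rw [h1]
  congr 1

private theorem coe_mul_chis (κ : E d) (F : LC d) :
    mulL (chiLs κ) F =ᵐ[torM d] fun x => (starRingEnd ℂ) (chi κ x) * F x := by
  filter_upwards [coeFn_mulL (chiLs κ) F, (star_chi_memLp κ).coeFn_toLp] with x h1 h2
  rw [h1]
  congr 1

private theorem chi_mul_star (κ : E d) (x : Tor d) :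
    chi κ x * (starRingEnd ℂ) (chi κ x) = 1 := by
  rw [Complex.mul_conj, Complex.normSq_eq_norm_sq, norm_chi]
  simp

private theorem norm_mul_chi (κ : E d) (F : LC d) : ‖mulL (chiL κ) F‖ = ‖F‖ := by
  rw [Lp.norm_def, Lp.norm_def]
  congr 1
  refine eLpNorm_congr_norm_ae ?_
  filter_upwards [coe_mul_chi κ F] with x hx
  rw [hx, norm_mul, norm_chi, one_mul]

/-- Multiplication by `χ_κ` as a unitary operator. -/
private def chiU (κ : E d) : LC d ≃ₗᵢ[ℂ] LC d where
  toFun := mulL (chiL κ)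
  map_add' := map_add _
  map_smul' := fun c F => map_smul _ c F
  invFun := mulL (chiLs κ)
  left_inv := by
    intro F
    apply Lp.ext
    filter_upwards [coe_mul_chis κ (mulL (chiL κ) F), coe_mul_chi κ F] with x h1 h2
    rw [h1, h2, ← mul_assoc, mul_comm ((starRingEnd ℂ) (chi κ x)), chi_mul_star, one_mul]
  right_inv := by
    intro F
    apply Lp.ext
    filter_upwards [coe_mul_chi κ (mulL (chiLs κ) F), coe_mul_chis κ F] with x h1 h2
    rw [h1, h2, ← mul_assoc, chi_mul_star, one_mul]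
  norm_map' := norm_mul_chi κ

/-- The unitary `U(κ)`: `c ↦ χ_κ · (fb)⁻¹ c`. -/
theorem exists_U (κ : E d) : ∃ U : ell d ≃ₗᵢ[ℂ] LC d, ∀ c : ell d,
    U c =ᵐ[torM d] fun x => chi κ x * ((fb d).symm c) x :=
  ⟨(fb d).symm.trans (chiU κ), fun c => coe_mul_chi κ ((fb d).symm c)⟩

/-- A choice of `U(κ)`. -/
def Uop (κ : E d) : ell d ≃ₗᵢ[ℂ] LC d := (exists_U κ).choose

theorem coeFn_Uop (κ : E d) (c : ell d) :
    Uop κ c =ᵐ[torM d] fun x => chi κ x * ((fb d).symm c) x := (exists_U κ).choose_spec c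

/-- `Mhat a` becomes multiplication by `a`. -/
theorem Uop_Mhat (κ : E d) (a : LIC d) (c : ell d) :
    Uop κ (Mhat a c) =ᵐ[torM d] fun x => a x * (Uop κ c) x := by
  have h0 : (fb d).symm (Mhat a c) = mulL a ((fb d).symm c) :=
    (fb d).symm_apply_apply (mulL a ((fb d).symm c))
  have h1 := coeFn_Uop κ (Mhat a c)
  rw [h0] at h1
  filter_upwards [h1, coeFn_Uop κ c, coeFn_mulL a ((fb d).symm c)] with x e1 e2 e3
  rw [e1, e2, e3]
  ring

/-- `U(0) δ_0 = 1`. -/
theorem Uop_single (d : ℕ) : Uop (0 : E d) (lp.single 2 (0 : Lat d) (1 : ℂ)) =ᵐ[torM d]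
    fun _ => 1 := by
  have h0 : (fb d).symm (lp.single 2 (0 : Lat d) (1 : ℂ)) =
      (mFourierBasis (d := Fin d)) (0 : Lat d) :=
    HilbertBasis.repr_symm_single (mFourierBasis (d := Fin d)) (0 : Lat d)
  have h1 := coeFn_Uop (0 : E d) (lp.single 2 (0 : Lat d) (1 : ℂ))
  have h2 : ((fb d).symm (lp.single 2 (0 : Lat d) (1 : ℂ)) : Tor d → ℂ) =ᵐ[torM d]
      mFourier (0 : Lat d) := by
    rw [h0]
    have h3 : (mFourierBasis (d := Fin d)) (0 : Lat d) = mFourierLp 2 (0 : Lat d) :=
      congrFun coe_mFourierBasis (0 : Lat d)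
    have h4 : (mFourierLp 2 (0 : Lat d) : Tor d → ℂ) =ᵐ[torM d] mFourier (0 : Lat d) :=
      coeFn_mFourierLp 2 (0 : Lat d)
    exact (congrArg (fun F : LC d => (F : Tor d → ℂ)) h3).eventuallyEq.trans h4
  filter_upwards [h1, h2] with x e1 e2
  rw [e1, chi_zero, e2, mFourier_zero]
  simp

end Pool.Agent.Lib.MP_c8757e_mp
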