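import Pool.Agent.Lib.MP_c8757e_mp.GT
import Pool.Agent.Lib.MP_c8757e_mp.GU

/-! FLAT, module GJ: the real structure on the fibres `κ` with `2κ = m ∈ ℤ^d`. -/

open MeasureTheory Filter Topology Set UnitAddTorus
open scoped ENNReal ComplexInnerProductSpace

noncomputable section

namespace Pool.Agent.Lib.MP_c8757e_mp

variable {d : ℕ}

/-- The reflection `n ↦ -n-m` as an equivalence. -/
private def GJ_refl (m : Lat d) : Lat d ≃ Lat d where
  toFun := fun n => -n - m
  invFun := fun n => -n - m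
  left_inv := fun n => by funext i; simp
  right_inv := fun n => by funext i; simp

/-- `(J c)_n = conj c_{-n-m}`. -/
theorem exists_J (m : Lat d) : ∃ J : ell d → ell d, ∀ (c : ell d) (n : Lat d),
    J c n = (starRingEnd ℂ) (c (-n - m)) := by
  have h2 : (0 : ℝ) < (2 : ℝ≥0∞).toReal := by norm_num
  have hmem : ∀ c : ell d, Memℓp (fun n : Lat d => (starRingEnd ℂ) (c (-n - m))) 2 := by
    intro c
    rw [memℓp_gen_iff h2]
    have hc := (lp.memℓp c).summable h2
    have h3 := (Equiv.summable_iff (GJ_refl m)).mpr hc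
    refine h3.congr (fun n => ?_)
    simp only [Function.comp_apply, GJ_refl, Equiv.coe_fn_mk, RCLike.norm_conj]
  exact ⟨fun c => ⟨_, hmem c⟩, fun c n => rfl⟩

/-- A choice of `J`. -/
def Jop (m : Lat d) : ell d → ell d := (exists_J m).choose

theorem Jop_apply (m : Lat d) (c : ell d) (n : Lat d) :
    Jop m c n = (starRingEnd ℂ) (c (-n - m)) := (exists_J m).choose_spec c n

theorem Jop_norm (m : Lat d) (c : ell d) : ‖Jop m c‖ = ‖c‖ := by
  have h2 : (0 : ℝ) < (2 : ℝ≥0∞).toReal := by norm_num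
  have h3 := lp.norm_rpow_eq_tsum h2 (Jop m c)
  have h4 := lp.norm_rpow_eq_tsum h2 c
  have h5 : ∑' n, ‖Jop m c n‖ ^ (2 : ℝ≥0∞).toReal = ∑' n, ‖c n‖ ^ (2 : ℝ≥0∞).toReal := by
    rw [← Equiv.tsum_eq (GJ_refl m) (fun n => ‖c n‖ ^ (2 : ℝ≥0∞).toReal)]
    refine tsum_congr (fun n => ?_)
    rw [Jop_apply, RCLike.norm_conj]
    rfl
  have e2 : (2 : ℝ≥0∞).toReal = 2 := by norm_num
  rw [h5, ← h4] at h3
  simp only [e2, Real.rpow_two] at h3
  exact (sq_eq_sq₀ (norm_nonneg _) (norm_nonneg _)).mp h3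

theorem Jop_add (m : Lat d) (c c' : ell d) : Jop m (c + c') = Jop m c + Jop m c' := by
  ext n
  rw [lp.coeFn_add, Pi.add_apply, Jop_apply, Jop_apply, Jop_apply, lp.coeFn_add, Pi.add_apply,
    map_add]

theorem Jop_smul (m : Lat d) (z : ℂ) (c : ell d) :
    Jop m (z • c) = (starRingEnd ℂ) z • Jop m c := by
  ext n
  rw [lp.coeFn_smul, Pi.smul_apply, Jop_apply, Jop_apply, lp.coeFn_smul, Pi.smul_apply,
    smul_eq_mul, smul_eq_mul, map_mul]

attribute [local instance] instMeasureSpaceUnitAddCircle instHaarCirc instProbCirc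

/-- On functions: `F ↦ conj (mFourier m · F)`. -/
private def GJ_K (m : Lat d) (F : LC d) : LC d := star (mulL (toLIC (mFourier m)) F)

private theorem GJ_coeFn_K (m : Lat d) (F : LC d) :
    GJ_K m F =ᵐ[torM d] fun x => (starRingEnd ℂ) (mFourier m x * F x) := by
  have h1 := Lp.coeFn_star (mulL (toLIC (mFourier m)) F)
  have h2 := coeFn_mulL (toLIC (mFourier m)) F
  have h3 : (toLIC (mFourier m) : LIC d) =ᵐ[torM d] (mFourier m : Tor d → ℂ) :=
    ContinuousMap.coeFn_toLp (torM d) (mFourier m)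
  filter_upwards [h1, h2, h3] with x e1 e2 e3
  change (star (mulL (toLIC (mFourier m)) F) : LC d) x = _
  rw [e1, Pi.star_apply, e2, e3]
  rfl

private theorem GJ_fb_apply (F : LC d) (n : Lat d) :
    fb d F n = ∫ t, mFourier (-n) t * F t ∂(torM d) := by
  have h := UnitAddTorus.mFourierBasis_repr (d := Fin d) F n
  exact h

private theorem GJ_fb_K (m : Lat d) (F : LC d) : fb d (GJ_K m F) = Jop m (fb d F) := by
  ext n
  rw [Jop_apply, GJ_fb_apply, GJ_fb_apply, ← integral_conj]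
  refine integral_congr_ae ?_
  filter_upwards [GJ_coeFn_K m F] with x hx
  rw [hx, map_mul, map_mul]
  have e1 : mFourier (-n) x * (starRingEnd ℂ) (mFourier m x) =
      (starRingEnd ℂ) (mFourier (-(-n - m)) x) := by
    have e2 : -(-n - m) = n + m := by abel
    rw [e2, mFourier_add, map_mul, mFourier_neg]
  rw [← mul_assoc, e1]

/-- Real multipliers commute with `J`: on functions, `J` is `F ↦ conj (mFourier m · F)` (compare
Fourier coefficients), and `conj (a F) = a conj F` for real `a`. -/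
theorem Jop_Mhat (m : Lat d) (a : LI d) (c : ell d) :
    Jop m (Mhat (cplx a) c) = Mhat (cplx a) (Jop m c) := by
  have key : ∀ F : LC d, GJ_K m (mulL (cplx a) F) = mulL (cplx a) (GJ_K m F) := by
    intro F
    apply Lp.ext
    have h3 : (cplx a : LIC d) =ᵐ[torM d] fun x => ((a x : ℝ) : ℂ) :=
      ContinuousLinearMap.coeFn_compLp Complex.ofRealCLM a
    filter_upwards [GJ_coeFn_K m (mulL (cplx a) F), GJ_coeFn_K m F, coeFn_mulL (cplx a) F,
      coeFn_mulL (cplx a) (GJ_K m F), h3] with x e1 e2 e3 e4 e5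
    rw [e1, e3, e4, e2, e5]
    simp only [map_mul, Complex.conj_ofReal]
    ring
  have h1 : c = fb d ((fb d).symm c) := ((fb d).apply_symm_apply c).symm
  have h2 : ∀ v : ell d, Mhat (cplx a) v = fb d (mulL (cplx a) ((fb d).symm v)) := fun v => rfl
  rw [h2, h2, ← GJ_fb_K, key]
  congr 2
  rw [LinearIsometryEquiv.eq_symm_apply, GJ_fb_K, LinearIsometryEquiv.apply_symm_apply]

private theorem GJ_chi_sq (κ : E d) (m : Lat d) (hm : latE m = (2 : ℝ) • κ) (x : Tor d) :
    chi κ x * chi κ x = mFourier m x := by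
  have hmi : ∀ i, (m i : ℝ) = 2 * κ i := by
    intro i
    have := congrArg (fun v : E d => v i) hm
    simpa [latE] using this
  have e1 : mFourier m x = ∏ i, Complex.exp (2 * Real.pi * Complex.I * (m i) * (rep (x i))) := by
    change ∏ i, fourier (m i) (x i) = _
    refine Finset.prod_congr rfl (fun i _ => ?_)
    have h := fourier_coe_apply (T := (1 : ℝ)) (n := m i) (x := rep (x i))
    have h' : (x i) = ((rep (x i) : ℝ) : UnitAddCircle) := (coe_rep (x i)).symm
    conv_lhs => rw [h']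
    rw [show fourier (m i) ((rep (x i) : ℝ) : UnitAddCircle) = _ from h]
    simp
  rw [e1, ← Complex.exp_sum, chi, ← Complex.exp_add]
  congr 1
  push_cast
  rw [← mul_add, ← two_mul, Finset.mul_sum, Finset.mul_sum]
  refine Finset.sum_congr rfl (fun i _ => ?_)
  have h2 : ((m i : ℤ) : ℂ) = 2 * (κ i : ℂ) := by exact_mod_cast congrArg Complex.ofReal (hmi i)
  rw [h2]
  ring

/-- `J` is complex conjugation of functions. -/
theorem Uop_Jop (κ : E d) (m : Lat d) (hm : latE m = (2 : ℝ) • κ) (c : ell d) :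
    Uop κ (Jop m c) =ᵐ[torM d] fun x => (starRingEnd ℂ) ((Uop κ c) x) := by
  have h0 : (fb d).symm (Jop m c) = GJ_K m ((fb d).symm c) := by
    rw [LinearIsometryEquiv.symm_apply_eq, GJ_fb_K, LinearIsometryEquiv.apply_symm_apply]
  have h1 := coeFn_Uop κ (Jop m c)
  rw [h0] at h1
  filter_upwards [h1, coeFn_Uop κ c, GJ_coeFn_K m ((fb d).symm c)] with x e1 e2 e3
  rw [e1, e2, e3, map_mul, map_mul, ← mul_assoc]
  congr 1
  rw [← GJ_chi_sq κ m hm x, map_mul]
  have h5 : chi κ x * (starRingEnd ℂ) (chi κ x) = 1 := by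
    rw [Complex.mul_conj, Complex.normSq_eq_norm_sq, norm_chi]
    simp
  rw [← mul_assoc, h5, one_mul]

private theorem GJ_jap_symm (m n : Lat d) : jap (-n - m) = jap (n + m) := by
  unfold jap
  congr 2
  refine Finset.sum_congr rfl (fun i _ => ?_)
  simp only [Pi.sub_apply, Pi.neg_apply, Pi.add_apply]
  push_cast
  ring

private theorem GJ_jap_pos (n : Lat d) : 0 < jap n := lt_of_lt_of_le one_pos (one_le_jap n)

private theorem GJ_ratio (m : Lat d) : ∃ C : ℝ, ∀ n : Lat d,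
    ‖((jap n / jap (n + m) : ℝ) : ℂ)‖ ≤ C := by
  refine ⟨2 * jap m, fun n => ?_⟩
  have hn := GJ_jap_pos n
  have hnm := GJ_jap_pos (n + m)
  have hm := GJ_jap_pos m
  rw [Complex.norm_real, Real.norm_eq_abs, abs_of_pos (div_pos hn hnm), div_le_iff₀ hnm]
  have h1 : jap n ^ 2 ≤ (2 * jap m * jap (n + m)) ^ 2 := by
    rw [mul_pow, mul_pow, jap_sq, jap_sq, jap_sq]
    have h2 : ∑ i, (n i : ℝ) ^ 2 ≤ 2 * ∑ i, ((n + m) i : ℝ) ^ 2 + 2 * ∑ i, (m i : ℝ) ^ 2 := by
      rw [Finset.mul_sum, Finset.mul_sum, ← Finset.sum_add_distrib]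
      refine Finset.sum_le_sum (fun i _ => ?_)
      simp only [Pi.add_apply]
      push_cast
      nlinarith [sq_nonneg ((n i : ℝ) + 2 * (m i : ℝ))]
    have h3 : 0 ≤ ∑ i, ((n + m) i : ℝ) ^ 2 := Finset.sum_nonneg (fun i _ => sq_nonneg _)
    have h4 : 0 ≤ ∑ i, (m i : ℝ) ^ 2 := Finset.sum_nonneg (fun i _ => sq_nonneg _)
    nlinarith [mul_nonneg h3 h4]
  exact le_of_sq_le_sq h1 (by positivity)

/-- The vector `v'`. -/
private def GJ_v (m : Lat d) (v : ell d) : ell d :=
  diagOp (fun n => ((jap n / jap (n + m) : ℝ) : ℂ)) (Jop m v)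

private theorem GJ_v_apply (m : Lat d) (v : ell d) (n : Lat d) :
    GJ_v m v n = ((jap n / jap (n + m) : ℝ) : ℂ) * (starRingEnd ℂ) (v (-n - m)) := by
  obtain ⟨C, hC⟩ := GJ_ratio m
  unfold GJ_v
  rw [diagOp_apply hC, Jop_apply]

private theorem GJ_W (m : Lat d) (v : ell d) : Wop d (GJ_v m v) = Jop m (Wop d v) := by
  ext n
  rw [Wop_apply, GJ_v_apply, Jop_apply, Wop_apply, map_mul, Complex.conj_ofReal, GJ_jap_symm,
    ← mul_assoc, ← Complex.ofReal_mul]
  congr 2
  have hn := (GJ_jap_pos n).ne'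
  have hnm := (GJ_jap_pos (n + m)).ne'
  field_simp

private theorem GJ_real (κ : E d) (l : Fin d) (n : Lat d) :
    2 * (Real.pi : ℂ) * (toC κ l + (n l : ℂ)) / (jap n : ℂ) =
      ((2 * Real.pi * (κ l + (n l : ℝ)) / jap n : ℝ) : ℂ) := by
  unfold toC
  push_cast
  ring

private theorem GJ_X (κ : E d) (m : Lat d) (hm : latE m = (2 : ℝ) • κ) (l : Fin d) (v : ell d) :
    Xop (toC κ) l (GJ_v m v) = - Jop m (Xop (toC κ) l v) := by
  have hml : (m l : ℝ) = 2 * κ l := by
    have := congrArg (fun v : E d => v l) hm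
    simpa [latE] using this
  ext n
  rw [lp.coeFn_neg, Pi.neg_apply, Xop_apply, GJ_v_apply, Jop_apply, Xop_apply, GJ_real, GJ_real,
    map_mul, Complex.conj_ofReal, GJ_jap_symm, ← mul_assoc, ← Complex.ofReal_mul, ← neg_mul,
    ← Complex.ofReal_neg]
  congr 2
  have hn := (GJ_jap_pos n).ne'
  have hnm := (GJ_jap_pos (n + m)).ne'
  simp only [Pi.sub_apply, Pi.neg_apply]
  push_cast
  rw [hml]
  field_simp
  ring

private theorem GJ_X' (κ : E d) (m : Lat d) (hm : latE m = (2 : ℝ) • κ) (l : Fin d) (w : ell d)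
    (n : Lat d) :
    Xop (toC κ) l (- Jop m w) n =
      ((jap (n + m) / jap n : ℝ) : ℂ) * Jop m (Xop (toC κ) l w) n := by
  have hml : (m l : ℝ) = 2 * κ l := by
    have := congrArg (fun v : E d => v l) hm
    simpa [latE] using this
  rw [Xop_apply, lp.coeFn_neg, Pi.neg_apply, Jop_apply, Jop_apply, Xop_apply, GJ_real, GJ_real,
    map_mul, Complex.conj_ofReal, GJ_jap_symm, ← mul_assoc, ← Complex.ofReal_mul, mul_neg,
    ← neg_mul, ← Complex.ofReal_neg]
  congr 2
  have hn := (GJ_jap_pos n).ne'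
  have hnm := (GJ_jap_pos (n + m)).ne'
  simp only [Pi.sub_apply, Pi.neg_apply]
  push_cast
  rw [hml]
  field_simp
  ring

private theorem GJ_N (m : Lat d) (v : ell d) (n : Lat d) :
    Nop d (GJ_v m v) n = ((jap (n + m) / jap n : ℝ) : ℂ) * Jop m (Nop d v) n := by
  rw [Nop_apply, GJ_v_apply, Jop_apply, Nop_apply, map_mul, Complex.conj_ofReal, GJ_jap_symm,
    ← mul_assoc, ← Complex.ofReal_mul, ← mul_assoc, ← Complex.ofReal_mul]
  congr 2
  have hn := (GJ_jap_pos n).ne'
  have hnm := (GJ_jap_pos (n + m)).ne'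
  field_simp

private theorem GJ_sum_apply {ι : Type*} (s : Finset ι) (f : ι → ell d) (n : Lat d) :
    (∑ i ∈ s, f i) n = ∑ i ∈ s, f i n := by
  classical
  induction s using Finset.induction_on with
  | empty => simp
  | insert i s hi ih => rw [Finset.sum_insert hi, Finset.sum_insert hi, lp.coeFn_add,
      Pi.add_apply, ih]

private theorem GJ_Mhat_zero (v : ell d) : Mhat (cplx (0 : LI d)) v = 0 := by
  have h1 : cplx (0 : LI d) = 0 := by
    have h := cplx_smul (0 : ℝ) (0 : LI d)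
    rw [zero_smul, Complex.ofReal_zero, zero_smul] at h
    exact h
  have h2 : Mhat (0 : LIC d) = 0 := by
    have h := Mhat_smul (0 : ℂ) (0 : LIC d)
    rw [zero_smul, zero_smul] at h
    exact h
  rw [h1, h2]
  rfl

private theorem GJ_Q_apply (A : Fin d → Fin d → LI d) (κ : E d) (v : ell d) (n : Lat d) :
    Qop A κ v n = (∑ j, ∑ l, Xop (toC κ) j (Mhat (cplx (A j l)) (Xop (toC κ) l v)) n) +
      Nop d v n := by
  have h1 : Qop A κ v = (∑ j, ∑ l, Xop (toC κ) j (Mhat (cplx (A j l)) (Xop (toC κ) l v))) -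
      Wop d (Mhat (cplx (0 : LI d)) (Wop d v)) + Nop d v := by
    unfold Qop Bop
    simp only [ContinuousLinearMap.add_apply, ContinuousLinearMap.sub_apply,
      ContinuousLinearMap.sum_apply, ContinuousLinearMap.comp_apply]
  rw [h1, GJ_Mhat_zero, map_zero, sub_zero, lp.coeFn_add, Pi.add_apply, GJ_sum_apply]
  congr 1
  refine Finset.sum_congr rfl (fun j _ => ?_)
  rw [GJ_sum_apply]

/-- `T(κ)` commutes with `J`. With `v = Q⁻¹ W h`, put `v'_n = (⟨n⟩/⟨n+m⟩) conj v_{-n-m}`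
(`⟨-n-m⟩ = ⟨n+m⟩`; the ratio is bounded); then `W v' = J (W v)`, `X_l v' = - J (X_l v)` (because
`κ + n = -(κ + n')` for `n' = -n-m`), and, entry by entry, `Q v' = W J h`. Use `TC_eq_iff`. -/
theorem TC_Jop {A : Fin d → Fin d → LI d} {c : ℝ} (hA : Coef A c) (κ : E d) (m : Lat d)
    (hm : latE m = (2 : ℝ) • κ) (h : ell d) : TC A κ (Jop m h) = Jop m (TC A κ h) := by
  obtain ⟨v, hv1, hv2⟩ := (TC_eq_iff hA κ h (TC A κ h)).mp rfl
  rw [TC_eq_iff hA]
  refine ⟨GJ_v m v, ?_, ?_⟩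
  · rw [GJ_W, hv1]
  · ext n
    have h1 : ∀ j l, Xop (toC κ) j (Mhat (cplx (A j l)) (Xop (toC κ) l (GJ_v m v))) n =
        ((jap (n + m) / jap n : ℝ) : ℂ) *
          Jop m (Xop (toC κ) j (Mhat (cplx (A j l)) (Xop (toC κ) l v))) n := by
      intro j l
      rw [GJ_X κ m hm, map_neg, ← Jop_Mhat, GJ_X' κ m hm]
    have h2 : Qop A κ (GJ_v m v) n =
        ((jap (n + m) / jap n : ℝ) : ℂ) * Jop m (Qop A κ v) n := by
      rw [GJ_Q_apply, Jop_apply, GJ_Q_apply, map_add, map_sum, mul_add, Finset.mul_sum, GJ_N,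
        Jop_apply]
      congr 1
      refine Finset.sum_congr rfl (fun j _ => ?_)
      rw [map_sum, Finset.mul_sum]
      refine Finset.sum_congr rfl (fun l _ => ?_)
      rw [h1, Jop_apply]
    rw [h2, hv2, Jop_apply, Wop_apply, Wop_apply, Jop_apply, map_mul, Complex.conj_ofReal,
      GJ_jap_symm, ← mul_assoc, ← Complex.ofReal_mul]
    congr 2
    have hn := (GJ_jap_pos n).ne'
    have hnm := (GJ_jap_pos (n + m)).ne'
    field_simp

end Pool.Agent.Lib.MP_c8757e_mp
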