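import Pool.Agent.Lib.MP_c8757e_mp.GRes
import Pool.Agent.Lib.MP_c8757e_mp.GFirst

/-! FLAT, module GSecond: the derivative of a simple eigenvector. -/

open MeasureTheory Filter Topology Set
open scoped ENNReal

noncomputable section

namespace Pool.Agent.Lib.MP_c8757e_mp

variable {d : ℕ} {T : HR d →L[ℝ] HR d}

/-- Unit vectors in the kernels along `V + t W`, with nonnegative inner product with `e₀`, converge
to `e₀`. -/
theorem GSecond_tendsto (hT : WeightR T) (V W : C(Tor d, ℝ)) (lam : ℝ → ℝ)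
    (hlam : ContinuousAt lam 0) (f : ℝ → HR d) (e₀ : HR d) (he₀ : ‖e₀‖ = 1)
    (hf : ∀ᶠ t in 𝓝 (0 : ℝ), ‖f t‖ = 1 ∧ f t ∈ kerR T (V + t • W) (lam t))
    (hpos : ∀ t, 0 ≤ inner ℝ (f t) e₀)
    (h1 : ∀ u ∈ kerR T V (lam 0), ∃ a : ℝ, u = a • e₀) :
    Tendsto f (𝓝 0) (𝓝 e₀) := by
  refine tendsto_of_subseq_tendsto fun ns hns => ?_
  obtain ⟨N, hN⟩ := eventually_atTop.1 (hns.eventually hf)
  have hns' : Tendsto (fun m => ns (m + N)) atTop (𝓝 (0 : ℝ)) :=
    hns.comp (tendsto_add_atTop_nat N)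
  have hV : Tendsto (fun m => V + ns (m + N) • W) atTop (𝓝 V) := by
    have h := (tendsto_const_nhds (x := V)).add (hns'.smul_const W)
    rwa [zero_smul, add_zero] at h
  have hl : Tendsto (fun m => lam (ns (m + N))) atTop (𝓝 (lam 0)) := hlam.tendsto.comp hns'
  have ho : ∀ m, Orthonormal ℝ (fun _ : Fin 1 => f (ns (m + N))) := by
    intro m
    refine ⟨fun _ => (hN (m + N) (Nat.le_add_left N m)).1, ?_⟩
    intro i j hij
    exact absurd (Subsingleton.elim i j) hij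
  obtain ⟨φ, u₀, hφ, hu₀o, hu₀k, hu₀l⟩ := orthonormal_limit hT 1 (fun m => V + ns (m + N) • W) V hV
    (fun m _ => lam (ns (m + N))) (fun _ => lam 0) (fun _ => hl) (fun m _ => f (ns (m + N))) ho
    (fun m _ => (hN (m + N) (Nat.le_add_left N m)).2)
  refine ⟨fun n => φ n + N, ?_⟩
  obtain ⟨a, ha⟩ := h1 _ (hu₀k 0)
  have hlim : Tendsto (fun n => f (ns (φ n + N))) atTop (𝓝 (u₀ 0)) := hu₀l 0
  have h2 : 0 ≤ inner ℝ (u₀ 0) e₀ :=
    ge_of_tendsto (hlim.inner tendsto_const_nhds) (Eventually.of_forall fun n => hpos _)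
  have h3 : inner ℝ e₀ e₀ = (1 : ℝ) := by rw [real_inner_self_eq_norm_sq, he₀]; norm_num
  rw [ha, real_inner_smul_left, h3, mul_one] at h2
  have h4 : ‖u₀ 0‖ = 1 := hu₀o.1 0
  rw [ha, norm_smul, he₀, mul_one, Real.norm_eq_abs, abs_of_nonneg h2] at h4
  rw [ha, h4, one_smul] at hlim
  exact hlim

theorem GSecond_alg {H : Type*} [AddCommGroup H] [Module ℝ H] {t l l₀ a : ℝ} (ht : t ≠ 0)
    {F E TVF TWF TF TVE TE : H} (hk : TVF + t • TWF + l • TF = F) (hk₀ : TVE + l₀ • TE = E) :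
    t⁻¹ • (F - a • E) - (t⁻¹ • (TVF - a • TVE) + l₀ • (t⁻¹ • (TF - a • TE))) =
      TWF + ((l - l₀) / t) • TF := by
  subst hk hk₀
  match_scalars <;> field_simp <;> ring

theorem GSecond_orth {H : Type*} [NormedAddCommGroup H] [InnerProductSpace ℝ H] {F E : H} {t : ℝ}
    (hE : inner ℝ E E = (1 : ℝ)) : inner ℝ E (t⁻¹ • (F - (inner ℝ F E : ℝ) • E)) = (0 : ℝ) := by
  rw [inner_smul_right, inner_sub_right, inner_smul_right, hE, real_inner_comm F E]
  ring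

theorem GSecond_bound {H : Type*} [NormedAddCommGroup H] [InnerProductSpace ℝ H] {F E : H} {t : ℝ}
    (hF : ‖F‖ = 1) (hE : ‖E‖ = 1) (ha : 0 ≤ inner ℝ F E) (ht : t ≠ 0) :
    ‖t⁻¹ • (F - E) - t⁻¹ • (F - (inner ℝ F E : ℝ) • E)‖ ≤
      |t| * ‖t⁻¹ • (F - (inner ℝ F E : ℝ) • E)‖ ^ 2 := by
  set a : ℝ := inner ℝ F E with had
  have h1 : t⁻¹ • (F - E) - t⁻¹ • (F - a • E) = (t⁻¹ * (a - 1)) • E := by
    match_scalars <;> ring
  have h2 : ‖F - a • E‖ ^ 2 = 1 - a ^ 2 := by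
    rw [@norm_sub_sq_real, hF, inner_smul_right, norm_smul, hE, ← had, Real.norm_eq_abs, mul_one,
      sq_abs]
    ring
  have h3 : a ≤ 1 := by
    have := real_inner_le_norm F E
    rw [hF, hE, one_mul] at this
    exact this
  rw [h1, norm_smul, norm_smul, hE, mul_one, mul_pow, h2, norm_mul, Real.norm_eq_abs,
    Real.norm_eq_abs, abs_sub_comm, abs_of_nonneg (sub_nonneg.2 h3), abs_inv]
  have h4 : 0 < |t| := abs_pos.2 ht
  have h5 : |t| * (|t|⁻¹ ^ 2 * (1 - a ^ 2)) = |t|⁻¹ * (1 - a ^ 2) := by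
    field_simp
  rw [h5]
  refine mul_le_mul_of_nonneg_left ?_ (by positivity)
  nlinarith

/-- The main step of `second_order`. -/
theorem GSecond_main (hT : WeightR T) (V W : C(Tor d, ℝ)) (lam : ℝ → ℝ)
    (hlam : ContinuousAt lam 0) (f : ℝ → HR d) (e₀ : HR d) (he1 : ‖e₀‖ = 1)
    (hek : e₀ ∈ kerR T V (lam 0))
    (hf : ∀ᶠ t in 𝓝 (0 : ℝ), ‖f t‖ = 1 ∧ f t ∈ kerR T (V + t • W) (lam t))
    (hpos : ∀ t, 0 ≤ inner ℝ (f t) e₀)
    (h1 : ∀ u ∈ kerR T V (lam 0), ∃ a : ℝ, u = a • e₀) {R : HR d →L[ℝ] HR d}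
    (hR : IsRed T V (lam 0) e₀ R) :
    Tendsto (fun t => t⁻¹ • (f t - e₀)) (𝓝[≠] 0) (𝓝 (R (mulR W e₀))) := by
  have hft : Tendsto f (𝓝 0) (𝓝 e₀) :=
    GSecond_tendsto hT V W lam hlam f e₀ he1 hf hpos h1
  have hft' : Tendsto f (𝓝[≠] 0) (𝓝 e₀) := hft.mono_left nhdsWithin_le_nhds
  have hf' : ∀ᶠ t in 𝓝[≠] (0 : ℝ), ‖f t‖ = 1 ∧ f t ∈ kerR T (V + t • W) (lam t) :=
    hf.filter_mono nhdsWithin_le_nhds
  have hne : ∀ᶠ t in 𝓝[≠] (0 : ℝ), t ≠ 0 := eventually_mem_nhdsWithin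
  have hee : inner ℝ e₀ e₀ = (1 : ℝ) := by rw [real_inner_self_eq_norm_sq, he1]; norm_num
  -- the difference quotient of `lam`
  let D : ℝ → ℝ := fun t => (lam t - lam 0) / t
  let c : ℝ := inner ℝ (mulR W e₀) e₀
  have hin : Tendsto (fun t => (inner ℝ (f t) e₀ : ℝ)) (𝓝[≠] 0) (𝓝 (1 : ℝ)) := by
    have h := hft'.inner (𝕜 := ℝ) (tendsto_const_nhds (x := e₀))
    rwa [hee] at h
  have hinW : Tendsto (fun t => inner ℝ (mulR W (f t)) e₀) (𝓝[≠] 0) (𝓝 c) :=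
    (((mulR W).continuous.tendsto _).comp hft').inner tendsto_const_nhds
  have hD : Tendsto D (𝓝[≠] 0) (𝓝 (-c)) := by
    have hq : Tendsto (fun t => -(inner ℝ (mulR W (f t)) e₀ / inner ℝ (f t) e₀))
        (𝓝[≠] 0) (𝓝 (-(c / 1))) := (hinW.div hin one_ne_zero).neg
    rw [div_one] at hq
    refine hq.congr' ?_
    filter_upwards [hf', hne, hin.eventually_ne one_ne_zero] with t ht ht0 hi
    have h := pairing hT V W t (lam 0) (lam t) ht.2 hek
    change -(inner ℝ (mulR W (f t)) e₀ / inner ℝ (f t) e₀) = (lam t - lam 0) / t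
    rw [← neg_div, div_eq_div_iff hi ht0]
    linarith
  -- the orthogonal part
  let y : ℝ → HR d := fun t => t⁻¹ • (f t - (inner ℝ (f t) e₀ : ℝ) • e₀)
  have hyo : ∀ t, inner ℝ e₀ (y t) = 0 := by
    intro t
    exact GSecond_orth hee
  have hyeq : ∀ᶠ t in 𝓝[≠] (0 : ℝ), y t - T (mulR (pot V (lam 0)) (y t)) =
      T (mulR W (f t) + D t • f t) := by
    filter_upwards [hf', hne] with t ht ht0
    have hk := mem_kerR.1 ht.2
    have hk0 := mem_kerR.1 hek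
    rw [mulR_pot, mulR_add, mulR_smul] at hk
    rw [mulR_pot] at hk0
    have hk' : T (mulR V (f t)) + t • T (mulR W (f t)) + lam t • T (f t) = f t := by
      change T (mulR V (f t) + t • mulR W (f t) + lam t • f t) = f t at hk
      rw [map_add, map_add, map_smul, map_smul] at hk
      exact hk
    have hk0' : T (mulR V e₀) + lam 0 • T e₀ = e₀ := by
      rw [map_add, map_smul] at hk0
      exact hk0
    have h := GSecond_alg (a := inner ℝ (f t) e₀) ht0 hk' hk0'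
    rw [mulR_pot]
    change t⁻¹ • (f t - (inner ℝ (f t) e₀ : ℝ) • e₀) -
      T (mulR V (t⁻¹ • (f t - (inner ℝ (f t) e₀ : ℝ) • e₀)) +
        lam 0 • (t⁻¹ • (f t - (inner ℝ (f t) e₀ : ℝ) • e₀))) =
      T (mulR W (f t) + ((lam t - lam 0) / t) • f t)
    simp only [map_add, map_smul, map_sub]
    exact h
  obtain ⟨δ, hδ, hb⟩ := bounded_below hT V (lam 0) e₀ he1 h1
  set z : HR d := R (mulR W e₀) with hz
  have hc : inner ℝ e₀ (mulR W e₀) = c := real_inner_comm _ _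
  have hzeq : z - T (mulR (pot V (lam 0)) z) = T (mulR W e₀ + (-c) • e₀) := by
    have h := hR.eq (mulR W e₀)
    rw [← hz, hc, add_sub_assoc, map_add] at h
    rw [sub_eq_iff_eq_add, neg_smul, ← sub_eq_add_neg, add_comm]
    exact h
  have hrhs : Tendsto (fun t => T (mulR W (f t) + D t • f t)) (𝓝[≠] 0)
      (𝓝 (T (mulR W e₀ + (-c) • e₀))) :=
    (T.continuous.tendsto _).comp
      ((((mulR W).continuous.tendsto _).comp hft').add (hD.smul hft'))
  have hy : Tendsto y (𝓝[≠] 0) (𝓝 z) := by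
    rw [tendsto_iff_norm_sub_tendsto_zero]
    have hn : Tendsto (fun t => δ⁻¹ * ‖T (mulR W (f t) + D t • f t) -
        T (mulR W e₀ + (-c) • e₀)‖) (𝓝[≠] 0) (𝓝 0) := by
      have h := (tendsto_iff_norm_sub_tendsto_zero.1 hrhs).const_mul δ⁻¹
      rwa [mul_zero] at h
    refine squeeze_zero' (Eventually.of_forall fun t => norm_nonneg _) ?_ hn
    filter_upwards [hyeq] with t ht
    have h := hb (y t - z) (by rw [inner_sub_right, hyo, hR.orth, sub_zero])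
    have h2 : y t - z - T (mulR (pot V (lam 0)) (y t - z)) =
        T (mulR W (f t) + D t • f t) - T (mulR W e₀ + (-c) • e₀) := by
      rw [← ht, ← hzeq, map_sub, map_sub]
      abel
    rw [h2] at h
    rw [inv_mul_eq_div, le_div_iff₀ hδ, mul_comm]
    exact h
  -- the component along `e₀`
  have hdiff : Tendsto (fun t => t⁻¹ • (f t - e₀) - y t) (𝓝[≠] 0) (𝓝 0) := by
    rw [tendsto_zero_iff_norm_tendsto_zero]
    have ht0 : Tendsto (fun t : ℝ => |t|) (𝓝[≠] 0) (𝓝 0) := by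
      have h := (continuous_abs.tendsto (0 : ℝ)).mono_left (nhdsWithin_le_nhds (s := {0}ᶜ))
      rwa [abs_zero] at h
    have hn : Tendsto (fun t => |t| * ‖y t‖ ^ 2) (𝓝[≠] 0) (𝓝 0) := by
      have h := ht0.mul (hy.norm.pow 2)
      rwa [zero_mul] at h
    refine squeeze_zero' (Eventually.of_forall fun t => norm_nonneg _) ?_ hn
    filter_upwards [hf', hne] with t ht ht0
    exact GSecond_bound ht.1 he1 (hpos t) ht0
  have hfin := hdiff.add hy
  rw [zero_add] at hfin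
  refine hfin.congr fun t => ?_
  rw [sub_add_cancel]

/-- Along `V + t W` the kernels are spanned by unit vectors `e t`, `lam t → lam 0`. Choose signs with
`⟪s e_t, e_0⟫ ≥ 0`; then `s_t e_t → e_0` (`orthonormal_limit` for every sequence `t_m → 0`). By
`pairing`, `(lam t - lam 0)/t → - c`, `c = ⟪W e_0, e_0⟫`. Put
`y_t = (s e_t - ⟪s e_t, e_0⟫ e_0)/t ⟂ e_0`; then
`y_t - T ((V + lam 0) y_t) = T ((W + (lam t - lam 0)/t) s e_t) → T (W e_0 - c e_0)`; by `bounded_below`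
`y_t` is Cauchy and converges to `R (W e_0)` (`IsRed.uniq`), and `1 - ⟪s e_t, e_0⟫ = O(t²)`. -/
theorem second_order (hT : WeightR T) (V W : C(Tor d, ℝ)) (lam : ℝ → ℝ)
    (hlam : ContinuousAt lam 0) (e : ℝ → HR d)
    (he : ∀ᶠ t in 𝓝 (0 : ℝ), ‖e t‖ = 1 ∧ e t ∈ kerR T (V + t • W) (lam t))
    (h1 : ∀ u ∈ kerR T V (lam 0), ∃ a : ℝ, u = a • e 0) {R : HR d →L[ℝ] HR d}
    (hR : IsRed T V (lam 0) (e 0) R) :
    ∃ s : ℝ → ℝ, (∀ t, s t = 1 ∨ s t = -1) ∧
      Tendsto (fun t => t⁻¹ • (s t • e t - e 0)) (𝓝[≠] 0) (𝓝 (R (mulR W (e 0)))) := by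
  classical
  obtain ⟨he1, hek⟩ := he.self_of_nhds
  rw [zero_smul, add_zero] at hek
  let s : ℝ → ℝ := fun t => if 0 ≤ inner ℝ (e t) (e 0) then 1 else -1
  have hs : ∀ t, s t = 1 ∨ s t = -1 := by
    intro t
    simp only [s]
    split_ifs
    · exact Or.inl rfl
    · exact Or.inr rfl
  refine ⟨s, hs, ?_⟩
  let f : ℝ → HR d := fun t => s t • e t
  have hpos : ∀ t, 0 ≤ inner ℝ (f t) (e 0) := by
    intro t
    simp only [f, s]
    rw [real_inner_smul_left]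
    split_ifs with h
    · rw [one_mul]
      exact h
    · push Not at h
      linarith
  have hf : ∀ᶠ t in 𝓝 (0 : ℝ), ‖f t‖ = 1 ∧ f t ∈ kerR T (V + t • W) (lam t) := by
    filter_upwards [he] with t ht
    refine ⟨?_, Submodule.smul_mem _ _ ht.2⟩
    simp only [f]
    rw [norm_smul, ht.1, mul_one]
    rcases hs t with h | h
    · rw [h, norm_one]
    · rw [h, norm_neg, norm_one]
  exact GSecond_main hT V W lam hlam f (e 0) he1 hek hf hpos h1 hR

end Pool.Agent.Lib.MP_c8757e_mp
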