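import Pool.Agent.Lib.MP_c8757e_mp.GDefs

/-! FLAT, module GZero: supports of converging functions. -/

open MeasureTheory Filter Topology Set
open scoped ENNReal

noncomputable section

namespace Pool.Agent.Lib.MP_c8757e_mp

variable {d : ℕ}

/-- The measure of the set where `u` is not zero. -/
def suppM (u : HR d) : ℝ := (torM d).real {x | u x ≠ 0}

/-- convergence in measure -/
private theorem GZero_tim {ι : Type*} {l : Filter ι} (u : ι → HR d) (u₀ : HR d)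
    (hu : Tendsto u l (𝓝 u₀)) (η : ℝ) (hη : 0 < η) :
    Tendsto (fun i => (torM d).real {x | η ≤ |u i x - u₀ x|}) l (𝓝 0) := by
  have h1 := tendstoInMeasure_iff_measureReal_norm.1 (tendstoInMeasure_of_tendsto_Lp hu) η hη
  simpa only [Real.norm_eq_abs] using h1

/-- lower semicontinuity on the support of the limit -/
private theorem GZero_lsc {ι : Type*} {l : Filter ι} (u : ι → HR d) (u₀ : HR d)
    (hu : Tendsto u l (𝓝 u₀)) (q : ℝ) (hq : q < suppM u₀) :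
    ∀ᶠ i in l, q < (torM d).real ({x | u i x ≠ 0} ∩ {x | u₀ x ≠ 0}) := by
  set s : ℕ → Set (Tor d) := fun n => {x | 1 / ((n : ℝ) + 1) ≤ |u₀ x|} with hs
  have hmono : Monotone s := by
    intro m n hmn x hx
    have hx' : 1 / ((m : ℝ) + 1) ≤ |u₀ x| := hx
    change 1 / ((n : ℝ) + 1) ≤ |u₀ x|
    refine le_trans ?_ hx'
    exact one_div_le_one_div_of_le (by positivity) (by
      have : (m : ℝ) ≤ n := by exact_mod_cast hmn
      linarith)
  have hU : (⋃ n, s n) = {x | u₀ x ≠ 0} := by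
    ext x
    rw [Set.mem_iUnion]
    constructor
    · rintro ⟨n, hn⟩ h0
      have hn' : 1 / ((n : ℝ) + 1) ≤ |u₀ x| := hn
      rw [h0, abs_zero] at hn'
      have : (0 : ℝ) < 1 / ((n : ℝ) + 1) := by positivity
      linarith
    · intro hx
      obtain ⟨n, hn⟩ := exists_nat_one_div_lt (abs_pos.2 hx)
      exact ⟨n, hn.le⟩
  have hlim : Tendsto (fun n => (torM d).real (s n)) atTop (𝓝 (suppM u₀)) := by
    have h1 := tendsto_measure_iUnion_atTop (μ := torM d) hmono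
    rw [hU] at h1
    exact (ENNReal.tendsto_toReal (measure_ne_top _ _)).comp h1
  obtain ⟨n, hn⟩ := (hlim.eventually (lt_mem_nhds hq)).exists
  have hη : (0 : ℝ) < 1 / ((n : ℝ) + 1) := by positivity
  have h2 := GZero_tim u u₀ hu _ hη
  have h3 : ∀ᶠ i in l, (torM d).real {x | 1 / ((n : ℝ) + 1) ≤ |u i x - u₀ x|} <
      (torM d).real (s n) - q := h2.eventually (gt_mem_nhds (by linarith))
  filter_upwards [h3] with i hi
  have h4 : s n ⊆ ({x | u i x ≠ 0} ∩ {x | u₀ x ≠ 0}) ∪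
      {x | 1 / ((n : ℝ) + 1) ≤ |u i x - u₀ x|} := by
    intro x hx
    have hx' : 1 / ((n : ℝ) + 1) ≤ |u₀ x| := hx
    have h0 : u₀ x ≠ 0 := by
      intro h0
      rw [h0, abs_zero] at hx'
      linarith
    by_cases hi0 : u i x = 0
    · right
      change 1 / ((n : ℝ) + 1) ≤ |u i x - u₀ x|
      rw [hi0, zero_sub, abs_neg]
      exact hx'
    · left
      exact ⟨hi0, h0⟩
  have h5 := (measureReal_mono (μ := torM d) h4 (measure_ne_top _ _)).trans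
    (measureReal_union_le _ _)
  linarith

/-- Lower semicontinuity: for `η > 0` the measure of `{|u| > η}` is at most `suppM u_i + o(1)`. -/
theorem suppM_lsc {ι : Type*} {l : Filter ι} (u : ι → HR d) (u₀ : HR d)
    (hu : Tendsto u l (𝓝 u₀)) (q : ℝ) (hq : q < suppM u₀) : ∀ᶠ i in l, q < suppM (u i) := by
  filter_upwards [GZero_lsc u u₀ hu q hq] with i hi
  exact hi.trans_le (measureReal_mono (μ := torM d) Set.inter_subset_left (measure_ne_top _ _))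

private theorem GZero_tendsto (e : ℝ → HR d) (y : HR d)
    (hy : Tendsto (fun t => t⁻¹ • (e t - e 0)) (𝓝[≠] 0) (𝓝 y)) :
    Tendsto e (𝓝[≠] 0) (𝓝 (e 0)) := by
  have h1 : Tendsto (fun t : ℝ => t) (𝓝[≠] (0 : ℝ)) (𝓝 0) :=
    tendsto_id.mono_left nhdsWithin_le_nhds
  have h2 : Tendsto (fun t : ℝ => e 0 + t • (t⁻¹ • (e t - e 0))) (𝓝[≠] 0)
      (𝓝 (e 0 + (0 : ℝ) • y)) := (h1.smul hy).const_add (e 0)
  rw [zero_smul, add_zero] at h2
  refine h2.congr' ?_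
  filter_upwards [self_mem_nhdsWithin] with t ht
  have ht' : t ≠ 0 := ht
  rw [smul_smul, mul_inv_cancel₀ ht', one_smul, add_sub_cancel]

private theorem GZero_coe (e : ℝ → HR d) (t : ℝ) :
    ∀ᵐ x ∂(torM d), (t⁻¹ • (e t - e 0) : HR d) x = t⁻¹ * (e t x - e 0 x) := by
  filter_upwards [Lp.coeFn_smul t⁻¹ (e t - e 0), Lp.coeFn_sub (e t) (e 0)] with x hx1 hx2
  rw [hx1, Pi.smul_apply, hx2, Pi.sub_apply, smul_eq_mul]

/-- `e_t → e`, `(e_t - e)/t → y` and `suppM e_t → suppM e`. Then the measure of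
`{e_t ≠ 0} ∩ {e = 0}` tends to `0` (it is `suppM e_t - m({e_t ≠ 0} ∩ {e ≠ 0})`, and
`m({e ≠ 0} ∩ {e_t = 0}) → 0`), and on `{e = 0}` we have `e_t = t y_t`, `y_t → y`; so `y = 0` a.e. on
`{e = 0}` (`‖1_Z y‖ ≤ ‖y - y_t‖ + ‖1_{Z ∩ S_t} y_t‖`, absolute continuity of `∫ y²`). -/
theorem derivative_zero (e : ℝ → HR d) (y : HR d)
    (hy : Tendsto (fun t => t⁻¹ • (e t - e 0)) (𝓝[≠] 0) (𝓝 y))
    (hs : Tendsto (fun t => suppM (e t)) (𝓝[≠] 0) (𝓝 (suppM (e 0)))) :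
    ∀ᵐ x ∂(torM d), (e 0) x = 0 → y x = 0 := by
  have hZ : MeasurableSet {x | e 0 x ≠ 0} :=
    (Lp.stronglyMeasurable (e 0)).measurable (measurableSet_singleton 0).compl
  have key : ∀ η : ℝ, 0 < η → (torM d) ({x | e 0 x = 0} ∩ {x | η ≤ |y x|}) = 0 := by
    intro η hη
    have hreal : (torM d).real ({x | e 0 x = 0} ∩ {x | η ≤ |y x|}) ≤ 0 := by
      refine le_of_forall_pos_le_add fun δ hδ => ?_
      have h1 := GZero_lsc e (e 0) (GZero_tendsto e y hy) (suppM (e 0) - δ / 3) (by linarith)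
      have h2 : ∀ᶠ t in 𝓝[≠] (0 : ℝ), suppM (e t) < suppM (e 0) + δ / 3 :=
        hs.eventually (gt_mem_nhds (by linarith))
      have h3 : ∀ᶠ t in 𝓝[≠] (0 : ℝ), (torM d).real
          {x | η / 2 ≤ |(t⁻¹ • (e t - e 0) : HR d) x - y x|} < δ / 3 :=
        (GZero_tim _ y hy (η / 2) (by linarith)).eventually (gt_mem_nhds (by linarith))
      obtain ⟨t, ht1, ht2, ht3⟩ := (h1.and (h2.and h3)).exists
      have h4 : (torM d).real ({x | e t x ≠ 0} \ {x | e 0 x ≠ 0}) < 2 * δ / 3 := by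
        have h5 := measureReal_inter_add_sdiff (μ := torM d) (s := {x | e t x ≠ 0}) hZ
          (measure_ne_top _ _)
        unfold suppM at ht2 ht1
        linarith
      have h6 : ({x | e 0 x = 0} ∩ {x | η ≤ |y x|} : Set (Tor d)) ≤ᵐ[torM d]
          (({x | e t x ≠ 0} \ {x | e 0 x ≠ 0}) ∪
            {x | η / 2 ≤ |(t⁻¹ • (e t - e 0) : HR d) x - y x|} : Set (Tor d)) := by
        filter_upwards [GZero_coe e t] with x hx hxm
        obtain ⟨h0, hyx⟩ := hxm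
        have h0' : e 0 x = 0 := h0
        have hyx' : η ≤ |y x| := hyx
        by_cases h7 : e t x = 0
        · right
          change η / 2 ≤ |(t⁻¹ • (e t - e 0) : HR d) x - y x|
          rw [hx, h7, h0', sub_zero, mul_zero, zero_sub, abs_neg]
          linarith
        · left
          exact ⟨h7, fun h8 => h8 h0'⟩
      have h7 : (torM d).real ({x | e 0 x = 0} ∩ {x | η ≤ |y x|}) ≤
          (torM d).real (({x | e t x ≠ 0} \ {x | e 0 x ≠ 0}) ∪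
            {x | η / 2 ≤ |(t⁻¹ • (e t - e 0) : HR d) x - y x|} : Set (Tor d)) :=
        ENNReal.toReal_mono (measure_ne_top _ _) (measure_mono_ae h6)
      have h8 := h7.trans (measureReal_union_le _ _)
      linarith
    have h9 := le_antisymm hreal measureReal_nonneg
    rwa [measureReal_eq_zero_iff (measure_ne_top _ _)] at h9
  rw [ae_iff]
  have hsub : {x | ¬ (e 0 x = 0 → y x = 0)} ⊆
      ⋃ n : ℕ, ({x | e 0 x = 0} ∩ {x | 1 / ((n : ℝ) + 1) ≤ |y x|}) := by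
    intro x hx
    have hx' : ¬ (e 0 x = 0 → y x = 0) := hx
    rw [Classical.not_imp] at hx'
    obtain ⟨n, hn⟩ := exists_nat_one_div_lt (abs_pos.2 hx'.2)
    exact Set.mem_iUnion.2 ⟨n, hx'.1, hn.le⟩
  refine measure_mono_null hsub (measure_iUnion_null fun n => key _ (by positivity))

/-- If `e_t² = f_t²` a.e. and `(e_t - e)/t → y`, `(f_t - f)/t → z`, then `e y = f z` a.e.: the
difference quotients of `e_t² = f_t²` converge in `L¹`. -/
theorem derivative_sq (e f : ℝ → HR d) (y z : HR d)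
    (hef : ∀ᶠ t in 𝓝 (0 : ℝ), ∀ᵐ x ∂(torM d), (e t) x ^ 2 = (f t) x ^ 2)
    (hy : Tendsto (fun t => t⁻¹ • (e t - e 0)) (𝓝[≠] 0) (𝓝 y))
    (hz : Tendsto (fun t => t⁻¹ • (f t - f 0)) (𝓝[≠] 0) (𝓝 z)) :
    ∀ᵐ x ∂(torM d), (e 0) x * y x = (f 0) x * z x := by
  obtain ⟨t₁, ht₁, hy₁⟩ := (tendstoInMeasure_of_tendsto_Lp hy).exists_seq_tendsto_ae'
  obtain ⟨t₂, ht₂, hz₂⟩ := (tendstoInMeasure_of_tendsto_Lp (hz.comp ht₁)).exists_seq_tendsto_ae'
  have ht : Tendsto (fun n => t₁ (t₂ n)) atTop (𝓝[≠] (0 : ℝ)) := ht₁.comp ht₂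
  have ht0 : Tendsto (fun n => t₁ (t₂ n)) atTop (𝓝 (0 : ℝ)) := ht.mono_right nhdsWithin_le_nhds
  have hne : ∀ᶠ n in atTop, t₁ (t₂ n) ≠ 0 := ht.eventually self_mem_nhdsWithin
  have hef0 := hef.self_of_nhds
  have hefn : ∀ᶠ n in atTop, ∀ᵐ x ∂(torM d),
      (e (t₁ (t₂ n))) x ^ 2 = (f (t₁ (t₂ n))) x ^ 2 := ht0.eventually hef
  obtain ⟨N, hN⟩ := Filter.eventually_atTop.1 (hne.and hefn)
  have hall : ∀ᵐ x ∂(torM d), ∀ n, N ≤ n →
      (e (t₁ (t₂ n))) x ^ 2 = (f (t₁ (t₂ n))) x ^ 2 := by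
    rw [ae_all_iff]
    intro n
    by_cases hn : N ≤ n
    · filter_upwards [(hN n hn).2] with x hx _
      exact hx
    · exact Filter.Eventually.of_forall fun x h => absurd h hn
  have hce : ∀ᵐ x ∂(torM d), ∀ n : ℕ,
      ((t₁ (t₂ n))⁻¹ • (e (t₁ (t₂ n)) - e 0) : HR d) x =
        (t₁ (t₂ n))⁻¹ * (e (t₁ (t₂ n)) x - e 0 x) := by
    rw [ae_all_iff]
    exact fun n => GZero_coe e _
  have hcf : ∀ᵐ x ∂(torM d), ∀ n : ℕ,
      ((t₁ (t₂ n))⁻¹ • (f (t₁ (t₂ n)) - f 0) : HR d) x =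
        (t₁ (t₂ n))⁻¹ * (f (t₁ (t₂ n)) x - f 0 x) := by
    rw [ae_all_iff]
    exact fun n => GZero_coe f _
  filter_upwards [hy₁, hz₂, hef0, hall, hce, hcf] with x hyx hzx h0 hn hcex hcfx
  have hyx2 : Tendsto (fun n => ((t₁ (t₂ n))⁻¹ • (e (t₁ (t₂ n)) - e 0) : HR d) x) atTop
      (𝓝 (y x)) := hyx.comp ht₂
  have hzx2 : Tendsto (fun n => ((t₁ (t₂ n))⁻¹ • (f (t₁ (t₂ n)) - f 0) : HR d) x) atTop
      (𝓝 (z x)) := hzx
  have hL : Tendsto (fun n => 2 * (e 0 x * ((t₁ (t₂ n))⁻¹ • (e (t₁ (t₂ n)) - e 0) : HR d) x) +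
      t₁ (t₂ n) * ((t₁ (t₂ n))⁻¹ • (e (t₁ (t₂ n)) - e 0) : HR d) x ^ 2) atTop
      (𝓝 (2 * (e 0 x * y x) + 0 * y x ^ 2)) :=
    ((hyx2.const_mul _).const_mul _).add (ht0.mul (hyx2.pow 2))
  have hR : Tendsto (fun n => 2 * (f 0 x * ((t₁ (t₂ n))⁻¹ • (f (t₁ (t₂ n)) - f 0) : HR d) x) +
      t₁ (t₂ n) * ((t₁ (t₂ n))⁻¹ • (f (t₁ (t₂ n)) - f 0) : HR d) x ^ 2) atTop
      (𝓝 (2 * (f 0 x * z x) + 0 * z x ^ 2)) :=
    ((hzx2.const_mul _).const_mul _).add (ht0.mul (hzx2.pow 2))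
  have heq : ∀ᶠ n in atTop,
      2 * (e 0 x * ((t₁ (t₂ n))⁻¹ • (e (t₁ (t₂ n)) - e 0) : HR d) x) +
      t₁ (t₂ n) * ((t₁ (t₂ n))⁻¹ • (e (t₁ (t₂ n)) - e 0) : HR d) x ^ 2 =
      2 * (f 0 x * ((t₁ (t₂ n))⁻¹ • (f (t₁ (t₂ n)) - f 0) : HR d) x) +
      t₁ (t₂ n) * ((t₁ (t₂ n))⁻¹ • (f (t₁ (t₂ n)) - f 0) : HR d) x ^ 2 := by
    filter_upwards [Filter.eventually_ge_atTop N] with n hNn
    have htn := (hN n hNn).1
    have h1 := hn n hNn
    rw [hcex n, hcfx n]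
    have h2 : ∀ a b t : ℝ, t ≠ 0 → 2 * (b * (t⁻¹ * (a - b))) + t * (t⁻¹ * (a - b)) ^ 2 =
        t⁻¹ * (a ^ 2 - b ^ 2) := by
      intro a b t ht
      field_simp
      ring
    rw [h2 _ _ _ htn, h2 _ _ _ htn, h1, h0]
  have h3 := tendsto_nhds_unique (hL.congr' heq) hR
  linarith

end Pool.Agent.Lib.MP_c8757e_mp
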