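import Pool.Agent.Lib.MP_c8757e_mp.GSel
import Pool.Agent.Lib.MP_c8757e_mp.GSecond
import Pool.Agent.Lib.MP_c8757e_mp.GBaire
import Pool.Agent.Lib.MP_c8757e_mp.GZero
import Pool.Agent.Lib.MP_c8757e_mp.GAlg

/-! FLAT, module GMain: the abstract genericity theorem. -/

open MeasureTheory Filter Topology Set
open scoped ENNReal

noncomputable section

namespace Pool.Agent.Lib.MP_c8757e_mp

variable {d : ℕ} {T₀ T₁ : HR d →L[ℝ] HR d}

private theorem GMain_suppM_congr {u v : HR d}
    (h : ∀ᵐ x ∂(torM d), u x = 0 ↔ v x = 0) : suppM u = suppM v := by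
  unfold suppM
  apply measureReal_congr
  filter_upwards [h] with x hx
  apply propext
  exact not_congr hx

private theorem GMain_suppM_smul {a : ℝ} (ha : a ≠ 0) (u : HR d) : suppM (a • u) = suppM u := by
  apply GMain_suppM_congr
  filter_upwards [Lp.coeFn_smul a u] with x hx
  rw [hx]
  simp [ha]

private theorem GMain_closed (e : HR d) :
    IsClosed {u : HR d | ∀ᵐ x ∂(torM d), e x = 0 → u x = 0} := by
  have hm : MeasurableSet {x | e x = 0} :=
    measurableSet_eq_fun (Lp.stronglyMeasurable e).measurable measurable_const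
  set s : LI d := indicatorConstLp ∞ hm (measure_ne_top _ _) (1 : ℝ) with hs
  have hsx : s =ᵐ[torM d] ({x | e x = 0}).indicator (fun _ => (1 : ℝ)) :=
    indicatorConstLp_coeFn
  have hset : {u : HR d | ∀ᵐ x ∂(torM d), e x = 0 → u x = 0} = {u : HR d | mulInf s u = 0} := by
    ext u
    simp only [mem_ofPred_eq]
    constructor
    · intro h
      apply Lp.ext
      filter_upwards [h, hsx, coeFn_mulInf s u, Lp.coeFn_zero ℝ 2 (torM d)] with x h1 h2 h3 h4
      rw [h3, h2, h4]
      by_cases hx : e x = 0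
      · rw [h1 hx]
        simp
      · simp [hx]
    · intro h
      have h5 := coeFn_mulInf s u
      rw [h] at h5
      filter_upwards [hsx, h5, Lp.coeFn_zero ℝ 2 (torM d)] with x h2 h3 h4 hx
      rw [h2, h4] at h3
      simpa [hx] using h3.symm
  rw [hset]
  exact isClosed_eq (mulInf s).continuous continuous_const

private theorem GMain_sign (e f : HR d) (hef : ∀ᵐ x ∂(torM d), e x ^ 2 = f x ^ 2) :
    ∃ s : LI d, (∀ᵐ x ∂(torM d), s x = 1 ∨ s x = -1) ∧ f = mulInf s e := by
  classical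
  have hm : MeasurableSet {x | 0 ≤ e x * f x} :=
    measurableSet_le measurable_const
      ((Lp.stronglyMeasurable e).measurable.mul (Lp.stronglyMeasurable f).measurable)
  let σ : Tor d → ℝ := fun x => if 0 ≤ e x * f x then 1 else -1
  have hσm : Measurable σ := Measurable.ite hm measurable_const measurable_const
  have hσb : ∀ x, ‖σ x‖ ≤ 1 := by
    intro x
    simp only [σ]
    split_ifs <;> simp
  have hσL : MemLp σ ∞ (torM d) :=
    memLp_top_of_bound hσm.aestronglyMeasurable 1 (Eventually.of_forall hσb)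
  have hco : hσL.toLp σ =ᵐ[torM d] σ := hσL.coeFn_toLp
  refine ⟨hσL.toLp σ, ?_, ?_⟩
  · filter_upwards [hco] with x hx
    rw [hx]
    simp only [σ]
    split_ifs
    · exact Or.inl rfl
    · exact Or.inr rfl
  · apply Lp.ext
    filter_upwards [hef, hco, coeFn_mulInf (hσL.toLp σ) e] with x h1 h2 h3
    rw [h3, h2]
    simp only [σ]
    have h4 : e x = f x ∨ e x = - f x := sq_eq_sq_iff_eq_or_eq_neg.mp h1
    rcases h4 with h4 | h4
    · rw [h4, if_pos (mul_self_nonneg _), one_mul]
    · by_cases h0 : f x = 0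
      · rw [h4, h0]
        simp
      · rw [h4, if_neg]
        · ring
        · have : 0 < f x * f x := mul_self_pos.mpr h0
          intro h6
          nlinarith

/-- No open set of potentials has common eigenvalues in `[a, b]`. `exists_selection`;
`first_order`, `first_order_structure` for each `V ∈ U` (lines `V + t W` stay in `U` for small `t`)
give unit vectors `e V`, `f V` with `e² = f²`. `g V = suppM (e V)` is lower semicontinuous on `U`
(`orthonormal_limit`: eigenvectors at nearby potentials are close to `± e V`; the space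
`C(Tor d, ℝ)` is metric), so it has a point of continuity `V` (`exists_continuity_point`). There
`second_order` for both problems, `derivative_sq`, `derivative_zero`: with `y = R₀ (W e)`,
`z = R₁ (W f)`: `e y = f z`, `y = z = 0` on `{e = 0}`. By density (`dense_mul`) `R₀` preserves `L²(S)`;
`commute_of_red` and `Irr`: `e ≠ 0` a.e. Put `s = sign (e f) = f / e = ± 1`; `R₁ (s h) = s R₀ h` for
`h = W e`, so for all `h`; `intertwine_of_red` contradicts `NoSign`. -/
theorem no_open_bad (h₀ : WeightR T₀) (h₁ : WeightR T₁) (hI : Irr T₀) (hN : NoSign T₀ T₁)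
    {X : Type*} [AddCommGroup X] [Module ℝ X] [TopologicalSpace X] [IsTopologicalAddGroup X]
    [ContinuousSMul ℝ X] [BaireSpace X] (j : X →L[ℝ] C(Tor d, ℝ)) (hj : DenseRange j) (a b : ℝ) :
    interior {V : X | ∃ lam ∈ Icc a b, Common T₀ T₁ (j V) lam} = ∅ := by
  classical
  by_contra hne
  rw [← ne_eq, ← nonempty_iff_ne_empty] at hne
  obtain ⟨U, lamF, m₀, m₁, hU, hUne, hlamF, hm₀, hm₁, hdim⟩ :=
    exists_selection h₀ h₁ j j.continuous a b hne
  -- lines stay in `U`
  have hline : ∀ V W : X, Tendsto (fun t : ℝ => V + t • W) (𝓝 0) (𝓝 V) := by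
    intro V W
    have h1 : Continuous (fun t : ℝ => V + t • W) := by fun_prop
    have h2 := h1.tendsto 0
    simpa using h2
  have hlineU : ∀ V ∈ U, ∀ W : X, ∀ᶠ t : ℝ in 𝓝 0, V + t • W ∈ U := fun V hV W =>
    (hline V W).eventually (hU.mem_nhds hV)
  have hjl : ∀ (V W : X) (t : ℝ), j (V + t • W) = j V + t • j W := by
    intro V W t
    rw [map_add, map_smul]
  have hlc : ∀ V ∈ U, ContinuousAt lamF V := fun V hV => hlamF.continuousAt (hU.mem_nhds hV)
  have hlamc : ∀ V ∈ U, ∀ W : X, ContinuousAt (fun t : ℝ => lamF (V + t • W)) 0 := by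
    intro V hV W
    have h1 : Tendsto (fun t : ℝ => lamF (V + t • W)) (𝓝 0) (𝓝 (lamF V)) :=
      (hlc V hV).tendsto.comp (hline V W)
    unfold ContinuousAt
    simpa using h1
  have hstr : ∀ V ∈ U, ∃ e f : HR d, ‖e‖ = 1 ∧ ‖f‖ = 1 ∧ e ∈ kerR T₀ (j V) (lamF V) ∧
      f ∈ kerR T₁ (j V) (lamF V) ∧ (∀ u ∈ kerR T₀ (j V) (lamF V), ∃ a : ℝ, u = a • e) ∧
      (∀ u ∈ kerR T₁ (j V) (lamF V), ∃ a : ℝ, u = a • f) ∧
      ∀ᵐ x ∂(torM d), e x ^ 2 = f x ^ 2 := by
    intro V hV
    have hd := hdim V hV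
    refine first_order_structure j hj (j V) (lamF V) (by rw [hd.1]; exact hm₀)
      (by rw [hd.2]; exact hm₁) (fun W => ?_)
    have h1 := first_order h₀ h₁ (j V) (j W) (fun t => lamF (V + t • W)) (hlamc V hV W) m₀ m₁
      hm₀ hm₁ (by
        filter_upwards [hlineU V hV W] with t ht
        have h2 := hdim _ ht
        rw [hjl] at h2
        exact h2)
    simpa using h1
  choose! eF fF hF using hstr
  -- lower semicontinuity
  have hlsc : ∀ V ∈ U, ∀ q : ℝ, q < suppM (eF V) → ∀ᶠ y in 𝓝 V, q < suppM (eF y) := by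
    intro V hV q hq
    by_contra hcon
    have hfr : ∃ᶠ y in 𝓝 V, ¬ q < suppM (eF y) := not_eventually.mp hcon
    have hseq : ∀ n : ℕ, ∃ y : X, y ∈ U ∧ dist (j y) (j V) < 1 / ((n : ℝ) + 1) ∧
        dist (lamF y) (lamF V) < 1 / ((n : ℝ) + 1) ∧ ¬ q < suppM (eF y) := by
      intro n
      have hpos : (0 : ℝ) < 1 / ((n : ℝ) + 1) := by positivity
      have e1 : ∀ᶠ y in 𝓝 V, y ∈ U := hU.mem_nhds hV
      have e2 : ∀ᶠ y in 𝓝 V, dist (j y) (j V) < 1 / ((n : ℝ) + 1) :=
        (j.continuous.tendsto V).eventually (Metric.ball_mem_nhds _ hpos)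
      have e3 : ∀ᶠ y in 𝓝 V, dist (lamF y) (lamF V) < 1 / ((n : ℝ) + 1) :=
        (hlc V hV).tendsto.eventually (Metric.ball_mem_nhds _ hpos)
      obtain ⟨y, hy, h1, h2, h3⟩ := (hfr.and_eventually (e1.and (e2.and e3))).exists
      exact ⟨y, h1, h2, h3, hy⟩
    choose y hyU hyj hyl hyq using hseq
    have t1 : Tendsto (fun n => j (y n)) atTop (𝓝 (j V)) := by
      rw [tendsto_iff_dist_tendsto_zero]
      exact squeeze_zero (fun n => dist_nonneg) (fun n => (hyj n).le)
        tendsto_one_div_add_atTop_nhds_zero_nat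
    have t2 : Tendsto (fun n => lamF (y n)) atTop (𝓝 (lamF V)) := by
      rw [tendsto_iff_dist_tendsto_zero]
      exact squeeze_zero (fun n => dist_nonneg) (fun n => (hyl n).le)
        tendsto_one_div_add_atTop_nhds_zero_nat
    obtain ⟨φ, u₀, hφ, ho, hk, hlim⟩ := orthonormal_limit h₀ 1 (fun n => j (y n)) (j V) t1
      (fun n _ => lamF (y n)) (fun _ => lamF V) (fun _ => t2) (fun n _ => eF (y n))
      (fun n => by
        refine ⟨fun i => (hF _ (hyU n)).1, fun i i' hii => ?_⟩
        exact absurd (Subsingleton.elim i i') hii)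
      (fun n i => (hF _ (hyU n)).2.2.1)
    obtain ⟨α, hα⟩ := (hF V hV).2.2.2.2.1 (u₀ 0) (hk 0)
    have hα0 : α ≠ 0 := by
      rintro rfl
      have h1 := ho.1 0
      rw [hα] at h1
      simp at h1
    have hq' : q < suppM (u₀ 0) := by
      rw [hα, GMain_suppM_smul hα0]
      exact hq
    have hev := suppM_lsc (fun n => eF (y (φ n))) (u₀ 0) (hlim 0) q hq'
    obtain ⟨n, hn⟩ := hev.exists
    exact hyq (φ n) hn
  obtain ⟨V, hV, hgc⟩ := exists_continuity_point U hU hUne (fun V => suppM (eF V)) hlsc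
  obtain ⟨he1, hf1, hem, hfm, hespan, hfspan, hef⟩ := hF V hV
  obtain ⟨R₀, hR₀⟩ := exists_red h₀ (j V) (lamF V) (eF V) he1 hem hespan
  obtain ⟨R₁, hR₁⟩ := exists_red h₁ (j V) (lamF V) (fF V) hf1 hfm hfspan
  have hV0 : ∀ W : X, V + (0 : ℝ) • W = V := fun W => by simp
  -- the derivative identities
  have hkey : ∀ W : X,
      (∀ᵐ x ∂(torM d), eF V x = 0 → (R₀ (mulR (j W) (eF V))) x = 0) ∧
      (∀ᵐ x ∂(torM d), eF V x * (R₀ (mulR (j W) (eF V))) x =
        fF V x * (R₁ (mulR (j W) (fF V))) x) := by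
    intro W
    obtain ⟨s, hs, hst⟩ := second_order h₀ (j V) (j W) (fun t => lamF (V + t • W))
      (hlamc V hV W) (fun t => eF (V + t • W)) (by
        filter_upwards [hlineU V hV W] with t ht
        have h2 := hF _ ht
        refine ⟨h2.1, ?_⟩
        have h3 := h2.2.2.1
        rwa [hjl] at h3) (by simpa only [hV0] using hespan) (R := R₀)
      (by simpa only [hV0] using hR₀)
    obtain ⟨s', hs', hst'⟩ := second_order h₁ (j V) (j W) (fun t => lamF (V + t • W))
      (hlamc V hV W) (fun t => fF (V + t • W)) (by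
        filter_upwards [hlineU V hV W] with t ht
        have h2 := hF _ ht
        refine ⟨h2.2.1, ?_⟩
        have h3 := h2.2.2.2.1
        rwa [hjl] at h3) (by simpa only [hV0] using hfspan) (R := R₁)
      (by simpa only [hV0] using hR₁)
    simp only [hV0] at hst hst'
    set E' : ℝ → HR d := fun t => if t = 0 then eF V else s t • eF (V + t • W) with hE'
    set F' : ℝ → HR d := fun t => if t = 0 then fF V else s' t • fF (V + t • W) with hF'
    have hE0 : E' 0 = eF V := by simp [hE']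
    have hF0 : F' 0 = fF V := by simp [hF']
    have hy : Tendsto (fun t => t⁻¹ • (E' t - E' 0)) (𝓝[≠] 0)
        (𝓝 (R₀ (mulR (j W) (eF V)))) := by
      refine hst.congr' ?_
      filter_upwards [self_mem_nhdsWithin] with t ht
      have ht' : t ≠ 0 := ht
      rw [hE0]
      simp only [hE', if_neg ht']
    have hz : Tendsto (fun t => t⁻¹ • (F' t - F' 0)) (𝓝[≠] 0)
        (𝓝 (R₁ (mulR (j W) (fF V)))) := by
      refine hst'.congr' ?_
      filter_upwards [self_mem_nhdsWithin] with t ht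
      have ht' : t ≠ 0 := ht
      rw [hF0]
      simp only [hF', if_neg ht']
    have hs0 : ∀ t, s t ≠ 0 := fun t => by
      rcases hs t with h | h <;> rw [h] <;> norm_num
    have hs0' : ∀ t, s' t ≠ 0 := fun t => by
      rcases hs' t with h | h <;> rw [h] <;> norm_num
    have hsup : Tendsto (fun t => suppM (E' t)) (𝓝[≠] 0) (𝓝 (suppM (E' 0))) := by
      rw [hE0]
      have h1 : Tendsto (fun t : ℝ => suppM (eF (V + t • W))) (𝓝[≠] 0) (𝓝 (suppM (eF V))) :=
        (hgc.tendsto.comp (hline V W)).mono_left nhdsWithin_le_nhds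
      refine h1.congr' ?_
      filter_upwards [self_mem_nhdsWithin] with t ht
      have ht' : t ≠ 0 := ht
      simp only [hE', if_neg ht']
      rw [GMain_suppM_smul (hs0 t)]
    have hsq : ∀ᶠ t in 𝓝 (0 : ℝ), ∀ᵐ x ∂(torM d), (E' t) x ^ 2 = (F' t) x ^ 2 := by
      filter_upwards [hlineU V hV W] with t ht
      by_cases ht0 : t = 0
      · subst ht0
        rw [hE0, hF0]
        exact hef
      · simp only [hE', hF', if_neg ht0]
        filter_upwards [Lp.coeFn_smul (s t) (eF (V + t • W)),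
          Lp.coeFn_smul (s' t) (fF (V + t • W)), (hF _ ht).2.2.2.2.2.2] with x h1 h2 h3
        rw [h1, h2]
        simp only [Pi.smul_apply, smul_eq_mul, mul_pow, h3]
        have e1 : s t ^ 2 = 1 := by rcases hs t with h | h <;> rw [h] <;> norm_num
        have e2 : s' t ^ 2 = 1 := by rcases hs' t with h | h <;> rw [h] <;> norm_num
        rw [e1, e2]
    have k1 := derivative_zero E' _ hy hsup
    have k2 := derivative_sq E' F' _ _ hsq hy hz
    rw [hE0] at k1 k2
    rw [hF0] at k2
    exact ⟨k1, k2⟩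
  -- `R₀` preserves `L²(S)`
  have hRS : ∀ h : HR d, (∀ᵐ x ∂(torM d), eF V x = 0 → h x = 0) →
      ∀ᵐ x ∂(torM d), eF V x = 0 → (R₀ h) x = 0 := by
    intro h hh
    have h1 := dense_mul j hj (eF V) h hh
    have h2 : IsClosed {h : HR d | ∀ᵐ x ∂(torM d), eF V x = 0 → (R₀ h) x = 0} :=
      (GMain_closed (eF V)).preimage R₀.continuous
    have h3 : (range fun W => mulR (j W) (eF V)) ⊆
        {h : HR d | ∀ᵐ x ∂(torM d), eF V x = 0 → (R₀ h) x = 0} := by
      rintro _ ⟨W, rfl⟩
      exact (hkey W).1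
    exact closure_minimal h3 h2 h1
  obtain ⟨s, hs, hcomm⟩ := commute_of_red h₀ (j V) (lamF V) (eF V) he1 hem hR₀ hRS
  have hs01 : ∀ᵐ x ∂(torM d), s x = 0 ∨ s x = 1 := by
    filter_upwards [hs] with x hx
    rw [hx]
    split_ifs
    · exact Or.inl rfl
    · exact Or.inr rfl
  have hene : ∀ᵐ x ∂(torM d), eF V x ≠ 0 := by
    rcases hI s hs01 hcomm with h | h
    · exfalso
      have h0 : eF V = 0 := by
        apply Lp.ext
        filter_upwards [h, hs, Lp.coeFn_zero ℝ 2 (torM d)] with x h1 h2 h3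
        rw [h3, Pi.zero_apply]
        by_contra hx
        rw [h1, if_neg hx] at h2
        exact absurd h2 (by norm_num)
      rw [h0, norm_zero] at he1
      exact absurd he1 (by norm_num)
    · filter_upwards [h, hs] with x h1 h2 hx
      rw [h1, if_pos hx] at h2
      exact absurd h2 (by norm_num)
  obtain ⟨σ, hσ, hfσ⟩ := GMain_sign (eF V) (fF V) hef
  have hint : ∀ h : HR d, R₁ (mulInf σ h) = mulInf σ (R₀ h) := by
    intro h
    have h1 := dense_mul j hj (eF V) h (by
      filter_upwards [hene] with x hx hx0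
      exact absurd hx0 hx)
    have h2 : IsClosed {h : HR d | R₁ (mulInf σ h) = mulInf σ (R₀ h)} :=
      isClosed_eq (R₁.continuous.comp (mulInf σ).continuous)
        ((mulInf σ).continuous.comp R₀.continuous)
    have h3 : (range fun W => mulR (j W) (eF V)) ⊆
        {h : HR d | R₁ (mulInf σ h) = mulInf σ (R₀ h)} := by
      rintro _ ⟨W, rfl⟩
      change R₁ (mulInf σ (mulR (j W) (eF V))) = mulInf σ (R₀ (mulR (j W) (eF V)))
      rw [mulInf_mulR_comm, ← hfσ]
      apply Lp.ext
      have h5 := coeFn_mulInf σ (eF V)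
      rw [← hfσ] at h5
      filter_upwards [(hkey W).2, hene, hσ, h5,
        coeFn_mulInf σ (R₀ (mulR (j W) (eF V)))] with x k1 k2 k3 k4 k5
      rw [k5]
      rw [k4] at k1
      have k6 : (R₀ (mulR (j W) (eF V))) x = σ x * (R₁ (mulR (j W) (fF V))) x := by
        apply mul_left_cancel₀ k2
        rw [k1]
        ring
      rw [k6]
      rcases k3 with k3 | k3 <;> rw [k3] <;> ring
    exact closure_minimal h3 h2 h1
  exact hN σ hσ (intertwine_of_red h₀ h₁ (j V) (lamF V) (eF V) (fF V) he1 hf1 hem hfm hR₀ hR₁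
    σ hσ hfσ hint)

/-- `isClosed_bad`, `no_open_bad`, union over `[-n, n]`. -/
theorem generic_abstract (h₀ : WeightR T₀) (h₁ : WeightR T₁) (hI : Irr T₀) (hN : NoSign T₀ T₁)
    {X : Type*} [AddCommGroup X] [Module ℝ X] [TopologicalSpace X] [IsTopologicalAddGroup X]
    [ContinuousSMul ℝ X] [BaireSpace X] (j : X →L[ℝ] C(Tor d, ℝ)) (hj : DenseRange j) :
    IsMeagre {V : X | ∃ lam : ℝ, Common T₀ T₁ (j V) lam} := by
  have h1 : {V : X | ∃ lam : ℝ, Common T₀ T₁ (j V) lam} =
      ⋃ n : ℕ, {V : X | ∃ lam ∈ Icc (-(n : ℝ)) n, Common T₀ T₁ (j V) lam} := by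
    ext V
    simp only [mem_ofPred_eq, mem_iUnion]
    constructor
    · rintro ⟨lam, h⟩
      obtain ⟨n, hn⟩ := exists_nat_ge |lam|
      exact ⟨n, lam, abs_le.mp hn, h⟩
    · rintro ⟨n, lam, _, h⟩
      exact ⟨lam, h⟩
  rw [h1]
  apply isMeagre_iUnion
  intro n
  apply IsNowhereDense.isMeagre
  have hc : IsClosed {V : X | ∃ lam ∈ Icc (-(n : ℝ)) n, Common T₀ T₁ (j V) lam} :=
    (isClosed_bad h₀ h₁ (-(n : ℝ)) n).preimage j.continuous
  rw [hc.isNowhereDense_iff]
  exact no_open_bad h₀ h₁ hI hN j hj _ _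

end Pool.Agent.Lib.MP_c8757e_mp
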