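import Pool.Agent.Lib.MP_c8757e_mp.GDefs

/-! FLAT, module GMul: multiplication operators on `L²(T^d; ℝ)` and separation by potentials. -/

open MeasureTheory Filter Topology Set
open scoped ENNReal

noncomputable section

namespace Pool.Agent.Lib.MP_c8757e_mp

variable {d : ℕ}

theorem coeFn_mulInf (s : LI d) (u : HR d) :
    mulInf s u =ᵐ[torM d] fun x => s x * u x := by
  unfold mulInf
  rw [ContinuousLinearMap.holderL_apply_apply]
  exact ContinuousLinearMap.coeFn_holder (r := 2) (ContinuousLinearMap.mul ℝ ℝ) s u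

private theorem coeFn_toInf (a : C(Tor d, ℝ)) : toInf a =ᵐ[torM d] a :=
  ContinuousMap.coeFn_toLp (p := ∞) (𝕜 := ℝ) (torM d) a

theorem coeFn_mulR (a : C(Tor d, ℝ)) (u : HR d) :
    mulR a u =ᵐ[torM d] fun x => a x * u x := by
  unfold mulR
  filter_upwards [coeFn_mulInf (toInf a) u, coeFn_toInf a] with x hx hy
  rw [hx, hy]

theorem mulInf_inner (s : LI d) (u v : HR d) :
    inner ℝ (mulInf s u) v = inner ℝ u (mulInf s v) := by
  rw [L2.inner_def, L2.inner_def]
  refine integral_congr_ae ?_
  filter_upwards [coeFn_mulInf s u, coeFn_mulInf s v] with x hx hy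
  rw [hx, hy]
  simp only [RCLike.inner_apply, conj_trivial]
  ring

theorem mulR_inner (a : C(Tor d, ℝ)) (u v : HR d) :
    inner ℝ (mulR a u) v = inner ℝ u (mulR a v) := mulInf_inner (toInf a) u v

theorem mulInf_mulR_comm (s : LI d) (a : C(Tor d, ℝ)) (u : HR d) :
    mulInf s (mulR a u) = mulR a (mulInf s u) := by
  apply Lp.ext
  filter_upwards [coeFn_mulInf s (mulR a u), coeFn_mulR a (mulInf s u), coeFn_mulInf s u,
    coeFn_mulR a u] with x h1 h2 h3 h4
  rw [h1, h2, h3, h4]
  ring

theorem mulR_add (a b : C(Tor d, ℝ)) : mulR (a + b) = mulR a + mulR b := by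
  unfold mulR mulInf
  rw [map_add, map_add]

theorem mulR_smul (t : ℝ) (a : C(Tor d, ℝ)) : mulR (t • a) = t • mulR a := by
  unfold mulR mulInf
  rw [map_smul, map_smul]

theorem mulR_const (t : ℝ) (u : HR d) : mulR (ContinuousMap.const _ t) u = t • u := by
  apply Lp.ext
  filter_upwards [coeFn_mulR (ContinuousMap.const _ t) u, Lp.coeFn_smul t u] with x h1 h2
  rw [h1, h2]
  simp

theorem mulR_norm_le (a : C(Tor d, ℝ)) : ‖mulR a‖ ≤ ‖a‖ := by
  unfold mulR mulInf
  have h1 : ‖(ContinuousLinearMap.mul ℝ ℝ).holderL (torM d) ∞ 2 2‖ ≤ 1 :=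
    (ContinuousLinearMap.norm_holderL_le (p := ∞) (q := 2) (r := 2) (μ := torM d)
      (ContinuousLinearMap.mul ℝ ℝ)).trans (ContinuousLinearMap.opNorm_mul_le ℝ ℝ)
  have h2 : ‖(toInf a : LI d)‖ ≤ ‖a‖ := by
    have h3 : ‖(toInf : C(Tor d, ℝ) →L[ℝ] LI d)‖ ≤ 1 := by
      have h4 := ContinuousMap.toLp_norm_le (p := ∞) (𝕜 := ℝ) (μ := torM d) (E := ℝ)
      refine h4.trans ?_
      simp
    calc ‖(toInf a : LI d)‖ ≤ ‖(toInf : C(Tor d, ℝ) →L[ℝ] LI d)‖ * ‖a‖ :=
          ContinuousLinearMap.le_opNorm _ _
      _ ≤ 1 * ‖a‖ := by gcongr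
      _ = ‖a‖ := one_mul _
  calc ‖(ContinuousLinearMap.mul ℝ ℝ).holderL (torM d) ∞ 2 2 (toInf a)‖
      ≤ ‖(ContinuousLinearMap.mul ℝ ℝ).holderL (torM d) ∞ 2 2‖ * ‖(toInf a : LI d)‖ :=
        ContinuousLinearMap.le_opNorm _ _
    _ ≤ 1 * ‖a‖ := by gcongr
    _ = ‖a‖ := one_mul _

theorem mulR_pot (V : C(Tor d, ℝ)) (lam : ℝ) (u : HR d) :
    mulR (pot V lam) u = mulR V u + lam • u := by
  unfold pot
  rw [mulR_add, add_apply, mulR_const]

/-- `W ↦ W e`, as a continuous linear map. -/
private def mulRL (e : HR d) : C(Tor d, ℝ) →L[ℝ] HR d :=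
  ((ContinuousLinearMap.mul ℝ ℝ).holderL (torM d) ∞ 2 2).flip e ∘L toInf

private theorem mulRL_apply (e : HR d) (W : C(Tor d, ℝ)) : mulRL e W = mulR W e := rfl

/-- An integrable function whose integral against all continuous functions vanishes is zero. -/
private theorem ae_zero_of_forall_continuous (f : Tor d → ℝ) (hf : Integrable f (torM d))
    (h : ∀ W : C(Tor d, ℝ), ∫ x, W x * f x ∂(torM d) = 0) : f =ᵐ[torM d] 0 := by
  set p : Tor d → ℝ≥0∞ := fun x => ENNReal.ofReal (f x) with hp
  set q : Tor d → ℝ≥0∞ := fun x => ENNReal.ofReal (- f x) with hq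
  have hpm : AEMeasurable p (torM d) := hf.aestronglyMeasurable.aemeasurable.ennreal_ofReal
  have hqm : AEMeasurable q (torM d) := hf.aestronglyMeasurable.aemeasurable.neg.ennreal_ofReal
  have hpi : ∫⁻ x, p x ∂(torM d) ≠ ∞ := hf.lintegral_lt_top.ne
  have hqi : ∫⁻ x, q x ∂(torM d) ≠ ∞ := hf.neg.lintegral_lt_top.ne
  have hpf : IsFiniteMeasure ((torM d).withDensity p) := isFiniteMeasure_withDensity hpi
  have hqf : IsFiniteMeasure ((torM d).withDensity q) := isFiniteMeasure_withDensity hqi
  have hppos : ∀ x, (p x).toReal = max (f x) 0 := fun x => by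
    simp only [hp, ENNReal.toReal_ofReal']
  have hqpos : ∀ x, (q x).toReal = max (-f x) 0 := fun x => by
    simp only [hq, ENNReal.toReal_ofReal']
  have hint : ∀ (g : C(Tor d, ℝ)) (r : Tor d → ℝ), Integrable r (torM d) →
      Integrable (fun x => r x * g x) (torM d) := by
    intro g r hr
    have hb : ∀ x, ‖g x‖ ≤ ‖g‖ := fun x => g.norm_coe_le_norm x
    exact hr.mul_bdd (c := ‖g‖) g.continuous.aestronglyMeasurable
      (Filter.Eventually.of_forall hb)
  have key : (torM d).withDensity p = (torM d).withDensity q := by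
    refine ext_of_forall_integral_eq_of_IsFiniteMeasure fun g => ?_
    rw [integral_withDensity_eq_integral_toReal_smul₀ hpm
        (Filter.Eventually.of_forall fun x => ENNReal.ofReal_lt_top),
      integral_withDensity_eq_integral_toReal_smul₀ hqm
        (Filter.Eventually.of_forall fun x => ENNReal.ofReal_lt_top)]
    have h1 := hint g.toContinuousMap (fun x => (p x).toReal) (by
      simp only [hppos]
      exact hf.pos_part)
    have h2 := hint g.toContinuousMap (fun x => (q x).toReal) (by
      simp only [hqpos]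
      exact hf.neg_part)
    have h3 := h g.toContinuousMap
    have h4 : ∫ x, ((p x).toReal * g x - (q x).toReal * g x) ∂(torM d) = 0 := by
      rw [← h3]
      refine integral_congr_ae (Filter.Eventually.of_forall fun x => ?_)
      simp only [hppos, hqpos]
      rcases le_total (f x) 0 with hx | hx
      · rw [max_eq_right hx, max_eq_left (by linarith)]
        change 0 * g x - -f x * g x = g x * f x
        ring
      · rw [max_eq_left hx, max_eq_right (by linarith)]
        change f x * g x - 0 * g x = g x * f x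
        ring
    have h5 := integral_sub h1 h2
    simp only [smul_eq_mul]
    change ∫ x, (p x).toReal * g x ∂(torM d) = ∫ x, (q x).toReal * g x ∂(torM d)
    have h6 : ∫ x, ((p x).toReal * g x - (q x).toReal * g x) ∂(torM d) =
        ∫ x, (p x).toReal * g x ∂(torM d) - ∫ x, (q x).toReal * g x ∂(torM d) := h5
    linarith
  have hae := (withDensity_eq_iff hpm hqm hpi).1 key
  filter_upwards [hae] with x hx
  have h1 : (p x).toReal = (q x).toReal := by rw [hx]
  rw [hppos, hqpos] at h1
  change f x = 0
  rcases le_total (f x) 0 with hx' | hx'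
  · rw [max_eq_right hx', max_eq_left (by linarith)] at h1
    linarith
  · rw [max_eq_left hx', max_eq_right (by linarith)] at h1
    linarith

private theorem inner_mulR_eq (W : C(Tor d, ℝ)) (u v : HR d) :
    inner ℝ (mulR W u) v = ∫ x, W x * (u x * v x) ∂(torM d) := by
  rw [L2.inner_def]
  refine integral_congr_ae ?_
  filter_upwards [coeFn_mulR W u] with x hx
  rw [hx]
  simp only [RCLike.inner_apply, conj_trivial]
  ring

/-- Separation: if `∫ W u v = 0` for a dense set of continuous `W` then `u v = 0` a.e. -/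
theorem mul_eq_zero_of_dense {X : Type*} (j : X → C(Tor d, ℝ)) (hj : DenseRange j) (u v : HR d)
    (h : ∀ W, inner ℝ (mulR (j W) u) v = 0) : ∀ᵐ x ∂(torM d), u x * v x = 0 := by
  have hall : ∀ W : C(Tor d, ℝ), inner ℝ (mulR W u) v = 0 := by
    have hc : Continuous fun W : C(Tor d, ℝ) => inner ℝ (mulR W u) v := by
      have h1 : Continuous fun W : C(Tor d, ℝ) => inner ℝ (mulRL u W) v :=
        (mulRL u).continuous.inner continuous_const
      exact h1
    have := hj.equalizer hc continuous_const (funext h)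
    exact fun W => congrFun this W
  have hi : Integrable (fun x => u x * v x) (torM d) :=
    (Lp.memLp u).integrable_mul (Lp.memLp v)
  refine ae_zero_of_forall_continuous _ hi fun W => ?_
  rw [← inner_mulR_eq]
  exact hall W

/-- If `∫ W u² = ∫ W v²` for a dense set of continuous `W` then `u² = v²` a.e. -/
theorem sq_eq_sq_of_dense {X : Type*} (j : X → C(Tor d, ℝ)) (hj : DenseRange j) (u v : HR d)
    (h : ∀ W, inner ℝ (mulR (j W) u) u = inner ℝ (mulR (j W) v) v) :
    ∀ᵐ x ∂(torM d), u x ^ 2 = v x ^ 2 := by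
  have h1 : ∀ᵐ x ∂(torM d), (u - v : HR d) x * (u + v : HR d) x = 0 := by
    refine mul_eq_zero_of_dense j hj _ _ fun W => ?_
    rw [map_sub, inner_sub_left, inner_add_right, inner_add_right, h W,
      mulR_inner (j W) u v, real_inner_comm u (mulR (j W) v)]
    ring
  filter_upwards [h1, Lp.coeFn_sub u v, Lp.coeFn_add u v] with x hx h2 h3
  rw [h2, h3] at hx
  simp only [Pi.sub_apply, Pi.add_apply] at hx
  linarith

/-- The vectors `W e` are dense in the space of `L²` functions which vanish where `e` does. -/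
theorem dense_mul {X : Type*} (j : X → C(Tor d, ℝ)) (hj : DenseRange j) (e h : HR d)
    (hh : ∀ᵐ x ∂(torM d), e x = 0 → h x = 0) :
    h ∈ closure (range fun W => mulR (j W) e) := by
  set K : Submodule ℝ (HR d) := (LinearMap.range (mulRL e).toLinearMap).topologicalClosure with hK
  have hKmem : h ∈ K := by
    have hKK : Kᗮᗮ = K := by
      have : IsClosed (K : Set (HR d)) := Submodule.isClosed_topologicalClosure _
      have : CompleteSpace K := this.completeSpace_coe
      exact Submodule.orthogonal_orthogonal K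
    rw [← hKK, Submodule.mem_orthogonal]
    intro w hw
    rw [Submodule.mem_orthogonal] at hw
    have h1 : ∀ W : C(Tor d, ℝ), inner ℝ (mulR W e) w = 0 := fun W =>
      hw (mulR W e) (Submodule.le_topologicalClosure _ ⟨W, rfl⟩)
    have h2 := mul_eq_zero_of_dense j hj e w fun W => h1 (j W)
    rw [L2.inner_def]
    refine integral_eq_zero_of_ae ?_
    filter_upwards [h2, hh] with x hx hy
    simp only [RCLike.inner_apply, conj_trivial, Pi.zero_apply]
    rcases mul_eq_zero.1 hx with h0 | h0
    · rw [hy h0, zero_mul]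
    · rw [h0, mul_zero]
  have h3 : h ∈ closure (range (mulRL e)) := by
    have h4 : (K : Set (HR d)) = closure (range (mulRL e)) := by
      rw [hK, Submodule.topologicalClosure_coe, LinearMap.coe_range]
      rfl
    rw [← h4]
    exact hKmem
  have h5 : range (mulRL e) ⊆ closure (range fun W => mulR (j W) e) := by
    rintro _ ⟨W, rfl⟩
    have h6 : W ∈ closure (range j) := hj W
    have h7 := image_closure_subset_closure_image (mulRL e).continuous ⟨W, h6, rfl⟩
    rw [← range_comp] at h7
    exact h7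
  exact closure_minimal h5 isClosed_closure h3

end Pool.Agent.Lib.MP_c8757e_mp
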