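import Pool.Agent.Lib.MP_c8757e_mp.GJ

/-! FLAT, module GReal: the real operators `T(κ)` on `L²(T^d; ℝ)`, `2κ ∈ ℤ^d`. -/

open MeasureTheory Filter Topology Set UnitAddTorus
open scoped ENNReal ComplexInnerProductSpace

noncomputable section

namespace Pool.Agent.Lib.MP_c8757e_mp

variable {d : ℕ}

/-- Real part of a function. -/
def reC (d : ℕ) : LC d →L[ℝ] HR d := Complex.reCLM.compLpL 2 (torM d)

/-- Inclusion of real functions. -/
def ofC (d : ℕ) : HR d →L[ℝ] LC d := Complex.ofRealCLM.compLpL 2 (torM d)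

/-- The operator `U(κ) T(κ) U(κ)⁻¹` on `L²(T^d; ℂ)`. -/
def TU (A : Fin d → Fin d → LI d) (κ : E d) : LC d →L[ℂ] LC d :=
  (Uop κ).toContinuousLinearEquiv.toContinuousLinearMap ∘L TC A κ ∘L
    (Uop κ).symm.toContinuousLinearEquiv.toContinuousLinearMap

/-- The real operator. -/
def TR (A : Fin d → Fin d → LI d) (κ : E d) : HR d →L[ℝ] HR d :=
  reC d ∘L (TU A κ).restrictScalars ℝ ∘L ofC d

/-- Imaginary part of a function. -/
private def imC (d : ℕ) : LC d →L[ℝ] HR d := Complex.imCLM.compLpL 2 (torM d)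

private theorem coe_reC (F : LC d) : reC d F =ᵐ[torM d] fun x => (F x).re :=
  ContinuousLinearMap.coeFn_compLpL (μ := torM d) (p := 2) Complex.reCLM F

private theorem coe_imC (F : LC d) : imC d F =ᵐ[torM d] fun x => (F x).im :=
  ContinuousLinearMap.coeFn_compLpL (μ := torM d) (p := 2) Complex.imCLM F

private theorem coe_ofC (h : HR d) : ofC d h =ᵐ[torM d] fun x => (h x : ℂ) :=
  ContinuousLinearMap.coeFn_compLpL (μ := torM d) (p := 2) Complex.ofRealCLM h

private theorem TU_apply (A : Fin d → Fin d → LI d) (κ : E d) (F : LC d) :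
    TU A κ F = Uop κ (TC A κ ((Uop κ).symm F)) := rfl

private theorem TR_apply (A : Fin d → Fin d → LI d) (κ : E d) (h : HR d) :
    TR A κ h = reC d (TU A κ (ofC d h)) := rfl

private theorem decomp (F : LC d) : F = ofC d (reC d F) + Complex.I • ofC d (imC d F) := by
  apply Lp.ext
  filter_upwards [coe_reC F, coe_imC F, coe_ofC (reC d F), coe_ofC (imC d F),
    Lp.coeFn_add (ofC d (reC d F)) (Complex.I • ofC d (imC d F)),
    Lp.coeFn_smul Complex.I (ofC d (imC d F))] with x h1 h2 h3 h4 h5 h6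
  rw [h5, Pi.add_apply, h6, Pi.smul_apply, h3, h4, h1, h2, smul_eq_mul, mul_comm Complex.I]
  exact (Complex.re_add_im _).symm

/-- `TU` commutes with complex conjugation. -/
private theorem TU_conj {A : Fin d → Fin d → LI d} {c : ℝ} (hA : Coef A c) (κ : E d) (m : Lat d)
    (hm : latE m = (2 : ℝ) • κ) (F G : LC d) (hG : G =ᵐ[torM d] fun x => (starRingEnd ℂ) (F x)) :
    TU A κ G =ᵐ[torM d] fun x => (starRingEnd ℂ) (TU A κ F x) := by
  have h1 : Uop κ (Jop m ((Uop κ).symm F)) = G := by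
    apply Lp.ext
    have h2 := Uop_Jop κ m hm ((Uop κ).symm F)
    rw [LinearIsometryEquiv.apply_symm_apply] at h2
    exact h2.trans hG.symm
  have h3 : (Uop κ).symm G = Jop m ((Uop κ).symm F) := by
    rw [← h1, LinearIsometryEquiv.symm_apply_apply]
  rw [TU_apply, TU_apply, h3, TC_Jop hA κ m hm]
  exact Uop_Jop κ m hm _

/-- `TU` maps real functions to real functions (`Uop_Jop`, `TC_Jop`). -/
theorem ofC_TR {A : Fin d → Fin d → LI d} {c : ℝ} (hA : Coef A c) (κ : E d) (m : Lat d)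
    (hm : latE m = (2 : ℝ) • κ) (h : HR d) : ofC d (TR A κ h) = TU A κ (ofC d h) := by
  have h1 : ofC d h =ᵐ[torM d] fun x => (starRingEnd ℂ) (ofC d h x) := by
    filter_upwards [coe_ofC h] with x hx
    rw [hx, Complex.conj_ofReal]
  have h2 := TU_conj hA κ m hm (ofC d h) (ofC d h) h1
  rw [TR_apply]
  apply Lp.ext
  filter_upwards [h2, coe_ofC (reC d (TU A κ (ofC d h))), coe_reC (TU A κ (ofC d h))]
    with x hx1 hx2 hx3
  rw [hx2, hx3]
  exact (Complex.conj_eq_iff_re.1 hx1.symm)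

private theorem TU_decomp {A : Fin d → Fin d → LI d} {c : ℝ} (hA : Coef A c) (κ : E d) (m : Lat d)
    (hm : latE m = (2 : ℝ) • κ) (F : LC d) :
    TU A κ F = ofC d (TR A κ (reC d F)) + Complex.I • ofC d (TR A κ (imC d F)) := by
  conv_lhs => rw [decomp F]
  rw [map_add, map_smul, ofC_TR hA κ m hm, ofC_TR hA κ m hm]

private theorem re_comb (a b : HR d) : reC d (ofC d a + Complex.I • ofC d b) = a := by
  apply Lp.ext
  filter_upwards [coe_reC (ofC d a + Complex.I • ofC d b), coe_ofC a, coe_ofC b,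
    Lp.coeFn_add (ofC d a) (Complex.I • ofC d b), Lp.coeFn_smul Complex.I (ofC d b)]
    with x h1 h2 h3 h4 h5
  rw [h1, h4, Pi.add_apply, h5, Pi.smul_apply, h2, h3, smul_eq_mul]
  simp

private theorem im_comb (a b : HR d) : imC d (ofC d a + Complex.I • ofC d b) = b := by
  apply Lp.ext
  filter_upwards [coe_imC (ofC d a + Complex.I • ofC d b), coe_ofC a, coe_ofC b,
    Lp.coeFn_add (ofC d a) (Complex.I • ofC d b), Lp.coeFn_smul Complex.I (ofC d b)]
    with x h1 h2 h3 h4 h5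
  rw [h1, h4, Pi.add_apply, h5, Pi.smul_apply, h2, h3, smul_eq_mul]
  simp

private theorem re_TU {A : Fin d → Fin d → LI d} {c : ℝ} (hA : Coef A c) (κ : E d) (m : Lat d)
    (hm : latE m = (2 : ℝ) • κ) (F : LC d) : reC d (TU A κ F) = TR A κ (reC d F) := by
  rw [TU_decomp hA κ m hm F, re_comb]

private theorem im_TU {A : Fin d → Fin d → LI d} {c : ℝ} (hA : Coef A c) (κ : E d) (m : Lat d)
    (hm : latE m = (2 : ℝ) • κ) (F : LC d) : imC d (TU A κ F) = TR A κ (imC d F) := by
  rw [TU_decomp hA κ m hm F, im_comb]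

private theorem inner_ofC (u v : HR d) :
    inner ℂ (ofC d u) (ofC d v) = ((inner ℝ u v : ℝ) : ℂ) := by
  rw [L2.inner_def, L2.inner_def, ← integral_complex_ofReal]
  refine integral_congr_ae ?_
  filter_upwards [coe_ofC u, coe_ofC v] with x h1 h2
  rw [h1, h2]
  simp

private theorem TU_symm {A : Fin d → Fin d → LI d} {c : ℝ} (hA : Coef A c) (κ : E d)
    (F G : LC d) : inner ℂ (TU A κ F) G = inner ℂ F (TU A κ G) := by
  have h1 := (TC_isSelfAdjoint hA κ).isSymmetric ((Uop κ).symm F) ((Uop κ).symm G)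
  have h2 : inner ℂ (TU A κ F) G = inner ℂ (TC A κ ((Uop κ).symm F)) ((Uop κ).symm G) := by
    rw [TU_apply, ← LinearIsometryEquiv.inner_map_map (Uop κ) (TC A κ ((Uop κ).symm F)),
      LinearIsometryEquiv.apply_symm_apply]
  have h3 : inner ℂ F (TU A κ G) = inner ℂ ((Uop κ).symm F) (TC A κ ((Uop κ).symm G)) := by
    rw [TU_apply, ← LinearIsometryEquiv.inner_map_map (Uop κ) ((Uop κ).symm F),
      LinearIsometryEquiv.apply_symm_apply]
  rw [h2, h3]
  exact h1

theorem TR_weight {A : Fin d → Fin d → LI d} {c : ℝ} (hA : Coef A c) (κ : E d) (m : Lat d)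
    (hm : latE m = (2 : ℝ) • κ) : WeightR (TR A κ) := by
  refine ⟨?_, ?_, ?_⟩
  · rw [ContinuousLinearMap.isSelfAdjoint_iff_isSymmetric]
    intro u v
    change inner ℝ (TR A κ u) v = inner ℝ u (TR A κ v)
    have h : ((inner ℝ (TR A κ u) v : ℝ) : ℂ) = ((inner ℝ u (TR A κ v) : ℝ) : ℂ) := by
      rw [← inner_ofC, ← inner_ofC, ofC_TR hA κ m hm, ofC_TR hA κ m hm, TU_symm hA κ]
    exact_mod_cast h
  · have h1 : IsCompactOperator (TU A κ) :=
      ((TC_compact hA κ).comp_clm _).clm_comp _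
    exact (h1.comp_clm (ofC d)).clm_comp (reC d)
  · intro u hu
    have hx : (Uop κ).symm (ofC d u) ≠ 0 := by
      intro h0
      have h1 : ofC d u = 0 := by
        rw [← LinearIsometryEquiv.apply_symm_apply (Uop κ) (ofC d u), h0, map_zero]
      apply hu
      have h2 := re_comb u 0
      rw [map_zero, smul_zero, add_zero, h1, map_zero] at h2
      exact h2.symm
    have h1 := TC_pos hA κ _ hx
    have h2 : inner ℂ (TU A κ (ofC d u)) (ofC d u) =
        inner ℂ (TC A κ ((Uop κ).symm (ofC d u))) ((Uop κ).symm (ofC d u)) := by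
      rw [TU_apply, ← LinearIsometryEquiv.inner_map_map (Uop κ)
        (TC A κ ((Uop κ).symm (ofC d u))), LinearIsometryEquiv.apply_symm_apply]
    rw [← h2, ← ofC_TR hA κ m hm, inner_ofC, Complex.ofReal_re] at h1
    exact h1

/-- The real or the imaginary part of `U(κ) x` is not zero and solves the equation. -/
theorem exists_real_of_TC {A : Fin d → Fin d → LI d} {c : ℝ} (hA : Coef A c) (κ : E d)
    (m : Lat d) (hm : latE m = (2 : ℝ) • κ) (V : C(Tor d, ℝ)) (lam : ℝ) (x : ell d) (hx : x ≠ 0)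
    (h : TC A κ (Mhat (cplx (toInf (pot V lam))) x) = x) :
    ∃ u ∈ kerR (TR A κ) V lam, u ≠ 0 := by
  set a := pot V lam with ha
  have hG : Uop κ (Mhat (cplx (toInf a)) x) =ᵐ[torM d] fun y => (a y : ℂ) * (Uop κ x) y := by
    have h1 := Uop_Mhat κ (cplx (toInf a)) x
    have h2 : cplx (toInf a) =ᵐ[torM d] fun y => ((toInf a y : ℝ) : ℂ) :=
      ContinuousLinearMap.coeFn_compLp' Complex.ofRealCLM (toInf a)
    have h3 : toInf a =ᵐ[torM d] a := ContinuousMap.coeFn_toLp (torM d) a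
    filter_upwards [h1, h2, h3] with y h1 h2 h3
    rw [h1, h2, h3]
  have hF : TU A κ (Uop κ (Mhat (cplx (toInf a)) x)) = Uop κ x := by
    rw [TU_apply, LinearIsometryEquiv.symm_apply_apply, h]
  have hre : reC d (Uop κ (Mhat (cplx (toInf a)) x)) = mulR a (reC d (Uop κ x)) := by
    apply Lp.ext
    filter_upwards [coe_reC (Uop κ (Mhat (cplx (toInf a)) x)), hG,
      coeFn_mulR a (reC d (Uop κ x)), coe_reC (Uop κ x)] with y h1 h2 h3 h4
    rw [h1, h2, h3, h4, Complex.re_ofReal_mul]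
  have him : imC d (Uop κ (Mhat (cplx (toInf a)) x)) = mulR a (imC d (Uop κ x)) := by
    apply Lp.ext
    filter_upwards [coe_imC (Uop κ (Mhat (cplx (toInf a)) x)), hG,
      coeFn_mulR a (imC d (Uop κ x)), coe_imC (Uop κ x)] with y h1 h2 h3 h4
    rw [h1, h2, h3, h4, Complex.im_ofReal_mul]
  by_cases h0 : reC d (Uop κ x) = 0
  · refine ⟨imC d (Uop κ x), ?_, ?_⟩
    · rw [mem_kerR, ← ha, ← him, ← im_TU hA κ m hm, hF]
    · intro h1
      have h2 := decomp (Uop κ x)
      rw [h0, h1, map_zero, smul_zero, add_zero] at h2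
      exact hx ((Uop κ).map_eq_zero_iff.1 h2)
  · refine ⟨reC d (Uop κ x), ?_, h0⟩
    rw [mem_kerR, ← ha, ← hre, ← re_TU hA κ m hm, hF]

/-- An intertwining relation for the real operators holds for the complex ones. -/
theorem TU_of_TR {A : Fin d → Fin d → LI d} {c : ℝ} (hA : Coef A c) (κ κ' : E d)
    (m m' : Lat d) (hm : latE m = (2 : ℝ) • κ) (hm' : latE m' = (2 : ℝ) • κ')
    (s : LI d) (h : ∀ u : HR d, TR A κ' (mulInf s u) = mulInf s (TR A κ u))
    (F G : LC d) (hG : G =ᵐ[torM d] fun x => (s x : ℂ) * F x) :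
    TU A κ' G =ᵐ[torM d] fun x => (s x : ℂ) * (TU A κ F) x := by
  have hre : reC d G = mulInf s (reC d F) := by
    apply Lp.ext
    filter_upwards [coe_reC G, hG, coeFn_mulInf s (reC d F), coe_reC F] with y h1 h2 h3 h4
    rw [h1, h2, h3, h4, Complex.re_ofReal_mul]
  have him : imC d G = mulInf s (imC d F) := by
    apply Lp.ext
    filter_upwards [coe_imC G, hG, coeFn_mulInf s (imC d F), coe_imC F] with y h1 h2 h3 h4
    rw [h1, h2, h3, h4, Complex.im_ofReal_mul]
  have h1 : reC d (TU A κ' G) = mulInf s (reC d (TU A κ F)) := by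
    rw [re_TU hA κ' m' hm', hre, h, re_TU hA κ m hm]
  have h2 : imC d (TU A κ' G) = mulInf s (imC d (TU A κ F)) := by
    rw [im_TU hA κ' m' hm', him, h, im_TU hA κ m hm]
  have h3 := coe_reC (TU A κ' G)
  have h4 := coe_imC (TU A κ' G)
  rw [h1] at h3
  rw [h2] at h4
  filter_upwards [h3, h4, coeFn_mulInf s (reC d (TU A κ F)), coeFn_mulInf s (imC d (TU A κ F)),
    coe_reC (TU A κ F), coe_imC (TU A κ F)] with y h3 h4 h5 h6 h7 h8
  apply Complex.ext
  · rw [Complex.re_ofReal_mul, ← h3, h5, h7]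
  · rw [Complex.im_ofReal_mul, ← h4, h6, h8]

end Pool.Agent.Lib.MP_c8757e_mp
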