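import Pool.Agent.Lib.MP_c8757e_mp.GSpec

/-! FLAT, module GRes: the reduced resolvent at a simple eigenvalue. -/

open MeasureTheory Filter Topology Set
open scoped ENNReal

noncomputable section

namespace Pool.Agent.Lib.MP_c8757e_mp

variable {d : ℕ} {T : HR d →L[ℝ] HR d}

/-- `R` is the reduced resolvent: `y = R x` is orthogonal to `e` and
`y = T ((V + lam) y + x - ⟪e, x⟫ e)`. -/
structure IsRed (T : HR d →L[ℝ] HR d) (V : C(Tor d, ℝ)) (lam : ℝ) (e : HR d)
    (R : HR d →L[ℝ] HR d) : Prop where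
  sa : IsSelfAdjoint R
  orth : ∀ x, inner ℝ e (R x) = 0
  eq : ∀ x, R x = T (mulR (pot V lam) (R x) + x - (inner ℝ e x : ℝ) • e)
  uniq : ∀ x y : HR d, inner ℝ e y = 0 →
    y = T (mulR (pot V lam) y + x - (inner ℝ e x : ℝ) • e) → y = R x

/-- Fredholm alternative: `1 - K` is invertible if it is injective and `K` is compact. -/
theorem GRes_inverse {H : Type*} [NormedAddCommGroup H] [NormedSpace ℝ H] [CompleteSpace H]
    (K : H →L[ℝ] H) (hK : IsCompactOperator K) (inj : ∀ y : H, K y = y → y = 0) :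
    ∃ G : H →L[ℝ] H, (∀ y, G (y - K y) = y) ∧ (∀ z, G z - K (G z) = z) := by
  rcases IsCompactOperator.hasEigenvalue_or_mem_resolventSet hK (one_ne_zero : (1 : ℝ) ≠ 0) with h | h
  · exfalso
    obtain ⟨v, hv⟩ := h.exists_hasEigenvector
    have h1 : K v = (1 : ℝ) • v := hv.apply_eq_smul
    rw [one_smul] at h1
    exact hv.2 (inj v h1)
  · rw [spectrum.mem_resolventSet_iff] at h
    obtain ⟨u, hu⟩ := h
    have hu' : ∀ y : H, (u : H →L[ℝ] H) y = y - K y := by
      intro y
      rw [hu, map_one]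
      rfl
    refine ⟨((u⁻¹ : (H →L[ℝ] H)ˣ) : H →L[ℝ] H), ?_, ?_⟩
    · intro y
      rw [← hu' y]
      change (((u⁻¹ : (H →L[ℝ] H)ˣ) : H →L[ℝ] H) * (u : H →L[ℝ] H)) y = y
      rw [Units.inv_mul]
      rfl
    · intro z
      rw [← hu']
      change ((u : H →L[ℝ] H) * ((u⁻¹ : (H →L[ℝ] H)ˣ) : H →L[ℝ] H)) z = z
      rw [Units.mul_inv]
      rfl

theorem GRes_symm (hT : WeightR T) (x y : HR d) : inner ℝ (T x) y = inner ℝ x (T y) :=
  (ContinuousLinearMap.isSelfAdjoint_iff_isSymmetric.1 hT.sa) x y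

/-- `⟪y - T (M y), M e⟫ = 0`. -/
theorem GRes_pair (hT : WeightR T) (V : C(Tor d, ℝ)) (lam : ℝ) (e : HR d)
    (hm : e ∈ kerR T V lam) (y : HR d) :
    inner ℝ (y - T (mulR (pot V lam) y)) (mulR (pot V lam) e) = 0 := by
  rw [mem_kerR] at hm
  rw [inner_sub_left, GRes_symm hT, hm, mulR_inner, sub_self]

theorem GRes_pair_T (hT : WeightR T) (V : C(Tor d, ℝ)) (lam : ℝ) (e : HR d)
    (hm : e ∈ kerR T V lam) (x : HR d) :
    inner ℝ (T x) (mulR (pot V lam) e) = inner ℝ x e := by
  rw [mem_kerR] at hm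
  rw [GRes_symm hT, hm]

theorem GRes_pos (hT : WeightR T) (V : C(Tor d, ℝ)) (lam : ℝ) (e : HR d) (he : ‖e‖ = 1)
    (hm : e ∈ kerR T V lam) : 0 < inner ℝ e (mulR (pot V lam) e) := by
  rw [mem_kerR] at hm
  have hne : mulR (pot V lam) e ≠ 0 := by
    intro h
    rw [h, map_zero] at hm
    rw [← hm, norm_zero] at he
    exact zero_ne_one he
  have := hT.pos _ hne
  rwa [hm] at this

/-- The invertible operator `1 - T (V + lam) + e ⟪e, ·⟫`. -/
theorem GRes_inv (hT : WeightR T) (V : C(Tor d, ℝ)) (lam : ℝ) (e : HR d) (he : ‖e‖ = 1)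
    (hm : e ∈ kerR T V lam) (h1 : ∀ u ∈ kerR T V lam, ∃ a : ℝ, u = a • e) :
    ∃ G : HR d →L[ℝ] HR d,
      (∀ y, G (y - T (mulR (pot V lam) y) + (inner ℝ e y : ℝ) • e) = y) ∧
      (∀ z, G z - T (mulR (pot V lam) (G z)) + (inner ℝ e (G z) : ℝ) • e = z) := by
  have hm' : T (mulR (pot V lam) e) = e := hm
  set M := mulR (pot V lam) with hM
  set B : HR d →L[ℝ] HR d := M - (innerSL ℝ e).smulRight (M e) with hB
  have hBa : ∀ y, T (B y) = T (M y) - (inner ℝ e y : ℝ) • e := by
    intro y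
    rw [hB, sub_apply, ContinuousLinearMap.smulRight_apply, map_sub, map_smul,
      hm']
    rfl
  have hcomp : IsCompactOperator (T ∘L B) := hT.cpt.comp_clm B
  obtain ⟨G, hG1, hG2⟩ := GRes_inverse (T ∘L B) hcomp (by
    intro y hy
    have hy' : T (B y) = y := hy
    rw [hBa] at hy'
    have e1 : y - T (M y) = -((inner ℝ e y : ℝ) • e) := by
      rw [sub_eq_iff_eq_add]
      nth_rewrite 1 [← hy']
      abel
    have h2 := GRes_pair hT V lam e hm y
    rw [← hM, e1, inner_neg_left, inner_smul_left, neg_eq_zero, mul_eq_zero] at h2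
    have hpos := GRes_pos hT V lam e he hm
    have h3 : inner ℝ e y = 0 := by
      rcases h2 with h2 | h2
      · simpa using h2
      · rw [← hM] at hpos
        exact absurd h2 hpos.ne'
    rw [h3, zero_smul, neg_zero, sub_eq_zero] at e1
    obtain ⟨a, ha⟩ := h1 y e1.symm
    rw [ha, inner_smul_right, real_inner_self_eq_norm_sq, he, one_pow, mul_one] at h3
    rw [ha, h3, zero_smul])
  refine ⟨G, ?_, ?_⟩
  · intro y
    have := hG1 y
    change G (y - T (B y)) = y at this
    rw [hBa] at this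
    rw [sub_sub_eq_add_sub] at this
    rw [sub_add_eq_add_sub]
    exact this
  · intro z
    have := hG2 z
    change G z - T (B (G z)) = z at this
    rw [hBa] at this
    rw [sub_sub_eq_add_sub] at this
    rw [sub_add_eq_add_sub]
    exact this

/-- `F = 1 - T (V + lam)` is Fredholm of index `0` (`T (V + lam)` is compact), `ker F = ℝ e`; it is
injective and bounded below on `e^⊥`; its range is the orthogonal complement of `ker F* = ℝ (V+lam) e`
(note `T (V + lam) e = e`), and `⟪T x', (V + lam) e⟫ = ⟪x', e⟫ = 0` for `x' = x - ⟪e, x⟫ e`. So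
`F y = T x'` has exactly one solution `y = R x ⟂ e`, bounded in `x`. Self-adjoint: with
`h = (V + lam) y + x'`, `y = T h` and the same for `x₂`: `⟪y, h₂⟫ = ⟪h, y₂⟫`. -/
theorem exists_red (hT : WeightR T) (V : C(Tor d, ℝ)) (lam : ℝ) (e : HR d) (he : ‖e‖ = 1)
    (hm : e ∈ kerR T V lam) (h1 : ∀ u ∈ kerR T V lam, ∃ a : ℝ, u = a • e) :
    ∃ R : HR d →L[ℝ] HR d, IsRed T V lam e R := by
  obtain ⟨G, hG1, hG2⟩ := GRes_inv hT V lam e he hm h1
  set P : HR d →L[ℝ] HR d := ContinuousLinearMap.id ℝ (HR d) - (innerSL ℝ e).smulRight e with hP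
  have hPa : ∀ x, P x = x - (inner ℝ e x : ℝ) • e := by
    intro x
    rw [hP, sub_apply, ContinuousLinearMap.smulRight_apply]
    rfl
  have hee : inner ℝ e e = (1 : ℝ) := by
    rw [real_inner_self_eq_norm_sq, he, one_pow]
  have horth : ∀ x, inner ℝ e (G (T (P x))) = 0 := by
    intro x
    have h2 : (inner ℝ (G (T (P x)) - T (mulR (pot V lam) (G (T (P x)))) +
        (inner ℝ e (G (T (P x))) : ℝ) • e) (mulR (pot V lam) e) : ℝ) =
        inner ℝ (T (P x)) (mulR (pot V lam) e) := by rw [hG2]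
    rw [inner_add_left, GRes_pair hT V lam e hm, inner_smul_left, GRes_pair_T hT V lam e hm,
      hPa, inner_sub_left, inner_smul_left, hee, real_inner_comm e x, zero_add] at h2
    have h3 : inner ℝ e (G (T (x - (inner ℝ e x : ℝ) • e))) * inner ℝ e (mulR (pot V lam) e) = 0 := by
      simpa using h2
    rcases mul_eq_zero.1 h3 with h4 | h4
    · rw [hPa]
      exact h4
    · exact absurd h4 (GRes_pos hT V lam e he hm).ne'
  have heq : ∀ x, G (T (P x)) =
      T (mulR (pot V lam) (G (T (P x))) + x - (inner ℝ e x : ℝ) • e) := by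
    intro x
    have h2 := hG2 (T (P x))
    rw [horth x, zero_smul, add_zero, sub_eq_iff_eq_add] at h2
    rw [add_sub_assoc, ← hPa, map_add, add_comm (T (mulR (pot V lam) (G (T (P x)))))]
    exact h2
  refine ⟨G ∘L T ∘L P, ?_, horth, heq, ?_⟩
  · rw [ContinuousLinearMap.isSelfAdjoint_iff_isSymmetric]
    intro x z
    change inner ℝ (G (T (P x))) z = inner ℝ x (G (T (P z)))
    have e1 := heq x
    have e2 := heq z
    have o1 := horth x
    have o2 := horth z
    set y := G (T (P x)) with hy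
    set w := G (T (P z)) with hw
    have k1 : inner ℝ y (mulR (pot V lam) w + z - (inner ℝ e z : ℝ) • e)
        = inner ℝ (mulR (pot V lam) y + x - (inner ℝ e x : ℝ) • e) w := by
      conv_lhs => rw [e1]
      rw [GRes_symm hT, ← e2]
    have o1' : inner ℝ y e = 0 := by rw [real_inner_comm]; exact o1
    rw [inner_sub_right, inner_add_right, inner_smul_right, o1', inner_sub_left, inner_add_left,
      inner_smul_left, o2, mulR_inner] at k1
    simp only [mul_zero, sub_zero] at k1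
    linarith
  · intro x y hy1 hy2
    have h2 := hG1 y
    rw [hy1, zero_smul, add_zero] at h2
    change y = G (T (P x))
    rw [← h2]
    congr 1
    rw [hPa]
    nth_rewrite 1 [hy2]
    rw [add_sub_assoc, map_add]
    abel

/-- `1 - T (V + lam)` is bounded below on `e^⊥`. -/
theorem bounded_below (hT : WeightR T) (V : C(Tor d, ℝ)) (lam : ℝ) (e : HR d) (he : ‖e‖ = 1)
    (h1 : ∀ u ∈ kerR T V lam, ∃ a : ℝ, u = a • e) :
    ∃ δ > 0, ∀ y : HR d, inner ℝ e y = 0 → δ * ‖y‖ ≤ ‖y - T (mulR (pot V lam) y)‖ := by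
  have key : ∃ G : HR d →L[ℝ] HR d, ∀ y : HR d, inner ℝ e y = 0 →
      G (y - T (mulR (pot V lam) y)) = y := by
    by_cases hm : e ∈ kerR T V lam
    · obtain ⟨G, hG1, -⟩ := GRes_inv hT V lam e he hm h1
      refine ⟨G, fun y hy => ?_⟩
      have := hG1 y
      rwa [hy, zero_smul, add_zero] at this
    · have hcomp : IsCompactOperator (T ∘L mulR (pot V lam)) := hT.cpt.comp_clm _
      obtain ⟨G, hG1, -⟩ := GRes_inverse (T ∘L mulR (pot V lam)) hcomp (by
        intro y hy
        obtain ⟨a, ha⟩ := h1 y hy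
        by_cases h0 : a = 0
        · rw [ha, h0, zero_smul]
        · exfalso
          apply hm
          have hyk : y ∈ kerR T V lam := hy
          rw [ha] at hyk
          exact ((kerR T V lam).smul_mem_iff h0).1 hyk)
      exact ⟨G, fun y _ => hG1 y⟩
  obtain ⟨G, hG⟩ := key
  have hpos : (0 : ℝ) < ‖G‖ + 1 := by positivity
  refine ⟨1 / (‖G‖ + 1), by positivity, fun y hy => ?_⟩
  have h2 : ‖y‖ ≤ ‖G‖ * ‖y - T (mulR (pot V lam) y)‖ := by
    conv_lhs => rw [← hG y hy]
    exact G.le_opNorm _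
  rw [one_div, inv_mul_le_iff₀ hpos]
  have := norm_nonneg (y - T (mulR (pot V lam) y))
  nlinarith

end Pool.Agent.Lib.MP_c8757e_mp
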