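import Pool.Agent.Lib.MP_c8757e_mp.GCount

/-! FLAT, module GSel: selection of an open set with one common eigenvalue of constant
multiplicities. -/

open MeasureTheory Filter Topology Set
open scoped ENNReal

noncomputable section

namespace Pool.Agent.Lib.MP_c8757e_mp

variable {d : ℕ} {T₀ T₁ : HR d →L[ℝ] HR d}

private theorem GSel_le_finrank {T : HR d →L[ℝ] HR d} (hT : WeightR T) {V : C(Tor d, ℝ)}
    {lam : ℝ} {k : ℕ} {u : Fin k → HR d} (ho : Orthonormal ℝ u)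
    (hu : ∀ i, u i ∈ kerR T V lam) : k ≤ Module.finrank ℝ (kerR T V lam) := by
  have hfin := kerR_finiteDimensional hT V lam
  have hli : LinearIndependent ℝ (fun i => (⟨u i, hu i⟩ : kerR T V lam)) := by
    refine LinearIndependent.of_comp (kerR T V lam).subtype ?_
    exact ho.linearIndependent
  have := hli.fintype_card_le_finrank
  rwa [Fintype.card_fin] at this

private theorem GSel_basis {T : HR d →L[ℝ] HR d} (hT : WeightR T) {V : C(Tor d, ℝ)}
    {lam : ℝ} {k : ℕ} (hk : k ≤ Module.finrank ℝ (kerR T V lam)) :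
    ∃ u : Fin k → HR d, Orthonormal ℝ u ∧ ∀ i, u i ∈ kerR T V lam := by
  have hfin := kerR_finiteDimensional hT V lam
  let B := stdOrthonormalBasis ℝ (kerR T V lam)
  refine ⟨fun i => (B (Fin.castLE hk i) : HR d), ?_, fun i => (B (Fin.castLE hk i)).2⟩
  have h1 := B.orthonormal.comp_linearIsometry (kerR T V lam).subtypeₗᵢ
  exact h1.comp _ (Fin.castLE_injective hk)

/-- The dimension of the kernel is upper semicontinuous in the potential and the eigenvalue. -/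
private theorem GSel_isClosed_dim {T : HR d →L[ℝ] HR d} (hT : WeightR T) (k : ℕ) :
    IsClosed {p : C(Tor d, ℝ) × ℝ | k ≤ Module.finrank ℝ (kerR T p.1 p.2)} := by
  refine IsSeqClosed.isClosed fun p p₀ hp hlim => ?_
  choose u ho hu using fun m => GSel_basis hT (hp m)
  have h1 : Tendsto (fun m => (p m).1) atTop (𝓝 p₀.1) :=
    (continuous_fst.tendsto p₀).comp hlim
  have h2 : Tendsto (fun m => (p m).2) atTop (𝓝 p₀.2) :=
    (continuous_snd.tendsto p₀).comp hlim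
  obtain ⟨φ, u₀, _, ho₀, hk₀, _⟩ := orthonormal_limit hT k (fun m => (p m).1) p₀.1 h1
    (fun m _ => (p m).2) (fun _ => p₀.2) (fun _ => h2) u ho hu
  exact GSel_le_finrank hT ho₀ hk₀

private theorem GSel_pos {T : HR d →L[ℝ] HR d} (hT : WeightR T) {V : C(Tor d, ℝ)} {lam : ℝ}
    (h : ∃ u ∈ kerR T V lam, u ≠ 0) : 0 < Module.finrank ℝ (kerR T V lam) := by
  have hfin := kerR_finiteDimensional hT V lam
  obtain ⟨u, hu, hu0⟩ := h
  rw [Module.finrank_pos_iff_exists_ne_zero]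
  exact ⟨⟨u, hu⟩, fun h0 => hu0 (congrArg Subtype.val h0)⟩

/-- The open sets of potentials on which all have a common eigenvalue in `[a, b]`. -/
private def GSelP (T₀ T₁ : HR d →L[ℝ] HR d) {X : Type*} [TopologicalSpace X]
    (j : X → C(Tor d, ℝ)) (n : ℕ) : Prop :=
  ∃ (U : Set X) (a b : ℝ) (V₀ : X), IsOpen U ∧ V₀ ∈ U ∧
    (∀ V ∈ U, ∃ lam ∈ Icc a b, Common T₀ T₁ (j V) lam) ∧ Dnum T₀ T₁ (j V₀) a b = n

private theorem GSel_open_lt (h₀ : WeightR T₀) (h₁ : WeightR T₁) {X : Type*} [TopologicalSpace X]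
    {j : X → C(Tor d, ℝ)} (hj : Continuous j) (a b : ℝ) (k : ℕ) :
    IsOpen {V : X | Dnum T₀ T₁ (j V) a b < k} := by
  have h := ((isClosed_le_Dnum h₀ h₁ a b k).preimage hj).isOpen_compl
  have he : {V : X | Dnum T₀ T₁ (j V) a b < k} =
      (j ⁻¹' {V : C(Tor d, ℝ) | k ≤ Dnum T₀ T₁ V a b})ᶜ := by
    ext V
    exact (not_le (a := k) (b := Dnum T₀ T₁ (j V) a b)).symm
  rw [he]
  exact h

private theorem GSel_open_notbad (h₀ : WeightR T₀) (h₁ : WeightR T₁) {X : Type*}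
    [TopologicalSpace X] {j : X → C(Tor d, ℝ)} (hj : Continuous j) (a b : ℝ) :
    IsOpen {V : X | ¬ ∃ lam ∈ Icc a b, Common T₀ T₁ (j V) lam} :=
  ((isClosed_bad h₀ h₁ a b).preimage hj).isOpen_compl

/-- Uniqueness of the common eigenvalue. -/
private theorem GSel_unique (h₀ : WeightR T₀) (h₁ : WeightR T₁) {X : Type*} [TopologicalSpace X]
    {j : X → C(Tor d, ℝ)} (hj : Continuous j) {D : ℕ} (hmin : ∀ n, GSelP T₀ T₁ j n → D ≤ n)
    {U : Set X} (hU : IsOpen U) {a b : ℝ}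
    (hbad : ∀ V ∈ U, ∃ lam ∈ Icc a b, Common T₀ T₁ (j V) lam)
    (hD : ∀ V ∈ U, Dnum T₀ T₁ (j V) a b = D) {V : X} (hV : V ∈ U) {lam₁ lam₂ : ℝ}
    (h1 : lam₁ ∈ Icc a b) (h2 : lam₂ ∈ Icc a b) (hc1 : Common T₀ T₁ (j V) lam₁)
    (hc2 : Common T₀ T₁ (j V) lam₂) : ¬ lam₁ < lam₂ := by
  intro hlt
  obtain ⟨γ, hγ1, hγ2⟩ := exists_between hlt
  have hd1 : Dnum T₀ T₁ (j V) a γ < D := by
    rw [← hD V hV]
    exact Dnum_lt h₀ h₁ (Icc_subset_Icc le_rfl (hγ2.le.trans h2.2)) h2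
      (fun h => absurd h.2 (not_le.2 hγ2)) hc2
  have hd2 : Dnum T₀ T₁ (j V) γ b < D := by
    rw [← hD V hV]
    exact Dnum_lt h₀ h₁ (Icc_subset_Icc (h1.1.trans hγ1.le) le_rfl) h1
      (fun h => absurd h.1 (not_le.2 hγ1)) hc1
  have hU2 : IsOpen (U ∩ {V : X | Dnum T₀ T₁ (j V) a γ < D} ∩
      {V : X | Dnum T₀ T₁ (j V) γ b < D}) :=
    (hU.inter (GSel_open_lt h₀ h₁ hj a γ D)).inter (GSel_open_lt h₀ h₁ hj γ b D)
  by_cases hall : ∀ V' ∈ U ∩ {V : X | Dnum T₀ T₁ (j V) a γ < D} ∩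
      {V : X | Dnum T₀ T₁ (j V) γ b < D}, ∃ lam ∈ Icc a γ, Common T₀ T₁ (j V') lam
  · have h3 := hmin _ ⟨_, a, γ, V, hU2, ⟨⟨hV, hd1⟩, hd2⟩, hall, rfl⟩
    omega
  · push Not at hall
    obtain ⟨V', hV', hno⟩ := hall
    have hno' : ¬ ∃ lam ∈ Icc a γ, Common T₀ T₁ (j V') lam := by
      rintro ⟨lam, hl, hc⟩
      exact hno lam hl hc
    have h3 := hmin _ ⟨_, γ, b, V', hU2.inter (GSel_open_notbad h₀ h₁ hj a γ), ⟨hV', hno'⟩,
      fun W hW => ?_, rfl⟩
    · have h4 : Dnum T₀ T₁ (j V') γ b < D := hV'.2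
      omega
    · obtain ⟨lam, hl, hc⟩ := hbad W hW.1.1.1
      refine ⟨lam, ⟨?_, hl.2⟩, hc⟩
      by_contra hlt'
      exact hW.2 ⟨lam, ⟨hl.1, (not_le.1 hlt').le⟩, hc⟩

/-- Among all `(U, a, b, V₀)`, `U` open, `V₀ ∈ U`, every `V ∈ U` with a common eigenvalue in
`[a, b]`, choose one with `Dnum (j V₀) a b` minimal. By `isClosed_le_Dnum` and minimality `Dnum` is
constant `= D` on a neighbourhood (call it `U` again). Every `V ∈ U` has exactly one common
eigenvalue in `[a, b]`: if `lam₁ < lam₂` are common at `V`, choose `γ` between them, not an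
eigenvalue of the first problem at `V` (`eig_finite`), hence not near `V` either; on a small
neighbourhood `U''` of `V` every potential is bad for `[a, γ]` or for `[γ, b]` (closed sets, choose `U''`
so small that also `Dnum V' γ b < D` for `V' ∈ U''`, `isClosed_le_Dnum`), and
`Dnum V a γ, Dnum V γ b < D` (`Dnum_lt`), also near `V` for the second (`isClosed_le_Dnum`); if all of
`U''` is bad for `[a, γ]` this contradicts minimality, otherwise an open subset of `U''` is bad for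
`[γ, b]`, contradiction again. The common eigenvalue `lamF V` is continuous (closed graph in the
compact `[a, b]`: `isClosed_bad` for subintervals), and both dimensions are upper semicontinuous
(`orthonormal_limit`) with constant sum (`Dnum_eq`), so locally constant. -/
theorem exists_selection (h₀ : WeightR T₀) (h₁ : WeightR T₁) {X : Type*} [TopologicalSpace X]
    (j : X → C(Tor d, ℝ)) (hj : Continuous j) (a b : ℝ)
    (hb : (interior {V : X | ∃ lam ∈ Icc a b, Common T₀ T₁ (j V) lam}).Nonempty) :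
    ∃ (U : Set X) (lamF : X → ℝ) (m₀ m₁ : ℕ), IsOpen U ∧ U.Nonempty ∧ ContinuousOn lamF U ∧
      0 < m₀ ∧ 0 < m₁ ∧ ∀ V ∈ U, Module.finrank ℝ (kerR T₀ (j V) (lamF V)) = m₀ ∧
        Module.finrank ℝ (kerR T₁ (j V) (lamF V)) = m₁ := by
  classical
  have hex : ∃ n, GSelP T₀ T₁ j n := by
    obtain ⟨V₀, hV₀⟩ := hb
    refine ⟨_, _, a, b, V₀, isOpen_interior, hV₀, fun V hV => ?_, rfl⟩
    have h : V ∈ {V : X | ∃ lam ∈ Icc a b, Common T₀ T₁ (j V) lam} := interior_subset hV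
    exact h
  obtain ⟨D, hDP, hmin⟩ : ∃ D, GSelP T₀ T₁ j D ∧ ∀ n, GSelP T₀ T₁ j n → D ≤ n :=
    ⟨Nat.find hex, Nat.find_spec hex, fun n hn => Nat.find_min' hex hn⟩
  obtain ⟨U₀, a, b, V₀, hU₀, hV₀, hbad₀, hD₀⟩ := hDP
  set U : Set X := U₀ ∩ {V : X | Dnum T₀ T₁ (j V) a b < D + 1} with hUdef
  have hU : IsOpen U := hU₀.inter (GSel_open_lt h₀ h₁ hj a b (D + 1))
  have hV₀U : V₀ ∈ U := ⟨hV₀, by
    show Dnum T₀ T₁ (j V₀) a b < D + 1
    omega⟩
  have hbad : ∀ V ∈ U, ∃ lam ∈ Icc a b, Common T₀ T₁ (j V) lam := fun V hV => hbad₀ V hV.1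
  have hD : ∀ V ∈ U, Dnum T₀ T₁ (j V) a b = D := by
    intro V hV
    have h1 := hmin _ ⟨U₀, a, b, V, hU₀, hV.1, hbad₀, rfl⟩
    have h2 : Dnum T₀ T₁ (j V) a b < D + 1 := hV.2
    omega
  have huniq : ∀ V ∈ U, ∀ lam₁ ∈ Icc a b, ∀ lam₂ ∈ Icc a b, Common T₀ T₁ (j V) lam₁ →
      Common T₀ T₁ (j V) lam₂ → lam₁ = lam₂ := by
    intro V hV lam₁ h1 lam₂ h2 hc1 hc2
    rcases lt_trichotomy lam₁ lam₂ with h | h | h
    · exact absurd h (GSel_unique h₀ h₁ hj hmin hU hbad hD hV h1 h2 hc1 hc2)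
    · exact h
    · exact absurd h (GSel_unique h₀ h₁ hj hmin hU hbad hD hV h2 h1 hc2 hc1)
  choose! lamF hlam hcom using hbad
  have hcont : ContinuousOn lamF U := by
    intro V hV
    refine tendsto_order.2 ⟨fun c hc => ?_, fun c hc => ?_⟩
    · have hnot : ¬ ∃ lam ∈ Icc a c, Common T₀ T₁ (j V) lam := by
        rintro ⟨lam, hl, hcl⟩
        have := huniq V hV lam ⟨hl.1, hl.2.trans (hc.le.trans (hlam V hV).2)⟩ _ (hlam V hV) hcl
          (hcom V hV)
        have h3 := hl.2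
        rw [this] at h3
        exact absurd h3 (not_le.2 hc)
      have hnb : {W : X | ¬ ∃ lam ∈ Icc a c, Common T₀ T₁ (j W) lam} ∈ 𝓝[U] V :=
        mem_nhdsWithin_of_mem_nhds ((GSel_open_notbad h₀ h₁ hj a c).mem_nhds hnot)
      filter_upwards [hnb, self_mem_nhdsWithin] with W hW hWU
      by_contra hle
      exact hW ⟨lamF W, ⟨(hlam W hWU).1, not_lt.1 hle⟩, hcom W hWU⟩
    · have hnot : ¬ ∃ lam ∈ Icc c b, Common T₀ T₁ (j V) lam := by
        rintro ⟨lam, hl, hcl⟩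
        have := huniq V hV lam ⟨((hlam V hV).1.trans hc.le).trans hl.1, hl.2⟩ _ (hlam V hV) hcl
          (hcom V hV)
        have h3 := hl.1
        rw [this] at h3
        exact absurd h3 (not_le.2 hc)
      have hnb : {W : X | ¬ ∃ lam ∈ Icc c b, Common T₀ T₁ (j W) lam} ∈ 𝓝[U] V :=
        mem_nhdsWithin_of_mem_nhds ((GSel_open_notbad h₀ h₁ hj c b).mem_nhds hnot)
      filter_upwards [hnb, self_mem_nhdsWithin] with W hW hWU
      by_contra hle
      exact hW ⟨lamF W, ⟨not_lt.1 hle, (hlam W hWU).2⟩, hcom W hWU⟩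
  have hsum : ∀ V ∈ U, Module.finrank ℝ (kerR T₀ (j V) (lamF V)) +
      Module.finrank ℝ (kerR T₁ (j V) (lamF V)) = D := by
    intro V hV
    rw [← hD V hV]
    exact (Dnum_eq h₀ h₁ (hlam V hV) (hcom V hV) fun μ hμ hc =>
      huniq V hV μ hμ _ (hlam V hV) hc (hcom V hV)).symm
  -- minimise the first dimension
  have hex2 : ∃ n, ∃ V ∈ U, Module.finrank ℝ (kerR T₀ (j V) (lamF V)) = n :=
    ⟨_, V₀, hV₀U, rfl⟩
  obtain ⟨m, ⟨V₁, hV₁, hm⟩, hmmin⟩ : ∃ m, (∃ V ∈ U, Module.finrank ℝ (kerR T₀ (j V) (lamF V)) = m) ∧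
      ∀ n, (∃ V ∈ U, Module.finrank ℝ (kerR T₀ (j V) (lamF V)) = n) → m ≤ n :=
    ⟨Nat.find hex2, Nat.find_spec hex2, fun n hn => Nat.find_min' hex2 hn⟩
  have hpair : ContinuousOn (fun V : X => (j V, lamF V)) U := hj.continuousOn.prodMk hcont
  have hopen := hpair.isOpen_inter_preimage hU (GSel_isClosed_dim h₀ (m + 1)).isOpen_compl
  refine ⟨_, lamF, m, D - m, hopen, ⟨V₁, hV₁, ?_⟩, hcont.mono inter_subset_left, ?_, ?_, ?_⟩
  · show ¬ (m + 1 ≤ Module.finrank ℝ (kerR T₀ (j V₁) (lamF V₁)))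
    omega
  · rw [← hm]
    exact GSel_pos h₀ (hcom V₁ hV₁).1
  · have h1 := hsum V₁ hV₁
    have h2 := GSel_pos h₁ (hcom V₁ hV₁).2
    omega
  · rintro V ⟨hVU, hV⟩
    have h1 : ¬ (m + 1 ≤ Module.finrank ℝ (kerR T₀ (j V) (lamF V))) := hV
    have h2 := hmmin _ ⟨V, hVU, rfl⟩
    have h3 := hsum V hVU
    constructor
    · omega
    · omega


end Pool.Agent.Lib.MP_c8757e_mp
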