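import Pool.Agent.Lib.MP_c8757e_mp.GMul

/-! FLAT, module GSpec: compactness of eigenvectors of `u = T ((V + lam) u)`. -/

open MeasureTheory Filter Topology Set
open scoped ENNReal

noncomputable section

namespace Pool.Agent.Lib.MP_c8757e_mp

variable {d : ℕ} {T : HR d →L[ℝ] HR d}

/-- `u = T h`, `h = (V + lam) u`, `v = T k`, `k = (V + μ) v`: `⟪u, k⟫ = ⟪h, v⟫`. -/
theorem kerR_orthogonal (hT : WeightR T) (V : C(Tor d, ℝ)) {lam μ : ℝ} (hne : lam ≠ μ)
    {u v : HR d} (hu : u ∈ kerR T V lam) (hv : v ∈ kerR T V μ) : inner ℝ u v = 0 := by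
  rw [mem_kerR] at hu hv
  have hs : inner ℝ (T (mulR (pot V lam) u)) (mulR (pot V μ) v) =
      inner ℝ (mulR (pot V lam) u) (T (mulR (pot V μ) v)) := hT.sa.isSymmetric _ _
  rw [hu, hv, mulR_pot, mulR_pot, inner_add_right, inner_add_left, inner_smul_right,
    real_inner_smul_left, mulR_inner] at hs
  have h1 : (μ - lam) * inner ℝ u v = 0 := by linarith
  rcases mul_eq_zero.mp h1 with h2 | h2
  · exact absurd (by linarith) hne
  · exact h2

/-- bound for the potential times a vector -/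
theorem GSpec_norm_le (V : C(Tor d, ℝ)) (lam : ℝ) (u : HR d) :
    ‖mulR (pot V lam) u‖ ≤ (‖V‖ + |lam|) * ‖u‖ := by
  rw [mulR_pot]
  calc ‖mulR V u + lam • u‖ ≤ ‖mulR V u‖ + ‖lam • u‖ := norm_add_le _ _
    _ ≤ ‖V‖ * ‖u‖ + |lam| * ‖u‖ := by
        refine add_le_add ?_ ?_
        · exact ((mulR V).le_opNorm u).trans (mul_le_mul_of_nonneg_right (mulR_norm_le V)
            (norm_nonneg u))
        · rw [norm_smul, Real.norm_eq_abs]
    _ = (‖V‖ + |lam|) * ‖u‖ := by ring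

/-- unit vectors in the kernels lie in a compact set -/
theorem GSpec_mem (V : C(Tor d, ℝ)) {lam R : ℝ} {u : HR d} (hR : (‖V‖ + |lam|) * ‖u‖ ≤ R)
    (hu : u ∈ kerR T V lam) : u ∈ closure (T '' Metric.closedBall 0 R) := by
  refine subset_closure ⟨mulR (pot V lam) u, ?_, hu⟩
  rw [mem_closedBall_zero_iff]
  exact (GSpec_norm_le V lam u).trans hR

theorem GSpec_compact (hT : WeightR T) (R : ℝ) :
    IsCompact (closure (T '' Metric.closedBall 0 R)) :=
  hT.cpt.isCompact_closure_image_closedBall R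

theorem GSpec_continuous : Continuous (mulR : C(Tor d, ℝ) → HR d →L[ℝ] HR d) := by
  have h1 : Continuous fun s : LI d => ((ContinuousLinearMap.mul ℝ ℝ).holderL (torM d) ∞ 2 2) s :=
    ((ContinuousLinearMap.mul ℝ ℝ).holderL (torM d) ∞ 2 2).continuous
  exact h1.comp (toInf (d := d)).continuous

theorem GSpec_lim {V : ℕ → C(Tor d, ℝ)} {V₀ : C(Tor d, ℝ)} (hV : Tendsto V atTop (𝓝 V₀))
    {lam : ℕ → ℝ} {L : ℝ} (hl : Tendsto lam atTop (𝓝 L)) {u : ℕ → HR d} {u₀ : HR d}
    (hu : Tendsto u atTop (𝓝 u₀)) (hk : ∀ m, u m ∈ kerR T (V m) (lam m)) : u₀ ∈ kerR T V₀ L := by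
  rw [mem_kerR]
  have h0 : Tendsto (fun m => mulR (V m)) atTop (𝓝 (mulR V₀)) :=
    (GSpec_continuous.tendsto V₀).comp hV
  have hb : Continuous fun p : (HR d →L[ℝ] HR d) × HR d => p.1 p.2 :=
    isBoundedBilinearMap_apply.continuous
  have h1 : Tendsto (fun m => mulR (V m) (u m)) atTop (𝓝 (mulR V₀ u₀)) :=
    (hb.tendsto (mulR V₀, u₀)).comp (h0.prodMk_nhds hu)
  have h2 : Tendsto (fun m => mulR (pot (V m) (lam m)) (u m)) atTop
      (𝓝 (mulR (pot V₀ L) u₀)) := by
    simp only [mulR_pot]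
    exact h1.add (hl.smul hu)
  have h3 : Tendsto (fun m => T (mulR (pot (V m) (lam m)) (u m))) atTop
      (𝓝 (T (mulR (pot V₀ L) u₀))) := (T.continuous.tendsto _).comp h2
  refine tendsto_nhds_unique (h3.congr fun m => ?_) hu
  exact hk m

/-- One vector: if `V_m → V`, `lam_m → L`, `u_m` unit vectors in the kernels, a subsequence of `u_m`
converges (`T` is compact) and the limit is a unit vector in the kernel at `(V, L)`. For finitely
many vectors pass to subsequences successively; orthonormality passes to the limit. -/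
theorem orthonormal_limit (hT : WeightR T) (k : ℕ) (V : ℕ → C(Tor d, ℝ)) (V₀ : C(Tor d, ℝ))
    (hV : Tendsto V atTop (𝓝 V₀)) (lam : ℕ → Fin k → ℝ) (L : Fin k → ℝ)
    (hl : ∀ i, Tendsto (fun m => lam m i) atTop (𝓝 (L i))) (u : ℕ → Fin k → HR d)
    (ho : ∀ m, Orthonormal ℝ (u m)) (hu : ∀ m i, u m i ∈ kerR T (V m) (lam m i)) :
    ∃ (φ : ℕ → ℕ) (u₀ : Fin k → HR d), StrictMono φ ∧ Orthonormal ℝ u₀ ∧
      (∀ i, u₀ i ∈ kerR T V₀ (L i)) ∧ ∀ i, Tendsto (fun m => u (φ m) i) atTop (𝓝 (u₀ i)) := by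
  obtain ⟨R₁, hR₁⟩ := (hV.norm).bddAbove_range
  have hb : ∀ i, ∃ R₂ : ℝ, ∀ m, |lam m i| ≤ R₂ := by
    intro i
    obtain ⟨R₂, hR₂⟩ := ((hl i).abs).bddAbove_range
    exact ⟨R₂, fun m => hR₂ ⟨m, rfl⟩⟩
  choose R₂ hR₂ using hb
  have hR₂0 : ∀ i, 0 ≤ R₂ i := fun i => (abs_nonneg _).trans (hR₂ i 0)
  have hK : IsCompact (Set.pi univ fun _ : Fin k =>
      closure (T '' Metric.closedBall 0 (R₁ + ∑ j, R₂ j))) :=
    isCompact_univ_pi fun _ => GSpec_compact hT _
  have hmem : ∀ m, u m ∈ Set.pi univ fun _ : Fin k =>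
      closure (T '' Metric.closedBall 0 (R₁ + ∑ j, R₂ j)) := by
    intro m i _
    refine GSpec_mem (V m) ?_ (hu m i)
    rw [(ho m).1 i, mul_one]
    refine add_le_add (hR₁ ⟨m, rfl⟩) ((hR₂ i m).trans ?_)
    exact Finset.single_le_sum (f := R₂) (fun j _ => hR₂0 j) (Finset.mem_univ i)
  obtain ⟨u₀, -, φ, hφ, hlim⟩ := hK.tendsto_subseq hmem
  have hlim' : ∀ i, Tendsto (fun m => u (φ m) i) atTop (𝓝 (u₀ i)) := fun i =>
    (tendsto_pi_nhds.mp hlim) i
  refine ⟨φ, u₀, hφ, ?_, fun i => ?_, hlim'⟩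
  · classical
    rw [orthonormal_iff_ite]
    intro i j
    have h1 : Tendsto (fun m => inner ℝ (u (φ m) i) (u (φ m) j)) atTop
        (𝓝 (inner ℝ (u₀ i) (u₀ j))) := (hlim' i).inner (hlim' j)
    refine tendsto_nhds_unique h1 ?_
    refine tendsto_const_nhds.congr fun m => ?_
    exact ((orthonormal_iff_ite.mp (ho (φ m))) i j).symm
  · exact GSpec_lim (hV.comp hφ.tendsto_atTop) ((hl i).comp hφ.tendsto_atTop) (hlim' i)
      fun m => hu (φ m) i

theorem kerR_finiteDimensional (hT : WeightR T) (V : C(Tor d, ℝ)) (lam : ℝ) :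
    FiniteDimensional ℝ (kerR T V lam) := by
  have hclosed : IsClosed (kerR T V lam : Set (HR d)) := by
    have h1 : (kerR T V lam : Set (HR d)) = {u | T (mulR (pot V lam) u) = u} := rfl
    rw [h1]
    exact isClosed_eq (T.continuous.comp (mulR (pot V lam)).continuous) continuous_id
  refine FiniteDimensional.of_isCompact_closedBall (𝕜 := ℝ) zero_lt_one (r := 1)
    (c := (0 : kerR T V lam)) ?_
  rw [Subtype.isCompact_iff]
  refine (GSpec_compact hT (‖V‖ + |lam|)).of_isClosed_subset ?_ ?_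
  · have h2 : (Subtype.val '' (Metric.closedBall (0 : kerR T V lam) 1) : Set (HR d)) =
        (kerR T V lam : Set (HR d)) ∩ Metric.closedBall 0 1 := by
      ext u
      constructor
      · rintro ⟨v, hv, rfl⟩
        refine ⟨v.2, ?_⟩
        rw [mem_closedBall_zero_iff] at hv ⊢
        exact hv
      · rintro ⟨hu, hu1⟩
        refine ⟨⟨u, hu⟩, ?_, rfl⟩
        rw [mem_closedBall_zero_iff] at hu1 ⊢
        exact hu1
    rw [h2]
    exact hclosed.inter Metric.isClosed_closedBall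
  · rintro _ ⟨v, hv, rfl⟩
    rw [mem_closedBall_zero_iff] at hv
    refine GSpec_mem V ?_ v.2
    have h3 : ‖(v : HR d)‖ ≤ 1 := hv
    have h4 : 0 ≤ ‖V‖ + |lam| := by positivity
    nlinarith

/-- The number of orthonormal eigenvectors with eigenvalues in a bounded interval is bounded: an
infinite orthonormal sequence of eigenvectors has a convergent subsequence (`T` compact). -/
theorem orthonormal_bounded (hT : WeightR T) (V : C(Tor d, ℝ)) (a b : ℝ) :
    ∃ M : ℕ, ∀ (k : ℕ) (u : Fin k → HR d) (lam : Fin k → ℝ), Orthonormal ℝ u →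
      (∀ i, lam i ∈ Icc a b) → (∀ i, u i ∈ kerR T V (lam i)) → k ≤ M := by
  classical
  obtain ⟨t, -, htf, hcov⟩ := (GSpec_compact hT (‖V‖ + max |a| |b|)).finite_cover_balls
    (show (0 : ℝ) < 1 / 2 by norm_num)
  refine ⟨htf.toFinset.card, fun k u lam ho hl hu => ?_⟩
  have hc : ∀ i, ∃ x ∈ t, u i ∈ Metric.ball x (1 / 2) := by
    intro i
    have h1 : u i ∈ closure (T '' Metric.closedBall 0 (‖V‖ + max |a| |b|)) := by
      refine GSpec_mem V ?_ (hu i)
      rw [ho.1 i, mul_one]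
      exact add_le_add le_rfl (abs_le_max_abs_abs (hl i).1 (hl i).2)
    have h2 := hcov h1
    rw [mem_iUnion₂] at h2
    obtain ⟨x, hx, hx2⟩ := h2
    exact ⟨x, hx, hx2⟩
  choose c hct hcb using hc
  have hinj : Function.Injective c := by
    intro i j hij
    by_contra hne
    have h1 := Metric.mem_ball.mp (hcb i)
    have h2 := Metric.mem_ball.mp (hcb j)
    have h3 : dist (u i) (u j) < 1 := by
      calc dist (u i) (u j) ≤ dist (u i) (c i) + dist (c i) (u j) := dist_triangle _ _ _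
        _ = dist (u i) (c i) + dist (u j) (c j) := by rw [hij, dist_comm (c j)]
        _ < 1 := by linarith
    rw [dist_eq_norm] at h3
    have h4 : ‖u i - u j‖ ^ 2 = 2 := by
      rw [norm_sub_sq_real, ho.1 i, ho.1 j, ho.2 hne]
      norm_num
    nlinarith [norm_nonneg (u i - u j)]
  have h5 : (Finset.univ.image c).card ≤ htf.toFinset.card := by
    refine Finset.card_le_card ?_
    intro x hx
    obtain ⟨i, -, rfl⟩ := Finset.mem_image.mp hx
    exact htf.mem_toFinset.mpr (hct i)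
  rw [Finset.card_image_of_injective _ hinj, Finset.card_univ, Fintype.card_fin] at h5
  exact h5

/-- Only finitely many eigenvalues in a bounded interval. -/
theorem eig_finite (hT : WeightR T) (V : C(Tor d, ℝ)) (a b : ℝ) :
    {lam ∈ Icc a b | ∃ u ∈ kerR T V lam, u ≠ 0}.Finite := by
  obtain ⟨M, hM⟩ := orthonormal_bounded hT V a b
  by_contra hinf
  obtain ⟨s, hs, hcard⟩ := Set.Infinite.exists_subset_card_eq hinf (M + 1)
  have hex : ∀ x : s, ∃ u ∈ kerR T V (x : ℝ), ‖u‖ = 1 := by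
    intro x
    obtain ⟨u, hu, hu0⟩ := (hs x.2).2
    refine ⟨‖u‖⁻¹ • u, Submodule.smul_mem _ _ hu, ?_⟩
    rw [norm_smul, norm_inv, norm_norm, inv_mul_cancel₀ (norm_ne_zero_iff.mpr hu0)]
  choose w hw hw1 using hex
  have e : Fin (M + 1) ≃ s := (Fintype.equivFinOfCardEq (by rw [Fintype.card_coe, hcard])).symm
  have h1 := hM (M + 1) (fun i => w (e i)) (fun i => (e i : ℝ)) ?_ ?_ ?_
  · omega
  · refine ⟨fun i => hw1 _, fun i j hij => ?_⟩
    refine kerR_orthogonal hT V ?_ (hw (e i)) (hw (e j))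
    intro h2
    exact hij (e.injective (Subtype.ext h2))
  · exact fun i => (hs (e i).2).1
  · exact fun i => hw (e i)

end Pool.Agent.Lib.MP_c8757e_mp
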