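import Pool.Agent.Lib.MP_c8757e_mp.BopL
import Pool.Agent.Lib.MP_c8757e_mp.Fred
import Pool.Agent.Lib.MP_c8757e_mp.GDefs

/-! FLAT, module GT: the inverse `T(κ) = W (B(κ) + N)⁻¹ W` (for `V = 0`) on coefficients. -/

open MeasureTheory Filter Topology Set
open scoped ENNReal ComplexInnerProductSpace

noncomputable section

namespace Pool.Agent.Lib.MP_c8757e_mp

variable {d : ℕ}

/-- `Q(κ) = B(κ) + N` with potential `0`. -/
def Qop (A : Fin d → Fin d → LI d) (κ : E d) : ell d →L[ℂ] ell d :=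
  Bop A 0 (toC κ) + Nop d

private theorem GT_sa_inner {S : ell d →L[ℂ] ell d} (hS : IsSelfAdjoint S) (x y : ell d) :
    inner ℂ (S x) y = inner ℂ x (S y) := by
  have h : ContinuousLinearMap.adjoint S = S := hS
  calc inner ℂ (S x) y = inner ℂ (ContinuousLinearMap.adjoint S x) y := by rw [h]
    _ = inner ℂ x (S y) := ContinuousLinearMap.adjoint_inner_left S y x

private theorem GT_Mhat_zero : Mhat (cplx (0 : LI d)) = 0 := by
  have h1 := Mhat_norm_le (cplx (0 : LI d))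
  rw [cplx_norm, norm_zero] at h1
  exact norm_le_zero_iff.mp h1

private theorem GT_Bop_zero (A : Fin d → Fin d → LI d) (k : Fin d → ℂ) :
    Bop A 0 k = ∑ j, ∑ l, Xop k j ∘L Mhat (cplx (A j l)) ∘L Xop k l := by
  unfold Bop
  rw [GT_Mhat_zero]
  simp

private theorem GT_Bop (A : Fin d → Fin d → LI d) (V : LI d) (k : Fin d → ℂ) :
    Bop A V k = Bop A 0 k - Wop d ∘L Mhat (cplx V) ∘L Wop d := by
  rw [GT_Bop_zero]
  rfl

private theorem GT_inner_Bop_zero (A : Fin d → Fin d → LI d) (κ : E d) (v : ell d) :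
    inner ℂ (Bop A 0 (toC κ) v) v = ∑ j, ∑ l,
      (inner ℂ (Mhat (cplx (A j l)) (Xop (toC κ) l v)) (Xop (toC κ) j v) : ℂ) := by
  rw [GT_Bop_zero]
  rw [sum_apply, sum_inner]
  refine Finset.sum_congr rfl (fun j _ => ?_)
  rw [sum_apply, sum_inner]
  refine Finset.sum_congr rfl (fun l _ => ?_)
  change inner ℂ (Xop (toC κ) j (Mhat (cplx (A j l)) (Xop (toC κ) l v))) v = _
  rw [GT_sa_inner (Xop_isSelfAdjoint κ j)]

/-- From `Mhat_elliptic` and `norm_Wop_sq`. -/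
theorem Qop_lower {A : Fin d → Fin d → LI d} {c : ℝ} (hA : Coef A c) (κ : E d)
    (v : ell d) : c * ∑ j, ‖Xop (toC κ) j v‖ ^ 2 + ‖Wop d v‖ ^ 2 ≤
      (inner ℂ (Qop A κ v) v).re := by
  have h1 := Mhat_elliptic hA (fun j => Xop (toC κ) j v)
  have h2 := norm_Wop_sq v
  unfold Qop
  rw [add_apply, inner_add_left, Complex.add_re, GT_inner_Bop_zero, h2]
  linarith

/-- From `Qop_lower` and `Xop_coercive`. -/
theorem Qop_coercive {A : Fin d → Fin d → LI d} {c : ℝ} (hA : Coef A c) (κ : E d) :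
    ∃ δ > 0, ∀ v : ell d, δ * ‖v‖ ^ 2 ≤ (inner ℂ (Qop A κ v) v).re := by
  have hc := hA.pos
  have hC : 0 < 4 * Real.pi ^ 2 * ‖κ‖ ^ 2 + 2 * Real.pi ^ 2 := by positivity
  set C := 4 * Real.pi ^ 2 * ‖κ‖ ^ 2 + 2 * Real.pi ^ 2 with hCdef
  refine ⟨min c (1 / C) * (2 * Real.pi ^ 2), ?_, fun v => ?_⟩
  · have : 0 < min c (1 / C) := lt_min hc (by positivity)
    positivity
  · have h1 := Qop_lower hA κ v
    have h2 := Xop_coercive κ v
    rw [← hCdef] at h2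
    have hm : 0 < min c (1 / C) := lt_min hc (by positivity)
    have hmc : min c (1 / C) ≤ c := min_le_left _ _
    have hmC : min c (1 / C) * C ≤ 1 := by
      have h0 := mul_le_mul_of_nonneg_right (min_le_right c (1 / C)) hC.le
      have h1 : 1 / C * C = 1 := by field_simp
      linarith
    have hX : 0 ≤ ∑ j, ‖Xop (toC κ) j v‖ ^ 2 := Finset.sum_nonneg (fun j _ => by positivity)
    have hW : 0 ≤ ‖Wop d v‖ ^ 2 := by positivity
    have h3 := mul_le_mul_of_nonneg_left h2 hm.le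
    have h4 := mul_le_mul_of_nonneg_right hmc hX
    have h5 := mul_le_mul_of_nonneg_right hmC hW
    nlinarith [h1, h3, h4, h5]

theorem Qop_isUnit {A : Fin d → Fin d → LI d} {c : ℝ} (hA : Coef A c) (κ : E d) :
    IsUnit (Qop A κ) := by
  obtain ⟨δ, hδ, h⟩ := Qop_coercive hA κ
  refine ContinuousLinearMap.isUnit_of_forall_le_norm_inner_map (Qop A κ)
    (c := ⟨δ, hδ.le⟩) hδ (fun v => ?_)
  calc ‖v‖ ^ 2 * δ = δ * ‖v‖ ^ 2 := mul_comm _ _
    _ ≤ (inner ℂ (Qop A κ v) v).re := h v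
    _ ≤ ‖(inner ℂ (Qop A κ v) v : ℂ)‖ := Complex.re_le_norm _

/-- `T(κ) = W Q(κ)⁻¹ W`. -/
def TC (A : Fin d → Fin d → LI d) (κ : E d) : ell d →L[ℂ] ell d :=
  Wop d ∘L Ring.inverse (Qop A κ) ∘L Wop d

/-- Characterisation of `c = T(κ) h`. -/
theorem TC_eq_iff {A : Fin d → Fin d → LI d} {c : ℝ} (hA : Coef A c) (κ : E d)
    (h x : ell d) : TC A κ h = x ↔ ∃ v : ell d, Wop d v = x ∧ Qop A κ v = Wop d h := by
  have hU := Qop_isUnit hA κ
  have e1 : ∀ y : ell d, Qop A κ (Ring.inverse (Qop A κ) y) = y := by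
    intro y
    have := Ring.mul_inverse_cancel _ hU
    have h2 := congrArg (fun S : ell d →L[ℂ] ell d => S y) this
    exact h2
  have e2 : ∀ y : ell d, Ring.inverse (Qop A κ) (Qop A κ y) = y := by
    intro y
    have := Ring.inverse_mul_cancel _ hU
    have h2 := congrArg (fun S : ell d →L[ℂ] ell d => S y) this
    exact h2
  constructor
  · intro hx
    exact ⟨Ring.inverse (Qop A κ) (Wop d h), hx, e1 _⟩
  · rintro ⟨v, hv, hQ⟩
    change Wop d (Ring.inverse (Qop A κ) (Wop d h)) = x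
    rw [← hQ, e2, hv]

private theorem GT_Qop_isSelfAdjoint {A : Fin d → Fin d → LI d} {c : ℝ} (hA : Coef A c)
    (κ : E d) : IsSelfAdjoint (Qop A κ) :=
  (Bop_isSelfAdjoint hA.symm 0 κ).add Nop_weight.sa

theorem TC_isSelfAdjoint {A : Fin d → Fin d → LI d} {c : ℝ} (hA : Coef A c) (κ : E d) :
    IsSelfAdjoint (TC A κ) := by
  have hW : star (Wop d) = Wop d := Wop_isSelfAdjoint
  have hQ : star (Qop A κ) = Qop A κ := GT_Qop_isSelfAdjoint hA κ
  change star (Wop d * (Ring.inverse (Qop A κ) * Wop d)) = Wop d * (Ring.inverse (Qop A κ) * Wop d)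
  rw [star_mul, star_mul, hW, ← Ring.inverse_star, hQ, mul_assoc]

private theorem GT_Wop_compact : IsCompactOperator (Wop d) := by
  have hN : IsCompactOperator (Nop d) := Nop_weight.cpt
  have h1 : TotallyBounded (Nop d '' Metric.closedBall 0 1) :=
    (hN.isCompact_closure_image_closedBall (f := (Nop d : ell d →ₗ[ℂ] ell d))
      1).totallyBounded.subset subset_closure
  have h2 : TotallyBounded (Wop d '' Metric.closedBall 0 1) := by
    rw [Metric.totallyBounded_iff]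
    intro ε hε
    obtain ⟨t, htsub, htf, hcov⟩ := Metric.finite_approx_of_totallyBounded h1 (ε ^ 2 / 4)
      (by positivity)
    choose! g hg using fun y (hy : y ∈ t) => htsub hy
    refine ⟨(fun y => Wop d (g y)) '' t, htf.image _, ?_⟩
    rintro _ ⟨u, hu, rfl⟩
    have h3 := hcov ⟨u, hu, rfl⟩
    simp only [mem_iUnion] at h3
    obtain ⟨y, hy, hyu⟩ := h3
    simp only [mem_iUnion]
    refine ⟨Wop d (g y), ⟨y, hy, rfl⟩, ?_⟩
    rw [Metric.mem_ball, dist_eq_norm] at hyu ⊢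
    rw [← map_sub]
    have h4 := norm_Wop_sq (u - g y)
    have h5 : (inner ℂ (Nop d (u - g y)) (u - g y)).re ≤ ‖Nop d (u - g y)‖ * ‖u - g y‖ :=
      (Complex.re_le_norm _).trans (norm_inner_le_norm _ _)
    have h6 : ‖Nop d (u - g y)‖ < ε ^ 2 / 4 := by
      rw [map_sub, (hg y hy).2]
      exact hyu
    have h7 : ‖u - g y‖ ≤ 2 := by
      have a1 : ‖u‖ ≤ 1 := by simpa using hu
      have a2 : ‖g y‖ ≤ 1 := by simpa using (hg y hy).1
      exact (norm_sub_le _ _).trans (by linarith)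
    have h8 : ‖Wop d (u - g y)‖ ^ 2 < ε ^ 2 := by
      rw [h4]
      refine h5.trans_lt ?_
      have := norm_nonneg (u - g y)
      have := norm_nonneg (Nop d (u - g y))
      nlinarith
    exact lt_of_pow_lt_pow_left₀ 2 hε.le h8
  exact (isCompactOperator_iff_isCompact_closure_image_closedBall
    (Wop d : ell d →ₗ[ℂ] ell d) zero_lt_one).mpr
    (TotallyBounded.isCompact_of_isClosed h2.closure isClosed_closure)

/-- `W` is compact (same proof as for `N`). -/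
theorem TC_compact {A : Fin d → Fin d → LI d} {c : ℝ} (hA : Coef A c) (κ : E d) :
    IsCompactOperator (TC A κ) := by
  have h1 : IsCompactOperator (Wop d) := GT_Wop_compact
  exact h1.comp_clm (Ring.inverse (Qop A κ) ∘L Wop d)

private theorem GT_Wop_inj {u : ell d} (h : Wop d u = 0) : u = 0 := by
  by_contra hu
  have h1 := Nop_weight.pos u hu
  rw [← norm_Wop_sq, h] at h1
  simp at h1

theorem TC_pos {A : Fin d → Fin d → LI d} {c : ℝ} (hA : Coef A c) (κ : E d)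
    (u : ell d) (hu : u ≠ 0) : 0 < (inner ℂ (TC A κ u) u).re := by
  obtain ⟨v, hv, hQ⟩ := (TC_eq_iff hA κ u (TC A κ u)).mp rfl
  obtain ⟨δ, hδ, h⟩ := Qop_coercive hA κ
  have hv0 : v ≠ 0 := by
    rintro rfl
    rw [map_zero] at hQ
    exact hu (GT_Wop_inj hQ.symm)
  rw [← hv, GT_sa_inner Wop_isSelfAdjoint, ← hQ]
  have e1 : (inner ℂ v (Qop A κ v)).re = (inner ℂ (Qop A κ v) v).re := by
    rw [← inner_conj_symm, Complex.conj_re]
  rw [e1]
  have h2 := h v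
  have h3 : 0 < ‖v‖ := norm_pos_iff.mpr hv0
  have : 0 < δ * ‖v‖ ^ 2 := by positivity
  linarith

private theorem GT_cplx_const (t : ℝ) :
    Mhat (cplx (toInf (ContinuousMap.const (Tor d) t))) = (t : ℂ) • (1 : ell d →L[ℂ] ell d) := by
  have e1 : ContinuousMap.const (Tor d) t = t • (1 : C(Tor d, ℝ)) := by
    ext x
    simp
  have e2 : cplx (toInf (1 : C(Tor d, ℝ))) = toLIC (1 : C(Tor d, ℂ)) := by
    apply Lp.ext
    have a1 : cplx (toInf (1 : C(Tor d, ℝ))) =ᵐ[torM d]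
        fun x => Complex.ofRealCLM (toInf (1 : C(Tor d, ℝ)) x) :=
      Complex.ofRealCLM.coeFn_compLp _
    have a2 : toInf (1 : C(Tor d, ℝ)) =ᵐ[torM d] (1 : C(Tor d, ℝ)) :=
      ContinuousMap.coeFn_toLp _ _
    have a3 : toLIC (1 : C(Tor d, ℂ)) =ᵐ[torM d] (1 : C(Tor d, ℂ)) :=
      ContinuousMap.coeFn_toLp _ _
    filter_upwards [a1, a2, a3] with x h1 h2 h3
    rw [h1, h2, h3]
    simp
  rw [e1, map_smul, cplx_smul, Mhat_smul, e2, Mhat_one]

/-- With `x = W v`: `B(κ) v = lam N v` iff `(Q + ...)`: `Q v = W (V + lam + 1) W v`. -/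
theorem exists_TC_of_isEig {A : Fin d → Fin d → LI d} {c : ℝ} (hA : Coef A c) (κ : E d)
    (V : C(Tor d, ℝ)) (lam : ℝ) (h : IsEig (Nop d) (Bop A (toInf V) (toC κ)) lam) :
    ∃ x : ell d, x ≠ 0 ∧ TC A κ (Mhat (cplx (toInf (pot V (lam + 1)))) x) = x := by
  obtain ⟨u, hu, hE⟩ := h
  refine ⟨Wop d u, fun h0 => hu (GT_Wop_inj h0), ?_⟩
  rw [TC_eq_iff hA]
  refine ⟨u, rfl, ?_⟩
  have e1 : Mhat (cplx (toInf (pot V (lam + 1)))) =
      Mhat (cplx (toInf V)) + ((lam + 1 : ℝ) : ℂ) • (1 : ell d →L[ℂ] ell d) := by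
    unfold pot
    rw [map_add, cplx_add, Mhat_add, GT_cplx_const]
  have e2 : Bop A 0 (toC κ) u = Bop A (toInf V) (toC κ) u +
      Wop d (Mhat (cplx (toInf V)) (Wop d u)) := by
    rw [GT_Bop A (toInf V)]
    change _ = Bop A 0 (toC κ) u - Wop d (Mhat (cplx (toInf V)) (Wop d u)) + _
    abel
  have e3 : Nop d u = Wop d (Wop d u) := by
    rw [Nop_eq]
    rfl
  unfold Qop
  rw [add_apply, e2, hE, e1, e3, add_apply, map_add]
  change _ = _ + Wop d (((lam + 1 : ℝ) : ℂ) • Wop d u)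
  rw [map_smul]
  push_cast
  rw [add_smul, one_smul]
  abel

private theorem GT_sum_le {v : ell d} (F : Finset (Lat d)) :
    ∑ n ∈ F, ‖v n‖ ^ 2 ≤ ‖v‖ ^ 2 := by
  have h2 : (0 : ℝ) < (2 : ℝ≥0∞).toReal := by norm_num
  have h := lp.sum_rpow_le_norm_rpow h2 v F
  have e2 : (2 : ℝ≥0∞).toReal = 2 := by norm_num
  simpa only [e2, Real.rpow_two] using h

private theorem GT_Xop_norm (κ : E d) (v : ell d) (n : Lat d) :
    ∑ j, ‖Xop (toC κ) j v n‖ ^ 2 =
      4 * Real.pi ^ 2 * ‖κ + latE n‖ ^ 2 * ‖Wop d v n‖ ^ 2 := by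
  have h0 : 0 < jap n := lt_of_lt_of_le one_pos (one_le_jap n)
  rw [EuclideanSpace.norm_sq_eq, Finset.mul_sum, Finset.sum_mul]
  refine Finset.sum_congr rfl (fun j _ => ?_)
  rw [Xop_apply, Wop_apply]
  have e1 : toC κ j + (n j : ℂ) = (((κ + latE n) j : ℝ) : ℂ) := by
    change (κ j : ℂ) + (n j : ℂ) = ((κ j + (n j : ℝ) : ℝ) : ℂ)
    push_cast
    rfl
  rw [e1]
  have e3 : ‖(2 * (Real.pi : ℂ) * (((κ + latE n) j : ℝ) : ℂ) / (jap n : ℂ) * v n)‖ =
      2 * Real.pi * ‖(κ + latE n) j‖ / jap n * ‖v n‖ := by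
    rw [norm_mul, norm_div, norm_mul, norm_mul, Complex.norm_real, Complex.norm_real,
      Complex.norm_real, Real.norm_of_nonneg Real.pi_pos.le, Real.norm_of_nonneg h0.le]
    norm_num
  have e4 : ‖(((1 / jap n : ℝ) : ℂ) * v n)‖ = 1 / jap n * ‖v n‖ := by
    rw [norm_mul, Complex.norm_real, Real.norm_of_nonneg (by positivity)]
  rw [e3, e4]
  ring

private theorem GT_Xop_sum (κ : E d) (v : ell d) (F : Finset (Lat d)) :
    ∑ n ∈ F, 4 * Real.pi ^ 2 * ‖κ + latE n‖ ^ 2 * ‖Wop d v n‖ ^ 2 ≤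
      ∑ j, ‖Xop (toC κ) j v‖ ^ 2 := by
  calc ∑ n ∈ F, 4 * Real.pi ^ 2 * ‖κ + latE n‖ ^ 2 * ‖Wop d v n‖ ^ 2
      = ∑ n ∈ F, ∑ j, ‖Xop (toC κ) j v n‖ ^ 2 :=
        Finset.sum_congr rfl (fun n _ => (GT_Xop_norm κ v n).symm)
    _ = ∑ j, ∑ n ∈ F, ‖Xop (toC κ) j v n‖ ^ 2 := Finset.sum_comm
    _ ≤ ∑ j, ‖Xop (toC κ) j v‖ ^ 2 := Finset.sum_le_sum (fun j _ => GT_sum_le F)

/-- The energy bound: `c ∑_n 4π² |n + κ|² |x_n|² + ‖x‖² ≤ Re ⟪h, x⟫` for `x = T(κ) h`, for each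
finite set of `n`. (`Re ⟪Q v, v⟫ = Re ⟪W h, v⟫ = Re ⟪h, W v⟫`, `x = W v`, `Qop_lower`, and
`∑_j |(X_j v)_n|² = 4π² |n + κ|² |x_n|²`.) -/
theorem TC_energy {A : Fin d → Fin d → LI d} {c : ℝ} (hA : Coef A c) (κ : E d)
    (h : ell d) (F : Finset (Lat d)) :
    c * ∑ n ∈ F, 4 * Real.pi ^ 2 * ‖κ + latE n‖ ^ 2 * ‖TC A κ h n‖ ^ 2 +
      ‖TC A κ h‖ ^ 2 ≤ (inner ℂ h (TC A κ h)).re := by
  obtain ⟨v, hv, hQ⟩ := (TC_eq_iff hA κ h (TC A κ h)).mp rfl
  rw [← hv]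
  have h1 := Qop_lower hA κ v
  rw [hQ, GT_sa_inner Wop_isSelfAdjoint] at h1
  have h2 := GT_Xop_sum κ v F
  have h3 := mul_le_mul_of_nonneg_left h2 hA.pos.le
  linarith

/-- The constant function `1` (coefficients `δ_0`) is a fixed point of `T(0)`: `X_l(0) δ_0 = 0`,
`N δ_0 = W δ_0 = δ_0`, so `Q(0) δ_0 = δ_0`. -/
theorem TC_single {A : Fin d → Fin d → LI d} {c : ℝ} (hA : Coef A c) :
    TC A (0 : E d) (lp.single 2 (0 : Lat d) (1 : ℂ)) = lp.single 2 (0 : Lat d) (1 : ℂ) := by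
  have hj : jap (0 : Lat d) = 1 := by
    unfold jap
    simp
  have e1 : Wop d (lp.single 2 (0 : Lat d) (1 : ℂ)) = lp.single 2 (0 : Lat d) (1 : ℂ) := by
    ext n
    rw [Wop_apply]
    by_cases hn : n = 0
    · subst hn
      rw [hj]
      simp
    · rw [lp.single_apply_ne _ _ _ hn, mul_zero]
  have e2 : ∀ l, Xop (toC (0 : E d)) l (lp.single 2 (0 : Lat d) (1 : ℂ)) = 0 := by
    intro l
    ext n
    rw [Xop_apply]
    by_cases hn : n = 0
    · subst hn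
      simp [toC]
    · rw [lp.single_apply_ne _ _ _ hn, mul_zero]
      rfl
  rw [TC_eq_iff hA]
  refine ⟨lp.single 2 (0 : Lat d) (1 : ℂ), e1, ?_⟩
  have e3 : Bop A 0 (toC (0 : E d)) (lp.single 2 (0 : Lat d) (1 : ℂ)) = 0 := by
    rw [GT_Bop_zero, sum_apply]
    refine Finset.sum_eq_zero (fun j _ => ?_)
    rw [sum_apply]
    refine Finset.sum_eq_zero (fun l _ => ?_)
    change Xop (toC (0 : E d)) j (Mhat (cplx (A j l))
      (Xop (toC (0 : E d)) l (lp.single 2 (0 : Lat d) (1 : ℂ)))) = 0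
    rw [e2, map_zero, map_zero]
  unfold Qop
  rw [add_apply, e3, zero_add, Nop_eq]
  change Wop d (Wop d _) = _
  rw [e1]
  exact e1

/-- Fixed points of `T(κ)` are supported where `n + κ = 0` (energy bound with `h = x`). -/
theorem TC_fixed {A : Fin d → Fin d → LI d} {c : ℝ} (hA : Coef A c) (κ : E d)
    (x : ell d) (hx : TC A κ x = x) (n : Lat d) (hn : κ + latE n ≠ 0) : x n = 0 := by
  have h1 := TC_energy hA κ x {n}
  rw [hx, Finset.sum_singleton] at h1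
  have h2 : (inner ℂ x x : ℂ).re = ‖x‖ ^ 2 := by
    rw [inner_self_eq_norm_sq_to_K]
    norm_cast
  rw [h2] at h1
  have h3 : c * (4 * Real.pi ^ 2 * ‖κ + latE n‖ ^ 2 * ‖x n‖ ^ 2) ≤ 0 := by linarith
  by_contra h0
  have h4 : 0 < ‖x n‖ := norm_pos_iff.mpr h0
  have h5 : 0 < ‖κ + latE n‖ := norm_pos_iff.mpr hn
  have hc := hA.pos
  have : 0 < c * (4 * Real.pi ^ 2 * ‖κ + latE n‖ ^ 2 * ‖x n‖ ^ 2) := by positivity
  linarith

end Pool.Agent.Lib.MP_c8757e_mp
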