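import Pool.Agent.Lib.MP_c8757e_mp.Fin

/-! FLAT, module Good: adding a multiple of an operator without eigenvalues. -/

open MeasureTheory Filter Topology Set

noncomputable section

namespace Pool.Agent.Lib.MP_c8757e_mp

variable {d : ℕ}

theorem good_quad_bound {A : E d → Matrix (Fin d) (Fin d) ℝ} {C : ℝ}
    (hC : ∀ x i j, |A x i j| ≤ C) (x : E d) (ξ : Fin d → ℝ) :
    |∑ j, ∑ l, A x j l * ξ j * ξ l| ≤ C * d * ∑ j, ξ j ^ 2 := by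
  have h1 : ∀ j l, |A x j l * ξ j * ξ l| ≤ C * ((ξ j ^ 2 + ξ l ^ 2) / 2) := by
    intro j l
    have hC0 : 0 ≤ C := (abs_nonneg _).trans (hC x j l)
    rw [mul_assoc, abs_mul]
    have h2 : |ξ j * ξ l| ≤ (ξ j ^ 2 + ξ l ^ 2) / 2 := by
      rw [abs_le]
      constructor
      · nlinarith [sq_nonneg (ξ j + ξ l)]
      · nlinarith [sq_nonneg (ξ j - ξ l)]
    exact mul_le_mul (hC x j l) h2 (abs_nonneg _) hC0
  calc |∑ j, ∑ l, A x j l * ξ j * ξ l| ≤ ∑ j, ∑ l, |A x j l * ξ j * ξ l| :=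
        (Finset.abs_sum_le_sum_abs _ _).trans
          (Finset.sum_le_sum fun j _ => Finset.abs_sum_le_sum_abs _ _)
    _ ≤ ∑ j, ∑ l, C * ((ξ j ^ 2 + ξ l ^ 2) / 2) :=
        Finset.sum_le_sum fun j _ => Finset.sum_le_sum fun l _ => h1 j l
    _ = C * d * ∑ j, ξ j ^ 2 := by
        simp only [← Finset.mul_sum, ← Finset.sum_div, Finset.sum_add_distrib, Finset.sum_const,
          Finset.card_univ, Fintype.card_fin, nsmul_eq_mul]
        ring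

theorem good_periodic_add {A B : E d → Matrix (Fin d) (Fin d) ℝ} (hA : Periodic A)
    (hB : Periodic B) : Periodic (fun x => A x + B x) := by
  intro x n
  simp only [hA x n, hB x n]

/-- If `div (A₁ grad) + V₁` is elliptic without eigenvalues, then for every `A₀`, `V₀` the set of `t`
such that `A₀ + t A₁` is elliptic and the operator with `A₀ + t A₁`, `V₀ + t V₁` has an eigenvalue is
countable. -/
theorem good_direction (A₀ A₁ : E d → Matrix (Fin d) (Fin d) ℝ) (V₀ V₁ : E d → ℝ)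
    (hA₀ : ∀ i j, Measurable fun x => A₀ x i j) (hA₁ : ∀ i j, Measurable fun x => A₁ x i j)
    (hV₀ : Measurable V₀) (hV₁ : Measurable V₁)
    (bA₀ : ∃ C, ∀ x i j, |A₀ x i j| ≤ C) (bA₁ : ∃ C, ∀ x i j, |A₁ x i j| ≤ C)
    (bV₀ : ∃ C, ∀ x, |V₀ x| ≤ C) (bV₁ : ∃ C, ∀ x, |V₁ x| ≤ C)
    (pA₀ : Periodic A₀) (pA₁ : Periodic A₁) (pV₀ : Periodic V₀) (pV₁ : Periodic V₁)
    (sA₀ : ∀ x, (A₀ x).IsSymm) (sA₁ : ∀ x, (A₁ x).IsSymm)
    (eA₁ : ∃ c, EllipticWith A₁ c) (hne : ∀ μ, ¬ IsEigenvalue A₁ V₁ μ) :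
    {t : ℝ | (∃ c, EllipticWith (fun x => A₀ x + t • A₁ x) c) ∧
      ∃ μ, IsEigenvalue (fun x => A₀ x + t • A₁ x) (fun x => V₀ x + t * V₁ x) μ}.Countable := by
  obtain ⟨c₁, hc₁, he₁⟩ := eA₁
  obtain ⟨C₀, hC₀⟩ := bA₀
  -- the line `A₁ + τ A₀`
  have hL := line_law A₁ A₀ V₁ V₀ hA₁ hA₀ hV₁ hV₀ bA₁ ⟨C₀, hC₀⟩ bV₁ bV₀ pA₁ pA₀ pV₁ pV₀ sA₁ sA₀
  have hgood0 : ¬ ∃ μ, IsEigenvalue (fun x => A₁ x + (0 : ℝ) • A₀ x)
      (fun x => V₁ x + 0 * V₀ x) μ := by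
    rintro ⟨μ, hμ⟩
    simp only [zero_smul, add_zero, zero_mul] at hμ
    exact hne μ hμ
  have hell : ∀ τ : ℝ, |τ| * (|C₀| * d + 1) < c₁ →
      ∃ c, EllipticWith (fun x => A₁ x + τ • A₀ x) c := by
    intro τ hτ
    refine ⟨c₁ - |τ| * (|C₀| * d + 1), by linarith, fun x ξ => ?_⟩
    have h1 := he₁ x ξ
    have h2 := good_quad_bound (C := |C₀|) (fun x i j => (hC₀ x i j).trans (le_abs_self C₀)) x ξ
    have h3 : ∑ j, ∑ l, (A₁ x + τ • A₀ x) j l * ξ j * ξ l =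
        ∑ j, ∑ l, A₁ x j l * ξ j * ξ l + τ * ∑ j, ∑ l, A₀ x j l * ξ j * ξ l := by
      rw [Finset.mul_sum, ← Finset.sum_add_distrib]
      refine Finset.sum_congr rfl fun j _ => ?_
      rw [Finset.mul_sum, ← Finset.sum_add_distrib]
      refine Finset.sum_congr rfl fun l _ => ?_
      simp only [Matrix.add_apply, Matrix.smul_apply, smul_eq_mul]
      ring
    rw [h3]
    have hS : 0 ≤ ∑ j, ξ j ^ 2 := Finset.sum_nonneg fun j _ => sq_nonneg _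
    have h4 : |τ * ∑ j, ∑ l, A₀ x j l * ξ j * ξ l| ≤ |τ| * (|C₀| * d) * ∑ j, ξ j ^ 2 := by
      rw [abs_mul, mul_assoc]
      exact mul_le_mul_of_nonneg_left h2 (abs_nonneg τ)
    have h5 := (abs_le.1 h4).1
    have h6 : 0 ≤ |τ| * ∑ j, ξ j ^ 2 := mul_nonneg (abs_nonneg τ) hS
    nlinarith
  have hcount : {t : ℝ | (∃ c, EllipticWith (fun x => A₁ x + t • A₀ x) c) ∧
      ∃ μ, IsEigenvalue (fun x => A₁ x + t • A₀ x) (fun x => V₁ x + t * V₀ x) μ}.Countable := by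
    rcases hL with h | h
    · exact h
    · exact absurd (h 0 (hell 0 (by simpa using hc₁))) hgood0
  -- a small positive good `τ`
  have hpos : 0 < |C₀| * (d : ℝ) + 1 := by positivity
  have hunc : ¬ (Ioo (0 : ℝ) (c₁ / (|C₀| * d + 1))).Countable := by
    intro hc
    have h1 := hc.measure_zero volume
    rw [Real.volume_Ioo, sub_zero, ENNReal.ofReal_eq_zero] at h1
    exact absurd h1 (not_le.2 (div_pos hc₁ hpos))
  obtain ⟨τ, hτ, hτn⟩ : ∃ τ ∈ Ioo (0 : ℝ) (c₁ / (|C₀| * d + 1)),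
      τ ∉ {t : ℝ | (∃ c, EllipticWith (fun x => A₁ x + t • A₀ x) c) ∧
      ∃ μ, IsEigenvalue (fun x => A₁ x + t • A₀ x) (fun x => V₁ x + t * V₀ x) μ} := by
    by_contra hcon
    push Not at hcon
    exact hunc (hcount.mono hcon)
  have hτe := hell τ (by
    rw [abs_of_pos hτ.1]
    exact (lt_div_iff₀ hpos).1 hτ.2)
  have hτg : ¬ ∃ μ, IsEigenvalue (fun x => A₁ x + τ • A₀ x) (fun x => V₁ x + τ * V₀ x) μ :=
    fun h => hτn ⟨hτe, h⟩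
  -- the line `A₀ + t A₁`
  rcases line_law A₀ A₁ V₀ V₁ hA₀ hA₁ hV₀ hV₁ ⟨C₀, hC₀⟩ bA₁ bV₀ bV₁ pA₀ pA₁ pV₀ pV₁ sA₀ sA₁
    with h | h
  · exact h
  · exfalso
    have hτ0 : τ ≠ 0 := hτ.1.ne'
    have hsc : ∀ x, A₀ x + τ⁻¹ • A₁ x = τ⁻¹ • (A₁ x + τ • A₀ x) := by
      intro x
      rw [smul_add, smul_smul, inv_mul_cancel₀ hτ0, one_smul, add_comm]
    have hscV : ∀ x, V₀ x + τ⁻¹ * V₁ x = τ⁻¹ * (V₁ x + τ * V₀ x) := by
      intro x
      field_simp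
      ring
    obtain ⟨c, hc, hce⟩ := hτe
    have hell2 : ∃ c, EllipticWith (fun x => A₀ x + τ⁻¹ • A₁ x) c := by
      refine ⟨τ⁻¹ * c, mul_pos (inv_pos.2 hτ.1) hc, fun x ξ => ?_⟩
      have h1 := mul_le_mul_of_nonneg_left (hce x ξ) (inv_pos.2 hτ.1).le
      have h2 : ∑ j, ∑ l, (A₀ x + τ⁻¹ • A₁ x) j l * ξ j * ξ l =
          τ⁻¹ * ∑ j, ∑ l, (A₁ x + τ • A₀ x) j l * ξ j * ξ l := by
        rw [hsc x, Finset.mul_sum]
        refine Finset.sum_congr rfl fun j _ => ?_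
        rw [Finset.mul_sum]
        refine Finset.sum_congr rfl fun l _ => ?_
        simp only [Matrix.smul_apply, smul_eq_mul]
        ring
      rw [h2, mul_assoc]
      exact h1
    obtain ⟨μ, hμ⟩ := h τ⁻¹ hell2
    refine hτg ⟨τ * μ, ?_⟩
    refine isEigenvalue_smul (fun x => A₁ x + τ • A₀ x) (fun x => V₁ x + τ * V₀ x) (τ * μ) τ⁻¹
      (inv_ne_zero hτ0) ?_
    have e1 : (fun x => τ⁻¹ • (A₁ x + τ • A₀ x)) = fun x => A₀ x + τ⁻¹ • A₁ x :=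
      funext fun x => (hsc x).symm
    have e2 : (fun x => τ⁻¹ * (V₁ x + τ * V₀ x)) = fun x => V₀ x + τ⁻¹ * V₁ x :=
      funext fun x => (hscV x).symm
    rw [e1, e2, inv_mul_cancel_left₀ hτ0]
    exact hμ

end Pool.Agent.Lib.MP_c8757e_mp
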