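import Pool.Agent.Lib.MP_c8757e_mp.Theta

/-! FLAT, module Graph: invariant graphs by the analytic implicit function theorem. -/

open Filter Topology Set
open scoped ComplexInnerProductSpace

noncomputable section

namespace Pool.Agent.Lib.MP_c8757e_mp

section

variable {K C E : Type*}
  [NormedAddCommGroup K] [NormedSpace ℂ K] [NormedAddCommGroup C] [NormedSpace ℂ C]
  [NormedAddCommGroup E] [NormedSpace ℂ E]

/-- The equation of the graph. -/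
private def GraphF (i : C →L[ℂ] E) (j : K →L[ℂ] E) (N : E →L[ℂ] E) (P : ℂ → E →L[ℂ] E)
    (u : ℂ × ((K →L[ℂ] C) × (K →L[ℂ] K))) : K →L[ℂ] E :=
  (P u.1) ∘L (j + i ∘L u.2.1) - (N ∘L (j + i ∘L u.2.1)) ∘L u.2.2

private theorem GraphF_contDiffAt (i : C →L[ℂ] E) (j : K →L[ℂ] E) (N : E →L[ℂ] E)
    (P : ℂ → E →L[ℂ] E) (u : ℂ × ((K →L[ℂ] C) × (K →L[ℂ] K))) (hP : ContDiffAt ℂ ⊤ P u.1) :
    ContDiffAt ℂ ⊤ (GraphF i j N P) u := by
  have h1 : ContDiffAt ℂ ⊤ (fun u : ℂ × ((K →L[ℂ] C) × (K →L[ℂ] K)) => P u.1) u :=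
    ContDiffAt.comp u hP contDiffAt_fst
  have h2 : ContDiffAt ℂ ⊤ (fun u : ℂ × ((K →L[ℂ] C) × (K →L[ℂ] K)) =>
      j + i ∘L u.2.1) u := by
    refine contDiffAt_const.add ?_
    exact contDiffAt_const.clm_comp (contDiffAt_fst.comp u contDiffAt_snd)
  have h3 : ContDiffAt ℂ ⊤ (fun u : ℂ × ((K →L[ℂ] C) × (K →L[ℂ] K)) => u.2.2) u :=
    contDiffAt_snd.comp u contDiffAt_snd
  unfold GraphF
  exact (h1.clm_comp h2).sub ((contDiffAt_const.clm_comp h2).clm_comp h3)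

/-- The partial derivative of the equation. -/
private def GraphD (i : C →L[ℂ] E) (j : K →L[ℂ] E) (N Q : E →L[ℂ] E) :
    ((K →L[ℂ] C) × (K →L[ℂ] K)) →L[ℂ] (K →L[ℂ] E) :=
  (ContinuousLinearMap.compL ℂ K C E (Q ∘L i)) ∘L ContinuousLinearMap.fst ℂ _ _ -
    (ContinuousLinearMap.compL ℂ K K E (N ∘L j)) ∘L ContinuousLinearMap.snd ℂ _ _

private theorem GraphD_apply (i : C →L[ℂ] E) (j : K →L[ℂ] E) (N Q : E →L[ℂ] E)
    (x : (K →L[ℂ] C) × (K →L[ℂ] K)) (k : K) :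
    GraphD i j N Q x k = Q (i (x.1 k)) - N (j (x.2 k)) := rfl

private theorem GraphF_hasFDerivAt (i : C →L[ℂ] E) (j : K →L[ℂ] E) (N : E →L[ℂ] E)
    (P : ℂ → E →L[ℂ] E) (z₀ lam : ℂ) :
    HasFDerivAt (fun x : (K →L[ℂ] C) × (K →L[ℂ] K) => GraphF i j N P (z₀, x))
      (GraphD i j N (P z₀ - lam • N))
      ((0, lam • ContinuousLinearMap.id ℂ K) : (K →L[ℂ] C) × (K →L[ℂ] K)) := by
  have h1 : HasFDerivAt (fun x : (K →L[ℂ] C) × (K →L[ℂ] K) => x.1)
      (ContinuousLinearMap.fst ℂ (K →L[ℂ] C) (K →L[ℂ] K))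
      ((0, lam • ContinuousLinearMap.id ℂ K) : (K →L[ℂ] C) × (K →L[ℂ] K)) :=
    hasFDerivAt_fst
  have h2 : HasFDerivAt (fun x : (K →L[ℂ] C) × (K →L[ℂ] K) => x.2)
      (ContinuousLinearMap.snd ℂ (K →L[ℂ] C) (K →L[ℂ] K))
      ((0, lam • ContinuousLinearMap.id ℂ K) : (K →L[ℂ] C) × (K →L[ℂ] K)) :=
    hasFDerivAt_snd
  have h3 := ((hasFDerivAt_const i
    ((0, lam • ContinuousLinearMap.id ℂ K) : (K →L[ℂ] C) × (K →L[ℂ] K))).clm_comp h1).const_add j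
  have h4 := (hasFDerivAt_const (P z₀)
    ((0, lam • ContinuousLinearMap.id ℂ K) : (K →L[ℂ] C) × (K →L[ℂ] K))).clm_comp h3
  have h5 := ((hasFDerivAt_const N
    ((0, lam • ContinuousLinearMap.id ℂ K) : (K →L[ℂ] C) × (K →L[ℂ] K))).clm_comp h3).clm_comp h2
  have h6 := h4.sub h5
  refine HasFDerivAt.congr_fderiv h6 ?_
  refine ContinuousLinearMap.ext fun x => ContinuousLinearMap.ext fun k => ?_
  rw [GraphD_apply]
  simp
  abel

private theorem GraphD_invertible [CompleteSpace K] [CompleteSpace C] [CompleteSpace E]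
    (i : C →L[ℂ] E) (j : K →L[ℂ] E) (N Q : E →L[ℂ] E)
    (T : (K × C) ≃L[ℂ] E) (hT : ∀ p, T p = N (j p.1) + Q (i p.2)) :
    (GraphD i j N Q).IsInvertible := by
  have hinj : Function.Injective (GraphD i j N Q) := by
    rw [injective_iff_map_eq_zero]
    intro x hx
    have h1 : ∀ k, T (-(x.2 k), x.1 k) = 0 := by
      intro k
      have h2 : GraphD i j N Q x k = 0 := by rw [hx]; rfl
      rw [GraphD_apply] at h2
      rw [hT]
      simp only [map_neg]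
      rw [← h2]
      abel
    have h2 : ∀ k, x.2 k = 0 ∧ x.1 k = 0 := by
      intro k
      have h3 : ((-(x.2 k), x.1 k) : K × C) = 0 := by
        apply T.injective
        rw [h1 k, map_zero]
      have h4 := congrArg Prod.fst h3
      have h5 := congrArg Prod.snd h3
      exact ⟨neg_eq_zero.1 h4, h5⟩
    refine Prod.ext ?_ ?_
    · exact ContinuousLinearMap.ext fun k => (h2 k).2
    · exact ContinuousLinearMap.ext fun k => (h2 k).1
  have hsurj : Function.Surjective (GraphD i j N Q) := by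
    intro y
    let q : K →L[ℂ] K × C := (T.symm : E →L[ℂ] K × C) ∘L y
    refine ⟨(ContinuousLinearMap.snd ℂ K C ∘L q, -(ContinuousLinearMap.fst ℂ K C ∘L q)), ?_⟩
    refine ContinuousLinearMap.ext fun k => ?_
    rw [GraphD_apply]
    have h1 : T (q k) = y k := T.apply_symm_apply (y k)
    rw [hT] at h1
    rw [← h1]
    show Q (i (q k).2) - N (j (-(q k).1)) = _
    rw [map_neg, map_neg]
    abel
  exact ⟨ContinuousLinearEquiv.ofBijective (GraphD i j N Q) (LinearMap.ker_eq_bot.2 hinj)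
    (LinearMap.range_eq_top.2 hsurj), rfl⟩

private theorem Graph_main [CompleteSpace K] [CompleteSpace C] [CompleteSpace E]
    (i : C →L[ℂ] E) (j : K →L[ℂ] E) (N : E →L[ℂ] E) (P : ℂ → E →L[ℂ] E) (z₀ lam : ℂ)
    (hP : AnalyticAt ℂ P z₀)
    (T : (K × C) ≃L[ℂ] E) (hT : ∀ p, T p = N (j p.1) + (P z₀ - lam • N) (i p.2))
    (hj : ∀ k, (P z₀ - lam • N) (j k) = 0) :
    ∃ (G : ℂ → K →L[ℂ] C) (B : ℂ → K →L[ℂ] K),
      AnalyticAt ℂ G z₀ ∧ AnalyticAt ℂ B z₀ ∧ G z₀ = 0 ∧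
      B z₀ = lam • ContinuousLinearMap.id ℂ _ ∧
      ∀ᶠ z in 𝓝 z₀, ∀ k : K, P z (j k + i (G z k)) = N (j (B z k) + i (G z (B z k))) := by
  set x₀ : (K →L[ℂ] C) × (K →L[ℂ] K) := (0, lam • ContinuousLinearMap.id ℂ K) with hx₀
  have hcd : ContDiffAt ℂ ⊤ (GraphF i j N P) (z₀, x₀) :=
    GraphF_contDiffAt i j N P (z₀, x₀) hP.contDiffAt
  have hd1 : HasFDerivAt (GraphF i j N P) (fderiv ℂ (GraphF i j N P) (z₀, x₀)) (z₀, x₀) :=
    (hcd.differentiableAt (by simp)).hasFDerivAt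
  have hd2 : HasFDerivAt (fun x : (K →L[ℂ] C) × (K →L[ℂ] K) => GraphF i j N P (z₀, x))
      (fderiv ℂ (GraphF i j N P) (z₀, x₀) ∘L
        ContinuousLinearMap.inr ℂ ℂ ((K →L[ℂ] C) × (K →L[ℂ] K))) x₀ :=
    HasFDerivAt.comp x₀ hd1 (hasFDerivAt_prodMk_right z₀ x₀)
  have he := hd2.unique (GraphF_hasFDerivAt i j N P z₀ lam)
  have hinv : (fderiv ℂ (GraphF i j N P) (z₀, x₀) ∘L
        ContinuousLinearMap.inr ℂ ℂ ((K →L[ℂ] C) × (K →L[ℂ] K))).IsInvertible := by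
    rw [he]
    exact GraphD_invertible i j N _ T hT
  have hn : (⊤ : WithTop ℕ∞) ≠ 0 := by simp
  set ψ := hcd.implicitFunction hn hinv with hψ
  have h1 : ψ z₀ = x₀ := hcd.implicitFunction_apply_self hn hinv
  have h2 := hcd.eventually_apply_implicitFunction hn hinv
  have h3 : ContDiffAt ℂ ⊤ ψ z₀ := hcd.contDiffAt_implicitFunction hn hinv
  have h0 : GraphF i j N P (z₀, x₀) = 0 := by
    refine ContinuousLinearMap.ext fun k => ?_
    have h4 := hj k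
    show P z₀ (j k + i ((0 : K →L[ℂ] C) k)) - N (j (lam • k) + i ((0 : K →L[ℂ] C) (lam • k))) = 0
    have e1 : i ((0 : K →L[ℂ] C) k) = 0 := map_zero i
    have e2 : i ((0 : K →L[ℂ] C) (lam • k)) = 0 := map_zero i
    rw [e1, e2, add_zero, add_zero, map_smul, map_smul]
    exact h4
  have h3a : AnalyticAt ℂ ψ z₀ := by
    rw [← analyticWithinAt_univ]
    exact contDiffWithinAt_omega_iff_analyticWithinAt.1 h3.contDiffWithinAt
  refine ⟨fun z => (ψ z).1, fun z => (ψ z).2, ?_, ?_, ?_, ?_, ?_⟩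
  · exact (ContinuousLinearMap.fst ℂ (K →L[ℂ] C) (K →L[ℂ] K)).analyticAt _ |>.comp h3a
  · exact (ContinuousLinearMap.snd ℂ (K →L[ℂ] C) (K →L[ℂ] K)).analyticAt _ |>.comp h3a
  · show (ψ z₀).1 = 0
    rw [h1]
  · show (ψ z₀).2 = lam • ContinuousLinearMap.id ℂ K
    rw [h1]
  · filter_upwards [h2] with z hz k
    rw [h0] at hz
    have h5 : GraphF i j N P (z, ψ z) k = 0 := by rw [hz]; rfl
    exact sub_eq_zero.1 h5

end

variable {H : Type*} [NormedAddCommGroup H] [InnerProductSpace ℂ H] [CompleteSpace H]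
  {N : H →L[ℂ] H}

/-- Unknown `(G, B)` in `X = (K →L C) × (K →L K)`, equation
`F(z,(G,B)) = P(z) ∘ (ι + G) - N ∘ (ι + G) ∘ B = 0` in `Y = (K →L H)`. At `(z₀,(0,lam))`:
`F = 0`, and the partial derivative is `(X₁, Y₁) ↦ (P z₀ - lam N) ∘ X₁ - N ∘ Y₁`, an isomorphism
`X ≃ Y` by composition with `exists_theta`. Implicit function theorem over `ℂ`
(`Mathlib/Analysis/Calculus/ImplicitContDiff.lean` or `ImplicitFunction/ProdDomain`), then
differentiable near `z₀` implies analytic at `z₀`. -/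
theorem exists_graph (hN : Weight N) (P : ℂ → H →L[ℂ] H) (z₀ : ℂ) (hP : AnalyticAt ℂ P z₀)
    (lam : ℝ) (hS : Elliptic N (P z₀ - (lam : ℂ) • N)) :
    ∃ (G : ℂ → kerS (P z₀ - (lam : ℂ) • N) →L[ℂ] compS N (P z₀ - (lam : ℂ) • N))
      (B : ℂ → kerS (P z₀ - (lam : ℂ) • N) →L[ℂ] kerS (P z₀ - (lam : ℂ) • N)),
      AnalyticAt ℂ G z₀ ∧ AnalyticAt ℂ B z₀ ∧ G z₀ = 0 ∧
      B z₀ = (lam : ℂ) • ContinuousLinearMap.id ℂ _ ∧
      ∀ᶠ z in 𝓝 z₀, ∀ k : kerS (P z₀ - (lam : ℂ) • N),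
        P z ((k : H) + (G z k : H)) = N ((B z k : H) + (G z (B z k) : H)) := by
  obtain ⟨T, hT⟩ := exists_theta hN hS
  have hc : IsClosed ((kerS (P z₀ - (lam : ℂ) • N)) : Set H) :=
    (P z₀ - (lam : ℂ) • N).isClosed_ker
  have hK : CompleteSpace (kerS (P z₀ - (lam : ℂ) • N)) := hc.completeSpace_coe
  exact Graph_main (compS N (P z₀ - (lam : ℂ) • N)).subtypeL
    (kerS (P z₀ - (lam : ℂ) • N)).subtypeL N P z₀ lam hP T hT (fun k => k.2)

end Pool.Agent.Lib.MP_c8757e_mp
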