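import Pool.Agent.Lib.MP_c8757e_mp.Pos
import Pool.Agent.Lib.MP_c8757e_mp.Conv
import Pool.Agent.Lib.MP_c8757e_mp.Abs

/-! FLAT, module LineT: the line law for coefficients on the torus. -/

open MeasureTheory Filter Topology Set
open scoped ENNReal

noncomputable section

namespace Pool.Agent.Lib.MP_c8757e_mp

variable {d : ℕ}

/-- The set of `κ` at which some eigenvalue of the fibre at `0` is an eigenvalue is a countable union
of null sets (`eig_countable`, `Kset_null_or_univ`, `isEigenvalue_of_Kset`). -/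
theorem exists_kappa {A : Fin d → Fin d → LI d} {c : ℝ} (hA : Coef A c)
    (V : LI d) (hgood : ∀ μ : ℝ, ¬ IsEigenvalue (liftA A) (liftV V) μ) :
    ∃ κ : E d, ∀ μ : ℝ, ¬ (IsEig (Nop d) (Bop A V (toC 0)) μ ∧
      IsEig (Nop d) (Bop A V (toC κ)) μ) := by
  have hP0 : Elliptic (Nop d) (Bop A V (toC 0)) := Bop_elliptic hA V 0
  have hcount : {μ : ℝ | IsEig (Nop d) (Bop A V (toC 0)) μ}.Countable :=
    eig_countable Nop_weight hP0
  have hnull : ∀ μ : ℝ, volume (Kset A V μ) = 0 := by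
    intro μ
    rcases Kset_null_or_univ hA V μ with h | h
    · exact h
    · exfalso
      refine hgood (-μ) (isEigenvalue_of_Kset hA V (-μ) ?_)
      rw [neg_neg]
      exact h
  have hU : volume (⋃ μ ∈ {μ : ℝ | IsEig (Nop d) (Bop A V (toC 0)) μ}, Kset A V μ) = 0 :=
    (measure_biUnion_null_iff hcount).2 (fun μ _ => hnull μ)
  by_contra hcon
  push Not at hcon
  have huniv : (univ : Set (E d)) ⊆
      ⋃ μ ∈ {μ : ℝ | IsEig (Nop d) (Bop A V (toC 0)) μ}, Kset A V μ := by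
    intro κ _
    obtain ⟨μ, h1, h2⟩ := hcon κ
    exact mem_biUnion (show μ ∈ {μ : ℝ | IsEig (Nop d) (Bop A V (toC 0)) μ} from h1) h2
  have h0 : volume (univ : Set (E d)) = 0 := measure_mono_null huniv hU
  exact (NeZero.ne (volume : Measure (E d))) (Measure.measure_univ_eq_zero.1 h0)

/-- The ellipticity set. -/
def ellSet (A0 A1 : Fin d → Fin d → LI d) : Set ℝ := {t | ∃ c, Coef (addA A0 A1 t) c}

private theorem LineT_ae_addA (A0 A1 : Fin d → Fin d → LI d) (t : ℝ) :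
    ∀ᵐ x ∂(torM d), ∀ j l, addA A0 A1 t j l x = A0 j l x + t * A1 j l x := by
  rw [ae_all_iff]
  intro j
  rw [ae_all_iff]
  intro l
  have h1 := Lp.coeFn_add (A0 j l) (t • A1 j l)
  have h2 := Lp.coeFn_smul t (A1 j l)
  filter_upwards [h1, h2] with x hx1 hx2
  have : addA A0 A1 t j l = A0 j l + t • A1 j l := rfl
  rw [this, hx1, Pi.add_apply, hx2, Pi.smul_apply, smul_eq_mul]

private theorem LineT_ae_bound (a : LI d) : ∀ᵐ x ∂(torM d), |a x| ≤ ‖a‖ := by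
  have h := enorm_ae_le_eLpNormEssSup (fun x => a x) (torM d)
  have hfin : eLpNorm (fun x => a x) ∞ (torM d) ≠ ∞ := Lp.eLpNorm_ne_top a
  filter_upwards [h] with x hx
  rw [← eLpNorm_exponent_top] at hx
  have h3 := ENNReal.toReal_mono hfin hx
  rw [Lp.norm_def]
  simpa using h3

private theorem LineT_quad_bound (a : Fin d → Fin d → ℝ) (M : Fin d → Fin d → ℝ)
    (hM : ∀ j l, |a j l| ≤ M j l) (ξ : Fin d → ℝ) :
    |∑ j, ∑ l, a j l * ξ j * ξ l| ≤ (∑ j, ∑ l, M j l) * ∑ j, ξ j ^ 2 := by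
  have hle : ∀ i, ξ i ^ 2 ≤ ∑ j, ξ j ^ 2 := fun i =>
    Finset.single_le_sum (f := fun j => ξ j ^ 2) (fun j _ => sq_nonneg (ξ j)) (Finset.mem_univ i)
  have hS : 0 ≤ ∑ j, ξ j ^ 2 := Finset.sum_nonneg (fun j _ => sq_nonneg (ξ j))
  rw [Finset.sum_mul]
  refine (Finset.abs_sum_le_sum_abs _ _).trans (Finset.sum_le_sum fun j _ => ?_)
  rw [Finset.sum_mul]
  refine (Finset.abs_sum_le_sum_abs _ _).trans (Finset.sum_le_sum fun l _ => ?_)
  rw [mul_assoc, abs_mul]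
  refine mul_le_mul (hM j l) ?_ (abs_nonneg _) ((abs_nonneg _).trans (hM j l))
  rw [abs_mul]
  have h1 := hle j
  have h2 := hle l
  have h3 : |ξ j| * |ξ l| ≤ (ξ j ^ 2 + ξ l ^ 2) / 2 := by
    have h4 := sq_nonneg (|ξ j| - |ξ l|)
    rw [← sq_abs (ξ j), ← sq_abs (ξ l)]
    nlinarith
  linarith

private theorem LineT_quad_add (a b : Fin d → Fin d → ℝ) (t : ℝ) (ξ : Fin d → ℝ) :
    ∑ j, ∑ l, (a j l + t * b j l) * ξ j * ξ l =
      (∑ j, ∑ l, a j l * ξ j * ξ l) + t * ∑ j, ∑ l, b j l * ξ j * ξ l := by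
  rw [Finset.mul_sum, ← Finset.sum_add_distrib]
  refine Finset.sum_congr rfl fun j _ => ?_
  rw [Finset.mul_sum, ← Finset.sum_add_distrib]
  refine Finset.sum_congr rfl fun l _ => ?_
  ring

theorem ellSet_isOpen (A0 A1 : Fin d → Fin d → LI d) (h0 : ∀ j l, A0 j l = A0 l j)
    (h1 : ∀ j l, A1 j l = A1 l j) : IsOpen (ellSet A0 A1) := by
  rw [Metric.isOpen_iff]
  rintro t₀ ⟨c, hc⟩
  set K : ℝ := ∑ j, ∑ l, ‖A1 j l‖ with hK
  have hK0 : 0 ≤ K := Finset.sum_nonneg fun j _ => Finset.sum_nonneg fun l _ => norm_nonneg _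
  have hcpos := hc.pos
  refine ⟨c / (2 * (K + 1)), by positivity, ?_⟩
  intro t ht
  rw [Metric.mem_ball, Real.dist_eq] at ht
  have htK : |t - t₀| * K ≤ c / 2 := by
    have h2 : |t - t₀| * (K + 1) ≤ c / 2 := by
      have h3 := (lt_div_iff₀ (by positivity : (0 : ℝ) < 2 * (K + 1))).1 ht
      nlinarith
    nlinarith [abs_nonneg (t - t₀)]
  refine ⟨c / 2, ?_, by positivity, ?_⟩
  · intro j l
    change A0 j l + t • A1 j l = A0 l j + t • A1 l j
    rw [h0 j l, h1 j l]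
  · have hb : ∀ᵐ x ∂(torM d), ∀ j l, |A1 j l x| ≤ ‖A1 j l‖ := by
      rw [ae_all_iff]
      intro j
      rw [ae_all_iff]
      intro l
      exact LineT_ae_bound (A1 j l)
    filter_upwards [hc.ell, hb, LineT_ae_addA A0 A1 t, LineT_ae_addA A0 A1 t₀] with
      x hx hbx hx1 hx2 ξ
    have h2 := hx ξ
    simp only [hx2] at h2
    simp only [hx1]
    rw [LineT_quad_add] at h2 ⊢
    have h3 := LineT_quad_bound (fun j l => A1 j l x) (fun j l => ‖A1 j l‖) hbx ξ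
    have hS : 0 ≤ ∑ j, ξ j ^ 2 := Finset.sum_nonneg (fun j _ => sq_nonneg (ξ j))
    rw [← hK] at h3
    set Q := ∑ j, ∑ l, A1 j l x * ξ j * ξ l with hQ
    set S := ∑ j, ξ j ^ 2 with hSd
    have h4 : |(t - t₀) * Q| ≤ c / 2 * S := by
      rw [abs_mul]
      calc |t - t₀| * |Q| ≤ |t - t₀| * (K * S) :=
            mul_le_mul_of_nonneg_left h3 (abs_nonneg _)
        _ = (|t - t₀| * K) * S := by ring
        _ ≤ c / 2 * S := mul_le_mul_of_nonneg_right htK hS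
    have h5 := neg_abs_le ((t - t₀) * Q)
    nlinarith

theorem ellSet_ordConnected (A0 A1 : Fin d → Fin d → LI d) :
    (ellSet A0 A1).OrdConnected := by
  refine ⟨?_⟩
  rintro t₀ ⟨c₀, hc₀⟩ t₁ ⟨c₁, hc₁⟩ t ht
  rcases eq_or_ne t₀ t₁ with heq | hne
  · subst heq
    have : t = t₀ := le_antisymm ht.2 ht.1
    rw [this]
    exact ⟨c₀, hc₀⟩
  refine ⟨min c₀ c₁, ?_, lt_min hc₀.pos hc₁.pos, ?_⟩
  · intro j l
    have e0 : A0 j l + t₀ • A1 j l = A0 l j + t₀ • A1 l j := hc₀.symm j l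
    have e1 : A0 j l + t₁ • A1 j l = A0 l j + t₁ • A1 l j := hc₁.symm j l
    have e2 : (t₁ - t₀) • (A1 j l - A1 l j) = 0 := by
      have : (t₁ - t₀) • (A1 j l - A1 l j) =
          (A0 j l + t₁ • A1 j l - (A0 l j + t₁ • A1 l j)) -
          (A0 j l + t₀ • A1 j l - (A0 l j + t₀ • A1 l j)) := by
        simp only [sub_smul, smul_sub]
        abel
      rw [this, e0, e1, sub_self, sub_self, sub_zero]
    have e3 : A1 j l - A1 l j = 0 := by
      rcases smul_eq_zero.1 e2 with h | h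
      · exact absurd (sub_eq_zero.1 h).symm hne
      · exact h
    have e4 : A1 j l = A1 l j := sub_eq_zero.1 e3
    have e5 : A0 j l = A0 l j := by
      rw [e4] at e0
      exact add_right_cancel e0
    change A0 j l + t • A1 j l = A0 l j + t • A1 l j
    rw [e4, e5]
  · filter_upwards [hc₀.ell, hc₁.ell, LineT_ae_addA A0 A1 t, LineT_ae_addA A0 A1 t₀,
      LineT_ae_addA A0 A1 t₁] with x h0 h1 hx hx0 hx1 ξ
    have h2 := h0 ξ
    have h3 := h1 ξ
    simp only [hx0] at h2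
    simp only [hx1] at h3
    simp only [hx]
    rw [LineT_quad_add] at h2 h3 ⊢
    have hS : 0 ≤ ∑ j, ξ j ^ 2 := Finset.sum_nonneg (fun j _ => sq_nonneg (ξ j))
    set Q := ∑ j, ∑ l, A1 j l x * ξ j * ξ l with hQ
    set R := ∑ j, ∑ l, A0 j l x * ξ j * ξ l with hR
    set S := ∑ j, ξ j ^ 2 with hSd
    have m0 : min c₀ c₁ * S ≤ c₀ * S := mul_le_mul_of_nonneg_right (min_le_left _ _) hS
    have m1 : min c₀ c₁ * S ≤ c₁ * S := mul_le_mul_of_nonneg_right (min_le_right _ _) hS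
    rcases le_total 0 Q with hQ0 | hQ0
    · have := mul_le_mul_of_nonneg_right ht.1 hQ0
      linarith
    · have := mul_le_mul_of_nonpos_right ht.2 hQ0
      linarith

/-- If `t₀` is good take `κ` from `exists_kappa` and apply `abs_line` with
`A + t B = Bop (A0 + t A1) (V0 + t V1) (toC 0)` and `C + t D` the same at `κ` (`Bop_addA`); at `t₀`
there is no common eigenvalue, so the set of common eigenvalues is countable; it contains the bad
set by `Kset_univ`. -/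
theorem line_torus (A0 A1 : Fin d → Fin d → LI d) (h0 : ∀ j l, A0 j l = A0 l j)
    (h1 : ∀ j l, A1 j l = A1 l j) (V0 V1 : LI d) :
    {t ∈ ellSet A0 A1 | ∃ μ : ℝ,
      IsEigenvalue (liftA (addA A0 A1 t)) (liftV (V0 + t • V1)) μ}.Countable ∨
    ∀ t ∈ ellSet A0 A1, ∃ μ : ℝ,
      IsEigenvalue (liftA (addA A0 A1 t)) (liftV (V0 + t • V1)) μ := by
  by_cases hall : ∀ t ∈ ellSet A0 A1, ∃ μ : ℝ,
      IsEigenvalue (liftA (addA A0 A1 t)) (liftV (V0 + t • V1)) μ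
  · exact Or.inr hall
  left
  push Not at hall
  obtain ⟨t₀, ht₀, hgood⟩ := hall
  obtain ⟨c, hc⟩ := ht₀
  obtain ⟨κ, hκ⟩ := exists_kappa hc (V0 + t₀ • V1) hgood
  have hell : ∀ k : E d, ∀ t ∈ ellSet A0 A1,
      Elliptic (Nop d) (Bop A0 V0 (toC k) + (t : ℂ) • Bop A1 V1 (toC k)) := by
    rintro k t ⟨c', hc'⟩
    rw [← Bop_addA]
    exact Bop_elliptic hc' _ k
  rcases abs_line Nop_weight (Bop A0 V0 (toC 0)) (Bop A1 V1 (toC 0)) (Bop A0 V0 (toC κ))
      (Bop A1 V1 (toC κ)) (ellSet A0 A1) (ellSet_isOpen A0 A1 h0 h1) (ellSet_ordConnected A0 A1)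
      (hell 0) (hell κ) with h | h
  · refine h.mono ?_
    rintro t ⟨⟨c', hc'⟩, μ, hμ⟩
    refine ⟨⟨c', hc'⟩, -μ, ?_, ?_⟩
    · have hm : (0 : E d) ∈ Kset (addA A0 A1 t) (V0 + t • V1) (-μ) := by
        rw [Kset_univ hc' _ μ hμ]
        exact mem_univ _
      have hm' : IsEig (Nop d) (Bop (addA A0 A1 t) (V0 + t • V1) (toC 0)) ((-μ : ℝ) : ℂ) := hm
      rwa [Bop_addA] at hm'
    · have hm : κ ∈ Kset (addA A0 A1 t) (V0 + t • V1) (-μ) := by
        rw [Kset_univ hc' _ μ hμ]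
        exact mem_univ _
      have hm' : IsEig (Nop d) (Bop (addA A0 A1 t) (V0 + t • V1) (toC κ)) ((-μ : ℝ) : ℂ) := hm
      rwa [Bop_addA] at hm'
  · exfalso
    obtain ⟨μ, h2, h3⟩ := h t₀ ⟨c, hc⟩
    rw [← Bop_addA] at h2 h3
    exact hκ μ ⟨h2, h3⟩

end Pool.Agent.Lib.MP_c8757e_mp
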