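import Pool.Agent.Lib.MP_c8757e_mp.Defs

/-! FLAT, module NullU: a closed set which meets every line in a countable set or in the whole line
is null or everything. -/

open MeasureTheory Filter Topology Set
open scoped ENNReal

noncomputable section

namespace Pool.Agent.Lib.MP_c8757e_mp

/-- If `k₀ ∉ K`, every line through `k₀` meets `K` in a countable set; polar coordinates around `k₀`
(`MeasureTheory.Measure.measurePreserving_homeomorphUnitSphereProd`), or induction on `d` with
Fubini. For `d = 0` the space is one point. -/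
theorem null_or_univ {d : ℕ} (K : Set (E d)) (hK : IsClosed K)
    (h : ∀ k₀ ω : E d, {t : ℝ | k₀ + t • ω ∈ K}.Countable ∨ {t : ℝ | k₀ + t • ω ∈ K} = univ) :
    volume K = 0 ∨ K = univ := by
  by_cases hu : K = univ
  · exact Or.inr hu
  left
  obtain ⟨k₀, hk₀⟩ : ∃ k₀, k₀ ∉ K := by
    by_contra hcon
    push Not at hcon
    exact hu (eq_univ_of_forall hcon)
  have hc : ∀ ω : E d, {t : ℝ | k₀ + t • ω ∈ K}.Countable := by
    intro ω
    rcases h k₀ ω with h1 | h1
    · exact h1
    · exfalso
      have h0 : (0 : ℝ) ∈ {t : ℝ | k₀ + t • ω ∈ K} := by rw [h1]; trivial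
      simp only [mem_setOf_eq, zero_smul, add_zero] at h0
      exact hk₀ h0
  -- translate
  set K' : Set (E d) := (fun x => k₀ + x) ⁻¹' K with hK'
  have hK'c : IsClosed K' := hK.preimage (by fun_prop)
  have h0K' : (0 : E d) ∉ K' := by
    simp only [hK', mem_preimage, add_zero]
    exact hk₀
  have hvol : volume K' = volume K := by
    rw [hK']
    exact measure_preimage_add volume k₀ K
  rw [← hvol]
  -- the complement of zero
  have hmeas : MeasurableSet K' := hK'c.measurableSet
  have h1 : volume K' = (volume.comap ((↑) : ({0}ᶜ : Set (E d)) → E d)) ((↑) ⁻¹' K') := by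
    rw [comap_subtype_coe_apply (measurableSet_singleton _).compl, Subtype.image_preimage_coe]
    congr 1
    ext x
    simp only [mem_inter_iff, mem_compl_iff, mem_singleton_iff]
    constructor
    · intro hx
      exact ⟨fun h0 => h0K' (h0 ▸ hx), hx⟩
    · exact fun hx => hx.2
  rw [h1]
  have hmp := (volume : Measure (E d)).measurePreserving_homeomorphUnitSphereProd
  set e := homeomorphUnitSphereProd (E d) with he
  set S : Set (Metric.sphere (0 : E d) 1 × Ioi (0 : ℝ)) := {p | p.2.1 • p.1.1 ∈ K'} with hS
  have hSm : MeasurableSet S := by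
    have hcont : Continuous fun p : Metric.sphere (0 : E d) 1 × Ioi (0 : ℝ) =>
        p.2.1 • p.1.1 := by fun_prop
    exact (hK'c.preimage hcont).measurableSet
  have hpre : ((↑) : ({0}ᶜ : Set (E d)) → E d) ⁻¹' K' = e ⁻¹' S := by
    ext x
    simp only [mem_preimage, hS, mem_setOf_eq]
    have hx : (e x).2.1 • (e x).1.1 = x.1 := by
      have h2 := e.symm_apply_apply x
      have h3 := congrArg Subtype.val h2
      rw [homeomorphUnitSphereProd_symm_apply_coe] at h3
      exact h3
    rw [hx]
  rw [hpre, hmp.measure_preimage hSm.nullMeasurableSet, Measure.measure_prod_null hSm]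
  refine Filter.Eventually.of_forall fun ω => ?_
  have hcount : (Prod.mk ω ⁻¹' S).Countable := by
    have h2 := hc ω.1
    have h3 : (Prod.mk ω ⁻¹' S) = ((↑) : Ioi (0 : ℝ) → ℝ) ⁻¹' {t : ℝ | k₀ + t • ω.1 ∈ K} := by
      ext t
      simp [hS, hK']
    rw [h3]
    exact h2.preimage Subtype.val_injective
  have hac : Measure.volumeIoiPow (Module.finrank ℝ (E d) - 1) ≪
      (Measure.comap ((↑) : Ioi (0 : ℝ) → ℝ) volume) := by
    unfold Measure.volumeIoiPow
    exact withDensity_absolutelyContinuous _ _
  refine hac ?_
  rw [comap_subtype_coe_apply measurableSet_Ioi]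
  exact (hcount.image _).measure_zero _

end Pool.Agent.Lib.MP_c8757e_mp
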