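import Pool.Agent.Lib.MP_c8757e_mp.Defs

/-! FLAT, module Quasi: the projection to the torus preserves null sets; multiplication by periodic
bounded functions. -/

open MeasureTheory Filter Topology Set
open scoped ENNReal

noncomputable section

namespace Pool.Agent.Lib.MP_c8757e_mp

variable {d : ℕ}

theorem measurable_proj : Measurable (proj (d := d)) := continuous_proj.measurable

section Quasi

attribute [local instance] instMeasureSpaceUnitAddCircle

private theorem Quasi_vol : (volume : Measure (Tor d)) = torM d := rfl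

private theorem Quasi_cube (s : Set (Tor d)) (hs : MeasurableSet s) (h : torM d s = 0)
    (n : Fin d → ℤ) :
    volume ({x : Fin d → ℝ | (fun i => (x i : UnitAddCircle)) ∈ s} ∩
      {x : Fin d → ℝ | ∀ i, x i ∈ Ioc (n i : ℝ) ((n i : ℝ) + 1)}) = 0 := by
  have h1 := UnitAddTorus.lintegral_preimage (s.indicator (fun _ => (1 : ℝ≥0∞)))
    (fun i : Fin d => (n i : ℝ))
  rw [lintegral_indicator hs, setLIntegral_one, Quasi_vol, h] at h1
  have hm : Measurable (fun x : Fin d → ℝ => (fun i => (x i : UnitAddCircle) : Tor d)) := by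
    refine measurable_pi_lambda _ fun i => ?_
    exact AddCircle.measurable_mk'.comp (measurable_pi_apply i)
  have h2 : (fun x : Fin d → ℝ => s.indicator (fun _ => (1 : ℝ≥0∞))
      (fun i => (x i : UnitAddCircle))) =
      ({x : Fin d → ℝ | (fun i => (x i : UnitAddCircle)) ∈ s}).indicator (fun _ => (1 : ℝ≥0∞)) := by
    funext x
    rfl
  have hms : MeasurableSet {x : Fin d → ℝ | (fun i => (x i : UnitAddCircle) : Tor d) ∈ s} := hm hs
  rw [h2, lintegral_indicator hms, setLIntegral_one, Measure.restrict_apply hms] at h1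
  exact h1.symm

end Quasi

/-- A null set of the torus has a null preimage: on each of the countably many cubes
`{x | n_i < x_i ≤ n_i + 1}` the projection is measure preserving
(`UnitAddTorus.measurePreserving_equivPiIoc`, `UnitAddTorus.lintegral_preimage`; the volume of
`EuclideanSpace` is the product measure, `EuclideanSpace.volume_preserving_...`). -/
theorem proj_quasi : Measure.QuasiMeasurePreserving (proj (d := d)) volume (torM d) := by
  refine ⟨measurable_proj, Measure.AbsolutelyContinuous.mk fun s hs h => ?_⟩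
  rw [Measure.map_apply measurable_proj hs]
  have hm : Measurable (fun x : Fin d → ℝ => (fun i => (x i : UnitAddCircle) : Tor d)) := by
    refine measurable_pi_lambda _ fun i => ?_
    exact AddCircle.measurable_mk'.comp (measurable_pi_apply i)
  have h1 : (proj (d := d)) ⁻¹' s = (WithLp.ofLp : E d → (Fin d → ℝ)) ⁻¹'
      {x : Fin d → ℝ | (fun i => (x i : UnitAddCircle) : Tor d) ∈ s} := rfl
  have hms : MeasurableSet {x : Fin d → ℝ | (fun i => (x i : UnitAddCircle) : Tor d) ∈ s} := hm hs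
  rw [h1, (PiLp.volume_preserving_ofLp (Fin d)).measure_preimage hms.nullMeasurableSet]
  have h2 : {x : Fin d → ℝ | (fun i => (x i : UnitAddCircle) : Tor d) ∈ s} ⊆
      ⋃ n : Fin d → ℤ, ({x : Fin d → ℝ | (fun i => (x i : UnitAddCircle) : Tor d) ∈ s} ∩
      {x : Fin d → ℝ | ∀ i, x i ∈ Ioc (n i : ℝ) ((n i : ℝ) + 1)}) := by
    intro x hx
    refine mem_iUnion.2 ⟨fun i => ⌈x i⌉ - 1, hx, fun i => ?_⟩
    push_cast
    constructor
    · linarith [Int.ceil_lt_add_one (x i)]
    · linarith [Int.le_ceil (x i)]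
  refine measure_mono_null h2 (measure_iUnion_null fun n => Quasi_cube s hs h n)

theorem ae_proj {p : Tor d → Prop} (h : ∀ᵐ y ∂(torM d), p y) : ∀ᵐ x : E d, p (proj x) :=
  proj_quasi.ae h

private theorem Quasi_ae_le (a : LIC d) : ∀ᵐ y ∂(torM d), ‖a y‖ ≤ ‖a‖ := by
  have h1 := ae_le_eLpNormEssSup (f := (a : Tor d → ℂ)) (μ := torM d)
  have h3 : eLpNormEssSup (a : Tor d → ℂ) (torM d) ≠ ∞ := by
    rw [← eLpNorm_exponent_top]
    exact Lp.eLpNorm_ne_top a
  filter_upwards [h1] with y hy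
  rw [Lp.norm_def, eLpNorm_exponent_top, ← toReal_enorm]
  exact (ENNReal.toReal_le_toReal enorm_ne_top h3).2 hy

theorem memLp_comp_proj (a : LIC d) : MemLp (fun x : E d => a (proj x)) ∞ volume := by
  refine memLp_top_of_bound ((Lp.aestronglyMeasurable a).comp_quasiMeasurePreserving proj_quasi)
    ‖a‖ ?_
  exact ae_proj (Quasi_ae_le a)

theorem coeFn_compE (a : LIC d) : compE a =ᵐ[volume] fun x => a (proj x) := by
  unfold compE
  rw [dif_pos (memLp_comp_proj a)]
  exact MemLp.coeFn_toLp _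

theorem coeFn_mulE (a : LIC d) (F : L2E d) : mulE a F =ᵐ[volume] fun x => a (proj x) * F x := by
  have h1 := (ContinuousLinearMap.mul ℂ ℂ).coeFn_holder (r := 2) (compE a) F
  have h2 : mulE a F = ContinuousLinearMap.holder 2 (ContinuousLinearMap.mul ℂ ℂ) (compE a) F := rfl
  rw [h2]
  filter_upwards [h1, coeFn_compE a] with x hx hx2
  rw [hx, hx2]
  rfl

theorem mulE_add (a b : LIC d) (F : L2E d) : mulE (a + b) F = mulE a F + mulE b F := by
  apply Lp.ext
  filter_upwards [coeFn_mulE (a + b) F, coeFn_mulE a F, coeFn_mulE b F,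
    Lp.coeFn_add (mulE a F) (mulE b F), ae_proj (Lp.coeFn_add a b)] with x h1 h2 h3 h4 h5
  rw [h1, h4, h5, Pi.add_apply, Pi.add_apply, h2, h3, add_mul]

theorem mulE_smul (z : ℂ) (a : LIC d) (F : L2E d) : mulE (z • a) F = z • mulE a F := by
  apply Lp.ext
  filter_upwards [coeFn_mulE (z • a) F, coeFn_mulE a F, Lp.coeFn_smul z (mulE a F),
    ae_proj (Lp.coeFn_smul z a)] with x h1 h2 h3 h4
  rw [h1, h3, h4, Pi.smul_apply, Pi.smul_apply, h2, smul_eq_mul, smul_eq_mul, mul_assoc]

theorem mulE_norm_le (a : LIC d) (F : L2E d) : ‖mulE a F‖ ≤ ‖a‖ * ‖F‖ := by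
  have h1 : ‖mulE a F‖ ≤ ‖ContinuousLinearMap.mul ℂ ℂ‖ * ‖compE a‖ * ‖F‖ :=
    (ContinuousLinearMap.mul ℂ ℂ).norm_holder_apply_apply_le (r := 2) (compE a) F
  have h2 : ‖ContinuousLinearMap.mul ℂ ℂ‖ ≤ 1 := ContinuousLinearMap.opNorm_mul_le ℂ ℂ
  have h3 : ‖compE a‖ ≤ ‖a‖ := by
    rw [Lp.norm_def, eLpNorm_exponent_top]
    refine ENNReal.toReal_le_of_le_ofReal (norm_nonneg a) ?_
    refine eLpNormEssSup_le_of_ae_bound ?_
    filter_upwards [coeFn_compE a, ae_proj (Quasi_ae_le a)] with x hx hx2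
    rw [hx]
    exact hx2
  calc ‖mulE a F‖ ≤ ‖ContinuousLinearMap.mul ℂ ℂ‖ * ‖compE a‖ * ‖F‖ := h1
    _ ≤ 1 * ‖a‖ * ‖F‖ := by gcongr
    _ = ‖a‖ * ‖F‖ := by rw [one_mul]

theorem coeFn_cplx (a : LI d) : ∀ᵐ y ∂(torM d), cplx a y = (a y : ℂ) := by
  exact Complex.ofRealCLM.coeFn_compLp a

end Pool.Agent.Lib.MP_c8757e_mp
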