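import Pool.Agent.Lib.MP_c8757e_mp.Graph

/-! FLAT, module Red: reduction of the pencil near `(z₀, lam)` to an analytic matrix. -/

open Filter Topology Set
open scoped ComplexInnerProductSpace

noncomputable section

namespace Pool.Agent.Lib.MP_c8757e_mp

private theorem Red_det {K : Type*} [AddCommGroup K] [Module ℂ K] [FiniteDimensional ℂ K]
    {n : ℕ} (b : Module.Basis (Fin n) ℂ K) (f : K →ₗ[ℂ] K) (ζ : ℂ) :
    (LinearMap.toMatrix b b f - ζ • (1 : Matrix _ _ ℂ)).det = 0 ↔ ∃ k : K, k ≠ 0 ∧ f k = ζ • k := by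
  have h1 : LinearMap.toMatrix b b f - ζ • (1 : Matrix _ _ ℂ) =
      LinearMap.toMatrix b b (f - ζ • LinearMap.id) := by
    rw [map_sub, map_smul, LinearMap.toMatrix_id]
  rw [h1, LinearMap.det_toMatrix, LinearMap.det_eq_zero_iff_ker_ne_bot, Submodule.ne_bot_iff]
  constructor
  · rintro ⟨k, hk, hk0⟩
    refine ⟨k, hk0, ?_⟩
    rw [LinearMap.mem_ker] at hk
    exact sub_eq_zero.1 hk
  · rintro ⟨k, hk0, hk⟩
    refine ⟨k, ?_, hk0⟩
    rw [LinearMap.mem_ker]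
    exact sub_eq_zero.2 hk

/-- The statement for abstract splittings. -/
private theorem Red_main {K C E : Type*}
    [NormedAddCommGroup K] [NormedSpace ℂ K] [NormedAddCommGroup C] [NormedSpace ℂ C]
    [NormedAddCommGroup E] [NormedSpace ℂ E]
    [CompleteSpace K] [CompleteSpace C] [FiniteDimensional ℂ K]
    (i : C →L[ℂ] E) (j : K →L[ℂ] E) (N : E →L[ℂ] E) (P : ℂ → E →L[ℂ] E) (z₀ lam : ℂ)
    (hP : ContinuousAt P z₀)
    (T₁ : (K × C) ≃L[ℂ] E) (hT₁ : ∀ p, T₁ p = j p.1 + i p.2)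
    (T : (K × C) ≃L[ℂ] E) (hT : ∀ p, T p = N (j p.1) + (P z₀ - lam • N) (i p.2))
    (G : ℂ → K →L[ℂ] C) (B : ℂ → K →L[ℂ] K) (hG : ContinuousAt G z₀) (hB : AnalyticAt ℂ B z₀)
    (hG0 : G z₀ = 0) (hB0 : B z₀ = lam • ContinuousLinearMap.id ℂ _)
    (hGB : ∀ᶠ z in 𝓝 z₀, ∀ k : K, P z (j k + i (G z k)) = N (j (B z k) + i (G z (B z k)))) :
    ∃ (n : ℕ) (M : ℂ → Matrix (Fin n) (Fin n) ℂ),
      (∀ i j, AnalyticAt ℂ (fun z => M z i j) z₀) ∧ M z₀ = lam • (1 : Matrix _ _ ℂ) ∧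
      ∃ ε > 0, ∀ᶠ z in 𝓝 z₀, ∀ ζ : ℂ, ‖ζ - lam‖ < ε →
        ((∃ u : E, u ≠ 0 ∧ P z u = ζ • N u) ↔ (M z - ζ • (1 : Matrix _ _ ℂ)).det = 0) := by
  classical
  let b := Module.finBasis ℂ K
  -- the two families of operators
  let Φ₁ : ℂ → (K × C) →L[ℂ] E := fun z => (j + i ∘L G z).coprod i
  let Φ₂ : ℂ × ℂ → (K × C) →L[ℂ] E := fun p =>
    (N ∘L (j + i ∘L G p.1)).coprod ((P p.1 - p.2 • N) ∘L i)
  have hΦ₁ : ContinuousAt Φ₁ z₀ := by
    have h1 : ContinuousAt (fun z => j + i ∘L G z) z₀ :=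
      continuousAt_const.add (continuousAt_const.clm_comp hG)
    have h2 : Φ₁ = fun z => (j + i ∘L G z) ∘L ContinuousLinearMap.fst ℂ K C +
        i ∘L ContinuousLinearMap.snd ℂ K C := by
      funext z
      refine ContinuousLinearMap.ext fun p => ?_
      rfl
    rw [h2]
    exact (h1.clm_comp continuousAt_const).add continuousAt_const
  have hΦ₂ : ContinuousAt Φ₂ (z₀, lam) := by
    have h0 : ContinuousAt (fun p : ℂ × ℂ => G p.1) (z₀, lam) :=
      ContinuousAt.comp (f := fun p : ℂ × ℂ => p.1) (g := G) (x := (z₀, lam)) hG continuousAt_fst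
    have h1 : ContinuousAt (fun p : ℂ × ℂ => N ∘L (j + i ∘L G p.1)) (z₀, lam) :=
      continuousAt_const.clm_comp (continuousAt_const.add (continuousAt_const.clm_comp h0))
    have h3 : ContinuousAt (fun p : ℂ × ℂ => P p.1) (z₀, lam) :=
      ContinuousAt.comp (f := fun p : ℂ × ℂ => p.1) (g := P) (x := (z₀, lam)) hP continuousAt_fst
    have h4 : ContinuousAt (fun p : ℂ × ℂ => (P p.1 - p.2 • N) ∘L i) (z₀, lam) :=
      (h3.sub (continuousAt_snd.smul continuousAt_const)).clm_comp continuousAt_const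
    have h2 : Φ₂ = fun p => (N ∘L (j + i ∘L G p.1)) ∘L ContinuousLinearMap.fst ℂ K C +
        ((P p.1 - p.2 • N) ∘L i) ∘L ContinuousLinearMap.snd ℂ K C := by
      funext z
      refine ContinuousLinearMap.ext fun p => ?_
      rfl
    rw [h2]
    exact (h1.clm_comp continuousAt_const).add (h4.clm_comp continuousAt_const)
  have hr₁ : ∀ᶠ z in 𝓝 z₀, Φ₁ z ∈ range ((↑) : ((K × C) ≃L[ℂ] E) → (K × C) →L[ℂ] E) := by
    have h1 : Φ₁ z₀ = (T₁ : (K × C) →L[ℂ] E) := by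
      refine ContinuousLinearMap.ext fun p => ?_
      show j p.1 + i (G z₀ p.1) + i p.2 = T₁ p
      rw [hT₁, hG0]
      simp
    have h2 := ContinuousLinearEquiv.nhds T₁
    rw [← h1] at h2
    exact hΦ₁ h2
  have hr₂ : ∀ᶠ p in 𝓝 (z₀, lam), Φ₂ p ∈ range ((↑) : ((K × C) ≃L[ℂ] E) → (K × C) →L[ℂ] E) := by
    have h1 : Φ₂ (z₀, lam) = (T : (K × C) →L[ℂ] E) := by
      refine ContinuousLinearMap.ext fun p => ?_
      show N (j p.1 + i (G z₀ p.1)) + (P z₀ - lam • N) (i p.2) = T p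
      rw [hT, hG0]
      simp
    have h2 := ContinuousLinearEquiv.nhds T
    rw [← h1] at h2
    exact hΦ₂ h2
  rw [nhds_prod_eq, eventually_prod_iff] at hr₂
  obtain ⟨pa, hpa, pb, hpb, hpab⟩ := hr₂
  rw [Metric.eventually_nhds_iff] at hpb
  obtain ⟨ε, hε, hpb⟩ := hpb
  refine ⟨_, fun z => LinearMap.toMatrix b b (B z : K →ₗ[ℂ] K), ?_, ?_, ε, hε, ?_⟩
  · intro k l
    let L : (K →L[ℂ] K) →L[ℂ] ℂ :=
      (LinearMap.toContinuousLinearMap (b.coord k)) ∘L (ContinuousLinearMap.apply ℂ K (b l))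
    have h1 : (fun z => LinearMap.toMatrix b b (B z : K →ₗ[ℂ] K) k l) = fun z => L (B z) := by
      funext z
      rw [LinearMap.toMatrix_apply]
      rfl
    rw [h1]
    exact (L.analyticAt _).comp hB
  · show LinearMap.toMatrix b b (B z₀ : K →ₗ[ℂ] K) = _
    rw [hB0]
    have h1 : ((lam • ContinuousLinearMap.id ℂ K : K →L[ℂ] K) : K →ₗ[ℂ] K) =
        lam • LinearMap.id := rfl
    rw [h1, map_smul, LinearMap.toMatrix_id]
  · filter_upwards [hGB, hr₁, hpa] with z hz h₁ hz2 ζ hζ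
    have h₂ : Φ₂ (z, ζ) ∈ range ((↑) : ((K × C) ≃L[ℂ] E) → (K × C) →L[ℂ] E) := by
      refine hpab hz2 (hpb ?_)
      rw [dist_eq_norm]
      exact hζ
    obtain ⟨e₁, he₁⟩ := h₁
    obtain ⟨e₂, he₂⟩ := h₂
    have he₁' : ∀ p : K × C, e₁ p = j p.1 + i (G z p.1) + i p.2 := by
      intro p
      have h3 : (e₁ : (K × C) →L[ℂ] E) p = Φ₁ z p := by rw [he₁]
      exact h3
    have he₂' : ∀ p : K × C, e₂ p = N (j p.1 + i (G z p.1)) + (P z - ζ • N) (i p.2) := by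
      intro p
      have h3 : (e₂ : (K × C) →L[ℂ] E) p = Φ₂ (z, ζ) p := by rw [he₂]
      exact h3
    rw [Red_det]
    constructor
    · rintro ⟨u, hu0, hu⟩
      obtain ⟨⟨k, w⟩, rfl⟩ := e₁.surjective u
      have hu1 := hu
      rw [he₁'] at hu1
      have h5 : e₂ (B z k - ζ • k, w) = 0 := by
        rw [he₂']
        have h6 := hz k
        simp only [map_add, map_sub, map_smul, ContinuousLinearMap.sub_apply,
          ContinuousLinearMap.smul_apply, smul_add] at h6 hu1 ⊢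
        have h7 : P z (j k) + P z (i ((G z) k)) + P z (i w) -
          (ζ • N (j k) + ζ • N (i ((G z) k)) + ζ • N (i w)) = 0 := sub_eq_zero.2 hu1
        rw [h6] at h7
        rw [← h7]
        abel
      have h8 : ((B z k - ζ • k, w) : K × C) = 0 := by
        apply e₂.injective
        rw [h5, map_zero]
      have h9 : B z k - ζ • k = 0 := congrArg Prod.fst h8
      have h10 : w = 0 := congrArg Prod.snd h8
      refine ⟨k, ?_, sub_eq_zero.1 h9⟩
      rintro rfl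
      apply hu0
      rw [h10]
      exact map_zero e₁
    · rintro ⟨k, hk0, hk⟩
      refine ⟨e₁ (k, 0), ?_, ?_⟩
      · intro h3
        have h4 : ((k, 0) : K × C) = 0 := by
          apply e₁.injective
          rw [h3, map_zero]
        exact hk0 (congrArg Prod.fst h4)
      · have hk' : B z k = ζ • k := hk
        rw [he₁']
        have h6 := hz k
        rw [hk'] at h6
        simp only [map_zero, add_zero]
        rw [h6]
        simp only [map_add, map_smul, smul_add]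

variable {H : Type*} [NormedAddCommGroup H] [InnerProductSpace ℂ H] [CompleteSpace H]
  {N : H →L[ℂ] H}

/-- Take `(G, B)` from `exists_graph`, `B` in matrix form in a basis of `K`.
(⇐) `B(z) k = ζ k` gives `P(z)(k + G k) = ζ N (k + G k)`, and `k + G k ≠ 0` (`exists_split`).
(⇒) The maps `(k, w) ↦ (k + G(z) k) + w` and `(k, w) ↦ N (k + G(z) k) + (P(z) - ζ N) w` from `K × C`
to `H` are invertible for `(z, ζ)` near `(z₀, lam)` (open condition, `exists_split`,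
`exists_theta`). If `P(z) u = ζ N u`, write `u = (k + G k) + w`; then
`N (1 + G)(B k - ζ k) + (P(z) - ζ N) w = 0`, so `B k = ζ k`, `w = 0`, `k ≠ 0`. -/
theorem red (hN : Weight N) (P : ℂ → H →L[ℂ] H) (z₀ : ℂ) (hP : AnalyticAt ℂ P z₀)
    (lam : ℝ) (hS : Elliptic N (P z₀ - (lam : ℂ) • N)) :
    ∃ (n : ℕ) (B : ℂ → Matrix (Fin n) (Fin n) ℂ),
      (∀ i j, AnalyticAt ℂ (fun z => B z i j) z₀) ∧ B z₀ = (lam : ℂ) • (1 : Matrix _ _ ℂ) ∧
      ∃ ε > 0, ∀ᶠ z in 𝓝 z₀, ∀ ζ : ℂ, ‖ζ - lam‖ < ε →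
        (IsEig N (P z) ζ ↔ (B z - ζ • (1 : Matrix _ _ ℂ)).det = 0) := by
  obtain ⟨T₁, hT₁⟩ := exists_split hN hS
  obtain ⟨T, hT⟩ := exists_theta hN hS
  obtain ⟨G, B, hG, hB, hG0, hB0, hGB⟩ := exists_graph hN P z₀ hP lam hS
  have hc : IsClosed ((kerS (P z₀ - (lam : ℂ) • N)) : Set H) :=
    (P z₀ - (lam : ℂ) • N).isClosed_ker
  have hK : CompleteSpace (kerS (P z₀ - (lam : ℂ) • N)) := hc.completeSpace_coe
  have hF : FiniteDimensional ℂ (kerS (P z₀ - (lam : ℂ) • N)) := ker_finiteDimensional hN hS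
  exact Red_main (compS N (P z₀ - (lam : ℂ) • N)).subtypeL
    (kerS (P z₀ - (lam : ℂ) • N)).subtypeL N P z₀ lam hP.continuousAt T₁ hT₁ T hT G B
    hG.continuousAt hB hG0 hB0 hGB

end Pool.Agent.Lib.MP_c8757e_mp
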