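import Pool.Agent.Lib.MP_c8757e_mp.Defs

/-! FLAT, module Schw: weak identities extend from test functions to Schwartz functions. -/

open MeasureTheory Filter Topology Set
open scoped ENNReal SchwartzMap

noncomputable section

namespace Pool.Agent.Lib.MP_c8757e_mp

variable {d : ℕ}

private theorem Schw_int {f g : E d → ℝ} (hf : MemLp f 2 volume) (hg : MemLp g 2 volume) :
    Integrable (fun x => f x * g x) volume := MemLp.integrable_mul hf hg

/-- The cut-off functions. -/
private theorem Schw_cut (ψ : 𝓢(E d, ℂ)) :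
    ∃ (φ : ℕ → E d → ℂ) (K : ℝ), 0 ≤ K ∧ (∀ n, IsTest (φ n)) ∧
      (∀ n x, ‖φ n x‖ ≤ ‖ψ x‖) ∧
      (∀ x, Tendsto (fun n => φ n x) atTop (𝓝 (ψ x))) ∧
      (∀ n j x, ‖pd j (φ n) x‖ ≤ ‖fderiv ℝ ψ x‖ + K * ‖ψ x‖) ∧
      (∀ j x, Tendsto (fun n => pd j (φ n) x) atTop (𝓝 (pd j ψ x))) := by
  obtain ⟨χ, hχs, hχc, hχ0, hχ1, hχz⟩ : ∃ χ : E d → ℝ, ContDiff ℝ (⊤ : ℕ∞) χ ∧
      HasCompactSupport χ ∧ (∀ x, 0 ≤ χ x) ∧ (∀ x, χ x ≤ 1) ∧ χ 0 = 1 := by
    obtain ⟨χ⟩ : Nonempty (ContDiffBump (0 : E d)) := ⟨⟨1, 2, by norm_num, by norm_num⟩⟩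
    exact ⟨χ, χ.contDiff, χ.hasCompactSupport, fun x => χ.nonneg, fun x => χ.le_one,
      χ.one_of_mem_closedBall (by simp [χ.rIn_pos.le])⟩
  -- the scaled cut-offs
  have hχd : Differentiable ℝ χ := hχs.differentiable (by simp)
  have hcs : HasCompactSupport (fun x => fderiv ℝ χ x) := hχc.fderiv ℝ
  obtain ⟨K, hK⟩ := hcs.exists_bound_of_continuous (hχs.continuous_fderiv (by simp))
  have hK0 : 0 ≤ K := (norm_nonneg _).trans (hK 0)
  have hψs : ContDiff ℝ (⊤ : ℕ∞) (ψ : E d → ℂ) := ψ.smooth _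
  have hψd : Differentiable ℝ (ψ : E d → ℂ) := hψs.differentiable (by simp)
  let r : ℕ → ℝ := fun n => 1 / ((n : ℝ) + 1)
  have hr0 : ∀ n, 0 < r n := fun n => by positivity
  have hr1 : ∀ n, r n ≤ 1 := fun n => by
    change 1 / ((n : ℝ) + 1) ≤ 1
    rw [div_le_one (by positivity)]
    have : (0 : ℝ) ≤ n := Nat.cast_nonneg n
    linarith
  have hrt : Tendsto r atTop (𝓝 0) := tendsto_one_div_add_atTop_nhds_zero_nat
  have hsc : ∀ x : E d, Tendsto (fun n => r n • x) atTop (𝓝 0) := fun x => by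
    have := hrt.smul_const x
    simpa using this
  let φ : ℕ → E d → ℂ := fun n x => ((χ (r n • x) : ℝ) : ℂ) * ψ x
  -- derivatives
  have hder : ∀ n x, HasFDerivAt (fun y => χ (r n • y))
      ((fderiv ℝ χ (r n • x)).comp (r n • ContinuousLinearMap.id ℝ (E d))) x := by
    intro n x
    have h1 : HasFDerivAt (fun y : E d => r n • y) (r n • ContinuousLinearMap.id ℝ (E d)) x :=
      (hasFDerivAt_id x).const_smul (r n)
    exact HasFDerivAt.comp x (hχd (r n • x)).hasFDerivAt h1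
  have hpd : ∀ n j x, pd j (φ n) x = ((χ (r n • x) : ℝ) : ℂ) * pd j ψ x +
      ((r n * fderiv ℝ χ (r n • x) (EuclideanSpace.single j 1) : ℝ) : ℂ) * ψ x := by
    intro n j x
    have h1 : HasFDerivAt (fun y => χ (r n • y) • ψ y) _ x :=
      (hder n x).smul (hψd x).hasFDerivAt
    have h2 : φ n = fun y => χ (r n • y) • ψ y := by
      funext y
      simp [φ]
    unfold pd
    rw [h2, h1.fderiv]
    simp only [add_apply, smul_apply,
      ContinuousLinearMap.smulRight_apply, ContinuousLinearMap.comp_apply,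
      ContinuousLinearMap.id_apply, map_smul, smul_eq_mul, Complex.real_smul]
  refine ⟨φ, K, hK0, ?_, ?_, ?_, ?_, ?_⟩
  · intro n
    refine ⟨?_, ?_⟩
    · have h1 : ContDiff ℝ (⊤ : ℕ∞) (fun x : E d => χ (r n • x)) :=
        hχs.comp (contDiff_id.const_smul (r n))
      exact (Complex.ofRealCLM.contDiff.comp h1).mul hψs
    · have h1 : HasCompactSupport (fun x : E d => χ (r n • x)) :=
        hχc.comp_homeomorph (Homeomorph.smulOfNeZero (r n) (hr0 n).ne')
      have h2 : HasCompactSupport (fun x : E d => ((χ (r n • x) : ℝ) : ℂ)) :=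
        h1.comp_left (g := fun t : ℝ => (t : ℂ)) (by simp)
      exact h2.mul_right
  · intro n x
    change ‖((χ (r n • x) : ℝ) : ℂ) * ψ x‖ ≤ _
    rw [norm_mul, Complex.norm_real, Real.norm_of_nonneg (hχ0 _)]
    exact mul_le_of_le_one_left (norm_nonneg _) (hχ1 _)
  · intro x
    have h1 : Tendsto (fun n => χ (r n • x)) atTop (𝓝 (χ 0)) :=
      (hχs.continuous.tendsto 0).comp (hsc x)
    rw [hχz] at h1
    have h2 := ((Complex.continuous_ofReal.tendsto 1).comp h1).mul_const (ψ x)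
    simpa [φ, Function.comp_def] using h2
  · intro n j x
    rw [hpd]
    have hs : ‖(EuclideanSpace.single j (1 : ℝ) : E d)‖ = 1 := by simp
    refine (norm_add_le _ _).trans (add_le_add ?_ ?_)
    · rw [norm_mul, Complex.norm_real, Real.norm_of_nonneg (hχ0 _)]
      refine (mul_le_of_le_one_left (norm_nonneg _) (hχ1 _)).trans ?_
      refine (ContinuousLinearMap.le_opNorm _ _).trans ?_
      rw [hs, mul_one]
    · rw [norm_mul, Complex.norm_real, norm_mul, Real.norm_of_nonneg (hr0 n).le]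
      refine mul_le_mul_of_nonneg_right ?_ (norm_nonneg _)
      refine (mul_le_of_le_one_left (norm_nonneg _) (hr1 n)).trans ?_
      refine (ContinuousLinearMap.le_opNorm _ _).trans ?_
      rw [hs, mul_one]
      exact hK _
  · intro j x
    have h1 : Tendsto (fun n => χ (r n • x)) atTop (𝓝 (χ 0)) :=
      (hχs.continuous.tendsto 0).comp (hsc x)
    rw [hχz] at h1
    have h2 := ((Complex.continuous_ofReal.tendsto 1).comp h1).mul_const (pd j ψ x)
    have h3 : Tendsto (fun n => fderiv ℝ χ (r n • x) (EuclideanSpace.single j 1))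
        atTop (𝓝 (fderiv ℝ χ 0 (EuclideanSpace.single j 1))) := by
      have hc : Continuous (fun y => fderiv ℝ χ y (EuclideanSpace.single j 1)) :=
        (hχs.continuous_fderiv (by simp)).clm_apply continuous_const
      exact (hc.tendsto 0).comp (hsc x)
    have h4 := (((Complex.continuous_ofReal.tendsto _).comp (hrt.mul h3)).mul_const (ψ x))
    have h5 := h2.add h4
    have h6 : (fun n => pd j (φ n) x) = fun n => ((χ (r n • x) : ℝ) : ℂ) * pd j ψ x +
      ((r n * fderiv ℝ χ (r n • x) (EuclideanSpace.single j 1) : ℝ) : ℂ) * ψ x :=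
      funext fun n => hpd n j x
    rw [h6]
    simpa [Function.comp_def] using h5

/-- Cut off: `φ_R = χ(x/R) φ` is a test function, `φ_R → φ` and `∂_j φ_R → ∂_j φ` in `L²`
(dominated convergence). -/
theorem schwartz_of_test (h : Fin d → L2E d) (w : L2E d)
    (H : ∀ φ : E d → ℂ, IsTest φ → ∑ j, ∫ x, h j x * pd j φ x = ∫ x, w x * φ x)
    (ψ : 𝓢(E d, ℂ)) :
    ∑ j, ∫ x, h j x * pd j ψ x = ∫ x, w x * ψ x := by
  obtain ⟨φ, K, hK0, hT, hb, hl, hpb, hpl⟩ := Schw_cut ψ
  have hψ2 : MemLp (fun x => ‖ψ x‖) 2 (volume : Measure (E d)) := (ψ.memLp 2 volume).norm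
  have hψ' : MemLp (fun x => ‖fderiv ℝ ψ x‖) 2 (volume : Measure (E d)) :=
    ((SchwartzMap.fderivCLM ℂ (E d) ℂ ψ).memLp 2 volume).norm
  have hK2 : MemLp (fun x => ‖fderiv ℝ ψ x‖ + K * ‖ψ x‖) 2 (volume : Measure (E d)) :=
    hψ'.add (hψ2.const_mul K)
  have hcφ : ∀ n, Continuous (φ n) := fun n => (hT n).1.continuous
  have hcp : ∀ n j, Continuous (pd j (φ n)) := fun n j =>
    ((hT n).1.continuous_fderiv (by simp)).clm_apply continuous_const
  have h1 : Tendsto (fun n => ∫ x, w x * φ n x) atTop (𝓝 (∫ x, w x * ψ x)) := by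
    refine tendsto_integral_of_dominated_convergence (fun x => ‖w x‖ * ‖ψ x‖) ?_ ?_ ?_ ?_
    · exact fun n => (Lp.aestronglyMeasurable w).mul (hcφ n).aestronglyMeasurable
    · exact Schw_int (Lp.memLp w).norm hψ2
    · intro n
      refine Eventually.of_forall fun x => ?_
      rw [norm_mul]
      exact mul_le_mul_of_nonneg_left (hb n x) (norm_nonneg _)
    · exact Eventually.of_forall fun x => (hl x).const_mul (w x)
  have h2 : Tendsto (fun n => ∑ j, ∫ x, h j x * pd j (φ n) x) atTop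
      (𝓝 (∑ j, ∫ x, h j x * pd j ψ x)) := by
    refine tendsto_finsetSum _ fun j _ => ?_
    refine tendsto_integral_of_dominated_convergence
      (fun x => ‖h j x‖ * (‖fderiv ℝ ψ x‖ + K * ‖ψ x‖)) ?_ ?_ ?_ ?_
    · exact fun n => (Lp.aestronglyMeasurable (h j)).mul (hcp n j).aestronglyMeasurable
    · exact Schw_int (Lp.memLp (h j)).norm hK2
    · intro n
      refine Eventually.of_forall fun x => ?_
      rw [norm_mul]
      exact mul_le_mul_of_nonneg_left (hpb n j x) (norm_nonneg _)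
    · exact Eventually.of_forall fun x => (hpl j x).const_mul (h j x)
  have h3 : (fun n => ∑ j, ∫ x, h j x * pd j (φ n) x) = fun n => ∫ x, w x * φ n x :=
    funext fun n => H (φ n) (hT n)
  rw [h3] at h2
  exact tendsto_nhds_unique h2 h1

end Pool.Agent.Lib.MP_c8757e_mp
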