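import Pool.Agent.Lib.MP_c8757e_mp.Fred

/-! FLAT, module Theta: the splitting `H = K ⊕ C`, `K = ker S`, `C = (N K)^⊥`, and the isomorphism
`K × C → H, (k, w) ↦ N k + S w`. -/

open Filter Topology Set
open scoped ComplexInnerProductSpace

noncomputable section

namespace Pool.Agent.Lib.MP_c8757e_mp

variable {H : Type*} [NormedAddCommGroup H] [InnerProductSpace ℂ H] [CompleteSpace H]
  {N S : H →L[ℂ] H}

/-- The kernel of `S`. -/
abbrev kerS (S : H →L[ℂ] H) : Submodule ℂ H := LinearMap.ker (S : H →ₗ[ℂ] H)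

/-- The orthogonal complement of `N (ker S)`. -/
abbrev compS (N S : H →L[ℂ] H) : Submodule ℂ H := ((kerS S).map (N : H →ₗ[ℂ] H))ᗮ

theorem mem_compS {w : H} : w ∈ compS N S ↔ ∀ k ∈ kerS S, inner ℂ (N k) w = 0 := by
  rw [Submodule.mem_orthogonal]
  constructor
  · intro h k hk
    exact h (N k) ⟨k, hk, rfl⟩
  · rintro h u ⟨k, hk, rfl⟩
    exact h k hk

private theorem Theta_symm {T : H →L[ℂ] H} (hT : IsSelfAdjoint T) (x y : H) :
    (inner ℂ (T x) y : ℂ) = inner ℂ x (T y) :=
  (ContinuousLinearMap.isSelfAdjoint_iff_isSymmetric.1 hT) x y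

private theorem Theta_zero (hN : Weight N) {u : H} (h : (inner ℂ (N u) u : ℂ) = 0) : u = 0 := by
  by_contra hu
  have h1 := hN.pos u hu
  rw [h] at h1
  simp at h1

private theorem Theta_mem {k : H} : k ∈ kerS S ↔ S k = 0 := LinearMap.mem_ker

private theorem Theta_complete (S : H →L[ℂ] H) : CompleteSpace (kerS S) := by
  have hclosed : IsClosed ((kerS S : Submodule ℂ H) : Set H) := S.isClosed_ker
  exact hclosed.completeSpace_coe

/-- `x` is orthogonal to the kernel iff its projection vanishes -/
private theorem Theta_proj [CompleteSpace (kerS S)] (x : H) :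
    (kerS S).starProjection x = 0 ↔ ∀ k ∈ kerS S, (inner ℂ k x : ℂ) = 0 := by
  rw [Submodule.starProjection_apply_eq_zero_iff, Submodule.mem_orthogonal]

/-- the compression of `N` to the kernel is onto -/
private theorem Theta_surj (hN : Weight N) (hS : Elliptic N S) (y : H) :
    ∃ k ∈ kerS S, ∀ k' ∈ kerS S, (inner ℂ k' (y - N k) : ℂ) = 0 := by
  have := Theta_complete S
  have : FiniteDimensional ℂ (kerS S) := ker_finiteDimensional hN hS
  let φ : kerS S →ₗ[ℂ] kerS S :=
    (((kerS S).orthogonalProjectionOnto ∘L N ∘L (kerS S).subtypeL : kerS S →L[ℂ] kerS S) :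
      kerS S →ₗ[ℂ] kerS S)
  have hφ : ∀ k : kerS S, (φ k : H) = (kerS S).starProjection (N k) := fun k => rfl
  have hinj : Function.Injective φ := by
    rw [injective_iff_map_eq_zero]
    intro k hk
    have h1 : (kerS S).starProjection (N k) = 0 := by
      rw [← hφ k, hk]
      rfl
    rw [Theta_proj] at h1
    have h2 := h1 k k.2
    rw [← Theta_symm hN.sa] at h2
    exact Subtype.ext (Theta_zero hN h2)
  have hsurj : Function.Surjective φ := LinearMap.surjective_of_injective hinj
  obtain ⟨k, hk⟩ := hsurj ((kerS S).orthogonalProjectionOnto y)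
  refine ⟨k, k.2, ?_⟩
  have h1 : (kerS S).starProjection (N k) = (kerS S).starProjection y := by
    rw [← hφ k, hk]
    rfl
  rw [← Theta_proj, map_sub, h1, sub_self]

private theorem Theta_split (hN : Weight N) (hS : Elliptic N S) (y : H) :
    ∃ k ∈ kerS S, y - k ∈ compS N S := by
  obtain ⟨k, hk, h⟩ := Theta_surj hN hS (N y)
  refine ⟨k, hk, ?_⟩
  rw [mem_compS]
  intro k' hk'
  have h1 := h k' hk'
  rw [← map_sub, ← Theta_symm hN.sa] at h1
  exact h1

/-- the range of `S` is the orthogonal complement of the kernel -/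
private theorem Theta_range (hN : Weight N) (hS : Elliptic N S) (z : H)
    (hz : ∀ k ∈ kerS S, (inner ℂ k z : ℂ) = 0) : ∃ v, S v = z := by
  have := Theta_complete S
  have hPsa : IsSelfAdjoint ((kerS S).starProjection) := by
    exact isSelfAdjoint_starProjection (kerS S)
  have hPS : ∀ v, (kerS S).starProjection (S v) = 0 := by
    intro v
    rw [Theta_proj]
    intro k hk
    rw [← Theta_symm hS.sa, Theta_mem.1 hk, inner_zero_left]
  have hPP : ∀ v, (kerS S).starProjection ((kerS S).starProjection v) =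
      (kerS S).starProjection v := by
    intro v
    exact (Submodule.starProjection_eq_self_iff).2 (Submodule.starProjection_apply_mem _ v)
  have hR : Elliptic N (S + (kerS S).starProjection) := by
    refine ⟨hS.sa.add hPsa, ?_⟩
    obtain ⟨c, δ, hδ, h⟩ := hS.coer
    refine ⟨c, δ, hδ, fun u => ?_⟩
    have h1 : (inner ℂ ((S + (kerS S).starProjection) u) u : ℂ) =
        inner ℂ (S u) u + inner ℂ ((kerS S).starProjection u) ((kerS S).starProjection u) := by
      have h2 : (S + (kerS S).starProjection) u = S u + (kerS S).starProjection u := rfl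
      rw [h2, inner_add_left]
      congr 1
      have h7 := Theta_symm hPsa ((kerS S).starProjection u) u
      rw [hPP] at h7
      exact h7
    rw [h1, Complex.add_re]
    have h3 := h u
    have h4 : 0 ≤ (inner ℂ ((kerS S).starProjection u) ((kerS S).starProjection u) : ℂ).re :=
      inner_self_nonneg (𝕜 := ℂ)
    linarith
  have hne : ¬ IsEig N (S + (kerS S).starProjection) 0 := by
    rintro ⟨u, hu, h⟩
    rw [zero_smul] at h
    have h2 : S u + (kerS S).starProjection u = 0 := h
    have h3 : (kerS S).starProjection u = 0 := by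
      have h4 := congrArg ((kerS S).starProjection) h2
      rw [map_add, hPS, hPP, zero_add, map_zero] at h4
      exact h4
    rw [h3, add_zero] at h2
    have h5 : (kerS S).starProjection u = u :=
      (Submodule.starProjection_eq_self_iff).2 (Theta_mem.2 h2)
    exact hu (h5.symm.trans h3)
  have hunit := isUnit_of_not_isEig hN hR hne
  obtain ⟨v, hv⟩ := (ContinuousLinearMap.isUnit_iff_bijective.1 hunit).2 z
  have hv' : S v + (kerS S).starProjection v = z := hv
  have h6 : (kerS S).starProjection v = 0 := by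
    have h4 := congrArg ((kerS S).starProjection) hv'
    rw [map_add, hPS, hPP, zero_add, (Theta_proj z).2 hz] at h4
    exact h4
  rw [h6, add_zero] at hv'
  exact ⟨v, hv'⟩

/-- `(k, w) ↦ k + w`. Uses that `(k, k') ↦ ⟪N k, k'⟫` is nondegenerate on the finite dimensional
space `K`. -/
theorem exists_split (hN : Weight N) (hS : Elliptic N S) :
    ∃ T : (kerS S × compS N S) ≃L[ℂ] H, ∀ p, T p = (p.1 : H) + (p.2 : H) := by
  have := Theta_complete S
  let f : (kerS S × compS N S) →L[ℂ] H :=
    (kerS S).subtypeL.coprod (compS N S).subtypeL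
  have hf : ∀ p, f p = (p.1 : H) + (p.2 : H) := fun p => rfl
  have hker : (f : (kerS S × compS N S) →ₗ[ℂ] H).ker = ⊥ := by
    rw [LinearMap.ker_eq_bot']
    rintro ⟨k, w⟩ h
    have h1 : (k : H) + (w : H) = 0 := h
    have h2 : (w : H) = -(k : H) := by
      rw [eq_neg_iff_add_eq_zero, add_comm]
      exact h1
    have h3 := mem_compS.1 w.2 k k.2
    rw [h2, inner_neg_right, neg_eq_zero] at h3
    have h4 : (k : H) = 0 := Theta_zero hN h3
    rw [h4, neg_zero] at h2
    exact Prod.ext (Subtype.ext h4) (Subtype.ext h2)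
  have hran : (f : (kerS S × compS N S) →ₗ[ℂ] H).range = ⊤ := by
    rw [LinearMap.range_eq_top]
    intro y
    obtain ⟨k, hk, h⟩ := Theta_split hN hS y
    exact ⟨(⟨k, hk⟩, ⟨y - k, h⟩), add_sub_cancel k y⟩
  exact ⟨ContinuousLinearEquiv.ofBijective f hker hran, fun p => rfl⟩

/-- `(k, w) ↦ N k + S w`. Injective: pair with `K`. Surjective: with `P` the orthogonal projection
to `K`, `R = S + P` is elliptic and injective, so invertible; hence the range of `S` is `K^⊥`; for
`y` choose `k ∈ K` with `y - N k ⟂ K`. -/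
theorem exists_theta (hN : Weight N) (hS : Elliptic N S) :
    ∃ T : (kerS S × compS N S) ≃L[ℂ] H, ∀ p, T p = N (p.1 : H) + S (p.2 : H) := by
  have := Theta_complete S
  let f : (kerS S × compS N S) →L[ℂ] H :=
    (N ∘L (kerS S).subtypeL).coprod (S ∘L (compS N S).subtypeL)
  have hker : (f : (kerS S × compS N S) →ₗ[ℂ] H).ker = ⊥ := by
    rw [LinearMap.ker_eq_bot']
    rintro ⟨k, w⟩ h
    have h1 : N (k : H) + S (w : H) = 0 := h
    have h2 : (inner ℂ (k : H) (N (k : H) + S (w : H)) : ℂ) = 0 := by rw [h1, inner_zero_right]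
    rw [inner_add_right, ← Theta_symm hS.sa, Theta_mem.1 k.2, inner_zero_left, add_zero,
      ← Theta_symm hN.sa] at h2
    have h4 : (k : H) = 0 := Theta_zero hN h2
    rw [h4, map_zero, zero_add] at h1
    have h5 : (w : H) = 0 := Theta_zero hN (mem_compS.1 w.2 w (Theta_mem.2 h1))
    exact Prod.ext (Subtype.ext h4) (Subtype.ext h5)
  have hran : (f : (kerS S × compS N S) →ₗ[ℂ] H).range = ⊤ := by
    rw [LinearMap.range_eq_top]
    intro y
    obtain ⟨k, hk, h⟩ := Theta_surj hN hS y
    obtain ⟨v, hv⟩ := Theta_range hN hS (y - N k) h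
    obtain ⟨k', hk', h'⟩ := Theta_split hN hS v
    refine ⟨(⟨k, hk⟩, ⟨v - k', h'⟩), ?_⟩
    change N k + S (v - k') = y
    rw [map_sub, Theta_mem.1 hk', sub_zero, hv, add_sub_cancel]
  exact ⟨ContinuousLinearEquiv.ofBijective f hker hran, fun p => rfl⟩

end Pool.Agent.Lib.MP_c8757e_mp
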